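import Mathlib

set_option autoImplicit false
set_option linter.unusedSectionVars false

namespace Pool.Agent.Lib.MP_41a716_co

variable {A : Type}

def W (u : ℕ → A) (n i : ℕ) : Fin n → A := fun k => u (i + k)

def Eqv (u : ℕ → A) (n i j : ℕ) : Prop := ∀ k, k < n → u (i + k) = u (j + k)

noncomputable def cnt (u : ℕ → A) (n : ℕ) (S : Set ℕ) : ℕ := (W u n '' S).ncard

variable {u : ℕ → A}

theorem W_eq_iff {n i j : ℕ} : W u n i = W u n j ↔ Eqv u n i j := by
  constructor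
  · intro h k hk
    exact congrFun h ⟨k, hk⟩
  · intro h
    funext k
    exact h k k.2

theorem Eqv.refl (n i : ℕ) : Eqv u n i i := fun _ _ => rfl
theorem Eqv.symm {n i j : ℕ} (h : Eqv u n i j) : Eqv u n j i := fun k hk => (h k hk).symm
theorem Eqv.trans {n i j l : ℕ} (h : Eqv u n i j) (h' : Eqv u n j l) : Eqv u n i l :=
  fun k hk => (h k hk).trans (h' k hk)
theorem Eqv.mono {n m i j : ℕ} (h : Eqv u n i j) (hm : m ≤ n) : Eqv u m i j :=
  fun k hk => h k (by omega)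
theorem Eqv.shift {n i j : ℕ} (h : Eqv u n i j) (d m : ℕ) (hm : d + m ≤ n) :
    Eqv u m (i + d) (j + d) := by
  intro k hk
  have := h (d + k) (by omega)
  simpa [add_assoc] using this
theorem Eqv.succ {n i j : ℕ} (h : Eqv u n i j) (h' : u (i + n) = u (j + n)) :
    Eqv u (n + 1) i j := by
  intro k hk
  rcases Nat.lt_succ_iff_lt_or_eq.1 hk with h1 | h1
  · exact h k h1
  · rw [h1]; exact h'
theorem Eqv.cons {n i j : ℕ} (h : Eqv u n (i + 1) (j + 1)) (h' : u i = u j) :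
    Eqv u (n + 1) i j := by
  intro k hk
  rcases k with _ | k
  · simpa using h'
  · have := h k (by omega)
    simpa [add_assoc, add_comm 1 k] using this

def res (n : ℕ) (f : Fin (n + 1) → A) : Fin n → A := fun k => f k.castSucc

theorem res_W (n i : ℕ) : res n (W u (n + 1) i) = W u n i := rfl

theorem image_res (n : ℕ) (S : Set ℕ) : res n '' (W u (n + 1) '' S) = W u n '' S := by
  rw [Set.image_image]; rfl

variable [Finite A]

theorem fin_img (n : ℕ) (S : Set ℕ) : (W u n '' S).Finite := Set.toFinite _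

theorem cnt_mono_set (n : ℕ) {S T : Set ℕ} (h : S ⊆ T) : cnt u n S ≤ cnt u n T :=
  Set.ncard_le_ncard (Set.image_mono h) (fin_img n T)

theorem cnt_le_succ (n : ℕ) (S : Set ℕ) : cnt u n S ≤ cnt u (n + 1) S := by
  unfold cnt
  rw [← image_res n S]
  exact Set.ncard_image_le (fin_img _ _)

/-- removing a set `T` of windows keeping the restriction onto. -/
theorem cnt_add_le (n : ℕ) (S : Set ℕ) (T : Set (Fin (n + 1) → A)) (hT : T ⊆ W u (n + 1) '' S)
    (hs : ∀ x ∈ T, ∃ j ∈ S, W u (n + 1) j ∉ T ∧ res n x = W u n j) :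
    cnt u n S + T.ncard ≤ cnt u (n + 1) S := by
  unfold cnt
  have h1 : W u n '' S ⊆ res n '' (W u (n + 1) '' S \ T) := by
    rintro _ ⟨i, hi, rfl⟩
    by_cases h : W u (n + 1) i ∈ T
    · obtain ⟨j, hj, hjT, hx⟩ := hs _ h
      exact ⟨W u (n + 1) j, ⟨⟨j, hj, rfl⟩, hjT⟩, by rw [res_W, ← hx, res_W]⟩
    · exact ⟨W u (n + 1) i, ⟨⟨i, hi, rfl⟩, h⟩, rfl⟩
  have h2 : (W u n '' S).ncard ≤ (W u (n + 1) '' S \ T).ncard :=
    (Set.ncard_le_ncard h1 (Set.toFinite _)).trans (Set.ncard_image_le (Set.toFinite _))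
  have h3 := Set.ncard_sdiff_add_ncard_of_subset hT (fin_img (u := u) (n + 1) S)
  omega

theorem cnt_succ_one (n : ℕ) (S : Set ℕ) {i j : ℕ} (hi : i ∈ S) (hj : j ∈ S) (h : Eqv u n i j)
    (hne : u (i + n) ≠ u (j + n)) : cnt u n S + 1 ≤ cnt u (n + 1) S := by
  have := cnt_add_le (u := u) n S {W u (n + 1) i} (by rintro _ rfl; exact ⟨i, hi, rfl⟩) (by
    rintro _ rfl
    refine ⟨j, hj, ?_, by rw [res_W]; exact W_eq_iff.2 h⟩
    intro h'
    exact hne ((W_eq_iff.1 h') n (by omega)).symm)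
  simpa using this

theorem cnt_succ_two (n : ℕ) (S : Set ℕ) {i j i' j' : ℕ} (hi : i ∈ S) (hj : j ∈ S)
    (hi' : i' ∈ S) (hj' : j' ∈ S) (h : Eqv u n i j) (hne : u (i + n) ≠ u (j + n))
    (h' : Eqv u n i' j') (hne' : u (i' + n) ≠ u (j' + n))
    (h1 : ¬ Eqv u (n + 1) i' i) (h2 : ¬ Eqv u (n + 1) i' j) :
    cnt u n S + 2 ≤ cnt u (n + 1) S := by
  have key : ∀ {i j : ℕ}, i ∈ S → j ∈ S → Eqv u n i j → u (i + n) ≠ u (j + n) →
      ¬ Eqv u (n + 1) i' i → ¬ Eqv u (n + 1) i' j → ¬ Eqv u (n + 1) j' i →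
      cnt u n S + 2 ≤ cnt u (n + 1) S := by
    intro i j hi hj h hne h1 h2 h3
    have := cnt_add_le (u := u) n S {W u (n + 1) i', W u (n + 1) i} (by
      rintro _ (rfl | rfl)
      · exact ⟨i', hi', rfl⟩
      · exact ⟨i, hi, rfl⟩) (by
      rintro _ (rfl | rfl)
      · refine ⟨j', hj', ?_, by rw [res_W]; exact W_eq_iff.2 h'⟩
        rintro (h4 | h4)
        · exact hne' ((W_eq_iff.1 h4) n (by omega)).symm
        · exact h3 (W_eq_iff.1 h4)
      · refine ⟨j, hj, ?_, by rw [res_W]; exact W_eq_iff.2 h⟩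
        rintro (h4 | h4)
        · exact h2 (W_eq_iff.1 h4).symm
        · exact hne ((W_eq_iff.1 h4) n (by omega)).symm)
    rwa [Set.ncard_pair (fun h4 => h1 (W_eq_iff.1 h4))] at this
  by_cases h3 : Eqv u (n + 1) j' i
  · refine key hj hi h.symm hne.symm h2 h1 ?_
    intro h4
    exact hne ((h3.symm.trans h4) n (by omega))
  · exact key hi hj h hne h1 h2 h3

theorem cnt_succ_le (n : ℕ) (S : Set ℕ) (x : ℕ)
    (h : ∀ i ∈ S, ∀ j ∈ S, Eqv u n i j → ¬ Eqv u (n + 1) i x → ¬ Eqv u (n + 1) j x →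
      u (i + n) = u (j + n)) : cnt u (n + 1) S ≤ cnt u n S + 1 := by
  unfold cnt
  have h1 : Set.InjOn (res n) (W u (n + 1) '' S \ {W u (n + 1) x}) := by
    rintro _ ⟨⟨i, hi, rfl⟩, hix⟩ _ ⟨⟨j, hj, rfl⟩, hjx⟩ hij
    rw [res_W, res_W] at hij
    have e := W_eq_iff.1 hij
    exact W_eq_iff.2 (e.succ (h i hi j hj e (fun h' => hix (W_eq_iff.2 h'))
      (fun h' => hjx (W_eq_iff.2 h'))))
  have h2 : (W u (n + 1) '' S \ {W u (n + 1) x}).ncard ≤ (W u n '' S).ncard := by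
    rw [← h1.ncard_image, ← image_res n S]
    exact Set.ncard_le_ncard (Set.image_mono Set.sdiff_subset) (Set.toFinite _)
  have h3 : (W u (n + 1) '' S).ncard ≤ (W u (n + 1) '' S \ {W u (n + 1) x}).ncard + 1 := by
    have : W u (n + 1) '' S ⊆ insert (W u (n + 1) x) (W u (n + 1) '' S \ {W u (n + 1) x}) := by
      intro y hy
      by_cases hyx : y = W u (n + 1) x
      · exact Or.inl hyx
      · exact Or.inr ⟨hy, hyx⟩
    exact (Set.ncard_le_ncard this (Set.toFinite _)).trans (Set.ncard_insert_le _ _)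
  omega

def Rec (u : ℕ → A) (n : ℕ) : Set ℕ := {i | ∀ m, ∃ j, m ≤ j ∧ Eqv u n i j}

omit [Finite A] in
theorem Rec.mono {n m i : ℕ} (h : i ∈ Rec u n) (hm : m ≤ n) : i ∈ Rec u m := fun k =>
  let ⟨j, hj, e⟩ := h k
  ⟨j, hj, e.mono hm⟩

omit [Finite A] in
theorem Rec.of_eqv {n i j : ℕ} (h : i ∈ Rec u n) (e : Eqv u n i j) : j ∈ Rec u n := fun k =>
  let ⟨l, hl, e'⟩ := h k
  ⟨l, hl, e.symm.trans e'⟩

omit [Finite A] in
theorem Rec.shift {n i : ℕ} (h : i ∈ Rec u n) (d m : ℕ) (hm : d + m ≤ n) : i + d ∈ Rec u m :=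
  fun k =>
  let ⟨l, hl, e'⟩ := h k
  ⟨l + d, by omega, e'.shift d m hm⟩

theorem evRec (u : ℕ → A) (n : ℕ) : ∃ m, ∀ i, m ≤ i → i ∈ Rec u n := by
  classical
  have h : ∀ w : Fin n → A, ∃ m, ∀ i, m ≤ i → W u n i = w → i ∈ Rec u n := by
    intro w
    by_cases hw : ∀ m, ∃ j, m ≤ j ∧ W u n j = w
    · refine ⟨0, fun i _ hi m => ?_⟩
      obtain ⟨j, hj, e⟩ := hw m
      exact ⟨j, hj, W_eq_iff.1 (hi.trans e.symm)⟩
    · push Not at hw
      obtain ⟨m, hm⟩ := hw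
      exact ⟨m, fun i hi e => absurd e (hm i hi)⟩
  choose f hf using h
  have := Fintype.ofFinite (Fin n → A)
  refine ⟨Finset.univ.sup f, fun i hi => hf _ i ?_ rfl⟩
  exact (Finset.le_sup (f := f) (Finset.mem_univ _)).trans hi

noncomputable def pc (u : ℕ → A) (n : ℕ) : ℕ := cnt u n Set.univ
noncomputable def ic (u : ℕ → A) (n : ℕ) : ℕ := cnt u n (Rec u n)
noncomputable def fc (u : ℕ → A) (n : ℕ) : ℕ := cnt u n (Rec u n)ᶜ

theorem pc_eq (n : ℕ) : pc u n = ic u n + fc u n := by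
  unfold pc ic fc cnt
  rw [← Set.ncard_union_eq ?_ (fin_img _ _) (fin_img _ _), ← Set.image_union,
    Set.union_compl_self]
  rw [Set.disjoint_left]
  rintro _ ⟨i, hi, rfl⟩ ⟨j, hj, e⟩
  exact hj (Rec.of_eqv hi (W_eq_iff.1 e).symm)

theorem fc_succ (n : ℕ) : fc u n ≤ fc u (n + 1) :=
  (cnt_le_succ n _).trans (cnt_mono_set _ fun _ hi h => hi (Rec.mono h (by omega)))

theorem fc_mono {n m : ℕ} (h : n ≤ m) : fc u n ≤ fc u m :=
  monotone_nat_of_le_succ (f := fc u) fc_succ h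

theorem ic_eq (n : ℕ) : ic u n = cnt u n (Rec u (n + 1)) := by
  unfold ic cnt
  congr 1
  apply Set.Subset.antisymm
  · rintro _ ⟨i, hi, rfl⟩
    obtain ⟨m, hm⟩ := evRec u (n + 1)
    obtain ⟨j, hj, e⟩ := hi m
    exact ⟨j, hm j hj, W_eq_iff.2 e.symm⟩
  · exact Set.image_mono fun i hi => Rec.mono hi (by omega)

def Aper (u : ℕ → A) : Prop :=
  ∀ n m, ∃ i j, m ≤ i ∧ m ≤ j ∧ Eqv u n i j ∧ u (i + n) ≠ u (j + n)

theorem ic_succ (ha : Aper u) (n : ℕ) : ic u n + 1 ≤ ic u (n + 1) := by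
  obtain ⟨m, hm⟩ := evRec u (n + 1)
  obtain ⟨i, j, hi, hj, e, hne⟩ := ha n m
  rw [ic_eq]
  exact cnt_succ_one n _ (hm i hi) (hm j hj) e hne

theorem ic_add (ha : Aper u) (n d : ℕ) : ic u n + d ≤ ic u (n + d) := by
  induction d with
  | zero => simp
  | succ d ih => have := ic_succ ha (n + d); rw [← add_assoc n d 1]; omega

theorem pc_succ (ha : Aper u) (n : ℕ) : pc u n + 1 ≤ pc u (n + 1) := by
  have := ic_succ ha n
  have := fc_succ (u := u) n
  rw [pc_eq, pc_eq]; omega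

theorem pc_add (ha : Aper u) (n d : ℕ) : pc u n + d ≤ pc u (n + d) := by
  induction d with
  | zero => simp
  | succ d ih => have := pc_succ ha (n + d); rw [← add_assoc n d 1]; omega

theorem cnt_le_card (n : ℕ) (S : Set ℕ) (hS : S.Finite) : cnt u n S ≤ S.ncard :=
  Set.ncard_image_le hS

theorem cnt_union_le (n : ℕ) (S T : Set ℕ) : cnt u n (S ∪ T) ≤ cnt u n S + cnt u n T := by
  unfold cnt
  rw [Set.image_union]
  exact Set.ncard_union_le _ _

theorem aper_of_unbdd (h : ∀ C, ∃ n, C < pc u n) : Aper u := by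
  intro n m
  by_contra hc
  push Not at hc
  have key : ∀ d i j, m ≤ i → m ≤ j → Eqv u n i j → Eqv u (n + d) i j := by
    intro d
    induction d with
    | zero => intro i j _ _ e; exact e
    | succ d ih =>
      intro i j hi hj e
      have e1 := ih i j hi hj e
      have e2 := hc (i + d) (j + d) (by omega) (by omega) (e1.shift d n (by omega))
      rw [← add_assoc]
      apply e1.succ
      simpa [add_assoc, add_comm d n] using e2
  have hb : ∀ d, cnt u (n + d) (Set.Ici m) ≤ cnt u n (Set.Ici m) := by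
    intro d
    unfold cnt
    apply Set.ncard_le_ncard_of_injOn (fun f k => f (Fin.castAdd d k)) ?_ ?_ (fin_img _ _)
    · rintro _ ⟨i, hi, rfl⟩
      exact ⟨i, hi, rfl⟩
    · rintro _ ⟨i, hi, rfl⟩ _ ⟨j, hj, rfl⟩ e
      exact W_eq_iff.2 (key d i j hi hj (W_eq_iff.1 e))
  obtain ⟨k, hk⟩ := h (m + cnt u n (Set.Ici m))
  have h1 : pc u k ≤ pc u (n + k) :=
    monotone_nat_of_le_succ (f := pc u) (fun l => cnt_le_succ l _) (by omega)
  have h2 : pc u (n + k) ≤ cnt u (n + k) (Set.Iio m) + cnt u (n + k) (Set.Ici m) := by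
    unfold pc
    rw [← Set.Iio_union_Ici (a := m)]
    exact cnt_union_le _ _ _
  have h3 : cnt u (n + k) (Set.Iio m) ≤ m := by
    have := cnt_le_card (u := u) (n + k) (Set.Iio m) (Set.finite_Iio m)
    simpa using this
  have := hb k
  omega

end Pool.Agent.Lib.MP_41a716_co
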