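import Pool.Agent.Lib.MP_41a716_co.Loops

set_option autoImplicit false
set_option linter.unusedSectionVars false

namespace Pool.Agent.Lib.MP_41a716_co

variable {A : Type} [Finite A] {u : ℕ → A}

structure Base (u : ℕ → A) (N M r : ℕ) (a : A) : Prop where
  nt : ¬ Two u N
  rs : ∃ r', RS u N r r'
  le : N + 2 ≤ M
  pre : ∀ m, ∃ i j, m ≤ i ∧ m ≤ j ∧ Eqv u N i r ∧ Eqv u N j r ∧ u (i - 1) ≠ u (j - 1)
  lu : ∃ m, ∀ i j, m ≤ i → m ≤ j → Eqv u N i j → u (i - 1) ≠ u (j - 1) → Eqv u N i r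
  suf : ∀ n i j, M ≤ n → RS u n i j → Eqv u N (i + (n - N)) r ∧ u (i + (n - N) - 1) = a

structure XE (u : ℕ → A) (N M r : ℕ) (a : A) (v : ℕ) : Prop where
  pos : 1 ≤ v
  lt : N + v < M
  per : ∃ o, Eqv u N o r ∧ Eqv u N (o + v) r ∧ u (o + v - 1) ≠ a
  ic : ic u (N + 1) + 2 * v ≤ ic u (N + 1 + v)

structure TE (u : ℕ → A) (N M r : ℕ) (t : ℕ) : Prop where
  pos : 1 ≤ t
  occ : Eqv u N t r
  fc : t ≤ fc u M
  last : ∀ j, t - 1 < j → ¬ Eqv u (N + 2) (t - 1) j
  tb : ∃ m, ∀ i j, m ≤ i → m ≤ j → Eqv u N i r → Eqv u (N + 1) i j → u (i - 1) ≠ u (j - 1) →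
    u (i + N) ≠ u (t + N)

theorem two_pairs {N r r' : ℕ} (ha : Aper u) (hN : ¬ Two u N) (hr : RS u N r r')
    (h2 : Two u (N + 1)) :
    ∃ x x' z z', RS u (N + 1) x x' ∧ RS u (N + 1) z z' ∧ u x ≠ u z := by
  by_contra hc
  push Not at hc
  obtain ⟨x, x', _, _, hx⟩ := ha (N + 1) 0
  have hx : RS u (N + 1) x x' := hx
  have := cnt_succ_le (u := u) (N + 1) Set.univ x (by
    intro i _ j _ e hi hj
    by_contra hne
    have hij : RS u (N + 1) i j := ⟨e, hne⟩
    have oi := occ_of_RS hN hr (hij.shift 1 N (by omega))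
    have oj := occ_of_RS hN hr (hij.symm.shift 1 N (by omega))
    have ox := occ_of_RS hN hr (hx.shift 1 N (by omega))
    have e1 : Eqv u (N + 1) i x := (oi.trans ox.symm).cons (hc i j x x' hij hx)
    have e2 : Eqv u (N + 1) j x := e.symm.trans e1
    have n1 : u (i + 1 + N) ≠ u (x + 1 + N) := fun h =>
      hi (e1.succ (by simpa [add_assoc, add_comm 1 N] using h))
    have n2 : u (j + 1 + N) ≠ u (x + 1 + N) := fun h =>
      hj (e2.succ (by simpa [add_assoc, add_comm 1 N] using h))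
    have n3 : u (i + 1 + N) ≠ u (j + 1 + N) := by simpa [add_assoc, add_comm 1 N] using hne
    rcases occ_type hN hr oi with a | a <;> rcases occ_type hN hr oj with b | b <;>
      rcases occ_type hN hr ox with c | c <;>
      have a := a N (by omega) <;> have b := b N (by omega) <;> have c := c N (by omega) <;>
      simp_all)
  unfold Two pc at h2
  omega

theorem arr_eq {N r r' o o' d d' : ℕ} (hN : ¬ Two u N) (hr : RS u N r r')
    (e : Eqv u (N + 1) o o') (h : Nx u N r o d) (h' : Nx u N r o' d') :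
    d = d' ∧ u (o + d - 1) = u (o' + d' - 1) := by
  obtain ⟨e1, h1⟩ := ret hN hr e h
  have hd := h1.uniq h'
  subst hd
  have h0 := h.1
  have := e1 (d - 1) (by omega)
  rw [show o + (d - 1) = o + d - 1 by omega, show o' + (d - 1) = o' + d - 1 by omega] at this
  exact ⟨rfl, this⟩

theorem prev_occ {N r r' o i : ℕ} (ha : Aper u) (hN : ¬ Two u N) (hr : RS u N r r')
    (ho : Eqv u N o r) (hi : o < i) (hi' : Eqv u N i r) :
    ∃ o1 d, o ≤ o1 ∧ Eqv u N o1 r ∧ Nx u N r o1 d ∧ i = o1 + d := by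
  obtain ⟨o1, d, h1, h2, h3, h4, h5⟩ := prev ha hN hr ho hi
  refine ⟨o1, d, h1, h3, h4, ?_⟩
  by_contra hc
  apply h4.2.2 (i - o1) (by omega) (by omega)
  rwa [show o1 + (i - o1) = i by omega]

theorem Nx.congr {N r r' i d : ℕ} (h : Nx u N r i d) (e : Eqv u N r r') : Nx u N r' i d :=
  ⟨h.1, h.2.1.trans e, fun d' h1 h2 h3 => h.2.2 d' h1 h2 (h3.trans e.symm)⟩

theorem arr_mem {N r r' d d' o i : ℕ} (ha : Aper u) (hN : ¬ Two u N) (hr : RS u N r r')
    (hd : Nx u N r r d) (hd' : Nx u N r r' d') (ho : Eqv u N o r) (hi : o < i)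
    (hi' : Eqv u N i r) :
    (u (i - 1) = u (r + d - 1) ∧ o + d ≤ i ∧ Eqv u (N + 1) (i - d) r) ∨
    (u (i - 1) = u (r' + d' - 1) ∧ o + d' ≤ i ∧ Eqv u (N + 1) (i - d') r') := by
  obtain ⟨o1, d1, h1, h2, h3, rfl⟩ := prev_occ ha hN hr ho hi hi'
  rcases occ_type hN hr h2 with e | e
  · obtain ⟨rfl, h4⟩ := arr_eq hN hr e h3 hd
    exact Or.inl ⟨h4, by omega, by simpa using e⟩
  · obtain ⟨rfl, h4⟩ := arr_eq hN hr e h3 hd'
    exact Or.inr ⟨h4, by omega, by simpa using e⟩

theorem first_mem {N r r' d d' x x' : ℕ} (ha : Aper u) (hN : ¬ Two u N) (hr : RS u N r r')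
    (hd : Nx u N r r d) (hd' : Nx u N r r' d') (hx : RS u (N + 1) x x') :
    u x = u (r + d - 1) ∨ u x = u (r' + d' - 1) := by
  have o1 := occ_of_RS hN hr (hx.shift 1 N (by omega))
  have o2 := occ_of_RS hN hr (hx.symm.shift 1 N (by omega))
  have e0 : u x = u x' := by simpa using hx.1 0 (by omega)
  rcases lt_trichotomy x x' with h | h | h
  · rcases arr_mem ha hN hr hd hd' o1 (by omega) o2 with h1 | h1
    · exact Or.inl (e0.trans (by simpa using h1.1))
    · exact Or.inr (e0.trans (by simpa using h1.1))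
  · exact absurd (by rw [h]) hx.2
  · rcases arr_mem ha hN hr hd hd' o2 (by omega) o1 with h1 | h1
    · exact Or.inl (by simpa using h1.1)
    · exact Or.inr (by simpa using h1.1)

theorem event_aux {N M r r' d v iM jM : ℕ} (ha : Aper u) (hN : ¬ Two u N) (hr : RS u N r r')
    (hM : ¬ Two u M) (hNM : N + 2 ≤ M) (hd : Nx u N r r d) (hv : Nx u N r r' v)
    (hne : u (r + d - 1) ≠ u (r' + v - 1)) (hx : ∃ x x', RS u (N + 1) x x' ∧ u x = u (r' + v - 1))
    (hiM : RS u M iM jM) (haU : u (iM + (M - N) - 1) = u (r + d - 1)) :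
    Base u N M r (u (r + d - 1)) ∧ (XE u N M r (u (r + d - 1)) v ∨ ∃ t, TE u N M r t) := by
  classical
  have hr' : Eqv u N r' r := hr.1.symm
  have hA : Arr u N r := by
    intro o o' d1 d2 ho ho' h1 h2 he
    rcases occ_type hN hr ho with e | e <;> rcases occ_type hN hr ho' with e' | e'
    · exact e.trans e'.symm
    · exact absurd (((arr_eq hN hr e h1 hd).2.symm.trans he).trans (arr_eq hN hr e' h2 hv).2) hne
    · exact absurd (((arr_eq hN hr e' h2 hd).2.symm.trans he.symm).trans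
        (arr_eq hN hr e h1 hv).2) hne
    · exact e.trans e'.symm
  have hsuf : ∀ n i j, M ≤ n → RS u n i j →
      Eqv u N (i + (n - N)) r ∧ u (i + (n - N) - 1) = u (r + d - 1) := by
    intro n i j hn h
    refine ⟨occ_of_RS hN hr (h.shift (n - N) N (by omega)), ?_⟩
    have e := occ_of_RS hM hiM (h.shift (n - M) M (by omega))
    have := e (M - N - 1) (by omega)
    rw [← haU, show i + (n - N) - 1 = i + (n - M) + (M - N - 1) by omega,
      show iM + (M - N) - 1 = iM + (M - N - 1) by omega]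
    exact this
  have farU : ∀ m, ∃ o, m ≤ o ∧ Eqv u (N + 1) o r := far_type ha hN hr
  have farV : ∀ m, ∃ o, m ≤ o ∧ Eqv u (N + 1) o r' := far_type ha hN hr.symm
  refine ⟨⟨hN, ⟨r', hr⟩, hNM, ?_, ?_, hsuf⟩, ?_⟩
  · intro m
    obtain ⟨o, h1, h2⟩ := farU m
    obtain ⟨o', h1', h2'⟩ := farV m
    obtain ⟨e1, n1⟩ := ret hN hr h2.symm hd
    obtain ⟨e2, n2⟩ := ret hN hr h2'.symm hv
    refine ⟨o + d, o' + v, by omega, by omega, n1.2.1, n2.2.1, ?_⟩
    rw [(arr_eq hN hr h2 n1 hd).2, (arr_eq hN hr h2' n2 hv).2]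
    exact hne
  · exact ⟨r + 1, fun i j hi hj e h =>
      left_uniq ha hN hr hA (Eqv.refl N r) (by omega) (by omega) e h⟩
  have hv1 := hv.1
  have VU : ∀ m, ∃ o, m ≤ o ∧ Eqv u (N + 1) o r' ∧ Eqv u (N + 1) (o + v) r := by
    intro m
    obtain ⟨o1, h1, h2⟩ := farV m
    have hex : ∃ o, o1 < o ∧ Eqv u (N + 1) o r := by
      obtain ⟨o, h3, h4⟩ := farU (o1 + 1)
      exact ⟨o, by omega, h4⟩
    obtain ⟨g1, g2⟩ := Nat.find_spec hex
    obtain ⟨o3, d3, k1, k2, k3, k4⟩ := prev_occ ha hN hr ((h2.mono (by omega)).trans hr') g1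
      (g2.mono (by omega))
    have k5 : Eqv u (N + 1) o3 r' := by
      rcases Nat.lt_or_eq_of_le k1 with k | k
      · rcases occ_type hN hr k2 with e | e
        · exact absurd ⟨k, e⟩ (Nat.find_min hex (by have := k3.1; omega))
        · exact e
      · exact k ▸ h2
    obtain ⟨rfl, _⟩ := arr_eq hN hr k5 k3 hv
    exact ⟨o3, by omega, k5, k4 ▸ g2⟩
  by_cases hVV : ∀ m, ∃ o, m ≤ o ∧ 1 ≤ o ∧ u (o - 1) = u (r' + v - 1) ∧ Eqv u (N + 1) o r'
  · left
    have VV : ∀ m, ∃ o o', m ≤ o ∧ m ≤ o' ∧ RS u (N + v) o o' ∧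
        u (o + v - 1) = u (r' + v - 1) := by
      intro m
      obtain ⟨o1, h1, h2, h3⟩ := VU m
      obtain ⟨o0, g0, g0'⟩ := farU m
      obtain ⟨o, g1, g2, g3, g4⟩ := hVV (o0 + 1)
      rcases arr_mem ha hN hr hd hv (g0'.mono (by omega)) (show o0 < o by omega)
        ((g4.mono (by omega)).trans hr') with k | k
      · exact absurd (k.1.symm.trans g3) hne
      · obtain ⟨k1, k2, k3⟩ := k
        obtain ⟨e1, n1⟩ := ret hN hr h2.symm hv
        obtain ⟨e2, n2⟩ := ret hN hr k3.symm hv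
        refine ⟨o1, o - v, h1, by omega, ⟨e1.symm.trans e2, ?_⟩, (arr_eq hN hr h2 n1 hv).2⟩
        have a1 := h3 N (by omega)
        have a2 := g4 N (by omega)
        rw [show o1 + (N + v) = o1 + v + N by omega, show o - v + (N + v) = o + N by omega, a1, a2]
        exact hr.2
    have hlt : N + v < M := by
      by_contra hc
      obtain ⟨o, o', _, _, h1, h2⟩ := VV 0
      have := (hsuf (N + v) o o' (by omega) h1).2
      rw [show N + v - N = v by omega, h2] at this
      exact hne this.symm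
    refine ⟨hv1, hlt, ⟨r', hr', hv.2.1, hne.symm⟩, ?_⟩
    have step : ∀ n, N + 1 ≤ n → n ≤ N + v → ic u n + 2 ≤ ic u (n + 1) := by
      intro n h1 h2
      obtain ⟨m, hm⟩ := evRec u (n + 1)
      obtain ⟨o, o', g1, g2, g3, g4⟩ := VV m
      obtain ⟨i, j, k1, k2, k3⟩ := ha M m
      have k3 : RS u M i j := k3
      have p1 := k3.shift (M - n) n (by omega)
      have p2 := g3.shift (N + v - n) n (by omega)
      have li := (hsuf M i j le_rfl k3).2
      have lj := (hsuf M j i le_rfl k3.symm).2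
      rw [ic_eq]
      refine cnt_succ_two n _ (hm _ (by omega)) (hm _ (by omega)) (hm _ (by omega))
        (hm _ (by omega)) p1.1 p1.2 p2.1 p2.2 ?_ ?_
      · intro e
        have := e (n - N - 1) (by omega)
        rw [show o + (N + v - n) + (n - N - 1) = o + v - 1 by omega,
          show i + (M - n) + (n - N - 1) = i + (M - N) - 1 by omega, g4, li] at this
        exact hne this.symm
      · intro e
        have := e (n - N - 1) (by omega)
        rw [show o + (N + v - n) + (n - N - 1) = o + v - 1 by omega,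
          show j + (M - n) + (n - N - 1) = j + (M - N) - 1 by omega, g4, lj] at this
        exact hne this.symm
    have : ∀ k, k ≤ v → ic u (N + 1) + 2 * k ≤ ic u (N + 1 + k) := by
      intro k hk
      induction k with
      | zero => simp
      | succ k ih =>
        have := ih (by omega)
        have := step (N + 1 + k) (by omega) (by omega)
        rw [← add_assoc (N + 1) k 1]
        omega
    exact this v le_rfl
  · right
    push Not at hVV
    obtain ⟨m, hm⟩ := hVV
    set P : ℕ → Prop := fun o => 1 ≤ o ∧ u (o - 1) = u (r' + v - 1) ∧ Eqv u (N + 1) o r' with hP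
    have hPm : ∀ o, P o → o ≤ m := fun o h => by
      by_contra hc
      exact hm o (by omega) h.1 h.2.1 h.2.2
    have hex : ∃ o, P o := by
      obtain ⟨x, x', h1, h2⟩ := hx
      have s := h1.shift 1 N (by omega)
      have e0 : u x = u x' := by simpa using h1.1 0 (by omega)
      rcases uniq hN hr s with e | e
      · rcases uniq hN hr s.symm with e' | e'
        · exact absurd ((e.trans e'.symm) N (by omega)) s.2
        · exact ⟨x' + 1, by omega, by simpa [← e0] using h2, e'⟩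
      · exact ⟨x + 1, by omega, by simpa using h2, e⟩
    obtain ⟨o0, ho0⟩ := hex
    have hPt : P (Nat.findGreatest P m) := Nat.findGreatest_spec (hPm o0 ho0) ho0
    have hmax : ∀ o, P o → o ≤ Nat.findGreatest P m := fun o h =>
      Nat.le_findGreatest (hPm o h) h
    generalize Nat.findGreatest P m = t at hPt hmax
    obtain ⟨t1, t2, t3⟩ := hPt
    have hlast : ∀ j, t - 1 < j → ¬ Eqv u (N + 2) (t - 1) j := by
      intro j hj e
      have e1 := e.shift 1 (N + 1) (by omega)
      rw [show t - 1 + 1 = t by omega] at e1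
      have e0 : u (t - 1) = u j := by simpa using e 0 (by omega)
      have := hmax (j + 1) ⟨by omega, by simpa [← e0] using t2, e1.symm.trans t3⟩
      omega
    refine ⟨t, t1, (t3.mono (by omega)).trans hr', ?_, hlast, ⟨m + r + 1, ?_⟩⟩
    · have := tail_bound (t := t - 1) ha hM fun j hj e => hlast j hj (e.mono hNM)
      omega
    · intro i j hi hj oi e hij hc
      have oj : Eqv u N j r := (e.mono (by omega)).symm.trans oi
      have ti : Eqv u (N + 1) i r' := (oi.trans hr.1).succ (hc.trans (t3 N (by omega)))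
      have tj : Eqv u (N + 1) j r' := e.symm.trans ti
      rcases arr_mem ha hN hr hd hv (Eqv.refl N r) (show r < i by omega) oi with k | k
      · rcases arr_mem ha hN hr hd hv (Eqv.refl N r) (show r < j by omega) oj with k' | k'
        · exact hij (k.1.trans k'.1.symm)
        · have := hPm j ⟨by omega, k'.1, tj⟩
          omega
      · have := hPm i ⟨by omega, k.1, ti⟩
        omega

theorem event {N M : ℕ} (ha : Aper u) (hN : ¬ Two u N) (h2 : Two u (N + 1))
    (hM : ¬ Two u M) (hNM : N < M) :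
    ∃ r a, Base u N M r a ∧ ((∃ v, XE u N M r a v) ∨ ∃ t, TE u N M r t) := by
  have hNM2 : N + 2 ≤ M := by
    by_contra hc
    exact hM ((show M = N + 1 by omega) ▸ h2)
  obtain ⟨r, r', _, _, hr⟩ := ha N 0
  have hr : RS u N r r' := hr
  obtain ⟨d, hd⟩ := exists_Nx ha hN hr r
  obtain ⟨v, hv⟩ := exists_Nx ha hN hr r'
  obtain ⟨x, x', z, z', hx, hz, hxz⟩ := two_pairs ha hN hr h2
  have mx := first_mem ha hN hr hd hv hx
  have mz := first_mem ha hN hr hd hv hz
  have hne : u (r + d - 1) ≠ u (r' + v - 1) := by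
    intro h
    rw [← h] at mx mz
    simp only [or_self] at mx mz
    exact hxz (mx.trans mz.symm)
  have hU : ∃ x x', RS u (N + 1) x x' ∧ u x = u (r + d - 1) := by
    rcases mx with h | h
    · exact ⟨x, x', hx, h⟩
    · rcases mz with h' | h'
      · exact ⟨z, z', hz, h'⟩
      · exact absurd (h.trans h'.symm) hxz
  have hV : ∃ x x', RS u (N + 1) x x' ∧ u x = u (r' + v - 1) := by
    rcases mx with h | h
    · rcases mz with h' | h'
      · exact absurd (h.trans h'.symm) hxz
      · exact ⟨z, z', hz, h'⟩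
    · exact ⟨x, x', hx, h⟩
  obtain ⟨iM, jM, _, _, hiM⟩ := ha M 0
  have hiM : RS u M iM jM := hiM
  have := first_mem ha hN hr hd hv (hiM.shift (M - N - 1) (N + 1) (by omega))
  rw [show iM + (M - N - 1) = iM + (M - N) - 1 by omega] at this
  rcases this with h | h
  · obtain ⟨h1, h3⟩ := event_aux ha hN hr hM hNM2 hd hv hne hV hiM h
    exact ⟨r, _, h1, h3.imp (fun h => ⟨v, h⟩) id⟩
  · obtain ⟨h1, h3⟩ := event_aux ha hN hr.symm hM hNM2 (hv.congr hr.1) (hd.congr hr.1)
      hne.symm hU hiM h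
    exact ⟨r', _, h1, h3.imp (fun h => ⟨d, h⟩) id⟩

end Pool.Agent.Lib.MP_41a716_co
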