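import Pool.Agent.Lib.MP_41a716_co.Word

set_option autoImplicit false
set_option linter.unusedSectionVars false

namespace Pool.Agent.Lib.MP_41a716_co

def yy (A j n : ℕ) : Bool := if n < hl A j then pw A j n else wd A (tl A j + n - hl A j)

def ss (A j : ℕ) : ℕ → ℕ
  | 0 => 0
  | k + 1 => hl A j + hl A j + pos A (j + 1) k + A * hl A j + ql A j

def ee (A : ℕ) : ℕ → ℕ
  | 0 => A + 2
  | k + 1 => A + (if wd A k then 0 else 1)

theorem agree_yy {A j p : ℕ} {L : List Bool} (h : Agree (wd A) (tl A j + p) L) :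
    Agree (yy A j) (hl A j + p) L := by
  intro r hr
  rw [h r hr, yy, if_neg (by omega)]
  congr 2; omega

theorem ss_succ (A j k : ℕ) : ss A j (k + 1) = ss A j k + ee A k * hl A j + ql A j := by
  cases k with
  | zero => simp [ss, ee, pos_zero]; ring
  | succ k =>
    simp only [ss, ee, pos_succ, phi_succ]
    cases wd A k <;> simp [rp_length, hl, ql] <;> ring

theorem block_yy (A j k : ℕ) : Agree (yy A j) (hl A j + hl A j + pos A (j + 1) k)
    (rp A (phi A j false) ++ phi A j true ++ (if wd A k then [] else phi A j false)) := by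
  have h := agree_block A (j + 1) k
  rw [phi_succ, tl_succ, add_assoc] at h
  have := agree_yy h
  rwa [← add_assoc] at this

theorem after_Q (A j k : ℕ) (hA : 1 ≤ A) : Agree (yy A j) (ss A j (k + 1)) (phi A j false) := by
  have h := block_yy A j k
  cases hw : wd A k
  · rw [hw] at h
    have := (agree_append.1 h).2
    simp only [Bool.false_eq_true, if_false, List.length_append, rp_length] at this
    convert this using 1
    simp [ss, hl, ql]; ring
  · have h' := block_yy A j (k + 1)
    obtain ⟨B, rfl⟩ : ∃ B, A = B + 1 := ⟨A - 1, by omega⟩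
    rw [rp_succ, List.append_assoc, List.append_assoc] at h'
    have := (agree_append.1 h').1
    convert this using 1
    simp [ss, pos_succ, hw, phi_succ, rp_length, hl, ql]; ring

theorem run_yy (A j k : ℕ) (hA : 1 ≤ A) : Agree (yy A j) (ss A j k)
    (rp (ee A k) (phi A j false) ++ phi A j true ++ phi A j false) := by
  rw [agree_append]
  refine ⟨?_, ?_⟩
  · cases k with
    | zero =>
      have h := (agree_append.1 (block_yy A j 0)).1
      rw [pos_zero] at h
      simp only [ee, ss, rp_succ, List.append_assoc]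
      refine agree_append.2 ⟨fun r hr => ?_, agree_append.2 ⟨?_, ?_⟩⟩
      · rw [zero_add, yy, if_pos (show r < hl A j from hr)]; exact pw_lt A j r hr
      · have := agree_yy (p := 0) (agree_P A j)
        simpa [hl] using this
      · simpa [hl] using h
    | succ k =>
      have h := (agree_append.1 (block_yy A j (k + 1))).1
      cases hw : wd A k
      · simp only [ee, hw, Bool.false_eq_true, if_false, rp_succ, List.append_assoc]
        refine agree_append.2 ⟨after_Q A j k hA, ?_⟩
        convert h using 1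
        simp [ss, pos_succ, hw, phi_succ, rp_length, hl, ql]; ring
      · simp only [ee, hw, if_true, add_zero]
        convert h using 1
        simp [ss, pos_succ, hw, phi_succ, rp_length, hl, ql]; ring
  · have := after_Q A j k hA
    rw [ss_succ] at this
    convert this using 1
    simp [rp_length, hl, ql]; ring

theorem yy_run (A i k r : ℕ) (hA : 1 ≤ A)
    (hr : r + 2 < ee A k * hl A (i + 1) + ql A (i + 1) + hl A (i + 1)) :
    yy A (i + 1) (ss A (i + 1) k + r) = pw A (i + 1) r := by
  have h := run_yy A (i + 1) k hA r (by simp [rp_length]; unfold hl ql at hr; omega)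
  rw [run_get A i _ r hr] at h
  exact (Option.some.inj h).symm

theorem yy_break (A j k : ℕ) (hA : 1 ≤ A) : yy A j (ss A j (k + 1) - 1) ≠ pw A j (hl A j - 1) := by
  have h := (agree_append.1 (agree_append.1 (run_yy A j k hA)).1).2
  have hq := ql_pos A j
  have hh := hl_pos A j
  have h1 := h (ql A j - 1) (by unfold ql at *; omega)
  rw [last_Q] at h1
  have h2 := pw_lt A j (hl A j - 1) (by omega)
  rw [last_P] at h2
  rw [← Option.some.inj h2, ss_succ, show ss A j k + ee A k * hl A j + ql A j - 1 =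
    ss A j k + (rp (ee A k) (phi A j false)).length + (ql A j - 1) by
      rw [rp_length]; unfold hl; omega, ← Option.some.inj h1]
  simp

theorem ee_ge (A k : ℕ) : A ≤ ee A k := by cases k <;> simp [ee]
theorem ee_le (A k : ℕ) : ee A (k + 1) ≤ A + 1 := by simp only [ee]; split_ifs <;> omega

theorem wd_eq_yy (A i n : ℕ) :
    wd A (tl A i + n) = yy A (i + 1) (ql A (i + 1) + n) := by
  have e : phi A (i + 1) false = phi A (i + 1) true ++ phi A i false := by simp [phi_succ]
  have e' : hl A (i + 1) = ql A (i + 1) + hl A i := by rw [hl, e]; simp [hl, ql]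
  unfold yy
  split_ifs with h
  · have h1 := agree_P A i n (by unfold hl at *; omega)
    have h2 := pw_lt A (i + 1) _ h
    rw [e, List.getElem?_append_right (by unfold ql; omega),
      show ql A (i + 1) + n - (phi A (i + 1) true).length = n by unfold ql; omega, h1] at h2
    exact Option.some.inj h2
  · congr 1
    rw [tl_succ]; omega

theorem hl_ge (A i : ℕ) (_hA : 1 ≤ A) : 2 ≤ hl A (i + 1) := by
  have := hl_pos A i
  have := ql_pos A i
  rw [hl_succ]
  nlinarith

theorem fam_upper (A i n : ℕ) (hA : 1 ≤ A) (h1 : hl A (i + 1) ≤ n) (h2 : n ≤ A * hl A (i + 1)) :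
    pc (wd A) n ≤ tl A i + n + 1 := by
  have h := runs_upper (yy A (i + 1)) (pw A (i + 1)) _ _ A n (ss A (i + 1)) (ee A) (hl_ge A i hA)
    hA (pw_per A (i + 1)) rfl (ss_succ A (i + 1)) (ee_ge A) (fun k r => yy_run A i k r hA) h1 h2
  have a1 : pc (wd A) n ≤ cnt (wd A) n (Set.Iio (tl A i)) + cnt (wd A) n (Set.Ici (tl A i)) := by
    unfold pc
    rw [← Set.Iio_union_Ici (a := tl A i)]
    exact cnt_union_le _ _ _
  have a2 : cnt (wd A) n (Set.Iio (tl A i)) ≤ tl A i := by
    simpa using cnt_le_card (u := wd A) n (Set.Iio (tl A i)) (Set.finite_Iio _)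
  have a3 : cnt (wd A) n (Set.Ici (tl A i)) ≤ cnt (yy A (i + 1)) n Set.univ := by
    unfold cnt
    apply Set.ncard_le_ncard ?_ (Set.toFinite _)
    rintro _ ⟨p, hp, rfl⟩
    refine ⟨ql A (i + 1) + (p - tl A i), trivial, ?_⟩
    funext x
    have hp : tl A i ≤ p := hp
    show yy A (i + 1) _ = wd A _
    rw [add_assoc, ← wd_eq_yy]
    congr 1; omega
  omega

theorem fam_lower (A i n : ℕ) (hA : 1 ≤ A)
    (h1 : (A + 2) * hl A (i + 2) + ql A (i + 2) + tl A (i + 2) ≤ n) :
    tl A (i + 2) ≤ fc (wd A) n + 1 := by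
  have e' : hl A (i + 2) = ql A (i + 2) + hl A (i + 1) := by
    rw [hl_succ A (i + 1), ql_succ A (i + 1)]; ring
  have h2 := hl_ge A i hA
  have ht : tl A (i + 2) = tl A (i + 1) + hl A (i + 1) := tl_succ A (i + 1)
  have key : ∀ p, tl A (i + 2) ≤ p →
      ¬ Eqv (wd A) ((A + 2) * hl A (i + 2) + ql A (i + 2)) (tl A (i + 2) - 2) p := by
    intro p hp E
    refine runs_lower (yy A (i + 2)) (pw A (i + 2)) _ _ A (ss A (i + 2)) (ee A)
      (hl_ge A (i + 1) hA) hA (pw_per A (i + 2)) rfl (ss_succ A (i + 2)) (ee_ge A) rfl (ee_le A)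
      (fun k r => yy_run A (i + 1) k r hA) (fun k => yy_break A (i + 2) k hA)
      (ql A (i + 2) + (p - tl A (i + 1))) (show hl A (i + 2) ≤ _ by omega) ?_
    intro x hx
    have := E x hx
    rw [show tl A (i + 2) - 2 + x = tl A (i + 1) + (hl A (i + 1) - 2 + x) by omega,
      show p + x = tl A (i + 1) + (p - tl A (i + 1) + x) by omega, wd_eq_yy, wd_eq_yy] at this
    show yy A (i + 2) (hl A (i + 2) - 2 + x) = yy A (i + 2) (ql A (i + 2) + (p - tl A (i + 1)) + x)
    rw [show hl A (i + 2) - 2 + x = ql A (i + 2) + (hl A (i + 1) - 2 + x) by omega,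
      add_assoc (ql A (i + 2))]
    exact this
  by_cases hc : Eqv (wd A) ((A + 2) * hl A (i + 2) + ql A (i + 2)) (tl A (i + 2) - 2)
    (tl A (i + 2) - 1)
  · have := fc_of_last (u := wd A) (t := tl A (i + 2) - 1) (n := n)
      (fun j hj E => key j (by omega) (hc.trans E)) (by omega)
    omega
  · have := fc_of_last (u := wd A) (t := tl A (i + 2) - 2) (n := n) (fun j hj E => by
      by_cases hj' : j = tl A (i + 2) - 1
      · exact hc (hj' ▸ E)
      · exact key j (by omega) E) (by omega)
    omega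

theorem fam_aper (A : ℕ) (hA : 1 ≤ A) : Aper (wd A) := by
  apply aper_of_unbdd
  intro C
  refine ⟨(A + 2) * hl A (C + 2) + ql A (C + 2) + tl A (C + 2), ?_⟩
  have := fam_lower A C _ hA le_rfl
  have := le_tl A (C + 2)
  rw [pc_eq]; omega

theorem tl_le (A i : ℕ) : A * tl A i ≤ hl A i := by
  induction i with
  | zero => simp [tl, Wd]
  | succ i ih => rw [tl_succ, hl_succ, mul_add, add_mul]; omega

theorem hl_lt (A i : ℕ) (hA : 1 ≤ A) : hl A i < hl A (i + 1) := by
  have := hl_pos A i
  rw [hl_succ]; nlinarith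

theorem fam_up (A n : ℕ) (hA : 1 ≤ A) (hn : hl A 1 ≤ n) :
    A ^ 2 * pc (wd A) n ≤ A ^ 2 * (n + 1) + n := by
  obtain ⟨k, h1, h2⟩ := exists_between (fun k => hl A (k + 1) - hl A 1) (by simp) (fun k => by
    have := hl_lt A (k + 1) hA
    have : hl A 1 ≤ hl A (k + 1) :=
      monotone_nat_of_le_succ (f := hl A) (fun l => (hl_lt A l hA).le) (by omega)
    omega) (n - hl A 1)
  have m1 : hl A 1 ≤ hl A (k + 1) :=
    monotone_nat_of_le_succ (f := hl A) (fun l => (hl_lt A l hA).le) (by omega)
  have g1 : hl A (k + 1) ≤ n := by omega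
  have g2 : n < hl A (k + 2) := by
    have : k + 1 + 1 = k + 2 := rfl
    rw [this] at h2
    omega
  by_cases hc : n ≤ A * hl A (k + 1)
  · have a := fam_upper A k n hA g1 hc
    have b := tl_le A k
    have c := hl_succ A k
    have : A ^ 2 * tl A k ≤ n := by nlinarith
    nlinarith
  · have a := fam_upper A (k + 1) (hl A (k + 2)) hA le_rfl (Nat.le_mul_of_pos_left _ hA)
    have a' := pc_add (fam_aper A hA) n (hl A (k + 2) - n)
    rw [show n + (hl A (k + 2) - n) = hl A (k + 2) by omega] at a'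
    have b := tl_le A (k + 1)
    have : A ^ 2 * tl A (k + 1) ≤ n := by nlinarith
    have : pc (wd A) n ≤ tl A (k + 1) + (n + 1) := by omega
    nlinarith

theorem fam_low (A n : ℕ) (hA : 1 ≤ A) (hn : (A + 4) * hl A 2 ≤ n) :
    (A + 4) ^ 3 * n + n ≤ (A + 4) ^ 3 * (pc (wd A) n + 1) := by
  obtain ⟨k, h1, h2⟩ := exists_between (fun k => (A + 4) * hl A (k + 2) - (A + 4) * hl A 2)
    (by simp) (fun k => by
    have := hl_lt A (k + 2) hA
    have : hl A 2 ≤ hl A (k + 2) :=
      monotone_nat_of_le_succ (f := hl A) (fun l => (hl_lt A l hA).le) (by omega)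
    have a : (A + 4) * hl A 2 ≤ (A + 4) * hl A (k + 2) := Nat.mul_le_mul_left _ this
    have b : (A + 4) * hl A (k + 2) < (A + 4) * hl A (k + 1 + 2) :=
      Nat.mul_lt_mul_of_pos_left (by assumption) (by omega)
    omega) (n - (A + 4) * hl A 2)
  have m1 : hl A 2 ≤ hl A (k + 2) :=
    monotone_nat_of_le_succ (f := hl A) (fun l => (hl_lt A l hA).le) (by omega)
  have m2 : (A + 4) * hl A 2 ≤ (A + 4) * hl A (k + 2) := Nat.mul_le_mul_left _ m1
  have g1 : (A + 4) * hl A (k + 2) ≤ n := by omega
  have g2 : n < (A + 4) * hl A (k + 3) := by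
    have : k + 1 + 2 = k + 3 := rfl
    rw [this] at h2
    omega
  have q2 := ql_le A (k + 2)
  have q1 := ql_le A (k + 1)
  have t2 : tl A (k + 2) ≤ hl A (k + 2) := (Nat.le_mul_of_pos_left _ hA).trans (tl_le A (k + 2))
  have a := fam_lower A k n hA (by nlinarith)
  have b := ic_le (fam_aper A hA) (Nat.zero_le n)
  have c : hl A (k + 1) ≤ tl A (k + 2) := by rw [tl_succ A (k + 1)]; omega
  have d1 : hl A (k + 3) ≤ (A + 4) * hl A (k + 2) := by rw [hl_succ A (k + 2)]; nlinarith
  have d2 : hl A (k + 2) ≤ (A + 4) * hl A (k + 1) := by rw [hl_succ A (k + 1)]; nlinarith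
  have d3 : n ≤ (A + 4) ^ 3 * hl A (k + 1) := by
    calc n ≤ (A + 4) * hl A (k + 3) := g2.le
      _ ≤ (A + 4) * ((A + 4) * ((A + 4) * hl A (k + 1))) :=
        Nat.mul_le_mul_left _ (d1.trans (Nat.mul_le_mul_left _ d2))
      _ = _ := by ring
  have d4 : n + hl A (k + 1) ≤ pc (wd A) n + 1 := by rw [pc_eq]; omega
  calc (A + 4) ^ 3 * n + n ≤ (A + 4) ^ 3 * (n + hl A (k + 1)) := by rw [mul_add]; omega
    _ ≤ _ := Nat.mul_le_mul_left _ d4

end Pool.Agent.Lib.MP_41a716_co
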