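import Pool.Agent.Lib.MP_41a716_co.Family

set_option autoImplicit false
set_option linter.unusedSectionVars false

namespace Pool.Agent.Lib.MP_41a716_co

open Filter

theorem pc_range {A : Type} (u : ℕ → A) (n : ℕ) :
    (Set.range fun i : ℕ => fun k : Fin n => u (i + k)).ncard = pc u n := by
  unfold pc cnt
  rw [Set.image_univ]
  rfl

theorem bounds {A : Type} (u : ℕ → A) (C : ℝ) (hC : ∀ n : ℕ, 1 ≤ n → (pc u n : ℝ) ≤ C * n) :
    IsBoundedUnder (· ≤ ·) atTop (fun n : ℕ => (pc u n : ℝ) / n) ∧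
    IsBoundedUnder (· ≥ ·) atTop (fun n : ℕ => (pc u n : ℝ) / n) := by
  constructor
  · refine ⟨C, ?_⟩
    rw [eventually_map]
    filter_upwards [eventually_ge_atTop 1] with n hn
    rw [div_le_iff₀ (by exact_mod_cast hn)]
    exact hC n hn
  · refine ⟨0, ?_⟩
    rw [eventually_map]
    exact Eventually.of_forall fun n => by positivity

theorem lower_all {A : Type} [Finite A] (u : ℕ → A) (C : ℝ)
    (hC : ∀ n : ℕ, 1 ≤ n → (pc u n : ℝ) ≤ C * n)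
    {a b : ℝ} (ha : a = liminf (fun n : ℕ => (pc u n : ℝ) / n) atTop)
    (hb : b = limsup (fun n : ℕ => (pc u n : ℝ) / n) atTop) (h1 : 1 ≤ a) (h2 : b < 2) :
    a ≤ b ∧ (a - 1) ^ 2 * (2 - b) ^ 3 ≤ (b - 1) ^ 3 * (2 - a) ^ 3 := by
  rcases h1.lt_or_eq with h | h
  · exact lower_main u C hC ha hb h h2
  · obtain ⟨b1, b2⟩ := bounds u C hC
    have hab : a ≤ b := by rw [ha, hb]; exact liminf_le_limsup b1 b2
    refine ⟨hab, ?_⟩
    rw [← h] at hab ⊢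
    have : 0 ≤ b - 1 := by linarith
    norm_num
    positivity

theorem fam_main (A : ℕ) (hA : 1 ≤ A) :
    (∃ C : ℝ, ∀ n : ℕ, 1 ≤ n → (pc (wd A) n : ℝ) ≤ C * n) ∧
    limsup (fun n : ℕ => (pc (wd A) n : ℝ) / n) atTop ≤ 1 + 1 / (A : ℝ) ^ 2 ∧
    1 + 1 / ((A : ℝ) + 4) ^ 3 ≤ liminf (fun n : ℕ => (pc (wd A) n : ℝ) / n) atTop := by
  have hA' : (1 : ℝ) ≤ A := by exact_mod_cast hA
  have up : ∀ n : ℕ, hl A 1 ≤ n → (pc (wd A) n : ℝ) ≤ n + 1 + n / (A : ℝ) ^ 2 := by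
    intro n hn
    have h : ((A : ℝ)) ^ 2 * pc (wd A) n ≤ (A : ℝ) ^ 2 * (n + 1) + n := by
      exact_mod_cast fam_up A n hA hn
    have hp : (0 : ℝ) < (A : ℝ) ^ 2 := by positivity
    rw [← sub_le_iff_le_add', le_div_iff₀ hp]
    linarith
  have low : ∀ n : ℕ, (A + 4) * hl A 2 ≤ n →
      n + n / ((A : ℝ) + 4) ^ 3 - 1 ≤ (pc (wd A) n : ℝ) := by
    intro n hn
    have h : ((A : ℝ) + 4) ^ 3 * n + n ≤ ((A : ℝ) + 4) ^ 3 * (pc (wd A) n + 1) := by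
      exact_mod_cast fam_low A n hA hn
    have hp : (0 : ℝ) < ((A : ℝ) + 4) ^ 3 := by positivity
    have : (n : ℝ) / ((A : ℝ) + 4) ^ 3 ≤ pc (wd A) n + 1 - n := by
      rw [div_le_iff₀ hp]; linarith
    linarith
  have hC : ∀ n : ℕ, 1 ≤ n → (pc (wd A) n : ℝ) ≤ (pc (wd A) (hl A 1) + 3) * n := by
    intro n hn
    have hn' : (1 : ℝ) ≤ n := by exact_mod_cast hn
    by_cases h : hl A 1 ≤ n
    · have h1 := up n h
      have h2 : (n : ℝ) / (A : ℝ) ^ 2 ≤ n := div_le_self (by positivity) (by nlinarith)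
      have : (0 : ℝ) ≤ pc (wd A) (hl A 1) * n := by positivity
      nlinarith
    · have h1 : pc (wd A) n ≤ pc (wd A) (hl A 1) :=
        monotone_nat_of_le_succ (f := pc (wd A)) (fun l => cnt_le_succ l _) (by omega)
      have h2 : (pc (wd A) n : ℝ) ≤ pc (wd A) (hl A 1) := by exact_mod_cast h1
      have : (0 : ℝ) ≤ pc (wd A) (hl A 1) := by positivity
      nlinarith
  obtain ⟨b1, b2⟩ := bounds _ _ hC
  have small : ∀ t : ℝ, 0 < t → ∀ᶠ n : ℕ in atTop, 1 ≤ t * n := by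
    intro t ht
    obtain ⟨k, hk⟩ := exists_nat_gt (1 / t)
    filter_upwards [eventually_ge_atTop k] with n hn
    have : (k : ℝ) ≤ n := by exact_mod_cast hn
    rw [div_lt_iff₀ ht] at hk
    nlinarith
  refine ⟨⟨_, hC⟩, ?_, ?_⟩
  · apply le_of_forall_pos_le_add
    intro t ht
    apply limsup_le_of_le b2.isCoboundedUnder_le
    filter_upwards [small t ht, eventually_ge_atTop (hl A 1), eventually_ge_atTop 1]
      with n h1 h2 h3
    rw [div_le_iff₀ (by exact_mod_cast h3)]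
    have := up n h2
    have e : (1 + 1 / (A : ℝ) ^ 2 + t) * n = n + n / (A : ℝ) ^ 2 + t * n := by ring
    linarith
  · apply le_of_forall_pos_le_add
    intro t ht
    rw [← sub_le_iff_le_add]
    apply le_liminf_of_le b1.isCoboundedUnder_ge
    filter_upwards [small t ht, eventually_ge_atTop ((A + 4) * hl A 2), eventually_ge_atTop 1]
      with n h1 h2 h3
    rw [le_div_iff₀ (by exact_mod_cast h3)]
    have := low n h2
    have e : (1 + 1 / ((A : ℝ) + 4) ^ 3 - t) * n = n + n / ((A : ℝ) + 4) ^ 3 - t * n := by ring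
    linarith

theorem asym (S : Set (ℝ × ℝ))
    (h1 : ∀ x ∈ S, 1 ≤ x.1 → x.2 < 2 →
      x.1 ≤ x.2 ∧ (x.1 - 1) ^ 2 * (2 - x.2) ^ 3 ≤ (x.2 - 1) ^ 3 * (2 - x.1) ^ 3)
    (h2 : ∀ A : ℕ, 1 ≤ A → ∃ x ∈ S, x.2 ≤ 1 + 1 / (A : ℝ) ^ 2 ∧ 1 + 1 / ((A : ℝ) + 4) ^ 3 ≤ x.1)
    (e : ℝ) (he : 0 < e) : ∃ d : ℝ, 0 < d ∧ ∀ b : ℝ, 0 < b → b < d →
      (∀ x ∈ S, x.2 ≤ 1 + b → x.1 ≤ 1 + (1 + e) * (b * √b)) ∧
      ∃ x ∈ S, x.2 ≤ 1 + b ∧ 1 + (1 - e) * (b * √b) ≤ x.1 := by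
  refine ⟨min (min (e / (3 * (1 + e))) (1 / 25)) ((e / 35) ^ 2), by positivity, fun b hb hbd => ?_⟩
  simp only [lt_min_iff] at hbd
  obtain ⟨⟨d1, d2⟩, d3⟩ := hbd
  obtain ⟨s, hs, rfl⟩ : ∃ s : ℝ, 0 < s ∧ b = s ^ 2 :=
    ⟨√b, Real.sqrt_pos.2 hb, (Real.sq_sqrt hb.le).symm⟩
  rw [Real.sqrt_sq hs.le]
  have s1 : s < 1 / 5 := by nlinarith
  have s2 : s < e / 35 := by
    by_contra hc
    push Not at hc
    have : (e / 35) ^ 2 ≤ s ^ 2 := by gcongr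
    linarith
  constructor
  · intro x hx hxb
    by_cases hx1 : 1 ≤ x.1
    · obtain ⟨k1, k2⟩ := h1 x hx hx1 (by linarith)
      rw [lt_div_iff₀ (by positivity)] at d1
      have a1 : (x.2 - 1) ^ 3 ≤ (s ^ 2) ^ 3 := by
        have : 0 ≤ x.2 - 1 := by linarith
        gcongr; linarith
      have a2 : (2 - x.1) ^ 3 ≤ 1 := pow_le_one₀ (by linarith) (by linarith)
      have a3 : (1 - s ^ 2) ^ 3 ≤ (2 - x.2) ^ 3 :=
        pow_le_pow_left₀ (by linarith) (by linarith) 3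
      have a4 : 1 - 3 * s ^ 2 ≤ (1 - s ^ 2) ^ 3 := by nlinarith [sq_nonneg (s ^ 2)]
      have a5 : (x.1 - 1) ^ 2 * (1 - 3 * s ^ 2) ≤ (s ^ 2) ^ 3 := by
        calc (x.1 - 1) ^ 2 * (1 - 3 * s ^ 2) ≤ (x.1 - 1) ^ 2 * (2 - x.2) ^ 3 :=
              mul_le_mul_of_nonneg_left (a4.trans a3) (sq_nonneg _)
          _ ≤ (x.2 - 1) ^ 3 * (2 - x.1) ^ 3 := k2
          _ ≤ (s ^ 2) ^ 3 * 1 := mul_le_mul a1 a2 (pow_nonneg (by linarith) _) (by positivity)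
          _ = _ := mul_one _
      have a6 : 1 ≤ (1 - 3 * s ^ 2) * (1 + e) := by nlinarith
      have a7 : (x.1 - 1) ^ 2 ≤ ((1 + e) * (s ^ 2 * s)) ^ 2 := by
        calc (x.1 - 1) ^ 2 ≤ (x.1 - 1) ^ 2 * ((1 - 3 * s ^ 2) * (1 + e)) :=
              le_mul_of_one_le_right (sq_nonneg _) a6
          _ = (x.1 - 1) ^ 2 * (1 - 3 * s ^ 2) * (1 + e) := by ring
          _ ≤ (s ^ 2) ^ 3 * (1 + e) := mul_le_mul_of_nonneg_right a5 (by linarith)
          _ ≤ (s ^ 2) ^ 3 * (1 + e) * (1 + e) := le_mul_of_one_le_right (by positivity)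
              (by linarith)
          _ = _ := by ring
      have := abs_le_of_sq_le_sq' a7 (by positivity)
      linarith [this.2]
    · have : 0 ≤ (1 + e) * (s ^ 2 * s) := by positivity
      linarith
  · have c1 : 1 / s ≤ (⌈1 / s⌉₊ : ℝ) := Nat.le_ceil _
    have c2 : (⌈1 / s⌉₊ : ℝ) < 1 / s + 1 := Nat.ceil_lt_add_one (by positivity)
    have c0 : 1 ≤ ⌈1 / s⌉₊ := Nat.ceil_pos.2 (by positivity)
    obtain ⟨x, hx, k1, k2⟩ := h2 _ c0
    generalize (⌈1 / s⌉₊ : ℝ) = a at c1 c2 k1 k2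
    have ha : 0 < a := lt_of_lt_of_le (by positivity) c1
    have c3 : 1 ≤ a * s := by rwa [div_le_iff₀ hs] at c1
    have c4 : (a + 4) * s ≤ 1 + 5 * s := by
      have : a * s ≤ (1 / s + 1) * s := mul_le_mul_of_nonneg_right c2.le hs.le
      rw [add_mul, one_div_mul_cancel hs.ne'] at this
      linarith
    refine ⟨x, hx, k1.trans ?_, le_trans ?_ k2⟩
    · have : 1 / a ^ 2 ≤ s ^ 2 := by
        rw [div_le_iff₀ (by positivity)]
        nlinarith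
      linarith
    · have : (1 - e) * (s ^ 2 * s) ≤ 1 / (a + 4) ^ 3 := by
        rw [le_div_iff₀ (by positivity)]
        have c5 : ((a + 4) * s) ^ 3 ≤ (1 + 5 * s) ^ 3 := by gcongr
        have c6 : (1 + 5 * s) ^ 3 ≤ 1 + e := by nlinarith [sq_nonneg s]
        have c7 : (1 - e) * (s ^ 2 * s) * (a + 4) ^ 3 = (1 - e) * ((a + 4) * s) ^ 3 := by ring
        rw [c7]
        by_cases he1 : e ≤ 1
        · have : (1 - e) * ((a + 4) * s) ^ 3 ≤ (1 - e) * (1 + e) :=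
            mul_le_mul_of_nonneg_left (c5.trans c6) (by linarith)
          nlinarith
        · have : 0 ≤ ((a + 4) * s) ^ 3 := by positivity
          nlinarith
      linarith

end Pool.Agent.Lib.MP_41a716_co
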