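import Pool.Agent.Lib.MP_41a716_co.Count

set_option autoImplicit false
set_option linter.unusedVariables false
set_option linter.style.longLine false

namespace Pool.Agent.Lib.MP_41a716_co.H52

open Finset

def sm (g : ℕ → ℕ) (i : ℕ) : ℕ := ∑ k ∈ range i, g k

open Classical in
noncomputable def sw (g : ℕ → ℕ) (t : ℕ) : Bool := decide (∃ l, t + 1 = sm g (l + 1))

variable {g : ℕ → ℕ}

theorem sm_succ (i : ℕ) : sm g (i + 1) = sm g i + g i := by simp [sm, sum_range_succ]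

theorem g_ge (hg : StrictMono g) (h0 : 1 ≤ g 0) (i : ℕ) : i + 1 ≤ g i := by
  induction i with
  | zero => simpa using h0
  | succ i ih => have := hg (show i < i + 1 by omega); omega

theorem sm_mono (hg : StrictMono g) (h0 : 1 ≤ g 0) : StrictMono (sm g) :=
  strictMono_nat_of_lt_succ fun i => by have := g_ge hg h0 i; rw [sm_succ]; omega

theorem sw_iff (hg : StrictMono g) (h0 : 1 ≤ g 0) {i j t k : ℕ} (hj : j < g i)
    (ht : t + j + 1 = sm g (i + 1)) (hk : k ≤ j + g (i + 1)) :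
    sw g (t + k) = true ↔ k = j ∨ k = j + g (i + 1) := by
  have e1 := sm_succ (g := g) i
  have e2 := sm_succ (g := g) (i + 1)
  simp only [sw, decide_eq_true_eq]
  constructor
  · rintro ⟨l, hl⟩
    have a1 : i < l + 1 := (sm_mono hg h0).lt_iff_lt.1 (by omega)
    have a2 : l + 1 ≤ i + 1 + 1 := (sm_mono hg h0).le_iff_le.1 (by omega)
    rcases (show l = i ∨ l = i + 1 by omega) with rfl | rfl
    · omega
    · omega
  · rintro (rfl | rfl)
    · exact ⟨i, by omega⟩
    · exact ⟨i + 1, by omega⟩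

theorem exists_ij (hg : StrictMono g) (h0 : 1 ≤ g 0) (t : ℕ) :
    ∃ i j, j < g i ∧ t + j + 1 = sm g (i + 1) := by
  induction t with
  | zero => exact ⟨0, g 0 - 1, by omega, by simp [sm]; omega⟩
  | succ t ih =>
    obtain ⟨i, j, h1, h2⟩ := ih
    rcases j with _ | j
    · have := g_ge hg h0 (i + 1)
      exact ⟨i + 1, g (i + 1) - 1, by omega, by rw [sm_succ (i + 1)]; omega⟩
    · exact ⟨i, j, by omega, by omega⟩

theorem pc_sparse (hg : StrictMono g) (h0 : 1 ≤ g 0) (n : ℕ) :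
    pc (sw g) n = n + 1 + ∑ i ∈ range n, min (g i) (n - g (i + 1)) := by
  classical
  let c : ℕ → ℕ := fun i => if i = n then n + 1 else min (g i) (n - g (i + 1))
  let I : Finset (Σ _ : ℕ, ℕ) := (range (n + 1)).sigma fun i => range (c i)
  let T : (Σ _ : ℕ, ℕ) → ℕ := fun p => sm g (p.1 + 1) - 1 - p.2
  have gn := g_ge hg h0 n
  have gn1 := g_ge hg h0 (n + 1)
  have mem : ∀ i j, (⟨i, j⟩ : Σ _ : ℕ, ℕ) ∈ I ↔
      (i = n ∧ j ≤ n) ∨ (i < n ∧ j < g i ∧ j + g (i + 1) < n) := by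
    intro i j
    simp only [I, c, mem_sigma, mem_range]
    split_ifs <;> omega
  have hT : ∀ i j, j < g i → T ⟨i, j⟩ + j + 1 = sm g (i + 1) := by
    intro i j h
    have := sm_succ (g := g) i
    simp only [T]; omega
  have card : I.card = n + 1 + ∑ i ∈ range n, min (g i) (n - g (i + 1)) := by
    simp only [I, card_sigma, card_range, sum_range_succ]
    rw [add_comm]
    congr 1
    · simp [c]
    · exact sum_congr rfl fun i hi => by simp only [c]; rw [if_neg (by simp at hi; omega)]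
  have inj : Set.InjOn (fun p => W (sw g) n (T p)) (I : Set (Σ _ : ℕ, ℕ)) := by
    have lt : ∀ i j, (⟨i, j⟩ : Σ _ : ℕ, ℕ) ∈ I → j < g i ∧ j ≤ n := by
      intro i j h
      rcases (mem i j).1 h with ⟨rfl, h⟩ | h <;> omega
    have k1 : ∀ i j i' j', (⟨i, j⟩ : Σ _ : ℕ, ℕ) ∈ I → (⟨i', j'⟩ : Σ _ : ℕ, ℕ) ∈ I →
        Eqv (sw g) n (T ⟨i, j⟩) (T ⟨i', j'⟩) → ¬ j < j' := by
      intro i j i' j' h h' e c
      obtain ⟨a1, a2⟩ := lt i j h
      obtain ⟨b1, b2⟩ := lt i' j' h'
      have x1 := (sw_iff hg h0 a1 (hT i j a1) (k := j) (by omega)).2 (Or.inl rfl)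
      rw [e j (by omega), sw_iff hg h0 b1 (hT i' j' b1) (by omega)] at x1
      omega
    have k2 : ∀ i i' j, (⟨i, j⟩ : Σ _ : ℕ, ℕ) ∈ I → (⟨i', j⟩ : Σ _ : ℕ, ℕ) ∈ I →
        Eqv (sw g) n (T ⟨i, j⟩) (T ⟨i', j⟩) → ¬ i < i' := by
      intro i i' j h h' e c
      obtain ⟨a1, a2⟩ := lt i j h
      obtain ⟨b1, b2⟩ := lt i' j h'
      have a3 := (mem i j).1 h
      have a4 := (mem i' j).1 h'
      have a5 := hg (show i + 1 < i' + 1 by omega)
      have a6 := g_ge hg h0 (i + 1)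
      have x1 := (sw_iff hg h0 a1 (hT i j a1) (k := j + g (i + 1)) (by omega)).2 (Or.inr rfl)
      rw [e _ (by omega), sw_iff hg h0 b1 (hT i' j b1) (by omega)] at x1
      omega
    rintro ⟨i, j⟩ h ⟨i', j'⟩ h' e
    have e := W_eq_iff.1 e
    have x1 := k1 i j i' j' h h' e
    have x2 := k1 i' j' i j h' h e.symm
    obtain rfl : j = j' := by omega
    have x3 := k2 i i' j h h' e
    have x4 := k2 i' i j h' h e.symm
    obtain rfl : i = i' := by omega
    rfl
  have img : W (sw g) n '' Set.univ = (fun p => W (sw g) n (T p)) '' (I : Set (Σ _ : ℕ, ℕ)) := by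
    apply Set.Subset.antisymm
    · rintro _ ⟨t, -, rfl⟩
      obtain ⟨i, j, h1, h2⟩ := exists_ij hg h0 t
      by_cases c : j + g (i + 1) < n
      · have := g_ge hg h0 (i + 1)
        refine ⟨⟨i, j⟩, (mem i j).2 (Or.inr ⟨by omega, h1, c⟩), ?_⟩
        have := hT i j h1
        simp only
        congr 1
        omega
      · refine ⟨⟨n, min j n⟩, (mem _ _).2 (Or.inl ⟨rfl, by omega⟩), W_eq_iff.2 fun k hk => ?_⟩
        have a1 : min j n < g n := by omega
        rw [Bool.eq_iff_iff, sw_iff hg h0 a1 (hT _ _ a1) (by omega), sw_iff hg h0 h1 h2 (by omega)]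
        omega
    · rintro _ ⟨p, -, rfl⟩
      exact ⟨T p, trivial, rfl⟩
  unfold pc cnt
  rw [img, inj.ncard_image, Set.ncard_coe_finset, card]

end Pool.Agent.Lib.MP_41a716_co.H52
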