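import Pool.Agent.Lib.MP_41a716_co.H52Hf
import Pool.Agent.Lib.MP_41a716_co.H52Sparse
import Pool.Agent.Lib.MP_41a716_co.Final

set_option autoImplicit false
set_option linter.unusedVariables false
set_option linter.style.longLine false

namespace Pool.Agent.Lib.MP_41a716_co.H52

open Finset Filter Topology

theorem exists_g (s : ℕ → ℝ) {m : ℝ} (h0 : ∀ i, 0 < s i) (hm : ∀ i, s i ≤ m) (h1 : m < 1) :
    ∃ (g : ℕ → ℕ) (m' : ℝ), StrictMono g ∧ 1 ≤ g 0 ∧ m ≤ m' ∧ m' < 1 ∧
      (∀ i, s i * g (i + 1) ≤ g i) ∧ (∀ i, (g i : ℝ) < s i * (g (i + 1) + 1)) ∧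
      ∀ i, (g i : ℝ) ≤ m' * g (i + 1) := by
  have m0 : 0 < m := lt_of_lt_of_le (h0 0) (hm 0)
  obtain ⟨G, hG⟩ := exists_nat_gt (2 / (1 - m))
  rw [div_lt_iff₀ (by linarith)] at hG
  let g : ℕ → ℕ := fun i => Nat.rec (motive := fun _ => ℕ) G (fun i (x : ℕ) => ⌊(x : ℝ) / s i⌋₊) i
  have gs : ∀ i : ℕ, g (i + 1) = ⌊((g i : ℕ) : ℝ) / s i⌋₊ := fun i => rfl
  have a1 : ∀ i, s i * g (i + 1) ≤ g i := by
    intro i
    have := Nat.floor_le (show 0 ≤ (g i : ℝ) / s i from div_nonneg (by positivity) (h0 i).le)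
    rw [← gs, le_div_iff₀ (h0 i)] at this
    linarith
  have a2 : ∀ i, (g i : ℝ) < s i * (g (i + 1) + 1) := by
    intro i
    have := Nat.lt_floor_add_one ((g i : ℝ) / s i)
    rw [← gs, div_lt_iff₀ (h0 i)] at this
    linarith
  have a3 : ∀ i, G ≤ g i → g i < g (i + 1) := by
    intro i hi
    by_contra hc
    have b1 : (g (i + 1) : ℝ) ≤ g i := by exact_mod_cast not_lt.1 hc
    have b2 : (G : ℝ) ≤ g i := by exact_mod_cast hi
    have b3 : s i * ((g (i + 1) : ℝ) + 1) ≤ m * (g i + 1) :=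
      mul_le_mul (hm i) (by linarith) (by positivity) m0.le
    have := a2 i
    nlinarith
  have a4 : ∀ i, G ≤ g i := by
    intro i
    induction i with
    | zero => exact le_rfl
    | succ i ih => exact ih.trans (a3 i ih).le
  have G1 : 1 ≤ G := by
    by_contra hc
    have : G = 0 := by omega
    subst this
    norm_num at hG
  refine ⟨g, (1 + m) / 2, strictMono_nat_of_lt_succ fun i => a3 i (a4 i), G1, by linarith,
    by linarith, a1, a2, fun i => ?_⟩
  have b2 : (G : ℝ) ≤ g (i + 1) := by exact_mod_cast a4 (i + 1)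
  have b3 : s i * ((g (i + 1) : ℝ) + 1) ≤ m * (g (i + 1) + 1) :=
    mul_le_mul_of_nonneg_right (hm i) (by positivity)
  have := a2 i
  nlinarith

theorem approx (s : ℕ → ℝ) (g : ℕ → ℕ) {m : ℝ} (h0 : ∀ i, 0 < s i) (hm : ∀ i, s i ≤ m) (h1 : m < 1)
    (slow : Tendsto (fun i => s (i + 1) - s i) atTop (𝓝 0)) (hg : StrictMono g) (g0 : 1 ≤ g 0)
    (a1 : ∀ i, s i * g (i + 1) ≤ g i) (a2 : ∀ i, (g i : ℝ) < s i * (g (i + 1) + 1))
    (a3 : ∀ i, (g i : ℝ) ≤ m * g (i + 1)) :
    ∃ I : ℕ → ℕ, (∀ i n, g i ≤ n → n < g (i + 1) → I n = i) ∧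
      (∀ n, g 0 ≤ n → g (I n) ≤ n ∧ n < g (I n + 1)) ∧ Tendsto I atTop atTop ∧
      Tendsto (fun n : ℕ => (pc (sw g) n : ℝ) / n - (1 + Hf (s (I n)) (g (I n) / n))) atTop (𝓝 0) := by
  classical
  have m0 : 0 < m := lt_of_lt_of_le (h0 0) (hm 0)
  have gi := g_ge hg g0
  have gp : ∀ i, (0 : ℝ) < g i := fun i => by exact_mod_cast (by have := gi i; omega)
  let I : ℕ → ℕ := fun n => Nat.findGreatest (fun i => g i ≤ n) n
  have I1 : ∀ n, g 0 ≤ n → g (I n) ≤ n ∧ n < g (I n + 1) := by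
    intro n hn
    refine ⟨Nat.findGreatest_spec (P := fun i => g i ≤ n) (Nat.zero_le n) hn, ?_⟩
    by_contra hc
    have := gi (I n + 1)
    exact Nat.findGreatest_is_greatest (P := fun i => g i ≤ n) (Nat.lt_succ_self _) (by
      change I n + 1 ≤ n; omega) (not_lt.1 hc)
  have I2 : ∀ i n, g i ≤ n → i ≤ I n := by
    intro i n h
    have := (I1 n ((hg.monotone (Nat.zero_le i)).trans h)).2
    have := hg.lt_iff_lt.1 (show g i < g (I n + 1) by omega)
    omega
  have I3 : Tendsto I atTop atTop :=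
    tendsto_atTop_atTop.2 fun i => ⟨g i, fun n hn => I2 i n hn⟩
  refine ⟨I, fun i n b1 b2 => ?_, I1, I3, ?_⟩
  · have b3 := I2 i n b1
    have b4 := (I1 n ((hg.monotone (Nat.zero_le i)).trans b1)).1
    have := hg.lt_iff_lt.1 (show g (I n) < g (i + 1) by omega)
    omega
  have sl : ∀ q, Tendsto (fun i => s (i + q) - s i) atTop (𝓝 0) := by
    intro q
    induction q with
    | zero => simp
    | succ q ih =>
      have := ((tendsto_add_atTop_iff_nat q).2 slow).add ih
      simpa [add_assoc] using this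
  have sg : Tendsto (fun i => (g i : ℝ) / g (i + 1) - s i) atTop (𝓝 0) := by
    refine squeeze_zero (fun i => ?_) (fun i => ?_) tendsto_one_div_add_atTop_nhds_zero_nat
    · rw [sub_nonneg, le_div_iff₀ (gp _)]; exact a1 i
    · have b1 : (i : ℝ) + 1 ≤ g (i + 1) := by exact_mod_cast (by have := gi (i + 1); omega)
      have b2 : (1 : ℝ) / g (i + 1) ≤ 1 / (i + 1) := one_div_le_one_div_of_le (by positivity) b1
      refine le_trans ?_ b2
      rw [sub_le_iff_le_add, div_add' _ _ _ (gp _).ne', div_le_div_iff_of_pos_right (gp _)]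
      have := a2 i
      have := hm i
      nlinarith
  have rb : ∀ q i, 0 ≤ (g i : ℝ) / g (i + q) ∧ (g i : ℝ) / g (i + q) ≤ m ^ q := by
    intro q
    induction q with
    | zero => intro i; simp [(gp i).ne']
    | succ q ih =>
      intro i
      refine ⟨by positivity, ?_⟩
      have b1 := (ih (i + 1)).2
      rw [div_le_iff₀ (gp _)] at b1 ⊢
      rw [show i + 1 + q = i + (q + 1) by ring] at b1
      have := mul_le_mul_of_nonneg_left b1 m0.le
      have := a3 i
      rw [pow_succ]; linarith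
  have key : ∀ q, Tendsto (fun i => (g i : ℝ) / g (i + q) - s (i + q) ^ q) atTop (𝓝 0) := by
    intro q
    induction q with
    | zero => simp [(gp _).ne']
    | succ q ih =>
      have X := (tendsto_add_atTop_iff_nat 1).2 ih
      have Y := sg.sub (sl (q + 1))
      have Z := X.abs.add Y.abs
      simp only [sub_zero, abs_zero, add_zero] at Z
      refine squeeze_zero_norm (fun i => ?_) Z
      rw [show i + 1 + q = i + (q + 1) by ring]
      have b1 := rb 1 i
      have b2 : 0 ≤ s (i + (q + 1)) ^ q := pow_nonneg (h0 _).le q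
      have b3 : s (i + (q + 1)) ^ q ≤ 1 := pow_le_one₀ (h0 _).le (by linarith [hm (i + (q + 1))])
      have e : (g i : ℝ) / g (i + (q + 1)) - s (i + (q + 1)) ^ (q + 1) =
          (g i : ℝ) / g (i + 1) * (g (i + 1) / g (i + (q + 1)) - s (i + (q + 1)) ^ q) +
          ((g i : ℝ) / g (i + 1) - s i - (s (i + (q + 1)) - s i)) * s (i + (q + 1)) ^ q := by
        have := (gp (i + 1)).ne'
        field_simp
        ring
      rw [Real.norm_eq_abs, e]
      refine (abs_add_le _ _).trans (add_le_add ?_ ?_)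
      · rw [abs_mul, abs_of_nonneg b1.1]
        exact mul_le_of_le_one_left (abs_nonneg _) (by linarith [b1.2, pow_one m])
      · rw [abs_mul, abs_of_nonneg b2]
        exact mul_le_of_le_one_right (abs_nonneg _) b3
  have key2 : ∀ q, Tendsto (fun n => (g (I n - q) : ℝ) / g (I n) - s (I n) ^ q) atTop (𝓝 0) := by
    intro q
    refine ((key q).comp ((tendsto_sub_atTop_nat q).comp I3)).congr' ?_
    filter_upwards [I3.eventually_ge_atTop q] with n hn
    simp only [Function.comp, Nat.sub_add_cancel hn]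
  let a : ℕ → ℕ → ℝ := fun n q => (g (I n - q) : ℝ) / g (I n)
  let rho : ℕ → ℝ := fun n => (g (I n) : ℝ) / n
  let d : ℕ → ℕ → ℝ := fun n q =>
    if q < I n then min (rho n * a n (q + 1)) (1 - rho n * a n q) else 0
  have rh : ∀ n, g 0 ≤ n → 0 ≤ rho n ∧ rho n ≤ 1 := by
    intro n hn
    refine ⟨by positivity, ?_⟩
    have : (0 : ℝ) < n := by exact_mod_cast (by omega)
    rw [div_le_one this]
    exact_mod_cast (I1 n hn).1
  have db : ∀ n, g 0 ≤ n → ∀ q, 0 ≤ d n q ∧ d n q ≤ m ^ q := by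
    intro n hn q
    simp only [d]
    split_ifs with c
    · have b1 := rb (q + 1) (I n - (q + 1))
      have b2 := rb q (I n - q)
      rw [Nat.sub_add_cancel (by omega)] at b1 b2
      obtain ⟨r0, r1⟩ := rh n hn
      have b3 : m ^ q ≤ 1 := pow_le_one₀ m0.le h1.le
      have b4 : m ^ (q + 1) ≤ m ^ q := pow_le_pow_of_le_one m0.le h1.le (by omega)
      constructor
      · refine le_min (mul_nonneg r0 b1.1) ?_
        have : rho n * a n q ≤ 1 := mul_le_one₀ r1 b2.1 (b2.2.trans b3)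
        linarith
      · exact (min_le_left _ _).trans ((mul_le_of_le_one_left b1.1 r1).trans (b1.2.trans b4))
    · exact ⟨le_rfl, by positivity⟩
  have T := tendsto_tsum_of_dominated_convergence (𝓕 := atTop)
    (f := fun n q => d n q - tm (s (I n)) (rho n) q) (g := fun _ => (0 : ℝ)) (bound := fun q => m ^ q)
    (summable_geometric_of_lt_one m0.le h1) (fun q => by
      have Z := (key2 (q + 1)).abs.add (key2 q).abs
      simp only [abs_zero, add_zero] at Z
      refine squeeze_zero_norm' ?_ Z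
      filter_upwards [I3.eventually_gt_atTop q, eventually_ge_atTop (g 0)] with n hn hn0
      obtain ⟨r0, r1⟩ := rh n hn0
      simp only [d, if_pos hn, tm, Real.norm_eq_abs]
      refine (abs_min_sub_min_le_max _ _ _ _).trans (max_le ?_ ?_)
      · rw [← mul_sub, abs_mul, abs_of_nonneg r0]
        exact (mul_le_of_le_one_left (abs_nonneg _) r1).trans (le_add_of_nonneg_right (abs_nonneg _))
      · rw [show 1 - rho n * a n q - (1 - rho n * s (I n) ^ q) = -(rho n * (a n q - s (I n) ^ q)) by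
          ring, abs_neg, abs_mul, abs_of_nonneg r0]
        exact (mul_le_of_le_one_left (abs_nonneg _) r1).trans (le_add_of_nonneg_left (abs_nonneg _)))
    (by
      filter_upwards [eventually_ge_atTop (g 0)] with n hn q
      obtain ⟨r0, r1⟩ := rh n hn
      obtain ⟨b1, b2⟩ := db n hn q
      obtain ⟨b3, b4⟩ := tm_bd (h0 (I n)).le (hm _) h1 r0 r1 q
      rw [Real.norm_eq_abs, abs_le]
      constructor <;> linarith)
  have T2 := T.add tendsto_one_div_atTop_nhds_zero_nat
  simp only [tsum_zero, add_zero] at T2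
  refine T2.congr' ?_
  filter_upwards [eventually_ge_atTop (g 0)] with n hn
  obtain ⟨r0, r1⟩ := rh n hn
  obtain ⟨c1, c2⟩ := I1 n hn
  have np : (0 : ℝ) < n := by exact_mod_cast (by omega)
  have S1 : Summable (d n) := Summable.of_nonneg_of_le (fun q => (db n hn q).1)
    (fun q => (db n hn q).2) (summable_geometric_of_lt_one m0.le h1)
  rw [S1.tsum_sub (tm_summ (h0 _).le (by linarith [hm (I n)]) r0 r1)]
  have e1 : ∑' q, d n q = ∑ q ∈ range (I n), d n q :=
    tsum_eq_sum fun q hq => by simp only [d]; rw [if_neg (by simpa using hq)]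
  have e2 : ∑ i ∈ range n, min (g i) (n - g (i + 1)) =
      ∑ i ∈ range (I n), min (g i) (n - g (i + 1)) := by
    symm
    apply sum_subset (range_subset_range.2 (by have := gi (I n); omega))
    intro i _ hi
    have := hg.monotone (show I n + 1 ≤ i + 1 by simpa using hi)
    omega
  have e3 : ∑ q ∈ range (I n), d n q =
      (∑ i ∈ range (I n), ((min (g i) (n - g (i + 1)) : ℕ) : ℝ)) / n := by
    rw [sum_div, ← sum_range_reflect]
    refine sum_congr rfl fun i hi => ?_
    have hi' : i < I n := by simpa using hi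
    have b1 : g (i + 1) ≤ n := (hg.monotone (show i + 1 ≤ I n from hi')).trans c1
    simp only [d, a, rho]
    rw [if_pos (by omega), show I n - (I n - 1 - i + 1) = i by omega,
      show I n - (I n - 1 - i) = i + 1 by omega, Nat.cast_min, Nat.cast_sub b1,
      ← min_div_div_right np.le]
    have := (gp (I n)).ne'
    congr 1 <;> field_simp
  rw [e1, e3, pc_sparse hg g0, e2]
  push_cast
  change _ = _ - (1 + Hf (s (I n)) (rho n))
  unfold Hf
  field_simp
  ring

def Real2 (a b : ℝ) : Prop :=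
  ∃ u : ℕ → Bool, (∃ C : ℝ, ∀ n : ℕ, 1 ≤ n → (pc u n : ℝ) ≤ C * n) ∧
    a = liminf (fun n : ℕ => (pc u n : ℝ) / n) atTop ∧
    b = limsup (fun n : ℕ => (pc u n : ℝ) / n) atTop

theorem realise (s : ℕ → ℝ) {m A B : ℝ} (h0 : ∀ i, 0 < s i) (hm : ∀ i, s i ≤ m) (h1 : m < 1)
    (slow : Tendsto (fun i => s (i + 1) - s i) atTop (𝓝 0))
    (c1 : ∀ i, A ≤ Hf (s i) 1) (c2 : ∀ ε, 0 < ε → ∃ᶠ i in atTop, Hf (s i) 1 ≤ A + ε)
    (c3 : ∀ ε, 0 < ε → ∀ᶠ i in atTop, ∀ r, s i ≤ r → r ≤ 1 → Hf (s i) r ≤ B + ε)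
    (c4 : (∀ i, B ≤ Hf (s i) 1) ∨ ∃ s2 r, s2 < r ∧ r ≤ 1 ∧ Hf s2 r = B ∧ ∃ᶠ i in atTop, s i = s2) :
    Real2 (1 + A) (1 + B) := by
  obtain ⟨g, m', hg, g0, m1, m2, a1, a2, a3⟩ := exists_g s h0 hm h1
  obtain ⟨I, I0, I1, I3, T⟩ := approx s g h0 (fun i => (hm i).trans m1) m2 slow hg g0 a1 a2 a3
  have gi := g_ge hg g0
  have gp : ∀ i, (0 : ℝ) < g i := fun i => by exact_mod_cast (by have := gi i; omega)
  have s1 : ∀ i, s i < 1 := fun i => lt_of_le_of_lt (hm i) h1
  set x : ℕ → ℝ := fun n => (pc (sw g) n : ℝ) / n with hx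
  have E : ∀ ε, 0 < ε → ∀ᶠ n : ℕ in atTop, |x n - (1 + Hf (s (I n)) (g (I n) / n))| < ε := by
    intro ε hε
    have := (Metric.tendsto_nhds.1 T) ε hε
    simpa [Real.dist_eq] using this
  have R : ∀ᶠ n : ℕ in atTop, s (I n) ≤ (g (I n) : ℝ) / n ∧ (g (I n) : ℝ) / n ≤ 1 := by
    filter_upwards [eventually_ge_atTop (g 0)] with n hn
    obtain ⟨b1, b2⟩ := I1 n hn
    have np : (0 : ℝ) < n := by exact_mod_cast (by omega)
    have b3 : (n : ℝ) ≤ g (I n + 1) := by exact_mod_cast b2.le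
    rw [le_div_iff₀ np, div_le_one np]
    exact ⟨(mul_le_mul_of_nonneg_left b3 (h0 _).le).trans (a1 _), by exact_mod_cast b1⟩
  have up : ∀ ε, 0 < ε → ∀ᶠ n : ℕ in atTop, x n ≤ 1 + B + ε := by
    intro ε hε
    filter_upwards [E (ε / 2) (by positivity), R, I3.eventually (c3 (ε / 2) (by positivity))]
      with n b1 b2 b3
    have := b3 _ b2.1 b2.2
    linarith [(abs_lt.1 b1).2]
  have lowX : ∀ X, (∀ i, X ≤ Hf (s i) 1) → ∀ ε, 0 < ε → ∀ᶠ n : ℕ in atTop, 1 + X - ε ≤ x n := by
    intro X hX ε hε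
    filter_upwards [E ε hε, R] with n b1 b2
    have := Hf_ge (h0 (I n)).le (s1 _) b2.1 b2.2
    linarith [(abs_lt.1 b1).1, hX (I n)]
  have bd : IsBoundedUnder (· ≤ ·) atTop x := ⟨1 + B + 1, up 1 one_pos⟩
  obtain ⟨C, hC⟩ := bd.bddAbove_range
  have hC' : ∀ n : ℕ, 1 ≤ n → (pc (sw g) n : ℝ) ≤ C * n := by
    intro n hn
    have := hC ⟨n, rfl⟩
    simp only [hx] at this
    rwa [div_le_iff₀ (by exact_mod_cast hn)] at this
  obtain ⟨b1, b2⟩ := bounds _ _ hC'
  have gt : Tendsto g atTop atTop := hg.tendsto_atTop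
  refine ⟨sw g, ⟨C, hC'⟩, le_antisymm ?_ ?_, le_antisymm ?_ ?_⟩
  · apply le_of_forall_pos_le_add
    intro ε hε
    rw [← sub_le_iff_le_add]
    exact le_liminf_of_le b1.isCoboundedUnder_ge (lowX A c1 ε hε)
  · apply le_of_forall_pos_le_add
    intro ε hε
    refine liminf_le_of_frequently_le (gt.frequently ?_) b2
    refine ((c2 (ε / 2) (by positivity)).and_eventually
      (gt.eventually (E (ε / 2) (by positivity)))).mono fun i hi => ?_
    obtain ⟨d1, d2⟩ := hi
    rw [I0 i (g i) le_rfl (hg (by omega)), div_self (gp i).ne'] at d2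
    change x (g i) ≤ _
    linarith [(abs_lt.1 d2).2]
  · apply le_of_forall_pos_le_add
    intro ε hε
    rw [← sub_le_iff_le_add]
    rcases c4 with c4 | ⟨s2, r, d1, d2, d3, d4⟩
    · exact le_limsup_of_frequently_le (lowX B c4 ε hε).frequently b1
    obtain ⟨i0, hi0⟩ := d4.exists
    have s20 : 0 < s2 := hi0 ▸ h0 i0
    have r0 : 0 < r := by linarith
    let nn : ℕ → ℕ := fun i => ⌊(g i : ℝ) / r⌋₊
    have n1 : ∀ i, g i ≤ nn i := fun i => Nat.le_floor (by
      rw [le_div_iff₀ r0]; exact mul_le_of_le_one_right (gp i).le d2)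
    have n2 : ∀ i, (nn i : ℝ) * r ≤ g i := fun i => by
      have := Nat.floor_le (show 0 ≤ (g i : ℝ) / r by positivity)
      rwa [le_div_iff₀ r0] at this
    have n3 : ∀ i, (g i : ℝ) < (nn i + 1) * r := fun i => by
      have := Nat.lt_floor_add_one ((g i : ℝ) / r)
      rwa [div_lt_iff₀ r0] at this
    have np : ∀ i, (0 : ℝ) < nn i := fun i => lt_of_lt_of_le (gp i) (by exact_mod_cast n1 i)
    have nt : Tendsto nn atTop atTop := tendsto_atTop_mono n1 gt
    have rt : Tendsto (fun i => (g i : ℝ) / nn i) atTop (𝓝[Set.Icc 0 1] r) := by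
      refine tendsto_nhdsWithin_iff.2 ⟨?_, Eventually.of_forall fun i => ⟨by positivity, ?_⟩⟩
      · have := (tendsto_one_div_atTop_nhds_zero_nat.comp nt).const_add r
        rw [add_zero] at this
        refine tendsto_of_tendsto_of_tendsto_of_le_of_le tendsto_const_nhds this (fun i => ?_)
          (fun i => ?_)
        · simp only; rw [le_div_iff₀ (np i)]; linarith [n2 i]
        · simp only [Function.comp]
          rw [add_div' _ _ _ (np i).ne', div_le_div_iff_of_pos_right (np i)]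
          nlinarith [n3 i]
      · rw [div_le_one (np i)]; exact_mod_cast n1 i
    have ht := ((Hf_cont2 s20.le (by linarith)) r ⟨r0.le, d2⟩).tendsto.comp rt
    rw [d3] at ht
    have ev1 := ht.eventually (lt_mem_nhds (show B - ε / 2 < B by linarith))
    obtain ⟨k, hk⟩ := exists_nat_gt (1 / (r - s2))
    rw [div_lt_iff₀ (by linarith)] at hk
    refine le_limsup_of_frequently_le (nt.frequently ?_) b1
    refine (d4.and_eventually ((nt.eventually (E (ε / 2) (by positivity))).and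
      (ev1.and (eventually_ge_atTop k)))).mono fun i hi => ?_
    obtain ⟨f1, f2, f3, f4⟩ := hi
    have f5 : nn i < g (i + 1) := by
      by_contra hc
      have q1 : (g (i + 1) : ℝ) ≤ nn i := by exact_mod_cast not_lt.1 hc
      have q2 := a2 i
      have q3 : (k : ℝ) ≤ nn i := by exact_mod_cast (by have := gi i; have := n1 i; omega)
      rw [f1] at q2
      have q4 : s2 * ((g (i + 1) : ℝ) + 1) ≤ s2 * (nn i + 1) :=
        mul_le_mul_of_nonneg_left (by linarith) s20.le
      have q5 := n2 i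
      have q6 : (k : ℝ) * (r - s2) ≤ nn i * (r - s2) :=
        mul_le_mul_of_nonneg_right q3 (by linarith)
      nlinarith
    rw [I0 i (nn i) (n1 i) f5, f1] at f2
    simp only [Function.comp] at f3
    change _ ≤ x (nn i)
    linarith [(abs_lt.1 f2).1]
  · apply le_of_forall_pos_le_add
    intro ε hε
    exact limsup_le_of_le b2.isCoboundedUnder_le (up ε hε)

end Pool.Agent.Lib.MP_41a716_co.H52
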