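import Pool.Agent.Lib.MP_41a716_co.H52Window

set_option autoImplicit false
set_option linter.unusedVariables false
set_option linter.style.longLine false

namespace Pool.Agent.Lib.MP_41a716_co.H52

def Ex (l N s G N' s' : ℝ) : Prop :=
  0 ≤ s ∧ (l ^ 2 - l) * G = N' - N + s' - s ∧
    (l ^ 2 - l - 1) * (N' + s') + l * s < l * (l ^ 2 - l - 1) * N

theorem an_of_ex {l l1 m1 m0 om nu Np sp Gp N s G J N' s' : ℝ} (h1 : 1 < l) (hm : l + 1 < l ^ 2)
    (hl : l ≤ l1) (hm1 : l ^ 2 - l ≤ m1) (hm0 : m0 ≤ l ^ 2 - l) (hom : om * (l ^ 2 - l - 1) ≤ l)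
    (hnu : nu * (l ^ 2 - l - 1) ≤ 1) (hp : Ex l Np sp Gp N s) (h : Ex l N s G N' s')
    (hN : 0 < N) (hG : 0 < G) (hJ : N' = N + J) : An l1 m1 m0 om nu Np sp N s G J N' s' := by
  obtain ⟨p0, p1, p2⟩ := hp
  obtain ⟨q0, q1, q2⟩ := h
  have hw : 0 < l ^ 2 - l - 1 := by linarith
  have hJ' : J + s' - s = (l ^ 2 - l) * G := by rw [q1, hJ]; ring
  refine ⟨?_, ?_, ?_, ?_⟩
  · have a1 : om * (l ^ 2 - l - 1) * s ≤ l * s := mul_le_mul_of_nonneg_right hom q0
    have a2 : l * ((l ^ 2 - l - 1) * N) ≤ l1 * ((l ^ 2 - l - 1) * N) :=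
      mul_le_mul_of_nonneg_right hl (by positivity)
    have : (l ^ 2 - l - 1) * (N' + s' + om * s) < (l ^ 2 - l - 1) * (l1 * N) := by nlinarith
    exact lt_of_mul_lt_mul_left this hw.le
  · rw [hJ']; exact mul_le_mul_of_nonneg_right hm1 hG.le
  · rw [hJ']; exact mul_le_mul_of_nonneg_right hm0 hG.le
  · have a1 : om * (l ^ 2 - l - 1) * s ≤ l * s := mul_le_mul_of_nonneg_right hom q0
    have a2 : nu * (l ^ 2 - l - 1) * sp ≤ 1 * sp := mul_le_mul_of_nonneg_right hnu p0
    have a3 : (l - 1) * ((l ^ 2 - l - 1) * (N + s) + l * sp) < (l - 1) * (l * (l ^ 2 - l - 1) * Np) :=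
      mul_lt_mul_of_pos_left p2 (by linarith)
    have hmu : 0 < l ^ 2 - l := by linarith
    have a4 : (l ^ 2 - l) * ((l ^ 2 - l - 1) * G + l * s + sp) <
        (l ^ 2 - l) * ((l ^ 2 - l - 1) * Np) := by
      have e : (l ^ 2 - l) * ((l ^ 2 - l - 1) * G) = (l ^ 2 - l - 1) * (N' - N + s' - s) := by
        rw [← q1]; ring
      nlinarith
    have a5 := lt_of_mul_lt_mul_left a4 hmu.le
    have : (l ^ 2 - l - 1) * (G + om * s + nu * sp) < (l ^ 2 - l - 1) * Np := by nlinarith
    exact lt_of_mul_lt_mul_left this hw.le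

open Filter Topology in
theorem ana (N D : ℕ → ℝ) (l b : ℝ) (h1 : 1 < l) (hm : l + 1 < l ^ 2) (h2 : l ≤ 2)
    (hb : b * (l ^ 2 - 1) < l) (hN : ∀ i, 0 < N i) (hmono : ∀ i, N i ≤ N (i + 1))
    (hD : ∀ i, D i ≤ D (i + 1))
    (hlow : ∀ ε : ℝ, 0 < ε → ∃ i0, ∀ i, i0 ≤ i → (1 / (l ^ 2 - l) - ε) * N i ≤ D i)
    (hup : ∀ i, D (i + 1) ≤ b * (N i + (D (i + 1) - D i))) :
    ∃ (i0 : ℕ) (L th : ℝ), L < 2 ∧ th < 1 ∧ (∀ i, i0 ≤ i → N (i + 1) ≤ L * N i ∧
      D (i + 2) - D (i + 1) ≤ th * N i) ∧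
      ∀ i, i0 ≤ i → ∃ s : ℕ → ℝ, 0 ≤ s 8 ∧ ∀ k, k < 8 →
        Ex l (N (i + k)) (s k) (D (i + k + 1) - D (i + k)) (N (i + k + 1)) (s (k + 1)) := by
  have hmu : 0 < l ^ 2 - l := by linarith
  have hw : 0 < l ^ 2 - 1 := by linarith
  set A : ℝ := 1 / (l ^ 2 - l) with hA
  have hA1 : A * (l ^ 2 - l) = 1 := by rw [hA]; exact one_div_mul_cancel hmu.ne'
  have hA0 : 0 < A := by positivity
  have hAlt : A < 1 := by rw [hA, div_lt_one hmu]; linarith
  obtain ⟨c, hc1, hc2, hc3⟩ : ∃ c : ℝ, b < c ∧ c * (l ^ 2 - 1) < l ∧ A < c := by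
    have k1 : b < l / (l ^ 2 - 1) := by rwa [lt_div_iff₀ hw]
    have k2 : A < l / (l ^ 2 - 1) := by
      rw [hA, div_lt_div_iff₀ hmu hw]
      nlinarith [mul_pos (sub_pos.2 h1) (sub_pos.2 hm)]
    obtain ⟨c, c1, c2⟩ := exists_between (max_lt k1 k2)
    exact ⟨c, lt_of_le_of_lt (le_max_left _ _) c1, by rwa [lt_div_iff₀ hw] at c2,
      lt_of_le_of_lt (le_max_right _ _) c1⟩
  have hc0 : 0 < c := by linarith
  have hclt : c < 1 := by nlinarith
  -- strict polynomial inequalities at ε = 0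
  have f1 : c * (1 - A) < 2 * A * (1 - c) := by
    have : (l ^ 2 - l) * (c * (1 - A)) < (l ^ 2 - l) * (2 * A * (1 - c)) := by
      have e1 : (l ^ 2 - l) * (c * (1 - A)) = c * (l ^ 2 - l - 1) := by
        linear_combination (-c) * hA1
      have e2 : (l ^ 2 - l) * (2 * A * (1 - c)) = 2 * (1 - c) := by
        linear_combination (2 * (1 - c)) * hA1
      rw [e1, e2]
      have : (l ^ 2 - 1) * (c * (l ^ 2 - l + 1)) < (l ^ 2 - 1) * 2 := by
        have a1 : c * (l ^ 2 - 1) * (l ^ 2 - l + 1) < l * (l ^ 2 - l + 1) :=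
          mul_lt_mul_of_pos_right hc2 (by nlinarith)
        have a2 : l * (l ^ 2 - l + 1) ≤ (l ^ 2 - 1) * 2 := by
          nlinarith [mul_nonneg (sub_nonneg.2 h2) (sub_pos.2 hm).le]
        nlinarith
      have := lt_of_mul_lt_mul_left this hw.le
      linarith
    exact lt_of_mul_lt_mul_left this hmu.le
  have f2 : c * (1 - A) * (c - A) < A * (1 - c) ^ 2 := by
    have g1 : c * (1 - A) < l * A * (1 - c) := by
      have : (l ^ 2 - l) * (c * (1 - A)) < (l ^ 2 - l) * (l * A * (1 - c)) := by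
        have e1 : (l ^ 2 - l) * (c * (1 - A)) = c * (l ^ 2 - l - 1) := by
          linear_combination (-c) * hA1
        have e2 : (l ^ 2 - l) * (l * A * (1 - c)) = l * (1 - c) := by
          linear_combination (l * (1 - c)) * hA1
        rw [e1, e2]; nlinarith
      exact lt_of_mul_lt_mul_left this hmu.le
    have g2 : l * (c - A) < 1 - c := by
      have : (l - 1) * (l * (c - A)) < (l - 1) * (1 - c) := by
        have e1 : (l - 1) * (l * (c - A)) = c * (l ^ 2 - l) - 1 := by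
          linear_combination (-1) * hA1
        rw [e1]; nlinarith
      exact lt_of_mul_lt_mul_left this (by linarith)
    have g3 : c * (1 - A) * (c - A) ≤ l * A * (1 - c) * (c - A) :=
      mul_le_mul_of_nonneg_right g1.le (by linarith)
    have g4 : A * (1 - c) * (l * (c - A)) < A * (1 - c) * (1 - c) :=
      mul_lt_mul_of_pos_left g2 (mul_pos hA0 (by linarith))
    nlinarith
  have ev : ∀ᶠ ε in 𝓝[>] (0 : ℝ), 0 < ε ∧ ε < A ∧ 256 * ε < c - b ∧
      c * (1 - (A - ε)) < 2 * (A - ε) * (1 - c) ∧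
      c * (1 - (A - ε)) * (c - (A - ε)) < (A - ε) * (1 - c) ^ 2 := by
    refine eventually_mem_nhdsWithin.and (Eventually.filter_mono nhdsWithin_le_nhds ?_)
    refine Eventually.and ?_ (Eventually.and ?_ (Eventually.and ?_ ?_))
    · exact ContinuousAt.eventually_lt (by fun_prop) (by fun_prop) (by simpa using hA0)
    · exact ContinuousAt.eventually_lt (by fun_prop) (by fun_prop) (by simpa using hc1)
    · exact ContinuousAt.eventually_lt (by fun_prop) (by fun_prop) (by simpa using f1)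
    · exact ContinuousAt.eventually_lt (by fun_prop) (by fun_prop) (by simpa using f2)
  obtain ⟨ε, e0, e1, e2, e3, e4⟩ := ev.exists
  obtain ⟨i0, hi0⟩ := hlow ε e0
  set e : ℝ := A - ε with he
  have he0 : 0 < e := by linarith
  have hd : 0 < e * (1 - c) := mul_pos he0 (by linarith)
  have hup' : ∀ i, D (i + 1) ≤ c * (N i + (D (i + 1) - D i)) := fun i =>
    (hup i).trans (mul_le_mul_of_nonneg_right hc1.le (by linarith [hN i, hD i]))
  set L : ℝ := c * (1 - e) / (e * (1 - c)) with hL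
  set ka : ℝ := (c - e) / (1 - c) with hka
  have hL2 : L < 2 := by rw [hL, div_lt_iff₀ hd]; linarith
  have hka0 : 0 ≤ ka := div_nonneg (by linarith) (by linarith)
  have hth : ka * L < 1 := by
    rw [hka, hL, div_mul_div_comm, div_lt_one (mul_pos (by linarith) hd)]
    nlinarith
  have s1 : ∀ i, i0 ≤ i → N (i + 1) ≤ L * N i := by
    intro i hi
    have a1 := hi0 i hi
    have a2 := hi0 (i + 1) (by omega)
    have a3 := hup' i
    rw [hL, div_mul_eq_mul_div, le_div_iff₀ hd]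
    have a4 : c * (e * N i) ≤ c * D i := mul_le_mul_of_nonneg_left a1 hc0.le
    have a5 : (1 - c) * (e * N (i + 1)) ≤ (1 - c) * D (i + 1) :=
      mul_le_mul_of_nonneg_left a2 (by linarith)
    nlinarith
  have s2 : ∀ i, i0 ≤ i → D (i + 1) - D i ≤ ka * N i := by
    intro i hi
    have a1 := hi0 i hi
    have a3 := hup' i
    rw [hka, div_mul_eq_mul_div, le_div_iff₀ (by linarith)]
    nlinarith
  refine ⟨i0, L, ka * L, hL2, hth, fun i hi => ⟨s1 i hi, ?_⟩, fun i hi => ?_⟩
  · have a1 := s2 (i + 1) (by omega)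
    have a2 := mul_le_mul_of_nonneg_left (s1 i hi) hka0
    rw [show i + 2 = i + 1 + 1 by ring]
    linarith
  · have big : ∀ k, N (i + k) ≤ 2 ^ k * N i := by
      intro k
      induction k with
      | zero => simp
      | succ k ih =>
        have a1 := s1 (i + k) (by omega)
        have a2 := mul_le_mul_of_nonneg_right hL2.le (hN (i + k)).le
        rw [pow_succ, ← add_assoc]
        linarith
    have mono : ∀ k, N i ≤ N (i + k) := fun k =>
      monotone_nat_of_le_succ hmono (Nat.le_add_right i k)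
    have b8 := big 8
    have pos : ∀ k, k ≤ 8 → 0 ≤ (l ^ 2 - l) * (D (i + k) + ε * N (i + 8)) - N (i + k) := by
      intro k hk
      have a1 := hi0 (i + k) (by omega)
      have a2 : N (i + k) ≤ N (i + 8) := monotone_nat_of_le_succ hmono (by omega)
      have a3 : ε * N (i + k) ≤ ε * N (i + 8) := mul_le_mul_of_nonneg_left a2 e0.le
      have a4 : A * N (i + k) ≤ D (i + k) + ε * N (i + 8) := by rw [he] at a1; linarith
      have a5 := mul_le_mul_of_nonneg_left a4 hmu.le
      have a6 : (l ^ 2 - l) * (A * N (i + k)) = N (i + k) := by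
        linear_combination (N (i + k)) * hA1
      linarith
    refine ⟨fun k => (l ^ 2 - l) * (D (i + k) + ε * N (i + 8)) - N (i + k), pos 8 le_rfl,
      fun k hk => ⟨pos k hk.le, by simp only [← add_assoc]; ring, ?_⟩⟩
    simp only [← add_assoc]
    have a1 := hup (i + k)
    have a2 := mono k
    have a3 := hD (i + k)
    have a4 := hN i
    have a5 : ε * N (i + 8) ≤ (c - b) * (N (i + k) + (D (i + k + 1) - D (i + k))) := by
      have : ε * N (i + 8) ≤ ε * (2 ^ 8 * N i) := mul_le_mul_of_nonneg_left b8 e0.le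
      have a6 : (c - b) * N i ≤ (c - b) * (N (i + k) + (D (i + k + 1) - D (i + k))) :=
        mul_le_mul_of_nonneg_left (by linarith) (by linarith)
      nlinarith
    have a6 : (l ^ 2 - 1) * (D (i + k + 1) + ε * N (i + 8)) <
        l * (N (i + k) + (D (i + k + 1) - D (i + k))) := by
      have a7 : D (i + k + 1) + ε * N (i + 8) ≤ c * (N (i + k) + (D (i + k + 1) - D (i + k))) := by
        linarith
      have a8 := mul_le_mul_of_nonneg_left a7 hw.le
      have a9 : c * (l ^ 2 - 1) * (N (i + k) + (D (i + k + 1) - D (i + k))) <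
          l * (N (i + k) + (D (i + k + 1) - D (i + k))) :=
        mul_lt_mul_of_pos_right hc2 (by linarith)
      nlinarith
    have a7 := mul_lt_mul_of_pos_left a6 hmu
    nlinarith

end Pool.Agent.Lib.MP_41a716_co.H52
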