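import Pool.Agent.Lib.MP_41a716_co.H52Ana

set_option autoImplicit false
set_option linter.unusedVariables false
set_option linter.style.longLine false

namespace Pool.Agent.Lib.MP_41a716_co.H52

structure Step (N x y a v D j m Y Z N' x' y' a' v' D' : ℕ) : Prop where
  e : N' = N + j * y
  j1 : 1 ≤ j
  m1 : 1 ≤ m
  xy : N + 2 ≤ x + y
  ay : a < y
  vx : v < x
  tz : a = 0 ∨ v = 0
  DD : D < D'
  gG : D + m * x ≤ D' + x
  link : (y' = y ∧ x' = j * y + m * x ∧ a' = Y ∧ v' = Z) ∨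
    (x' = y ∧ y' = j * y + m * x ∧ a' = Z ∧ v' = Y)
  cs : (Y = 0 ∧ Z = m * x + a ∧ D' + x = D + m * x + v) ∨
    (Y = 0 ∧ Z = m * x ∧ D + m * x + a + v ≤ D') ∨
    (Y = 0 ∧ x + v ≤ Z ∧ Z + x ≤ m * x + v ∧ D' + x = D + m * x + a) ∨
    (2 ≤ m ∧ Y = a ∧ Z = v ∧ D' + x = D + m * x) ∨ (2 ≤ m ∧ 2 ≤ j)

theorem mul_cases (j y : ℕ) (hj : 1 ≤ j) : (j = 1 ∧ j * y = y) ∨ (2 ≤ j ∧ 2 * y ≤ j * y) := by
  rcases hj.lt_or_eq with h | h
  · exact Or.inr ⟨h, Nat.mul_le_mul_right y h⟩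
  · subst h; simp

theorem redK {N0 x0 y0 a0 v0 D0 j0 m0 Y0 Z0 N x y a v D j m Y Z N' x' y' a' v' D' : ℕ}
    (p : Step N0 x0 y0 a0 v0 D0 j0 m0 Y0 Z0 N x y a v D)
    (h : Step N x y a v D j m Y Z N' x' y' a' v' D') (hG : D' < D + N0)
    (hK : y = y0 ∧ x = j0 * y0 + m0 * x0 ∧ a = Y0 ∧ v = Z0) :
    m = 1 ∧ D' = D + v ∧ a = 0 ∧ Z = x ∧ Y = 0 := by
  have h1 := Nat.le_mul_of_pos_left y0 p.j1
  have h2 := Nat.le_mul_of_pos_left x0 p.m1
  have h3 := p.xy
  have h4 := h.gG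
  have h5 := h.DD
  have h6 := h.tz
  have h7 := h.vx
  rcases mul_cases m x h.m1 with ⟨k1, k2⟩ | ⟨k1, k2⟩
  · have := h.cs
    omega
  · omega

theorem redS {N0 x0 y0 a0 v0 D0 j0 m0 Y0 Z0 N x y a v D j m Y Z N' x' y' a' v' D' : ℕ}
    (p : Step N0 x0 y0 a0 v0 D0 j0 m0 Y0 Z0 N x y a v D)
    (h : Step N x y a v D j m Y Z N' x' y' a' v' D') (h0 : N < 2 * N0) (h1 : N' < 2 * N)
    (hS : x = y0 ∧ y = j0 * y0 + m0 * x0 ∧ a = Z0 ∧ v = Y0) :
    j = 1 ∧ (j0 * y0 + x ≤ m * x ∨ m * x ≤ j0 * y0) := by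
  have k1 := Nat.le_mul_of_pos_left y0 p.j1
  have k2 := Nat.le_mul_of_pos_left x0 p.m1
  have k3 := p.xy
  have k4 := p.e
  have k5 := h.e
  constructor
  · rcases mul_cases j y h.j1 with ⟨q1, q2⟩ | ⟨q1, q2⟩
    · exact q1
    · omega
  · rw [hS.1]
    rcases le_or_gt m j0 with q | q
    · exact Or.inr (Nat.mul_le_mul_right _ q)
    · left
      have := Nat.mul_le_mul_right y0 (show j0 + 1 ≤ m from q)
      rwa [add_mul, one_mul] at this

theorem toBs {N x y a v D j m Y Z N' x' y' a' v' D' : ℕ}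
    (h : Step N x y a v D j m Y Z N' x' y' a' v' D') (hc : m = 1 ∨ j = 1) {s : ℝ} (hs : 0 ≤ s) :
    Bs N x y a v ((D' : ℝ) - D) ((j * y : ℕ) : ℝ) (((m * x : ℕ) : ℝ) - x) Y Z s N' := by
  have k1 := Nat.le_mul_of_pos_left y h.j1
  have k2 := Nat.le_mul_of_pos_left x h.m1
  have k3 : m * x = x ∨ m * x = 2 * x ∨ 3 * x ≤ m * x := by
    rcases h.m1.lt_or_eq with q | q
    · rcases (show 2 ≤ m from q).lt_or_eq with q' | q'
      · exact Or.inr (Or.inr (Nat.mul_le_mul_right x q'))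
      · subst q'; simp
    · subst q; simp
  have k4 : 2 ≤ m → 2 * x ≤ m * x := fun q => Nat.mul_le_mul_right x q
  have k5 : j * y = y ∨ 2 * y ≤ j * y := (mul_cases j y h.j1).imp (·.2) (·.2)
  obtain ⟨e, -, -, xy, ay, vx, tz, DD, gG, -, cs⟩ := h
  generalize j * y = J at *
  generalize m * x = R at *
  have c : ∀ {p q : ℕ}, p ≤ q → (p : ℝ) ≤ q := fun h => by exact_mod_cast h
  have c' : ∀ {p q : ℕ}, p < q → (p : ℝ) < q := fun h => by exact_mod_cast h
  have c'' : ∀ {p q : ℕ}, p = q → (p : ℝ) = q := fun h => by exact_mod_cast h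
  refine ⟨by exact_mod_cast e, c k1, by linarith [c k2], ?_, by linarith [c' DD], ?_, by positivity,
    c' ay, by positivity, c' vx, hs, by positivity, by positivity, ?_, ?_, ?_, ?_⟩
  · have := c gG; push_cast at this; linarith
  · have := c xy; push_cast at this; linarith
  · rcases k5 with q | q
    · exact Or.inl (c'' q)
    · right; have := c q; push_cast at this; linarith
  · rcases k3 with q | q | q
    · left; have := c'' q; linarith
    · right; left; have := c'' q; push_cast at this; linarith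
    · right; right; have := c q; push_cast at this; linarith
  · rcases tz with q | q
    · left; exact_mod_cast q
    · right; exact_mod_cast q
  · rcases cs with ⟨q1, q2, q3⟩ | ⟨q1, q2, q3⟩ | ⟨q1, q2, q3, q4⟩ | ⟨q1, q2, q3, q4⟩ | ⟨q1, q2⟩
    · left
      have a2 := c'' q2; have a3 := c'' q3; push_cast at a2 a3
      exact ⟨by exact_mod_cast q1, by linarith, by linarith⟩
    · right; left
      have a2 := c'' q2; have a3 := c q3; push_cast at a2 a3
      exact ⟨by exact_mod_cast q1, by linarith, by linarith⟩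
    · right; right; left
      have a2 := c q2; have a3 := c q3; have a4 := c'' q4; push_cast at a2 a3 a4
      exact ⟨by exact_mod_cast q1, by linarith, by linarith, by linarith⟩
    · right; right; right
      have a1 := c (k4 q1); have a4 := c'' q4; push_cast at a1 a4
      exact ⟨by linarith, c'' q2, c'' q3, by linarith⟩
    · omega

theorem arith (N x y a v D j m Y Z : ℕ → ℕ) (i0 : ℕ) (l L th : ℝ) (h1 : 1 < l) (hm : l + 1 < l ^ 2)
    (h2 : l ≤ 2) (hL : L < 2) (hth : th < 1) (hN : ∀ i, 0 < N i)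
    (hs : ∀ i, i0 ≤ i → Step (N i) (x i) (y i) (a i) (v i) (D i) (j i) (m i) (Y i) (Z i)
      (N (i + 1)) (x (i + 1)) (y (i + 1)) (a (i + 1)) (v (i + 1)) (D (i + 1)))
    (hA : ∀ i, i0 ≤ i → (N (i + 1) : ℝ) ≤ L * N i ∧ (D (i + 2) : ℝ) - D (i + 1) ≤ th * N i)
    (hE : ∀ i, i0 ≤ i → ∃ s : ℕ → ℝ, 0 ≤ s 8 ∧ ∀ k, k < 8 →
        Ex l (N (i + k)) (s k) ((D (i + k + 1) : ℝ) - D (i + k)) (N (i + k + 1)) (s (k + 1))) :
    False := by
  have hN' : ∀ i, (0 : ℝ) < N i := fun i => by exact_mod_cast hN i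
  have n2 : ∀ i, i0 ≤ i → N (i + 1) < 2 * N i := by
    intro i hi
    have := (hA i hi).1
    have h3 := mul_lt_mul_of_pos_right hL (hN' i)
    have : (N (i + 1) : ℝ) < 2 * N i := by linarith
    exact_mod_cast this
  have g1 : ∀ i, i0 ≤ i → D (i + 1 + 1) < D (i + 1) + N i := by
    intro i hi
    have := (hA i hi).2
    have h3 := mul_lt_mul_of_pos_right hth (hN' i)
    have : (D (i + 2) : ℝ) < D (i + 1) + N i := by linarith
    exact_mod_cast this
  have inc : ∀ i, i0 ≤ i → N i < N (i + 1) := by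
    intro i hi
    have q := hs i hi
    have := Nat.le_mul_of_pos_left (y i) q.j1
    have := q.ay
    have := q.e
    omega
  have grow : ∀ i k, i0 ≤ i → k ≤ N (i + k) := by
    intro i k hi
    induction k with
    | zero => omega
    | succ k ih => have := inc (i + k) (by omega); rw [← add_assoc]; omega
  let K : ℕ → Prop := fun i =>
    y (i + 1) = y i ∧ x (i + 1) = j i * y i + m i * x i ∧ a (i + 1) = Y i ∧ v (i + 1) = Z i
  let S : ℕ → Prop := fun i =>
    x (i + 1) = y i ∧ y (i + 1) = j i * y i + m i * x i ∧ a (i + 1) = Z i ∧ v (i + 1) = Y i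
  have KS : ∀ i, i0 ≤ i → K i ∨ S i := fun i hi => (hs i hi).link
  have rK : ∀ i, i0 ≤ i → K i → m (i + 1) = 1 ∧ D (i + 1 + 1) = D (i + 1) + v (i + 1) ∧
      a (i + 1) = 0 ∧ Z (i + 1) = x (i + 1) ∧ Y (i + 1) = 0 := fun i hi hK =>
    redK (hs i hi) (hs (i + 1) (by omega)) (g1 i hi) hK
  have rS : ∀ i, i0 ≤ i → S i → j (i + 1) = 1 ∧
      (j i * y i + x (i + 1) ≤ m (i + 1) * x (i + 1) ∨ m (i + 1) * x (i + 1) ≤ j i * y i) :=
    fun i hi hS => redS (hs i hi) (hs (i + 1) (by omega)) (n2 i hi) (n2 (i + 1) (by omega)) hS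
  have bs : ∀ i, i0 ≤ i → ∀ s : ℝ, 0 ≤ s → Bs (N (i + 1)) (x (i + 1)) (y (i + 1)) (a (i + 1))
      (v (i + 1)) ((D (i + 1 + 1) : ℝ) - D (i + 1)) ((j (i + 1) * y (i + 1) : ℕ) : ℝ)
      (((m (i + 1) * x (i + 1) : ℕ) : ℝ) - x (i + 1)) (Y (i + 1)) (Z (i + 1)) s (N (i + 1 + 1)) := by
    intro i hi s h0
    refine toBs (hs (i + 1) (by omega)) ?_ h0
    rcases KS i hi with q | q
    · exact Or.inl (rK i hi q).1
    · exact Or.inr (rS i hi q).1
  have tK : ∀ i, i0 ≤ i → K i → RK (x i) (y i) ((j i * y i : ℕ) : ℝ) (((m i * x i : ℕ) : ℝ) - x i)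
      (Y i) (Z i) (x (i + 1)) (y (i + 1)) (a (i + 1)) (v (i + 1)) ((D (i + 1 + 1) : ℝ) - D (i + 1))
      (((m (i + 1) * x (i + 1) : ℕ) : ℝ) - x (i + 1)) (Y (i + 1)) (Z (i + 1)) := by
    intro i hi q
    obtain ⟨q1, q2, q3, q4, q5⟩ := rK i hi q
    obtain ⟨p1, p2, p3, p4⟩ := q
    refine ⟨by rw [q1]; simp, by rw [q2]; push_cast; ring, by exact_mod_cast q3,
      by exact_mod_cast q4, by exact_mod_cast q5, by exact_mod_cast p1,
      by rw [p2]; push_cast; ring, by exact_mod_cast p3, by exact_mod_cast p4⟩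
  have tS : ∀ i, i0 ≤ i → S i → RS' (x i) (y i) ((j i * y i : ℕ) : ℝ) (((m i * x i : ℕ) : ℝ) - x i)
      (Y i) (Z i) (x (i + 1)) (y (i + 1)) (a (i + 1)) (v (i + 1)) ((j (i + 1) * y (i + 1) : ℕ) : ℝ)
      (((m (i + 1) * x (i + 1) : ℕ) : ℝ) - x (i + 1)) := by
    intro i hi q
    obtain ⟨q1, q2⟩ := rS i hi q
    obtain ⟨p1, p2, p3, p4⟩ := q
    refine ⟨by rw [q1]; simp, by exact_mod_cast p1, by rw [p2]; push_cast; ring,
      by exact_mod_cast p3, by exact_mod_cast p4, ?_⟩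
    rcases q2 with q | q
    · left
      have : ((j i * y i + x (i + 1) : ℕ) : ℝ) ≤ ((m (i + 1) * x (i + 1) : ℕ) : ℝ) := by
        exact_mod_cast q
      rw [Nat.cast_add] at this
      linarith
    · right
      have : ((m (i + 1) * x (i + 1) : ℕ) : ℝ) ≤ ((j i * y i : ℕ) : ℝ) := by exact_mod_cast q
      linarith
  have tKS := fun i hi => (KS i hi).imp (tK i hi) (tS i hi)
  have win : ∀ i, i0 ≤ i → m (i + 3) = 1 → ¬ S (i + 3) := by
    intro i hi hm1 hS
    obtain ⟨s, s8, hx⟩ := hE i hi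
    have s0 : ∀ k, k < 8 → 0 ≤ s k := fun k hk => (hx k hk).1
    have bm := bs i hi (s 1) (s0 1 (by omega))
    have GG : ∀ k, (0 : ℝ) < (D (i + k + 1) : ℝ) - D (i + k) := fun k => by
      have : (D (i + k) : ℝ) < D (i + k + 1) := by exact_mod_cast (hs (i + k) (by omega)).DD
      linarith
    have JJ : ∀ k, (N (i + k + 1) : ℝ) = N (i + k) + ((j (i + k) * y (i + k) : ℕ) : ℝ) := fun k => by
      exact_mod_cast (hs (i + k) (by omega)).e
    have AA : ∀ l1 m1 m0 om nu : ℝ, l ≤ l1 → l ^ 2 - l ≤ m1 → m0 ≤ l ^ 2 - l →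
        om * (l ^ 2 - l - 1) ≤ l → nu * (l ^ 2 - l - 1) ≤ 1 →
        An l1 m1 m0 om nu (N i) (s 0) (N (i + 1)) (s 1) ((D (i + 2) : ℝ) - D (i + 1))
          ((N (i + 2) : ℝ) - N (i + 1)) (N (i + 2)) (s 2) ∧
        An l1 m1 m0 om nu (N (i + 1)) (s 1) (N (i + 2)) (s 2) ((D (i + 3) : ℝ) - D (i + 2))
          ((j (i + 2) * y (i + 2) : ℕ) : ℝ) (N (i + 3)) (s 3) ∧
        An l1 m1 m0 om nu (N (i + 2)) (s 2) (N (i + 3)) (s 3) ((D (i + 4) : ℝ) - D (i + 3))
          ((j (i + 3) * y (i + 3) : ℕ) : ℝ) (N (i + 4)) (s 4) ∧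
        An l1 m1 m0 om nu (N (i + 3)) (s 3) (N (i + 4)) (s 4) ((D (i + 5) : ℝ) - D (i + 4))
          ((j (i + 4) * y (i + 4) : ℕ) : ℝ) (N (i + 5)) (s 5) ∧
        An l1 m1 m0 om nu (N (i + 4)) (s 4) (N (i + 5)) (s 5) ((D (i + 6) : ℝ) - D (i + 5))
          ((j (i + 5) * y (i + 5) : ℕ) : ℝ) (N (i + 6)) (s 6) ∧
        An l1 m1 m0 om nu (N (i + 5)) (s 5) (N (i + 6)) (s 6) ((D (i + 7) : ℝ) - D (i + 6))
          ((j (i + 6) * y (i + 6) : ℕ) : ℝ) (N (i + 7)) (s 7) ∧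
        An l1 m1 m0 om nu (N (i + 6)) (s 6) (N (i + 7)) (s 7) ((D (i + 8) : ℝ) - D (i + 7))
          ((j (i + 7) * y (i + 7) : ℕ) : ℝ) (N (i + 8)) (s 8) := by
      intro l1 m1 m0 om nu c1 c2 c3 c4 c5
      have A := fun k (hk : k + 1 < 8) J hJ => an_of_ex (J := J) h1 hm c1 c2 c3 c4 c5
        (hx k (by omega)) (hx (k + 1) hk) (hN' _) (GG (k + 1)) hJ
      exact ⟨A 0 (by omega) _ (by ring), A 1 (by omega) _ (JJ 2), A 2 (by omega) _ (JJ 3),
        A 3 (by omega) _ (JJ 4), A 4 (by omega) _ (JJ 5), A 5 (by omega) _ (JJ 6),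
        A 6 (by omega) _ (JJ 7)⟩
    refine window (bs (i + 1) (by omega) _ (s0 2 (by omega))) (bs (i + 2) (by omega) _ (s0 3 (by omega)))
      (bs (i + 3) (by omega) _ (s0 4 (by omega))) (bs (i + 4) (by omega) _ (s0 5 (by omega)))
      (bs (i + 5) (by omega) _ (s0 6 (by omega))) (bs (i + 6) (by omega) _ (s0 7 (by omega)))
      (hN' _) s8 (by rw [show i + 2 + 1 = i + 3 by rfl, hm1]; simp)
      (by exact_mod_cast (inc (i + 1) (by omega)).le) (s0 1 (by omega)) (GG 1) (hN' (i + 1)) ?_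
      (tKS (i + 2) (by omega)) (tKS (i + 4) (by omega)) (tKS (i + 5) (by omega))
      (tKS (i + 6) (by omega)) (tS (i + 3) (by omega) hS)
      (AA _ _ _ _ _ h2 (by nlinarith) (by linarith) (by nlinarith) (by nlinarith)) ?_
    · obtain ⟨b1, b2, b3, b4, b5, b6, b7, b8, b9, b10, -, -, -, -, -, -, bc⟩ := bm
      rcases tKS (i + 1) (by omega) with ⟨q1, q2, q3, q4, q5, q6, q7, q8, q9⟩ | ⟨q1, q2, q3, q4, q5, q6⟩
      · left
        refine ⟨q1, q2, q3, q4, q5, by linarith, by linarith, ?_⟩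
        rcases bc with ⟨c1, c2, c3⟩ | ⟨c1, c2, c3⟩ | ⟨c1, c2, c3, c4⟩ | ⟨c1, c2, c3, c4⟩
        · rcases (hs (i + 1) (by omega)).tz with q | q
          · left
            have : (a (i + 1) : ℝ) = 0 := by exact_mod_cast q
            linarith
          · right
            have : (v (i + 1) : ℝ) = 0 := by exact_mod_cast q
            linarith
        · left; linarith
        · left; linarith
        · left; linarith
      · right
        exact ⟨q1, by linarith⟩
    · rcases le_total (79 / 40) l with c1 | c1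
      · exact Or.inl (AA _ _ _ _ _ h2 (by nlinarith) (by nlinarith) (by nlinarith) (by nlinarith))
      rcases le_total (193 / 100) l with c2 | c2
      · exact Or.inr (Or.inl (AA _ _ _ _ _ c1 (by nlinarith) (by nlinarith) (by nlinarith) (by nlinarith)))
      rcases le_total (46 / 25) l with c3 | c3
      · exact Or.inr (Or.inr (Or.inl
          (AA _ _ _ _ _ c2 (by nlinarith) (by nlinarith) (by nlinarith) (by nlinarith))))
      · exact Or.inr (Or.inr (Or.inr
          (AA _ _ _ _ _ c3 (by nlinarith) (by linarith) (by nlinarith) (by nlinarith))))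
  by_cases hK : ∃ i, i0 + 2 ≤ i ∧ K i
  · obtain ⟨i, hi, hKi⟩ := hK
    have all : ∀ k, K (i + k) ∧ y (i + k) = y i := by
      intro k
      induction k with
      | zero => exact ⟨hKi, rfl⟩
      | succ k ih =>
        refine ⟨?_, ih.1.1.trans ih.2⟩
        have q := (rK (i + k) (by omega) ih.1).1
        obtain ⟨t, ht⟩ : ∃ t, i + k = t + 2 := ⟨i + k - 2, by omega⟩
        have := win t (by omega) (by rw [show t + 3 = t + 2 + 1 by rfl, ← ht]; exact q)
        rw [show t + 3 = i + (k + 1) by omega] at this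
        exact (KS _ (by omega)).resolve_right this
    obtain ⟨k, hk⟩ := exists_nat_gt ((y i : ℝ) / (1 - th))
    rw [div_lt_iff₀ (by linarith)] at hk
    have q1 := rK (i + k) (by omega) (all k).1
    have q2 := rK (i + k + 1) (by omega) (all (k + 1)).1
    have q3 := (all (k + 1)).1.2.2.2
    have q4 := (all (k + 1)).2
    have q5 := (hs (i + k + 1) (by omega)).xy
    have q6 := (hA (i + k + 1) (by omega)).2
    have q7 := grow i (k + 1) (by omega)
    simp only [← add_assoc] at q3 q4 q7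
    have q8 : D (i + k + 1 + 1) + N (i + k + 1) ≤ D (i + k + 1 + 2) + y i := by
      rw [show i + k + 1 + 2 = i + k + 1 + 1 + 1 by rfl]; omega
    have q9 : (D (i + k + 1 + 1) : ℝ) + N (i + k + 1) ≤ D (i + k + 1 + 2) + y i := by
      exact_mod_cast q8
    have q10 : (k : ℝ) ≤ N (i + k + 1) := by exact_mod_cast (by omega)
    nlinarith
  · push Not at hK
    have allS : ∀ i, i0 + 2 ≤ i → S i := fun i hi => (KS i (by omega)).resolve_left (hK i hi)
    have m2 : ∀ i, i0 + 3 ≤ i → 2 ≤ m i := by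
      intro i hi
      by_contra hc
      obtain ⟨t, rfl⟩ : ∃ t, i = t + 3 := ⟨i - 3, by omega⟩
      have := (hs (t + 3) (by omega)).m1
      exact win t (by omega) (by omega) (allS _ (by omega))
    have dec : ∀ i, i0 + 3 ≤ i → N (i + 2) + y i ≤ N i + y (i + 2) := by
      intro i hi
      obtain ⟨t, rfl⟩ : ∃ t, i = t + 1 := ⟨i - 1, by omega⟩
      have q1 := (rS t (by omega) (allS t (by omega))).1
      have q2 := (hs (t + 1) (by omega)).e
      have q3 := (hs (t + 1 + 1) (by omega)).e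
      have q4 := (allS (t + 1) (by omega)).1
      have q5 := (allS (t + 1 + 1) (by omega)).2.1
      have q6 := Nat.mul_le_mul_right (x (t + 1 + 1)) (m2 (t + 1 + 1) (by omega))
      rw [q1, one_mul] at q2
      rw [show t + 1 + 2 = t + 1 + 1 + 1 by rfl]
      omega
    have all : ∀ k, N (i0 + 3 + 2 * k) + y (i0 + 3) ≤ N (i0 + 3) + y (i0 + 3 + 2 * k) := by
      intro k
      induction k with
      | zero => simp
      | succ k ih =>
        have := dec (i0 + 3 + 2 * k) (by omega)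
        rw [show i0 + 3 + 2 * (k + 1) = i0 + 3 + 2 * k + 2 by ring]
        omega
    obtain ⟨k, hk⟩ := exists_nat_gt ((N (i0 + 3) : ℝ) / (2 - L))
    rw [div_lt_iff₀ (by linarith)] at hk
    have q1 := all k
    have q2 := (hs (i0 + 3 + 2 * k) (by omega)).e
    have q3 := Nat.le_mul_of_pos_left (y (i0 + 3 + 2 * k)) (hs (i0 + 3 + 2 * k) (by omega)).j1
    have q4 := (hA (i0 + 3 + 2 * k) (by omega)).1
    have q5 := grow (i0 + 3) (2 * k) (by omega)
    have q6 : (2 * N (i0 + 3 + 2 * k) : ℝ) ≤ N (i0 + 3) + N (i0 + 3 + 2 * k + 1) := by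
      exact_mod_cast (by omega)
    have q7 : (k : ℝ) ≤ N (i0 + 3 + 2 * k) := by exact_mod_cast (by omega)
    nlinarith

end Pool.Agent.Lib.MP_41a716_co.H52
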