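import Pool.Agent.Lib.MP_41a716_co.H52Trans
import Pool.Agent.Lib.MP_41a716_co.Final

set_option autoImplicit false
set_option linter.unusedSectionVars false
set_option linter.unusedVariables false
set_option linter.style.longLine false

namespace Pool.Agent.Lib.MP_41a716_co.H52

variable {A : Type} [Finite A] {u : ℕ → A}

def Ev (u : ℕ → A) (n : ℕ) : Prop := ¬ Two u n ∧ Two u (n + 1)

theorem ev_inf {e b : ℝ} (he : 0 < e) (hb : b < 1) (n0 : ℕ)
    (hl : ∀ n, n0 ≤ n → (1 + e) * n ≤ pc u n) (hu : ∀ n, n0 ≤ n → (pc u n : ℝ) ≤ (1 + b) * n) :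
    {n | Ev u n}.Infinite := by
  classical
  have exN : ∀ n, ∃ m, n ≤ m ∧ ¬ Two u m := by
    intro n
    by_contra hc
    push Not at hc
    obtain ⟨k, hk⟩ := exists_nat_gt ((1 + b) * (n + n0) / (1 - b))
    rw [div_lt_iff₀ (by linarith)] at hk
    have h1 := pc_two (u := u) (n := n + n0) (k := k) fun m a _ => hc m (by omega)
    have h2 := hu (n + n0 + k) (by omega)
    have h3 : (2 * k : ℝ) ≤ pc u (n + n0 + k) := by exact_mod_cast (by omega)
    push_cast at h2
    nlinarith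
  have exT : ∀ n, ∃ m, n ≤ m ∧ Two u (m + 1) := by
    intro n
    by_contra hc
    push Not at hc
    obtain ⟨k, hk⟩ := exists_nat_gt ((pc u (n + n0 + 1) : ℝ) / e)
    rw [div_lt_iff₀ he] at hk
    have h1 := pc_one (u := u) (n := n + n0 + 1) (k := k) fun m a _ => by
      have := hc (m - 1) (by omega)
      rwa [show m - 1 + 1 = m by omega] at this
    have h2 := hl (n + n0 + 1 + k) (by omega)
    have h3 : (pc u (n + n0 + 1 + k) : ℝ) ≤ pc u (n + n0 + 1) + k := by exact_mod_cast h1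
    push_cast at h2
    have : (0 : ℝ) ≤ (1 + e) * (n + n0 + 1) := by positivity
    nlinarith
  apply Set.infinite_of_forall_exists_gt
  intro n
  obtain ⟨M, hM1, hM⟩ := exN (n + 1)
  obtain ⟨h1, h2⟩ := Nat.find_spec (exT M)
  have hmin : ∀ m, M ≤ m → m < Nat.find (exT M) → ¬ Two u (m + 1) := fun m a c h =>
    Nat.find_min (exT M) c ⟨a, h⟩
  generalize Nat.find (exT M) = N' at h1 h2 hmin
  refine ⟨N', ⟨?_, h2⟩, by omega⟩
  rcases Nat.lt_or_eq_of_le h1 with h | h
  · have := hmin (N' - 1) (by omega) (by omega)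
    rwa [show N' - 1 + 1 = N' by omega] at this
  · exact h ▸ hM

theorem ev_gap {N N' : ℕ} (ha : Aper u) (h : Ev u N) (h' : Ev u N') (hN : N < N')
    (hno : ∀ n, N < n → n < N' → ¬ Ev u n) :
    pc u N + N' < pc u N' + N ∧
    ∃ M, N < M ∧ pc u N' + M = pc u M + N' ∧ pc u N + 2 * M ≤ pc u M + 2 * N + 1 := by
  classical
  have k2 := pc_succ ha N
  constructor
  · have h2 : N + 2 ≤ N' := by
      by_contra hc
      exact h'.1 ((show N' = N + 1 by omega) ▸ h.2)
    have k3 := h.2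
    unfold Two at k3
    have k4 := pc_add ha (N + 1 + 1) (N' - (N + 2))
    rw [show N + 1 + 1 + (N' - (N + 2)) = N' by omega] at k4
    omega
  have ex : ∃ M, N + 1 ≤ M ∧ ¬ Two u M := ⟨N', hN, h'.1⟩
  obtain ⟨h1, h2⟩ := Nat.find_spec ex
  have h3 : Nat.find ex ≤ N' := Nat.find_min' ex ⟨hN, h'.1⟩
  have hmin : ∀ m, N + 1 ≤ m → m < Nat.find ex → Two u m := fun m a c => by
    by_contra h
    exact Nat.find_min ex c ⟨a, h⟩
  generalize Nat.find ex = M at h1 h2 h3 hmin
  have hall : ∀ k, M + k ≤ N' → ¬ Two u (M + k) := by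
    intro k
    induction k with
    | zero => intro _; exact h2
    | succ k ih =>
      intro c t
      exact hno (M + k) (by omega) (by omega) ⟨ih (by omega), t⟩
  have k1 := pc_two (u := u) (n := N + 1) (k := M - (N + 1)) fun m a c => hmin m a (by omega)
  rw [show N + 1 + (M - (N + 1)) = M by omega] at k1
  have k3 := pc_one (u := u) (n := M) (k := N' - M) fun m a c => by
    have := hall (m - M) (by omega)
    rwa [show M + (m - M) = m by omega] at this
  have k4 := pc_add ha M (N' - M)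
  rw [show M + (N' - M) = N' by omega] at k3 k4
  exact ⟨M, h1, by omega, by omega⟩

theorem orient {N N' : ℕ} (ha : Aper u) (h : Ev u N) (h' : Ev u N') (hN : N < N') :
    ∃ r r' y x P a v, Lev u N r r' y x ∧ First u N r P ∧ Lcs u P (r + y) a ∧ Lcs u P (r' + x) v ∧
      ∀ q q' y' x', Lev u N' q q' y' x' → Eqv u (N + 1) q r := by
  obtain ⟨r, r', y, x, L⟩ := lev_exists ha h.1 h.2
  obtain ⟨q0, q0', y0, x0, L0⟩ := lev_exists ha h'.1 h'.2
  have key : ∀ r r' y x, Lev u N r r' y x → Eqv u (N + 1) q0 r →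
      ∃ r r' y x P a v, Lev u N r r' y x ∧ First u N r P ∧ Lcs u P (r + y) a ∧ Lcs u P (r' + x) v ∧
      ∀ q q' y' x', Lev u N' q q' y' x' → Eqv u (N + 1) q r := by
    intro r r' y x L e
    obtain ⟨P, hP⟩ := exists_first (u := u) N r
    obtain ⟨a, la⟩ := exists_lcs (u := u) P (r + y)
    obtain ⟨v, lv⟩ := exists_lcs (u := u) P (r' + x)
    exact ⟨r, r', y, x, P, a, v, L, hP, la, lv, fun q q' y' x' L' =>
      ((occ_of_RS L0.nt L0.rs L'.rs).mono hN).trans e⟩
  rcases occ_type L.nt L.rs (L.pre L0 ha hN.le) with e | e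
  · exact key _ _ _ _ L e
  · exact key _ _ _ _ L.symm e

theorem step_of {N r r' y x N' q q' y' x' P P' a v a' v' D D' : ℕ} (ha : Aper u)
    (h : Lev u N r r' y x) (two : Two u (N + 1)) (h' : Lev u N' q q' y' x') (hN : N < N')
    (hN2 : N' ≤ 2 * N) (hq : Eqv u (N + 1) q r)
    (hP : First u N r P) (hP' : First u N' q P') (la : Lcs u P (r + y) a)
    (lv : Lcs u P (r' + x) v) (lY : Lcs u P' (q + y') a') (lZ : Lcs u P' (q' + x') v')
    (hD : pc u N = D + N) (hD' : pc u N' = D' + N') (hDD : D < D') :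
    ∃ j m Y Z, Step N x y a v D j m Y Z N' x' y' a' v' D' := by
  obtain ⟨T, hT⟩ := exists_least (u := u) N
  obtain ⟨t1, t2, t3, -, -, t6⟩ := h.tails ha hP hT la lv
  have sf := h'.rs.shift (N' - N) N (by omega)
  have c : u (q + N') = u (r + N) ∨ u (q' + N') = u (r + N) := by
    rcases uniq h.nt h.rs sf with e | e
    · left
      have := e N (by omega)
      rwa [show q + (N' - N) + N = q + N' by omega] at this
    · rcases uniq h.nt h.rs sf.symm with e' | e'
      · right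
        have := e' N (by omega)
        rwa [show q' + (N' - N) + N = q' + N' by omega] at this
      · exact absurd ((e.trans e'.symm) N (by omega)) sf.2
  rcases c with c | c
  · obtain ⟨j, m, g1, g2, g3, g4, g5, g6, g7⟩ :=
      trans_core ha h two h' hN hN2 hq c hP hP' la lv lY lZ hD hD'
    exact ⟨j, m, a', v', g1, g2, g3, t6, t1, t2, t3, hDD, g6, Or.inl ⟨g4, g5, rfl, rfl⟩, g7⟩
  · obtain ⟨j, m, g1, g2, g3, g4, g5, g6, g7⟩ :=
      trans_core ha h two h'.symm hN hN2 ((h'.rs.1.symm.mono hN).trans hq) c hP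
        (hP'.congr h'.rs.1) la lv lZ lY hD hD'
    exact ⟨j, m, v', a', g1, g2, g3, t6, t1, t2, t3, hDD, g6, Or.inr ⟨g4, g5, rfl, rfl⟩, g7⟩

theorem lower_l (ha : Aper u) {l b : ℝ} (h1 : 1 < l) (hm : l + 1 < l ^ 2) (h2 : l ≤ 2)
    (hb : b * (l ^ 2 - 1) < l)
    (hl : ∀ ε : ℝ, 0 < ε → ∃ n0, ∀ n, n0 ≤ n → (1 + 1 / (l ^ 2 - l) - ε) * n ≤ pc u n)
    (n1 : ℕ) (hu : ∀ n, n1 ≤ n → (pc u n : ℝ) ≤ (1 + b) * n) : False := by
  classical
  have hw : 0 < l ^ 2 - 1 := by linarith
  have hmu : 0 < l ^ 2 - l := by linarith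
  obtain ⟨c, hc1, hc2⟩ : ∃ c : ℝ, b < c ∧ c * (l ^ 2 - 1) < l := by
    have k1 : b < l / (l ^ 2 - 1) := by rwa [lt_div_iff₀ hw]
    obtain ⟨c, c1, c2⟩ := _root_.exists_between k1
    exact ⟨c, c1, by rwa [lt_div_iff₀ hw] at c2⟩
  have hb1 : b < 1 := by nlinarith
  have hA : 0 < 1 / (l ^ 2 - l) := by positivity
  obtain ⟨n0, hn0⟩ := hl (1 / (l ^ 2 - l) / 2) (by positivity)
  have inf : {n | Ev u n}.Infinite :=
    ev_inf (e := 1 / (l ^ 2 - l) / 2) (by positivity) hb1 (n0 + n1)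
      (fun n hn => by have := hn0 n (by omega); linarith) (fun n hn => hu n (by omega))
  obtain ⟨k0, hk0⟩ := exists_nat_gt (1 / (c - b))
  rw [div_lt_iff₀ (by linarith)] at hk0
  let N : ℕ → ℕ := fun i => Nat.nth (Ev u) (i + (n1 + k0 + 1))
  have sm := Nat.nth_strictMono inf
  have Nge : ∀ i, i + (n1 + k0 + 1) ≤ N i := fun i => sm.le_apply
  have Nev : ∀ i, Ev u (N i) := fun i => Nat.nth_mem_of_infinite inf _
  have Nlt : ∀ i, N i < N (i + 1) := fun i => sm (by omega)
  have Nno : ∀ i n, N i < n → n < N (i + 1) → ¬ Ev u n := by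
    intro i n a1 a2 e
    rw [← Nat.nth_count e] at a1 a2
    have b1 := sm.lt_iff_lt.1 a1
    have b2 := sm.lt_iff_lt.1 a2
    omega
  let D : ℕ → ℕ := fun i => pc u (N i) - N i
  have hD : ∀ i, pc u (N i) = D i + N i := fun i => by
    have := ic_zero ha (N i)
    have := pc_eq (u := u) (N i)
    simp only [D]; omega
  have gap := fun i => ev_gap ha (Nev i) (Nev (i + 1)) (Nlt i) (Nno i)
  have DD : ∀ i, D i < D (i + 1) := fun i => by
    have := (gap i).1
    rw [hD, hD] at this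
    omega
  have N0 : ∀ i, 0 < N i := fun i => by have := Nge i; omega
  obtain ⟨i0, L, th, hL, hth, g1, g2⟩ := ana (fun i => (N i : ℝ)) (fun i => (D i : ℝ)) l c h1 hm h2
    hc2 (fun i => by exact_mod_cast N0 i) (fun i => by exact_mod_cast (Nlt i).le)
    (fun i => by exact_mod_cast (DD i).le) (fun ε hε => by
      obtain ⟨n2, hn2⟩ := hl ε hε
      refine ⟨n2, fun i hi => ?_⟩
      have := hn2 (N i) (by have := Nge i; omega)
      rw [hD] at this
      push_cast at this
      linarith) (fun i => by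
      obtain ⟨M, a1, a2, a3⟩ := (gap i).2
      have a4 := hu M (by have := Nge i; omega)
      rw [hD] at a2 a3
      have a5 : (pc u M : ℝ) = D (i + 1) + M := by exact_mod_cast (by omega)
      have a6 : (M : ℝ) + D i ≤ N i + D (i + 1) + 1 := by exact_mod_cast (by omega)
      have a7 : (k0 : ℝ) ≤ N i := by exact_mod_cast (by have := Nge i; omega)
      have a8 : (D i : ℝ) ≤ D (i + 1) := by exact_mod_cast (DD i).le
      have a9 : (D (i + 1) : ℝ) ≤ b * M := by linarith
      have a10 : (0 : ℝ) < D (i + 1) := by exact_mod_cast (by have := DD i; omega)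
      have b0 : 0 < b := by
        by_contra hc
        have : b * M ≤ 0 := mul_nonpos_of_nonpos_of_nonneg (by linarith) (by positivity)
        linarith
      have a11 : b * M ≤ b * (N i + (D (i + 1) - D i) + 1) :=
        mul_le_mul_of_nonneg_left (by linarith) b0.le
      have a12 : (k0 : ℝ) * (c - b) ≤ (N i + (D (i + 1) - D i)) * (c - b) :=
        mul_le_mul_of_nonneg_right (by linarith) (by linarith)
      nlinarith)
  choose r r' y x P a v o1 o2 o3 o4 o5 using fun i => orient ha (Nev i) (Nev (i + 1)) (Nlt i)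
  have st : ∀ i, ∃ j m Y Z, i0 ≤ i → Step (N i) (x i) (y i) (a i) (v i) (D i) j m Y Z
      (N (i + 1)) (x (i + 1)) (y (i + 1)) (a (i + 1)) (v (i + 1)) (D (i + 1)) := by
    intro i
    by_cases hi : i0 ≤ i
    · have b1 : N (i + 1) ≤ 2 * N i := by
        have := (g1 i hi).1
        have h3 := mul_le_mul_of_nonneg_right hL.le (show (0 : ℝ) ≤ N i by positivity)
        have : (N (i + 1) : ℝ) ≤ 2 * N i := by linarith
        exact_mod_cast this
      obtain ⟨j, m, Y, Z, s⟩ := step_of ha (o1 i) (Nev i).2 (o1 (i + 1)) (Nlt i) b1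
        (o5 i _ _ _ _ (o1 (i + 1))) (o2 i) (o2 (i + 1)) (o3 i) (o4 i) (o3 (i + 1)) (o4 (i + 1))
        (hD i) (hD (i + 1)) (DD i)
      exact ⟨j, m, Y, Z, fun _ => s⟩
    · exact ⟨0, 0, 0, 0, fun h => absurd h hi⟩
  choose j m Y Z st using st
  exact arith N x y a v D j m Y Z i0 l L th h1 hm h2 hL hth N0 st g1 g2

open Filter in
theorem lower_exact (u : ℕ → A) (C : ℝ) (hC : ∀ n : ℕ, 1 ≤ n → (pc u n : ℝ) ≤ C * n)
    {a b : ℝ} (ha : a = liminf (fun n : ℕ => (pc u n : ℝ) / n) atTop)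
    (hb : b = limsup (fun n : ℕ => (pc u n : ℝ) / n) atTop) (h1 : 3 / 2 ≤ a) (h2 : b < 2) :
    (a - 1) * (2 - b) ^ 2 ≤ (b - 1) * (2 - a) * (b - a) := by
  obtain ⟨bd1, bd2⟩ := bounds u C hC
  have hab : a ≤ b := by rw [ha, hb]; exact liminf_le_limsup bd1 bd2
  have low : ∀ x, x < a → ∀ᶠ n : ℕ in atTop, x * n ≤ pc u n := by
    intro x hx
    rw [ha] at hx
    filter_upwards [eventually_lt_of_lt_liminf hx bd2, eventually_ge_atTop 1] with n hn hn1
    rw [lt_div_iff₀ (by exact_mod_cast hn1)] at hn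
    exact hn.le
  have upp : ∀ x, b < x → ∀ᶠ n : ℕ in atTop, (pc u n : ℝ) ≤ x * n := by
    intro x hx
    rw [hb] at hx
    filter_upwards [eventually_lt_of_limsup_lt hx bd1, eventually_ge_atTop 1] with n hn hn1
    rw [div_lt_iff₀ (by exact_mod_cast hn1)] at hn
    exact hn.le
  have hap : Aper u := by
    apply aper_of_unbdd
    intro K
    obtain ⟨n, hn, hn'⟩ := ((low 1 (by linarith)).and (eventually_gt_atTop K)).exists
    refine ⟨n, ?_⟩
    have : (n : ℝ) ≤ pc u n := by linarith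
    have : n ≤ pc u n := by exact_mod_cast this
    omega
  by_contra hc
  push Not at hc
  obtain ⟨l, l1, l2⟩ : ∃ l : ℝ, 1 < l ∧ (l ^ 2 - l) * (a - 1) = 1 := by
    have p : 0 < a - 1 := by linarith
    have q : 0 ≤ 1 + 4 / (a - 1) := by positivity
    have s := Real.sq_sqrt q
    have s1 : 1 < √(1 + 4 / (a - 1)) := by
      apply Real.lt_sqrt_of_sq_lt
      have : 0 < 4 / (a - 1) := by positivity
      linarith
    refine ⟨(1 + √(1 + 4 / (a - 1))) / 2, by linarith, ?_⟩
    have : ((1 + √(1 + 4 / (a - 1))) / 2) ^ 2 - (1 + √(1 + 4 / (a - 1))) / 2 = 1 / (a - 1) := by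
      have : 4 / (a - 1) = 4 * (1 / (a - 1)) := by ring
      nlinarith
    rw [this]; field_simp
  have hmu : 0 < l ^ 2 - l := by nlinarith
  have hm : l + 1 < l ^ 2 := by nlinarith
  have hl2 : l ≤ 2 := by nlinarith
  have hA : 1 / (l ^ 2 - l) = a - 1 := by rw [div_eq_iff hmu.ne']; linarith
  have hB : (b - 1) * (l ^ 2 - 1) < l := by
    by_contra hq
    push Not at hq
    have p1 : l * (2 - b) ≤ (b - 1) * (l ^ 2 - l - 1) := by nlinarith
    have p2 : (l ^ 2 - l) * (2 - b) ≤ l * ((b - 1) * (l ^ 2 - l) - 1) := by nlinarith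
    have p3 := mul_le_mul p1 p2 (mul_nonneg hmu.le (by linarith))
      (mul_nonneg (by linarith) (by linarith))
    have e1 : (l ^ 2 - l) * (2 - a) = l ^ 2 - l - 1 := by linarith
    have e2 : (l ^ 2 - l) * (b - a) = (b - 1) * (l ^ 2 - l) - 1 := by linarith
    have p4 := mul_lt_mul_of_pos_left hc (show 0 < l * (l ^ 2 - l) ^ 2 by positivity)
    have e3 : l * (l ^ 2 - l) ^ 2 * ((b - 1) * (2 - a) * (b - a)) =
        (b - 1) * (l ^ 2 - l - 1) * (l * ((b - 1) * (l ^ 2 - l) - 1)) := by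
      rw [← e1, ← e2]; ring
    have e4 : l * (l ^ 2 - l) ^ 2 * ((a - 1) * (2 - b) ^ 2) =
        l * (2 - b) * ((l ^ 2 - l) * (2 - b)) := by
      linear_combination (l * (l ^ 2 - l) * (2 - b) ^ 2) * l2
    linarith
  have hw : 0 < l ^ 2 - 1 := by linarith
  obtain ⟨c, hc1, hc2⟩ : ∃ c : ℝ, b - 1 < c ∧ c * (l ^ 2 - 1) < l := by
    have k1 : b - 1 < l / (l ^ 2 - 1) := by rwa [lt_div_iff₀ hw]
    obtain ⟨c, c1, c2⟩ := _root_.exists_between k1
    exact ⟨c, c1, by rwa [lt_div_iff₀ hw] at c2⟩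
  obtain ⟨n1, hn1⟩ := eventually_atTop.1 (upp (1 + c) (by linarith))
  refine lower_l hap l1 hm hl2 hc2 (fun ε hε => ?_) n1 hn1
  rw [hA]
  exact eventually_atTop.1 (low _ (by linarith))

end Pool.Agent.Lib.MP_41a716_co.H52
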