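import Pool.Agent.Lib.MP_41a716_co.H52Adia
import Pool.Agent.Lib.MP_41a716_co.H52Lower

set_option autoImplicit false
set_option linter.unusedVariables false
set_option linter.style.longLine false

namespace Pool.Agent.Lib.MP_41a716_co.H52

open Filter Topology

noncomputable def wv (i : ℕ) : ℝ := |(i : ℝ) - (Nat.sqrt i : ℝ) ^ 2 - Nat.sqrt i| / Nat.sqrt i

theorem wv_bd (i : ℕ) : 0 ≤ wv i ∧ wv i ≤ 1 := by
  refine ⟨by unfold wv; positivity, ?_⟩
  have a1 : ((Nat.sqrt i : ℝ)) ^ 2 ≤ i := by exact_mod_cast Nat.sqrt_le' i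
  have a2 : (i : ℝ) + 1 ≤ ((Nat.sqrt i : ℝ) + 1) ^ 2 := by exact_mod_cast Nat.lt_succ_sqrt' i
  exact div_le_one_of_le₀ (abs_le.2 ⟨by linarith, by nlinarith⟩) (by positivity)

theorem wv_sq (k : ℕ) (hk : 1 ≤ k) : wv (k ^ 2) = 1 := by
  have : (0 : ℝ) < k := by exact_mod_cast hk
  unfold wv
  rw [Nat.sqrt_eq']
  push_cast
  rw [sub_self, zero_sub, abs_neg, abs_of_pos this, div_self this.ne']

theorem wv_mid (k : ℕ) : wv (k ^ 2 + k) = 0 := by
  have : k = Nat.sqrt (k ^ 2 + k) := Nat.eq_sqrt'.2 ⟨by omega, by nlinarith⟩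
  unfold wv
  rw [← this]
  push_cast
  simp

theorem wv_slow (i : ℕ) (hi : 1 ≤ i) : |wv (i + 1) - wv i| ≤ 1 / (Nat.sqrt i : ℝ) := by
  have k1 : 1 ≤ Nat.sqrt i := Nat.le_sqrt'.2 (by simpa using hi)
  have kp : (0 : ℝ) < Nat.sqrt i := by exact_mod_cast k1
  have a1 : Nat.sqrt i ≤ Nat.sqrt (i + 1) := Nat.sqrt_le_sqrt (by omega)
  have a2 : Nat.sqrt (i + 1) ≤ Nat.sqrt i + 1 := Nat.sqrt_succ_le_succ_sqrt i
  rcases a1.lt_or_eq with h | h
  · have e : Nat.sqrt (i + 1) = Nat.sqrt i + 1 := by omega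
    have b1 := Nat.sqrt_le' (i + 1)
    have b2 : i < (Nat.sqrt i + 1) ^ 2 := Nat.lt_succ_sqrt' i
    rw [e] at b1
    have b3 : i + 1 = (Nat.sqrt i + 1) ^ 2 := by omega
    have b4 : (i : ℝ) + 1 = ((Nat.sqrt i : ℝ) + 1) ^ 2 := by exact_mod_cast b3
    have b5 : wv i = 1 := by
      unfold wv
      rw [show (i : ℝ) - (Nat.sqrt i : ℝ) ^ 2 - Nat.sqrt i = Nat.sqrt i by nlinarith,
        abs_of_pos kp, div_self kp.ne']
    rw [b3, wv_sq _ (by omega), b5, sub_self, abs_zero]
    positivity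
  · unfold wv
    rw [← h, ← sub_div, abs_div, abs_of_pos kp, div_le_div_iff_of_pos_right kp]
    refine (abs_abs_sub_abs_le_abs_sub _ _).trans ?_
    push_cast
    rw [show (i : ℝ) + 1 - (Nat.sqrt i : ℝ) ^ 2 - Nat.sqrt i -
      ((i : ℝ) - (Nat.sqrt i : ℝ) ^ 2 - Nat.sqrt i) = 1 by ring, abs_one]

theorem real_of {A B : ℝ} (hA : 0 ≤ A)
    (h : ∀ s, 0 ≤ s → s < 1 → Hf s 1 = A → ∀ r, s ≤ r → r ≤ 1 → Hf s r ≤ B) :
    Real2 (1 + A) (1 + B) := by
  obtain ⟨s1, s2, a1, a2, a3, a4, a5, a6, r, a7, a8, a9⟩ := cross hA h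
  have inv := tendsto_one_div_add_atTop_nhds_zero_nat (𝕜 := ℝ)
  rcases (a1.trans a2).lt_or_eq with p | p
  · let w : ℕ → ℝ := fun i => max (wv i) (1 / (i + 1))
    have w0 : ∀ i, 0 < w i := fun i => lt_of_lt_of_le (by positivity) (le_max_right _ _)
    have i1 : ∀ i : ℕ, (1 : ℝ) / (i + 1) ≤ 1 := fun i => by
      rw [div_le_one (by positivity)]; linarith [Nat.cast_nonneg (α := ℝ) i]
    have w1 : ∀ i, w i ≤ 1 := fun i => max_le (wv_bd i).2 (i1 i)
    have l1 : ∀ i, s1 ≤ s1 + (s2 - s1) * w i := fun i => by nlinarith [w0 i]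
    have l2 : ∀ i, s1 + (s2 - s1) * w i ≤ s2 := fun i => by nlinarith [w1 i]
    have sq : Tendsto Nat.sqrt atTop atTop :=
      tendsto_atTop_atTop.2 fun k => ⟨k ^ 2, fun n hn => Nat.le_sqrt'.2 hn⟩
    refine realise (fun i => s1 + (s2 - s1) * w i) (m := s2) (fun i => ?_) l2 a3 ?_
      (fun i => a5 _ (l1 i) (l2 i)) (fun ε hε => ?_)
      (fun ε hε => Eventually.of_forall fun i r b1 b2 => ?_) (Or.inr ⟨s2, r, a7, a8, a9, ?_⟩)
    · rcases a1.lt_or_eq with q | q
      · linarith [l1 i]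
      · rw [← q]; simpa using mul_pos p (w0 i)
    · have t1 : Tendsto (fun i => w (i + 1) - w i) atTop (𝓝 0) := by
        have Z := (tendsto_one_div_atTop_nhds_zero_nat.comp sq).add inv
        rw [add_zero] at Z
        refine squeeze_zero_norm' ?_ Z
        filter_upwards [eventually_ge_atTop 1] with i hi
        rw [Real.norm_eq_abs]
        refine (abs_max_sub_max_le_max _ _ _ _).trans (max_le ?_ ?_)
        · exact (wv_slow i hi).trans (le_add_of_nonneg_right (by positivity))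
        · have b1 : (1 : ℝ) / ((i + 1 : ℕ) + 1) ≤ 1 / (i + 1) :=
            one_div_le_one_div_of_le (by positivity) (by push_cast; linarith)
          have b2 : (0 : ℝ) ≤ 1 / ((i + 1 : ℕ) + 1) := by positivity
          have b3 : (0 : ℝ) ≤ 1 / (Nat.sqrt i : ℝ) := by positivity
          simp only [Function.comp]
          rw [abs_le]
          constructor <;> linarith
      have := t1.const_mul (s2 - s1)
      rw [mul_zero] at this
      refine this.congr fun i => by ring
    · have mt : Tendsto (fun k : ℕ => k ^ 2 + k) atTop atTop :=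
        tendsto_atTop_mono (fun k => Nat.le_add_left k _) tendsto_id
      refine mt.frequently (Eventually.frequently ?_)
      have t1 : Tendsto (fun k : ℕ => s1 + (s2 - s1) * w (k ^ 2 + k)) atTop (𝓝[Set.Icc 0 s2] s1) := by
        refine tendsto_nhdsWithin_iff.2 ⟨?_, Eventually.of_forall fun k =>
          ⟨a1.trans (l1 _), l2 _⟩⟩
        have := ((inv.comp mt).const_mul (s2 - s1)).const_add s1
        rw [mul_zero, add_zero] at this
        refine this.congr fun k => ?_
        simp only [w, wv_mid, Function.comp]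
        rw [max_eq_right (by positivity)]
      have t2 := ((Hf_cont1 p.le a3 zero_le_one le_rfl) s1 ⟨a1, a2⟩).tendsto.comp t1
      rw [a4] at t2
      exact (t2.eventually (gt_mem_nhds (show A < A + ε by linarith))).mono fun k hk => le_of_lt hk
    · linarith [a6 _ (l1 i) (l2 i) r b1 b2]
    · have mt : Tendsto (fun k : ℕ => k ^ 2) atTop atTop :=
        tendsto_atTop_mono (fun k => Nat.le_self_pow (by norm_num) k) tendsto_id
      refine mt.frequently (Eventually.frequently ?_)
      filter_upwards [eventually_ge_atTop 1] with k hk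
      simp only [w, wv_sq k hk]
      rw [max_eq_left (i1 _)]
      ring
  · subst p
    have q : s1 = 0 := le_antisymm a2 a1
    subst q
    rw [Hf_zero zero_le_one le_rfl] at a4
    rw [Hf_zero a7.le a8] at a9
    subst a4 a9
    have i2 : Tendsto (fun i : ℕ => (1 : ℝ) / (i + 1) / 2) atTop (𝓝 0) := by
      simpa using inv.div_const 2
    have s0 : ∀ i : ℕ, (0 : ℝ) < 1 / (i + 1) / 2 := fun i => by positivity
    have s1 : ∀ i : ℕ, (1 : ℝ) / (i + 1) / 2 ≤ 1 / 2 := fun i => by
      have : (1 : ℝ) / (i + 1) ≤ 1 := by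
        rw [div_le_one (by positivity)]; linarith [Nat.cast_nonneg (α := ℝ) i]
      linarith
    have nn : ∀ i : ℕ, 0 ≤ Hf (1 / (i + 1) / 2) 1 := fun i =>
      Hf_nonneg (s0 i).le (by linarith [s1 i]) zero_le_one le_rfl
    have ev : ∀ ε, 0 < ε → ∀ᶠ i : ℕ in atTop, ∀ r, 1 / ((i : ℝ) + 1) / 2 ≤ r → r ≤ 1 →
        Hf (1 / (i + 1) / 2) r ≤ 0 + ε := by
      intro ε hε
      filter_upwards [i2.eventually (gt_mem_nhds (show (0 : ℝ) < ε / 2 by linarith))] with i hi r b1 b2
      have b3 := s0 i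
      have b4 := s1 i
      generalize 1 / ((i : ℝ) + 1) / 2 = s at *
      have b5 := Hf_le b3.le (by linarith) (by linarith) b2 0
      have b6 : -(2 * s) ≤ cK s 0 := by
        rw [cK, le_div_iff₀ (by linarith)]; simp; nlinarith
      simp at b5
      nlinarith
    refine realise (fun i : ℕ => (1 : ℝ) / (i + 1) / 2) (m := 1 / 2) s0 s1 (by norm_num) ?_ nn
      (fun ε hε => ((ev ε hε).mono fun i hi => hi 1 (by linarith [s1 i]) le_rfl).frequently) ev
      (Or.inl nn)
    simpa using ((tendsto_add_atTop_iff_nat 1).2 i2).sub i2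

theorem real_T1 {a b : ℝ} (h1 : 1 ≤ a) (h2 : a ≤ 2) (hab : a ≤ b)
    (h : 2 ≤ b ∨ (a - 1) * (2 - b) ^ 2 ≤ (b - 1) * (2 - a) * (b - a)) : Real2 a b := by
  have := real_of (A := a - 1) (B := b - 1) (by linarith) fun s s0 s1 e r r0 r1 => by
    obtain ⟨K, t, t0, t1, e1, e2, e3, e4⟩ := gap s0 s1
    have e5 := e4 r (by linarith) r1
    suffices hh : s ^ K * (1 + s) * (K + 1) - (1 - t) ≤ s ^ K * (1 + s) * (b - 1) from
      le_of_mul_le_mul_left (e5.trans hh) (by linarith)
    rw [e] at e1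
    rcases K with _ | K
    · simp only [pow_zero, one_mul, Nat.cast_zero, zero_add, pow_one] at *
      by_contra hc
      push Not at hc
      have b2 : b < 2 := by nlinarith
      rcases h with h | h
      · linarith
      have g2 : b - a < s * (2 - b) := by nlinarith
      have sp : 0 < s := by
        by_contra hs
        have : s = 0 := by linarith
        subst this
        linarith
      have g0 : (b - 1) * (s * (1 + s)) < a - 1 := by nlinarith
      have g1 : s * (b - 1) * (2 - a) < (a - 1) * (2 - b) := by nlinarith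
      have g3 : (b - 1) * (2 - a) * (b - a) ≤ (b - 1) * (2 - a) * (s * (2 - b)) :=
        mul_le_mul_of_nonneg_left g2.le (mul_nonneg (by linarith) (by linarith))
      have g4 := mul_lt_mul_of_pos_right g1 (show 0 < 2 - b by linarith)
      nlinarith
    · have k0 : (0 : ℝ) ≤ K := Nat.cast_nonneg K
      push_cast at e1 ⊢
      have q1 : t = 0 := by linarith
      have q2 : (K : ℝ) = 0 := by linarith
      have q3 : K = 0 := by exact_mod_cast q2
      subst q1 q3
      have sp : 0 < s := by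
        by_contra hs
        have : s = 0 := by linarith
        subst this
        norm_num at e3
      have q4 : s ^ (0 + 1) * (1 + s) = 1 := by
        apply mul_left_cancel₀ sp.ne'
        linear_combination e2
      rw [q4]
      linarith
  simpa using this

theorem real_T3 {k : ℕ} {a b : ℝ} (hk : 1 ≤ k) (h1 : (k : ℝ) ≤ a) (h2 : a ≤ k + 1) (hab : a ≤ b)
    (h : (a - k) * (k + 1 - a) ≤ (a - 1) * (b - a)) : Real2 a b := by
  have hk' : (1 : ℝ) ≤ k := by exact_mod_cast hk
  have := real_of (A := a - 1) (B := b - 1) (by linarith) fun s s0 s1 e r r0 r1 => by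
    obtain ⟨K, t, t0, t1, e1, e2, e3, e4⟩ := gap s0 s1
    have e5 := e4 r (by linarith) r1
    suffices hh : s ^ K * (1 + s) * (K + 1) - (1 - t) ≤ s ^ K * (1 + s) * (b - 1) from
      le_of_mul_le_mul_left (e5.trans hh) (by linarith)
    rw [e] at e1
    have q1 : t * (1 - t) ≤ (a - k) * (k + 1 - a) := by
      rcases lt_trichotomy (K + 1) k with c | c | c
      · have : (K : ℝ) + 1 + 1 ≤ k := by exact_mod_cast c
        have : t = 1 := by linarith
        rw [this]; nlinarith
      · have : (K : ℝ) + 1 = k := by exact_mod_cast c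
        have : t = a - k := by linarith
        rw [this]; linarith
      · have : (k : ℝ) + 1 ≤ K + 1 := by exact_mod_cast c
        have : t = 0 := by linarith
        rw [this]; nlinarith
    suffices hh : (s ^ K * (1 + s) - 1) * (1 - t) ≤ b - a by
      have := mul_le_mul_of_nonneg_right e3 (show 0 ≤ b - a by linarith)
      have e6 : (K : ℝ) = a - 1 - t := by linarith
      rw [e6]; nlinarith
    rcases s0.lt_or_eq with sp | sp
    · obtain ⟨η, η0, hη⟩ : ∃ η : ℝ, 0 < η ∧ s * (1 + η) = 1 :=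
        ⟨(1 - s) / s, div_pos (by linarith) sp, by field_simp; ring⟩
      have m1 : s ^ K * (1 + s) = 1 + t * η := by
        apply mul_left_cancel₀ sp.ne'
        rw [pow_succ] at e2
        linear_combination e2 - t * hη
      have m2 := one_add_mul_le_pow (show (-2 : ℝ) ≤ η by linarith) (K + 1)
      have m3 : (1 + t * η) * (1 + η) ^ (K + 1) = 2 + η := by
        rw [← m1]
        have : s ^ K * (1 + η) ^ K = 1 := by rw [← mul_pow, hη, one_pow]
        rw [pow_succ]
        linear_combination ((1 + s) * (1 + η)) * this + hη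
      have m4 := mul_le_mul_of_nonneg_left m2 (show 0 ≤ 1 + t * η by positivity)
      push_cast at m4
      have m5 : (a - 1) * η ≤ 1 := by
        have : 0 ≤ t * η * ((K + 1) * η) := by positivity
        rw [e1]; nlinarith
      rw [m1]
      have m6 := mul_le_mul_of_nonneg_right (q1.trans h) η0.le
      have m7 := mul_le_mul_of_nonneg_right m5 (show 0 ≤ b - a by linarith)
      nlinarith
    · subst sp
      have : (0 : ℝ) ^ K ≤ 1 := pow_le_one₀ le_rfl zero_le_one
      have : (0 : ℝ) ^ K * (1 + 0) - 1 = 0 := by linarith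
      rw [this]; linarith
  simpa using this

theorem real_int {m : ℕ} {a b : ℝ} (h1 : 1 ≤ a) (h2 : a ≤ m) (h3 : (m : ℝ) ≤ b) : Real2 a b := by
  have k1 : 1 ≤ ⌊a⌋₊ := Nat.le_floor (by simpa using h1)
  have k2 : (⌊a⌋₊ : ℝ) ≤ a := Nat.floor_le (by linarith)
  have k3 : a < ⌊a⌋₊ + 1 := Nat.lt_floor_add_one a
  have k4 : (1 : ℝ) ≤ ⌊a⌋₊ := by exact_mod_cast k1
  refine real_T3 k1 k2 k3.le (by linarith) ?_
  rcases k2.lt_or_eq with c | c
  · have : ⌊a⌋₊ < m := by exact_mod_cast c.trans_le h2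
    have : (⌊a⌋₊ : ℝ) + 1 ≤ m := by exact_mod_cast this
    exact mul_le_mul (by linarith) (by linarith) (by linarith) (by linarith)
  · rw [c, sub_self, zero_mul]
    exact mul_nonneg (by linarith) (by linarith)

theorem bdd_lim {A : Type} (u : ℕ → A) {K : ℕ} (h : ∀ n, pc u n ≤ K) :
    Tendsto (fun n : ℕ => (pc u n : ℝ) / n) atTop (𝓝 0) := by
  refine squeeze_zero (fun n => by positivity) (fun n => ?_)
    (tendsto_const_div_atTop_nhds_zero_nat (K : ℝ))
  exact div_le_div_of_nonneg_right (by exact_mod_cast h n) (by positivity)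

theorem real_zero : Real2 0 0 := by
  have h : ∀ n, pc (fun _ : ℕ => false) n ≤ 1 := by
    intro n
    unfold pc cnt
    refine (Set.ncard_le_one_iff (Set.toFinite _)).2 ?_
    rintro _ _ ⟨i, -, rfl⟩ ⟨j, -, rfl⟩
    rfl
  refine ⟨fun _ => false, ⟨1, fun n hn => ?_⟩, (bdd_lim _ h).liminf_eq.symm,
    (bdd_lim _ h).limsup_eq.symm⟩
  rw [one_mul]
  exact_mod_cast (h n).trans hn

theorem morse {A : Type} [Finite A] (u : ℕ → A) (C : ℝ)
    (hC : ∀ n : ℕ, 1 ≤ n → (pc u n : ℝ) ≤ C * n)
    {a b : ℝ} (ha : a = liminf (fun n : ℕ => (pc u n : ℝ) / n) atTop)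
    (hb : b = limsup (fun n : ℕ => (pc u n : ℝ) / n) atTop) :
    (a = 0 ∧ b = 0) ∨ (1 ≤ a ∧ a ≤ b) := by
  obtain ⟨b1, b2⟩ := bounds u C hC
  by_cases h : ∀ K, ∃ n, K < pc u n
  · right
    have hap := aper_of_unbdd h
    rw [ha, hb]
    refine ⟨le_liminf_of_le b1.isCoboundedUnder_ge ?_, liminf_le_limsup b1 b2⟩
    filter_upwards [eventually_ge_atTop 1] with n hn
    rw [le_div_iff₀ (by exact_mod_cast hn), one_mul]
    have := ic_zero hap n
    have := pc_eq (u := u) n
    exact_mod_cast (by omega)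
  · left
    push Not at h
    obtain ⟨K, hK⟩ := h
    exact ⟨ha.trans (bdd_lim u hK).liminf_eq, hb.trans (bdd_lim u hK).limsup_eq⟩

theorem real_off {a b : ℝ} (h : ¬ ∃ k : ℕ, (k : ℝ) < a ∧ b < k + 1) (h1 : 1 ≤ a) (h2 : a ≤ b) :
    Real2 a b := by
  push Not at h
  have k2 : (⌊a⌋₊ : ℝ) ≤ a := Nat.floor_le (by linarith)
  have k3 : a < ⌊a⌋₊ + 1 := Nat.lt_floor_add_one a
  rcases k2.lt_or_eq with c | c
  · exact real_int (m := ⌊a⌋₊ + 1) h1 (by push_cast; linarith) (by push_cast; exact h _ c)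
  · exact real_int (m := ⌊a⌋₊) h1 c.ge (by linarith)

end Pool.Agent.Lib.MP_41a716_co.H52
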