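import Mathlib

set_option autoImplicit false
set_option linter.unusedVariables false
set_option linter.style.longLine false

namespace Pool.Agent.Lib.MP_41a716_co.H52

open Finset Filter Topology

noncomputable def tm (s r : ℝ) (q : ℕ) : ℝ := min (r * s ^ (q + 1)) (1 - r * s ^ q)

noncomputable def Hf (s r : ℝ) : ℝ := ∑' q : ℕ, tm s r q

noncomputable def cK (s : ℝ) (K : ℕ) : ℝ := (1 - s ^ K * (1 + s)) / (1 - s)

theorem tm_bd {s r m : ℝ} (h0 : 0 ≤ s) (hm : s ≤ m) (h1 : m < 1) (r0 : 0 ≤ r) (r1 : r ≤ 1) (q : ℕ) :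
    0 ≤ tm s r q ∧ tm s r q ≤ m ^ q := by
  have a1 : s ^ q ≤ 1 := pow_le_one₀ h0 (by linarith)
  have a2 : 0 ≤ s ^ q := pow_nonneg h0 q
  have a3 : s ^ q ≤ m ^ q := pow_le_pow_left₀ h0 hm q
  constructor
  · exact le_min (by positivity) (by nlinarith)
  · refine (min_le_left _ _).trans ?_
    rw [pow_succ]
    have : r * s ≤ 1 := mul_le_one₀ r1 h0 (by linarith)
    nlinarith

theorem tm_summ {s r : ℝ} (h0 : 0 ≤ s) (h1 : s < 1) (r0 : 0 ≤ r) (r1 : r ≤ 1) :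
    Summable (tm s r) :=
  Summable.of_nonneg_of_le (fun q => (tm_bd h0 le_rfl h1 r0 r1 q).1)
    (fun q => (tm_bd h0 le_rfl h1 r0 r1 q).2) (summable_geometric_of_lt_one h0 h1)

theorem Hf_nonneg {s r : ℝ} (h0 : 0 ≤ s) (h1 : s < 1) (r0 : 0 ≤ r) (r1 : r ≤ 1) : 0 ≤ Hf s r :=
  tsum_nonneg fun q => (tm_bd h0 le_rfl h1 r0 r1 q).1

theorem lin_sum {s : ℝ} (h0 : 0 ≤ s) (h1 : s < 1) (r : ℝ) (K : ℕ) :
    HasSum (fun q : ℕ => r * s ^ (q + K + 1)) (r * s ^ (K + 1) * (1 - s)⁻¹) ∧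
    ∑ q ∈ range K, (1 - r * s ^ q) + r * s ^ (K + 1) * (1 - s)⁻¹ = K - r * cK s K := by
  constructor
  · have := (hasSum_geometric_of_lt_one h0 h1).mul_left (r * s ^ (K + 1))
    have e : (fun q : ℕ => r * s ^ (q + K + 1)) = fun q : ℕ => r * s ^ (K + 1) * s ^ q := by
      funext q; ring
    rw [e]; exact this
  · have hne : (1 - s) ≠ 0 := by linarith
    have e : ∑ q ∈ range K, s ^ q = (1 - s ^ K) / (1 - s) := by
      rw [eq_div_iff hne, geom_sum_mul_neg]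
    rw [sum_sub_distrib, ← mul_sum, e]
    simp only [sum_const, card_range, nsmul_eq_mul, mul_one, cK]
    field_simp
    ring

theorem Hf_le {s r : ℝ} (h0 : 0 ≤ s) (h1 : s < 1) (r0 : 0 ≤ r) (r1 : r ≤ 1) (K : ℕ) :
    Hf s r ≤ K - r * cK s K := by
  obtain ⟨a1, a2⟩ := lin_sum h0 h1 r K
  have S := tm_summ h0 h1 r0 r1
  rw [Hf, ← S.sum_add_tsum_nat_add K, ← a2, ← a1.tsum_eq]
  exact add_le_add (sum_le_sum fun q _ => min_le_right _ _)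
    (Summable.tsum_le_tsum (fun q => min_le_left _ _) ((summable_nat_add_iff K).2 S) a1.summable)

theorem Hf_one {s : ℝ} (h0 : 0 ≤ s) (h1 : s < 1) (K : ℕ) (k1 : ∀ q, q < K → 1 ≤ s ^ q * (1 + s))
    (k2 : s ^ K * (1 + s) ≤ 1) : Hf s 1 = K - cK s K := by
  obtain ⟨a1, a2⟩ := lin_sum h0 h1 1 K
  have S := tm_summ h0 h1 zero_le_one le_rfl
  rw [one_mul (cK s K)] at a2
  rw [Hf, ← S.sum_add_tsum_nat_add K, ← a2, ← a1.tsum_eq]
  congr 1
  · refine sum_congr rfl fun q hq => min_eq_right ?_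
    have := k1 q (by simpa using hq)
    rw [pow_succ]; linarith
  · refine tsum_congr fun q => min_eq_left ?_
    have b1 : s ^ q ≤ 1 := pow_le_one₀ h0 h1.le
    have b2 : s ^ q * (s ^ K * (1 + s)) ≤ 1 := mul_le_one₀ b1 (by positivity) k2
    rw [pow_succ, pow_add]; linarith

theorem exists_K {s : ℝ} (h0 : 0 ≤ s) (h1 : s < 1) :
    ∃ K, (∀ q, q < K + 1 → 1 ≤ s ^ q * (1 + s)) ∧ s ^ (K + 1) * (1 + s) < 1 := by
  classical
  have ex : ∃ K, s ^ K * (1 + s) < 1 := by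
    obtain ⟨K, hK⟩ := exists_pow_lt_of_lt_one (show (0 : ℝ) < 1 / 2 by norm_num) h1
    exact ⟨K, by nlinarith [pow_nonneg h0 K]⟩
  have a1 := Nat.find_spec ex
  have a2 : ∀ q, q < Nat.find ex → 1 ≤ s ^ q * (1 + s) := fun q hq => not_lt.1 (Nat.find_min ex hq)
  generalize Nat.find ex = K at a1 a2
  rcases K with _ | K
  · simp at a1; linarith
  · exact ⟨K, a2, a1⟩

theorem Hf_self {s : ℝ} (h0 : 0 ≤ s) (h1 : s < 1) : Hf s s = Hf s 1 := by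
  rw [Hf, Hf, (tm_summ h0 h1 zero_le_one le_rfl).tsum_eq_zero_add]
  have : tm s 1 0 = 0 := by simp [tm, h0]
  rw [this, zero_add]
  refine tsum_congr fun q => ?_
  simp only [tm]
  congr 1 <;> ring

theorem Hf_ge {s r : ℝ} (h0 : 0 ≤ s) (h1 : s < 1) (r0 : s ≤ r) (r1 : r ≤ 1) : Hf s 1 ≤ Hf s r := by
  have hd : 0 < 1 - s := by linarith
  obtain ⟨t, t0, t1, rfl⟩ : ∃ t : ℝ, 0 ≤ t ∧ t ≤ 1 ∧ r = (1 - t) * s + t := by
    refine ⟨(r - s) / (1 - s), div_nonneg (by linarith) hd.le, by rw [div_le_one hd]; linarith, ?_⟩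
    field_simp; ring
  have S1 := tm_summ h0 h1 zero_le_one le_rfl
  have S2 := tm_summ h0 h1 h0 h1.le
  have S3 := tm_summ h0 h1 (h0.trans r0) r1
  have e : Hf s 1 = ∑' q, ((1 - t) * tm s s q + t * tm s 1 q) := by
    rw [(S2.mul_left _).tsum_add (S1.mul_left _), tsum_mul_left, tsum_mul_left]
    change _ = (1 - t) * Hf s s + t * Hf s 1
    rw [Hf_self h0 h1]; ring
  rw [e]
  refine Summable.tsum_le_tsum (fun q => ?_) ((S2.mul_left _).add (S1.mul_left _)) S3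
  have a1 : tm s s q ≤ s * s ^ (q + 1) := min_le_left _ _
  have a2 : tm s s q ≤ 1 - s * s ^ q := min_le_right _ _
  have a3 : tm s 1 q ≤ 1 * s ^ (q + 1) := min_le_left _ _
  have a4 : tm s 1 q ≤ 1 - 1 * s ^ q := min_le_right _ _
  have t2 : 0 ≤ 1 - t := by linarith
  refine le_min ?_ ?_
  · nlinarith [mul_le_mul_of_nonneg_left a1 t2, mul_le_mul_of_nonneg_left a3 t0]
  · nlinarith [mul_le_mul_of_nonneg_left a2 t2, mul_le_mul_of_nonneg_left a4 t0]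

theorem Hf_cont {m : ℝ} (h0 : 0 ≤ m) (h1 : m < 1) :
    ContinuousOn (fun p : ℝ × ℝ => Hf p.1 p.2) (Set.Icc 0 m ×ˢ Set.Icc 0 1) := by
  refine continuousOn_tsum (u := fun q => m ^ q) (fun q => Continuous.continuousOn ?_)
    (summable_geometric_of_lt_one h0 h1) ?_
  · unfold tm; fun_prop
  · rintro q ⟨s, r⟩ ⟨⟨a1, a2⟩, a3, a4⟩
    obtain ⟨b1, b2⟩ := tm_bd a1 a2 h1 a3 a4 q
    rwa [Real.norm_of_nonneg b1]

theorem Hf_cont1 {m r : ℝ} (h0 : 0 ≤ m) (h1 : m < 1) (r0 : 0 ≤ r) (r1 : r ≤ 1) :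
    ContinuousOn (fun s => Hf s r) (Set.Icc 0 m) :=
  (Hf_cont h0 h1).comp (f := fun s => (s, r)) (by fun_prop) fun s hs => ⟨hs, r0, r1⟩

theorem Hf_cont2 {s : ℝ} (h0 : 0 ≤ s) (h1 : s < 1) :
    ContinuousOn (fun r => Hf s r) (Set.Icc 0 1) :=
  (Hf_cont h0 h1).comp (f := fun r => (s, r)) (by fun_prop) fun r hr => ⟨⟨h0, le_rfl⟩, hr⟩

theorem Hf_zero {r : ℝ} (r0 : 0 ≤ r) (r1 : r ≤ 1) : Hf 0 r = 0 := by
  have : tm 0 r = fun _ => 0 := by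
    funext q
    rcases q with _ | q <;> simp [tm, r1]
  simp [Hf, this]

theorem Hf_big (x : ℝ) : ∃ m, 0 ≤ m ∧ m < 1 ∧ x < Hf m 1 := by
  obtain ⟨k, hk⟩ := exists_nat_gt x
  have ev : ∀ᶠ s in 𝓝[<] (1 : ℝ), s < 1 ∧ 0 < s ∧ 1 < s ^ k * (1 + s) := by
    refine eventually_mem_nhdsWithin.and (Eventually.filter_mono nhdsWithin_le_nhds ?_)
    exact (ContinuousAt.eventually_lt (by fun_prop) (by fun_prop) (by simp)).and
      (ContinuousAt.eventually_lt (by fun_prop) (by fun_prop) (by simp))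
  obtain ⟨m, m1, m0, m2⟩ := ev.exists
  obtain ⟨K, k1, k2⟩ := exists_K m0.le m1
  refine ⟨m, m0.le, m1, ?_⟩
  rw [Hf_one m0.le m1 _ k1 k2.le]
  have a1 : k ≤ K := by
    by_contra hc
    have : m ^ k ≤ m ^ (K + 1) := pow_le_pow_of_le_one m0.le m1.le (by omega)
    nlinarith
  have a2 : (k : ℝ) ≤ K := by exact_mod_cast a1
  have a3 : cK m (K + 1) ≤ 1 := by
    rw [cK, div_le_one (by linarith), pow_succ]
    nlinarith [k1 K (by omega)]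
  push_cast
  linarith

theorem cross {A B : ℝ} (hA : 0 ≤ A)
    (h : ∀ s, 0 ≤ s → s < 1 → Hf s 1 = A → ∀ r, s ≤ r → r ≤ 1 → Hf s r ≤ B) :
    ∃ s1 s2, 0 ≤ s1 ∧ s1 ≤ s2 ∧ s2 < 1 ∧ Hf s1 1 = A ∧ (∀ s, s1 ≤ s → s ≤ s2 → A ≤ Hf s 1) ∧
      (∀ s, s1 ≤ s → s ≤ s2 → ∀ r, s ≤ r → r ≤ 1 → Hf s r ≤ B) ∧
      ∃ r, s2 < r ∧ r ≤ 1 ∧ Hf s2 r = B := by
  obtain ⟨m, m0, m1, m2⟩ := Hf_big (max A B)
  have mA : A < Hf m 1 := lt_of_le_of_lt (le_max_left _ _) m2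
  have mB : B < Hf m 1 := lt_of_le_of_lt (le_max_right _ _) m2
  have c1 := Hf_cont1 m0 m1 zero_le_one le_rfl
  have cp1 : IsCompact (Set.Icc 0 m ∩ (fun s => Hf s 1) ⁻¹' Set.Iic A) :=
    isCompact_Icc.of_isClosed_subset
      (c1.preimage_isClosed_of_isClosed isClosed_Icc isClosed_Iic) Set.inter_subset_left
  obtain ⟨s1, ⟨⟨a1, a2⟩, a3⟩, a4⟩ := cp1.exists_isGreatest
    ⟨0, ⟨le_rfl, m0⟩, by simp [Hf_zero zero_le_one le_rfl, hA]⟩
  have a3 : Hf s1 1 ≤ A := a3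
  have e1 : Hf s1 1 = A := by
    obtain ⟨c, ⟨b1, b2⟩, b3⟩ := intermediate_value_Icc a2
      (c1.mono (Set.Icc_subset_Icc_left a1)) ⟨a3, mA.le⟩
    have : c ≤ s1 := a4 ⟨⟨by linarith, b2⟩, le_of_eq b3⟩
    rw [← le_antisymm this b1]; exact b3
  have lowA : ∀ s, s1 ≤ s → s ≤ m → A ≤ Hf s 1 := by
    intro s b1 b2
    by_contra hc
    have : s ≤ s1 := a4 ⟨⟨by linarith, b2⟩, (not_le.1 hc).le⟩
    rw [le_antisymm this b1, e1] at hc
    exact hc le_rfl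
  have cp2 : IsCompact ((Set.Icc s1 m ×ˢ Set.Icc (0 : ℝ) 1 ∩
      (fun p : ℝ × ℝ => Hf p.1 p.2) ⁻¹' Set.Ici B) ∩ {p | p.1 ≤ p.2}) := by
    refine IsCompact.inter_right ?_ (isClosed_le continuous_fst continuous_snd)
    exact (isCompact_Icc.prod isCompact_Icc).of_isClosed_subset
      (((Hf_cont m0 m1).mono (Set.prod_mono (Set.Icc_subset_Icc_left a1) le_rfl)).preimage_isClosed_of_isClosed
        (isClosed_Icc.prod isClosed_Icc) isClosed_Ici) Set.inter_subset_left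
  obtain ⟨_, ⟨⟨s2, r2⟩, ⟨⟨⟨⟨b1, b2⟩, b3, b4⟩, b5⟩, b6⟩, rfl⟩, b7⟩ :=
    (cp2.image continuous_fst).exists_isLeast
      ⟨m, (m, 1), ⟨⟨⟨⟨a2, le_rfl⟩, zero_le_one, le_rfl⟩, mB.le⟩, m1.le⟩, rfl⟩
  simp only at b1 b2 b3 b4 b7
  have b5 : B ≤ Hf s2 r2 := b5
  have b6 : s2 ≤ r2 := b6
  have lt : ∀ s, s1 ≤ s → s < s2 → ∀ r, s ≤ r → r ≤ 1 → Hf s r ≤ B := by
    intro s d1 d2 r d3 d4
    by_contra hc
    have : s2 ≤ s := b7 ⟨(s, r), ⟨⟨⟨⟨d1, by linarith⟩, by simp only; linarith, d4⟩,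
      (not_le.1 hc).le⟩, d3⟩, rfl⟩
    linarith
  have top : ∀ r, s2 ≤ r → r ≤ 1 → Hf s2 r ≤ B := by
    intro r d3 d4
    rcases b1.lt_or_eq with d | d
    · have c2 := Hf_cont1 m0 m1 (show 0 ≤ r by linarith) d4
      refine ContinuousWithinAt.closure_le (s := Set.Ico s1 s2) (f := fun s => Hf s r)
        (g := fun _ => B) ?_ ((c2 s2 ⟨by linarith, b2⟩).mono fun z hz =>
          ⟨by linarith [hz.1], by linarith [hz.2]⟩) continuousWithinAt_const ?_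
      · rw [closure_Ico d.ne]; exact ⟨b1, le_rfl⟩
      · exact fun z hz => lt z hz.1 hz.2 r (by linarith [hz.2]) d4
    · subst d
      exact h s1 a1 (by linarith) e1 r d3 d4
  have s21 : s2 < 1 := by linarith
  refine ⟨s1, s2, a1, b1, s21, e1, fun s d1 d2 => lowA s d1 (by linarith), fun s d1 d2 => ?_, ?_⟩
  · rcases d2.lt_or_eq with d | d
    · exact lt s d1 d
    · subst d; exact top
  · rcases b6.lt_or_eq with d | d
    · exact ⟨r2, d, b4, le_antisymm (top r2 b6 b4) b5⟩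
    · subst d
      rw [Hf_self (by linarith) s21] at b5
      exact ⟨1, s21, le_rfl, le_antisymm (top 1 s21.le le_rfl) b5⟩

/-- the gap estimate in regime `K+1`. -/
theorem gap {s : ℝ} (h0 : 0 ≤ s) (h1 : s < 1) : ∃ (K : ℕ) (t : ℝ), 0 ≤ t ∧ t ≤ 1 ∧
    Hf s 1 = K + t ∧ s ^ (K + 1) * (1 + s) = s + t * (1 - s) ∧ 1 ≤ s ^ K * (1 + s) ∧
    ∀ r, 0 ≤ r → r ≤ 1 → s ^ K * (1 + s) * Hf s r ≤ s ^ K * (1 + s) * (K + 1) - (1 - t) := by
  obtain ⟨K, k1, k2⟩ := exists_K h0 h1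
  have hd : 0 < 1 - s := by linarith
  have k3 := k1 K (by omega)
  have c1 : cK s (K + 1) * (1 - s) = 1 - s ^ (K + 1) * (1 + s) := by
    rw [cK]; field_simp
  have c0 : cK s K * (1 - s) = 1 - s ^ K * (1 + s) := by
    rw [cK]; field_simp
  have c2 : cK s (K + 1) - cK s K = s ^ K * (1 + s) := by
    apply mul_right_cancel₀ hd.ne'
    rw [sub_mul, c1, c0]; ring
  have p1 : 0 ≤ cK s (K + 1) := div_nonneg (by linarith) hd.le
  have p0 : cK s K ≤ 0 := div_nonpos_of_nonpos_of_nonneg (by linarith) hd.le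
  have p2 : cK s (K + 1) ≤ 1 := by
    rw [cK, div_le_one hd, pow_succ]; nlinarith
  refine ⟨K, 1 - cK s (K + 1), by linarith, by linarith, ?_, by linarith, k3, fun r r0 r1 => ?_⟩
  · rw [Hf_one h0 h1 _ k1 k2.le]; push_cast; ring
  · have a1 := Hf_le h0 h1 r0 r1 (K + 1)
    have a0 := Hf_le h0 h1 r0 r1 K
    push_cast at a1
    rw [← c2]
    nlinarith [mul_le_mul_of_nonneg_left a1 (neg_nonneg.2 p0), mul_le_mul_of_nonneg_left a0 p1]

end Pool.Agent.Lib.MP_41a716_co.H52
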