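import Pool.Agent.Lib.MP_41a716_co.Lower

set_option autoImplicit false
set_option linter.unusedSectionVars false
set_option linter.unusedVariables false
set_option linter.style.longLine false

namespace Pool.Agent.Lib.MP_41a716_co.H52

variable {A : Type} [Finite A] {u : ℕ → A}

structure Lev (u : ℕ → A) (N r r' y x : ℕ) : Prop where
  nt : ¬ Two u N
  rs : RS u N r r'
  hy : Nx u N r r y
  hx : Nx u N r r' x
  ne : u (r + y - 1) ≠ u (r' + x - 1)

theorem Lev.symm {N r r' y x : ℕ} (h : Lev u N r r' y x) : Lev u N r' r x y :=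
  ⟨h.nt, h.rs.symm, h.hx.congr h.rs.1, h.hy.congr h.rs.1, h.ne.symm⟩

theorem lev_exists {N : ℕ} (ha : Aper u) (hN : ¬ Two u N) (h2 : Two u (N + 1)) :
    ∃ r r' y x, Lev u N r r' y x := by
  obtain ⟨r, r', _, _, hr⟩ := ha N 0
  have hr : RS u N r r' := hr
  obtain ⟨d, hd⟩ := exists_Nx ha hN hr r
  obtain ⟨v, hv⟩ := exists_Nx ha hN hr r'
  obtain ⟨x, x', z, z', hx, hz, hxz⟩ := two_pairs ha hN hr h2
  have mx := first_mem ha hN hr hd hv hx
  have mz := first_mem ha hN hr hd hv hz
  refine ⟨r, r', d, v, hN, hr, hd, hv, ?_⟩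
  intro h
  rw [← h] at mx mz
  simp only [or_self] at mx mz
  exact hxz (mx.trans mz.symm)

theorem Lev.evV {N r r' y x : ℕ} (h : Lev u N r r' y x) (ha : Aper u) (h2 : Two u (N + 1)) :
    ∃ o, 1 ≤ o ∧ u (o - 1) = u (r' + x - 1) ∧ Eqv u (N + 1) o r' := by
  obtain ⟨p, p', z, z', hx, hz, hxz⟩ := two_pairs ha h.nt h.rs h2
  have mx := first_mem ha h.nt h.rs h.hy h.hx hx
  have mz := first_mem ha h.nt h.rs h.hy h.hx hz
  obtain ⟨p, p', h1, h2⟩ : ∃ p p', RS u (N + 1) p p' ∧ u p = u (r' + x - 1) := by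
    rcases mx with g | g
    · rcases mz with g' | g'
      · exact absurd (g.trans g'.symm) hxz
      · exact ⟨z, z', hz, g'⟩
    · exact ⟨p, p', hx, g⟩
  have s := h1.shift 1 N (by omega)
  have e0 : u p = u p' := by simpa using h1.1 0 (by omega)
  rcases uniq h.nt h.rs s with e | e
  · rcases uniq h.nt h.rs s.symm with e' | e'
    · exact absurd ((e.trans e'.symm) N (by omega)) s.2
    · exact ⟨p' + 1, by omega, by simpa [← e0] using h2, e'⟩
  · exact ⟨p + 1, by omega, by simpa using h2, e⟩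

theorem Lev.arr {N r r' y x : ℕ} (h : Lev u N r r' y x) : Arr u N r := by
  intro o o' d1 d2 ho ho' h1 h2 he
  rcases occ_type h.nt h.rs ho with e | e <;> rcases occ_type h.nt h.rs ho' with e' | e'
  · exact e.trans e'.symm
  · exact absurd (((arr_eq h.nt h.rs e h1 h.hy).2.symm.trans he).trans
      (arr_eq h.nt h.rs e' h2 h.hx).2) h.ne
  · exact absurd (((arr_eq h.nt h.rs e' h2 h.hy).2.symm.trans he.symm).trans
      (arr_eq h.nt h.rs e h1 h.hx).2) h.ne
  · exact e.trans e'.symm

theorem Lev.step {N r r' y x o : ℕ} (h : Lev u N r r' y x) (e : Eqv u (N + 1) o r) :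
    Eqv u (N + y) o r ∧ Nx u N r o y ∧ u (o + y - 1) = u (r + y - 1) := by
  obtain ⟨e1, n1⟩ := ret h.nt h.rs e.symm h.hy
  exact ⟨e1.symm, n1, (arr_eq h.nt h.rs e n1 h.hy).2⟩

theorem Lev.clash {N r r' y x o : ℕ} (h : Lev u N r r' y x) (e : Eqv u (N + 1) o r)
    (e' : Eqv u (N + 1) o r') : False := h.rs.2 ((e.symm.trans e') N (by omega))

theorem Lev.pre {N r r' y x N' q q' y' x' : ℕ} (h : Lev u N r r' y x) (h' : Lev u N' q q' y' x')
    (ha : Aper u) (hN : N ≤ N') : Eqv u N q r := by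
  obtain ⟨o, h1, h2⟩ := far_type ha h'.nt h'.rs (r + 1)
  obtain ⟨o', h1', h2'⟩ := far_type ha h'.nt h'.rs.symm (r + 1)
  obtain ⟨_, n1, a1⟩ := h'.step h2
  obtain ⟨_, n2, a2⟩ := h'.symm.step h2'
  have e1 : Eqv u N' (o + y') q := n1.2.1
  have e2 : Eqv u N' (o' + x') q := n2.2.1.trans h'.rs.1.symm
  have := left_uniq ha h.nt h.rs h.arr (Eqv.refl N r) (show r < o + y' by omega)
    (show r < o' + x' by omega) ((e1.trans e2.symm).mono hN) (by rw [a1, a2]; exact h'.ne)
  exact (e1.mono hN).symm.trans this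

/-! backwards agreement -/

def Bk (u : ℕ → A) (o o' t : ℕ) : Prop :=
  t ≤ o ∧ t ≤ o' ∧ ∀ k, 1 ≤ k → k ≤ t → u (o - k) = u (o' - k)

def Lcs (u : ℕ → A) (o o' t : ℕ) : Prop := Bk u o o' t ∧ ¬ Bk u o o' (t + 1)

theorem Bk.mono {o o' t s : ℕ} (h : Bk u o o' t) (hs : s ≤ t) : Bk u o o' s :=
  ⟨by have := h.1; omega, by have := h.2.1; omega, fun k a b => h.2.2 k a (by omega)⟩

theorem Bk.symm {o o' t : ℕ} (h : Bk u o o' t) : Bk u o' o t :=
  ⟨h.2.1, h.1, fun k a b => (h.2.2 k a b).symm⟩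

theorem Bk.trans {o o' o'' t : ℕ} (h : Bk u o o' t) (h' : Bk u o' o'' t) : Bk u o o'' t :=
  ⟨h.1, h'.2.1, fun k a b => (h.2.2 k a b).trans (h'.2.2 k a b)⟩

theorem bk_zero (o o' : ℕ) : Bk u o o' 0 := ⟨by omega, by omega, fun k a b => by omega⟩

theorem Bk.ext {o o' t n l : ℕ} (h : Bk u o o' t) (e : Eqv u n o o') (hl : l ≤ n) :
    Bk u (o + l) (o' + l) (t + l) := by
  obtain ⟨h1, h2, h3⟩ := h
  refine ⟨by omega, by omega, fun k a b => ?_⟩
  by_cases hk : k ≤ l
  · have := e (l - k) (by omega)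
    rwa [show o + (l - k) = o + l - k by omega, show o' + (l - k) = o' + l - k by omega] at this
  · have := h3 (k - l) (by omega) (by omega)
    rwa [show o - (k - l) = o + l - k by omega, show o' - (k - l) = o' + l - k by omega] at this

theorem bk_of_eqv {o o' n l : ℕ} (e : Eqv u n o o') (hl : l ≤ n) : Bk u (o + l) (o' + l) l := by
  simpa using (bk_zero (u := u) o o').ext e hl

theorem Bk.cut {o o' t l : ℕ} (h : Bk u (o + l) (o' + l) (t + l)) : Bk u o o' t := by
  obtain ⟨h1, h2, h3⟩ := h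
  refine ⟨by omega, by omega, fun k a b => ?_⟩
  have := h3 (k + l) (by omega) (by omega)
  rwa [show o + l - (k + l) = o - k by omega, show o' + l - (k + l) = o' - k by omega] at this

theorem Bk.eqv {o o' t n : ℕ} (h : Bk u o o' t) (e : Eqv u n o o') : Eqv u n (o - t) (o' - t) := by
  obtain ⟨h1, h2, h3⟩ := h
  intro k hk
  by_cases hkt : k < t
  · have := h3 (t - k) (by omega) (by omega)
    rwa [show o - (t - k) = o - t + k by omega, show o' - (t - k) = o' - t + k by omega] at this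
  · have := e (k - t) (by omega)
    rwa [show o + (k - t) = o - t + k by omega, show o' + (k - t) = o' - t + k by omega] at this

theorem Lcs.le {o o' t s : ℕ} (h : Lcs u o o' t) (h' : Bk u o o' s) : s ≤ t := by
  by_contra hc
  exact h.2 (h'.mono (by omega))

theorem Lcs.uniq {o o' t s : ℕ} (h : Lcs u o o' t) (h' : Lcs u o o' s) : t = s :=
  le_antisymm (h'.le h.1) (h.le h'.1)

theorem Lcs.ext {o o' t n l : ℕ} (h : Lcs u o o' t) (e : Eqv u n o o') (hl : l ≤ n) :
    Lcs u (o + l) (o' + l) (t + l) :=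
  ⟨h.1.ext e hl, fun h' => h.2 (Bk.cut (l := l) (by rwa [show t + 1 + l = t + l + 1 by omega]))⟩

theorem Lcs.transfer {o o' o'' t : ℕ} (h : Lcs u o o' t) (h' : Bk u o' o'' (t + 1)) :
    Lcs u o o'' t :=
  ⟨h.1.trans (h'.mono (by omega)), fun g => h.2 (g.trans h'.symm)⟩

theorem lcs_zero {o o' : ℕ} (h : u (o - 1) ≠ u (o' - 1)) : Lcs u o o' 0 :=
  ⟨bk_zero o o', fun g => h (g.2.2 1 le_rfl le_rfl)⟩

theorem exists_lcs (o o' : ℕ) : ∃ t, Lcs u o o' t := by
  classical
  have hex : ∃ t, ¬ Bk u o o' (t + 1) := ⟨o, fun h => by have := h.1; omega⟩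
  refine ⟨Nat.find hex, ?_, Nat.find_spec hex⟩
  rcases Nat.eq_zero_or_pos (Nat.find hex) with h | h
  · rw [h]; exact bk_zero o o'
  · have := Nat.find_min hex (show Nat.find hex - 1 < Nat.find hex by omega)
    rw [show Nat.find hex - 1 + 1 = Nat.find hex by omega] at this
    exact not_not.1 this

/-! first occurrence and tail -/

def First (u : ℕ → A) (N r P : ℕ) : Prop := Eqv u N P r ∧ ∀ o, o < P → ¬ Eqv u N o r

def Least (u : ℕ → A) (N T : ℕ) : Prop := T ∈ Rec u N ∧ ∀ i, i < T → i ∉ Rec u N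

theorem exists_first (N r : ℕ) : ∃ P, First u N r P := by
  classical
  have hex : ∃ P, Eqv u N P r := ⟨r, Eqv.refl N r⟩
  exact ⟨Nat.find hex, Nat.find_spec hex, fun o h => Nat.find_min hex h⟩

theorem exists_least (N : ℕ) : ∃ T, Least u N T := by
  classical
  have hex : ∃ T, T ∈ Rec u N := by
    obtain ⟨m, hm⟩ := evRec u N
    exact ⟨m, hm m le_rfl⟩
  exact ⟨Nat.find hex, Nat.find_spec hex, fun o h => Nat.find_min hex h⟩

theorem First.congr {N r r' P : ℕ} (h : First u N r P) (e : Eqv u N r r') : First u N r' P :=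
  ⟨h.1.trans e, fun o ho g => h.2 o ho (g.trans e.symm)⟩

theorem First.le {N r P o : ℕ} (h : First u N r P) (e : Eqv u N o r) : P ≤ o := by
  by_contra hc
  exact h.2 o (by omega) e

theorem Least.le {N T i : ℕ} (h : Least u N T) (e : i ∈ Rec u N) : T ≤ i := by
  by_contra hc
  exact h.2 i (by omega) e

theorem Lev.rec_ge {N r r' y x T : ℕ} (h : Lev u N r r' y x) (ha : Aper u) (hT : T ∈ Rec u N)
    (i : ℕ) (hi : T ≤ i) : i ∈ Rec u N := by
  induction i, hi using Nat.le_induction with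
  | base => exact hT
  | succ i hi ih =>
    by_cases e : Eqv u N i r
    · exact rec_after ha h.nt h.rs e (by omega)
    · intro m
      obtain ⟨j, hj, e'⟩ := ih m
      exact ⟨j + 1, by omega, (det h.nt h.rs e e').shift 1 N (by omega)⟩

theorem Lev.fc_eq {N r r' y x T : ℕ} (h : Lev u N r r' y x) (ha : Aper u) (hT : Least u N T) :
    fc u N = T := by
  apply le_antisymm
  · have h1 : (Rec u N)ᶜ ⊆ Set.Iio T := fun i hi => by
      by_contra hc
      exact hi (h.rec_ge ha hT.1 i (by simpa using hc))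
    have := cnt_le_card (u := u) N (Set.Iio T) (Set.finite_Iio T)
    exact (cnt_mono_set N h1).trans (by simpa using this)
  · rcases Nat.eq_zero_or_pos T with h0 | h0
    · omega
    have := tail_bound (t := T - 1) ha h.nt fun j hj e =>
      hT.2 (T - 1) (by omega) (Rec.of_eqv (h.rec_ge ha hT.1 j (by omega)) e.symm)
    omega

theorem Nx.inside {N r i d k : ℕ} (h : Nx u N r i d) (hk : k < d) : Nx u N r (i + k) (d - k) := by
  refine ⟨by omega, ?_, fun d' a b => ?_⟩
  · rw [show i + k + (d - k) = i + d by omega]; exact h.2.1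
  · have := h.2.2 (k + d') (by omega) (by omega)
    rwa [← add_assoc] at this

theorem Lev.ic_eq {N r r' y x : ℕ} (h : Lev u N r r' y x) (ha : Aper u) :
    ic u N + 1 = x + y := by
  have hy1 := h.hy.1
  have hx1 := h.hx.1
  let f : ℕ → ℕ := fun k => if k < y then r + 1 + k else r' + 1 + (k - y)
  have same : ∀ {p q d e k l : ℕ}, Nx u N r p d → Nx u N r q e → 1 ≤ k → k < d → 1 ≤ l → l < e →
      Eqv u N (p + k) (q + l) → d - k = e - l ∧ u (p + d - 1) = u (q + e - 1) := by
    intro p q d e k l h1 h2 a1 a2 a3 a4 g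
    have := arr_eq h.nt h.rs (det h.nt h.rs (h1.2.2 k a1 a2) g) (Nx.inside h1 a2) (Nx.inside h2 a4)
    rwa [show p + k + (d - k) = p + d by omega, show q + l + (e - l) = q + e by omega] at this
  have inj : Set.InjOn (fun k => W u N (f k)) (Set.Iio (x + y - 1)) := by
    intro k hk l hl e
    have e := W_eq_iff.1 e
    simp only [Set.mem_Iio] at hk hl
    simp only [f] at e
    have U : ∀ k, k < y → k + 1 < y ∨ Eqv u N (r + 1 + k) r := by
      intro k hk
      rcases (show k + 1 ≤ y from hk).lt_or_eq with g | g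
      · exact Or.inl g
      · right; rw [show r + 1 + k = r + y by omega]; exact h.hy.2.1
    have UU : ∀ k l, k < l → l < y → ¬ Eqv u N (r + 1 + k) (r + 1 + l) := by
      intro k l a1 a2 e
      rw [show r + 1 + k = r + (k + 1) by omega] at e
      rcases U l a2 with g | g
      · rw [show r + 1 + l = r + (l + 1) by omega] at e
        have := (same h.hy h.hy (by omega) (by omega) (by omega) g e).1
        omega
      · exact h.hy.2.2 (k + 1) (by omega) (by omega) (e.trans g)
    have UV : ∀ k l, k < y → l + 1 < x → ¬ Eqv u N (r + 1 + k) (r' + 1 + l) := by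
      intro k l a1 a2 e
      rw [show r' + 1 + l = r' + (l + 1) by omega] at e
      rcases U k a1 with g | g
      · rw [show r + 1 + k = r + (k + 1) by omega] at e
        exact h.ne (same h.hy h.hx (by omega) g (by omega) a2 e).2
      · exact h.hx.2.2 (l + 1) (by omega) a2 (e.symm.trans g)
    split_ifs at e with c1 c2 c2
    · rcases lt_trichotomy k l with g | g | g
      · exact absurd e (UU k l g c2)
      · exact g
      · exact absurd e.symm (UU l k g c1)
    · exact absurd e (UV k _ c1 (by omega))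
    · exact absurd e.symm (UV l _ c2 (by omega))
    · rw [show r' + 1 + (k - y) = r' + (k - y + 1) by omega,
        show r' + 1 + (l - y) = r' + (l - y + 1) by omega] at e
      have := (same h.hx h.hx (by omega) (by omega) (by omega) (by omega) e).1
      omega
  have img : W u N '' Rec u N = (fun k => W u N (f k)) '' Set.Iio (x + y - 1) := by
    apply Set.Subset.antisymm
    · rintro _ ⟨i, hi, rfl⟩
      obtain ⟨j, hj, e⟩ := hi (r + 1)
      obtain ⟨o1, d, _, g2, g3, g4, g5⟩ := prev ha h.nt h.rs (Eqv.refl N r) (show r < j by omega)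
      rcases occ_type h.nt h.rs g3 with t | t
      · obtain ⟨e1, n1, _⟩ := h.step t
        have := n1.uniq g4
        subst this
        refine ⟨j - o1 - 1, by simp only [Set.mem_Iio]; omega, W_eq_iff.2 ?_⟩
        have e2 := e1.shift (j - o1) N (by omega)
        simp only [f]
        rw [if_pos (by omega), show r + 1 + (j - o1 - 1) = r + (j - o1) by omega]
        rw [show o1 + (j - o1) = j by omega] at e2
        exact (e.trans e2).symm
      · obtain ⟨e1, n1, _⟩ := h.symm.step t
        have := (n1.congr h.rs.1.symm).uniq g4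
        subst this
        have e2 := e1.shift (j - o1) N (by omega)
        rw [show o1 + (j - o1) = j by omega] at e2
        rcases g5.lt_or_eq with g | g
        · refine ⟨y + (j - o1 - 1), by simp only [Set.mem_Iio]; omega, W_eq_iff.2 ?_⟩
          simp only [f]
          rw [if_neg (by omega), show r' + 1 + (y + (j - o1 - 1) - y) = r' + (j - o1) by omega]
          exact (e.trans e2).symm
        · refine ⟨y - 1, by simp only [Set.mem_Iio]; omega, W_eq_iff.2 ?_⟩
          simp only [f]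
          rw [if_pos (by omega), show r + 1 + (y - 1) = r + y by omega]
          exact h.hy.2.1.trans (e.trans (g ▸ g4.2.1)).symm
    · rintro _ ⟨k, hk, rfl⟩
      refine ⟨f k, ?_, rfl⟩
      simp only [f]
      split_ifs
      · exact rec_after ha h.nt h.rs (Eqv.refl N r) (by omega)
      · exact rec_after ha h.nt h.rs h.rs.1.symm (by omega)
  unfold ic cnt
  rw [img, inj.ncard_image]
  simp
  omega

theorem ic_zero (ha : Aper u) (N : ℕ) : N + 1 ≤ ic u N := by
  have h1 := ic_add ha 0 N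
  have h2 : 1 ≤ ic u 0 := by
    obtain ⟨m, hm⟩ := evRec u 0
    unfold ic cnt
    exact (Set.ncard_pos (fin_img _ _)).2 ⟨_, m, hm m le_rfl, rfl⟩
  rw [zero_add] at h1
  omega

theorem Lev.bk_le {N r r' y x P T t : ℕ} (h : Lev u N r r' y x) (ha : Aper u) (hP : First u N r P)
    (hT : Least u N T) (hb : Lcs u P (r + y) t) : t < y ∧ T + t ≤ P := by
  have hy1 := h.hy.1
  have e0 : Eqv u N P (r + y) := hP.1.trans h.hy.2.1.symm
  have lt : t < y := by
    by_contra hc
    have b := hb.1.mono (show y ≤ t by omega)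
    have := b.eqv e0
    rw [show r + y - y = r by omega] at this
    exact hP.2 (P - y) (by have := b.1; omega) this
  refine ⟨lt, ?_⟩
  have e1 := hb.1.eqv e0
  have := hT.le (Rec.of_eqv (rec_after ha h.nt h.rs (Eqv.refl N r) (show r ≤ r + y - t by omega))
    e1.symm)
  have := hb.1.1
  omega

theorem Lev.tails {N r r' y x P T a v : ℕ} (h : Lev u N r r' y x) (ha : Aper u)
    (hP : First u N r P) (hT : Least u N T) (h1 : Lcs u P (r + y) a) (h2 : Lcs u P (r' + x) v) :
    a < y ∧ v < x ∧ (a = 0 ∨ v = 0) ∧ P = T + a + v ∧ pc u N + 1 = T + x + y ∧ N + 2 ≤ x + y := by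
  obtain ⟨a1, a2⟩ := h.bk_le ha hP hT h1
  obtain ⟨b1, b2⟩ := h.symm.bk_le ha (hP.congr h.rs.1) hT h2
  have tz : a = 0 ∨ v = 0 := by
    by_contra hc
    push Not at hc
    exact h.ne ((h1.1.2.2 1 le_rfl (by omega)).symm.trans (h2.1.2.2 1 le_rfl (by omega)))
  have c1 := h.ic_eq ha
  have c2 := h.fc_eq ha hT
  have c3 := pc_eq (u := u) N
  have c4 := ic_zero ha N
  refine ⟨a1, b1, tz, ?_, by omega, by omega⟩
  obtain ⟨t, rfl⟩ : ∃ t, P = T + t := ⟨P - T, by omega⟩
  rcases Nat.eq_zero_or_pos t with h0 | h0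
  · omega
  obtain ⟨j, hj, e⟩ := hT.1 (r + 1)
  have nT : ¬ Eqv u N T r := hP.2 T (by omega)
  have n1 : Nx u N r T t := ⟨h0, hP.1, fun d' a b => hP.2 _ (by omega)⟩
  obtain ⟨e1, n2⟩ := ret h.nt h.rs (det h.nt h.rs nT e) n1
  obtain ⟨o1, d, _, g2, g3, g4, g5⟩ := prev ha h.nt h.rs (Eqv.refl N r) (show r < j by omega)
  have g6 : j < o1 + d := lt_of_le_of_ne g5 fun g => nT (e.trans (g ▸ g4.2.1))
  have n3 := Nx.inside g4 (show j - o1 < d by omega)
  rw [show o1 + (j - o1) = j by omega] at n3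
  have g7 := n3.uniq n2
  have b3 : Bk u (T + t) (j + t) t := bk_of_eqv e1 (by omega)
  rw [show j + t = o1 + d by omega] at b3
  rcases occ_type h.nt h.rs g3 with s | s
  · obtain ⟨e2, n4, _⟩ := h.step s
    have := n4.uniq g4
    subst this
    have := h1.le (b3.trans ((bk_of_eqv e2 (show y ≤ N + y by omega)).mono (by omega)))
    omega
  · obtain ⟨e2, n4, _⟩ := h.symm.step s
    have := (n4.congr h.rs.1.symm).uniq g4
    subst this
    have := h2.le (b3.trans ((bk_of_eqv e2 (show x ≤ N + x by omega)).mono (by omega)))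
    omega

end Pool.Agent.Lib.MP_41a716_co.H52
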