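import Pool.Agent.Lib.MP_41a716_co.H52Lev
import Pool.Agent.Lib.MP_41a716_co.H52Arith

set_option autoImplicit false
set_option linter.unusedSectionVars false
set_option linter.unusedVariables false
set_option linter.style.longLine false

namespace Pool.Agent.Lib.MP_41a716_co.H52

variable {A : Type} [Finite A] {u : ℕ → A}

def Run (u : ℕ → A) (N r y o k : ℕ) : Prop := ∀ i, i < k → Eqv u (N + 1) (o + i * y) r

theorem Run.mono {N r y o k l : ℕ} (h : Run u N r y o k) (hl : l ≤ k) : Run u N r y o l :=
  fun i hi => h i (by omega)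

theorem Run.shift {N r y o k l : ℕ} (h : Run u N r y o (k + l)) : Run u N r y (o + k * y) l := by
  intro i hi
  have := h (k + i) (by omega)
  rwa [add_mul, ← add_assoc] at this

theorem Run.head {N r y o k : ℕ} (h : Run u N r y o k) (hk : 1 ≤ k) : Eqv u (N + 1) o r := by
  simpa using h 0 hk

theorem Run.snoc {N r y o k : ℕ} (h : Run u N r y o k) (e : Eqv u (N + 1) (o + k * y) r) :
    Run u N r y o (k + 1) := by
  intro i hi
  rcases Nat.lt_succ_iff_lt_or_eq.1 hi with g | g
  · exact h i g
  · rw [g]; exact e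

theorem Eqv.glue {n n' i j d : ℕ} (h : Eqv u n i j) (h' : Eqv u n' (i + d) (j + d)) (hd : d ≤ n) :
    Eqv u (d + n') i j := by
  intro k hk
  by_cases c : k < d
  · exact h k (by omega)
  · have := h' (k - d) (by omega)
    rwa [show i + d + (k - d) = i + k by omega, show j + d + (k - d) = j + k by omega] at this

theorem Lev.run_occ {N r r' y x o k : ℕ} (h : Lev u N r r' y x) (ho : Eqv u N o r)
    (hr : Run u N r y o k) : Eqv u N (o + k * y) r := by
  rcases k with _ | k
  · simpa using ho
  · have := (h.step (hr k (by omega))).2.1.2.1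
    rwa [add_assoc, ← add_one_mul] at this

theorem Lev.run_arr {N r r' y x o k : ℕ} (h : Lev u N r r' y x)
    (hr : Run u N r y o k) (hk : 1 ≤ k) : u (o + k * y - 1) = u (r + y - 1) := by
  obtain ⟨k, rfl⟩ : ∃ l, k = l + 1 := ⟨k - 1, by omega⟩
  have := (h.step (hr k (by omega))).2.2
  rwa [add_assoc, ← add_one_mul] at this

theorem Lev.run_bk {N r r' y x o k : ℕ} (h : Lev u N r r' y x)
    (hr : Run u N r y o k) (hk : 1 ≤ k) : Bk u (r + y) (o + k * y) y := by
  obtain ⟨k, rfl⟩ : ∃ l, k = l + 1 := ⟨k - 1, by omega⟩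
  have := bk_of_eqv (h.step (hr k (by omega))).1.symm (show y ≤ N + y by omega)
  rwa [add_assoc, ← add_one_mul] at this

theorem Lev.run_eqv {N r r' y x o o' k : ℕ} (h : Lev u N r r' y x) (ho : Eqv u N o r)
    (ho' : Eqv u N o' r) (hr : Run u N r y o k) (hr' : Run u N r y o' k) :
    Eqv u (k * y + N) o o' := by
  induction k with
  | zero => simpa using ho.trans ho'.symm
  | succ k ih =>
    have e1 := ih (hr.mono (by omega)) (hr'.mono (by omega))
    have e2 := (h.step (hr k (by omega))).1.trans (h.step (hr' k (by omega))).1.symm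
    have := Eqv.glue e1 e2 (by omega)
    rwa [show k * y + (N + y) = (k + 1) * y + N by ring] at this

theorem Lev.between {N r r' y x o k p : ℕ} (h : Lev u N r r' y x) (hr : Run u N r y o k)
    (hp : Eqv u N p r) (h1 : o ≤ p) (h2 : p < o + k * y) : ∃ i, i < k ∧ p = o + i * y := by
  induction k with
  | zero => omega
  | succ k ih =>
    by_cases c : p < o + k * y
    · obtain ⟨i, hi, e⟩ := ih (hr.mono (by omega)) c
      exact ⟨i, by omega, e⟩
    · refine ⟨k, by omega, ?_⟩
      by_contra hc
      have n := (h.step (hr k (by omega))).2.1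
      rw [add_one_mul] at h2
      apply n.2.2 (p - (o + k * y)) (by omega) (by omega)
      rwa [show o + k * y + (p - (o + k * y)) = p by omega]

theorem Lev.run_end {N r r' y x o : ℕ} (h : Lev u N r r' y x) (ha : Aper u) (ho : Eqv u N o r) :
    ∃ k, Run u N r y o k ∧ Eqv u (N + 1) (o + k * y) r' := by
  by_contra hc
  push Not at hc
  have all : ∀ k, Run u N r y o k := by
    intro k
    induction k with
    | zero => intro i hi; omega
    | succ k ih =>
      rcases occ_type h.nt h.rs (h.run_occ ho ih) with e | e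
      · exact ih.snoc e
      · exact absurd e (hc k ih)
  obtain ⟨p, h1, h2⟩ := far_type ha h.nt h.rs.symm o
  have hy := h.hy.1
  obtain ⟨i, hi, e⟩ := h.between (all (p - o + 1)) ((h2.mono (by omega)).trans h.rs.1.symm) h1 (by
    have := Nat.le_mul_of_pos_right (p - o + 1) hy
    omega)
  exact hc i (all i) (e ▸ h2)

theorem trans_core {N r r' y x N' q q' y1 z P P' a v Y Z D D' : ℕ} (ha : Aper u)
    (h : Lev u N r r' y x) (two : Two u (N + 1)) (h' : Lev u N' q q' y1 z) (hN : N < N')
    (hN2 : N' ≤ 2 * N) (hq : Eqv u (N + 1) q r) (hext : u (q + N') = u (r + N))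
    (hP : First u N r P) (hP' : First u N' q P') (la : Lcs u P (r + y) a)
    (lv : Lcs u P (r' + x) v) (lY : Lcs u P' (q + y1) Y) (lZ : Lcs u P' (q' + z) Z)
    (hD : pc u N = D + N) (hD' : pc u N' = D' + N') :
    ∃ j m, N' = N + j * y ∧ 1 ≤ j ∧ 1 ≤ m ∧ y1 = y ∧ z = j * y + m * x ∧ D + m * x ≤ D' + x ∧
    ((Y = 0 ∧ Z = m * x + a ∧ D' + x = D + m * x + v) ∨
    (Y = 0 ∧ Z = m * x ∧ D + m * x + a + v ≤ D') ∨
    (Y = 0 ∧ x + v ≤ Z ∧ Z + x ≤ m * x + v ∧ D' + x = D + m * x + a) ∨
    (2 ≤ m ∧ Y = a ∧ Z = v ∧ D' + x = D + m * x) ∨ (2 ≤ m ∧ 2 ≤ j)) := by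
  obtain ⟨T, hT⟩ := exists_least (u := u) N
  obtain ⟨T', hT'⟩ := exists_least (u := u) N'
  obtain ⟨t1, t2, t3, t4, t5, t6⟩ := h.tails ha hP hT la lv
  obtain ⟨s1, s2, s3, s4, s5, s6⟩ := h'.tails ha hP' hT' lY lZ
  have TT : T ≤ T' := hT.le (Rec.mono hT'.1 hN.le)
  have hy1 := h.hy.1
  have hx1 := h.hx.1
  have hs := h.symm
  have oU : ∀ {o}, Eqv u (N + 1) o r → Eqv u N o r := fun e => e.mono (by omega)
  have oV : ∀ {o}, Eqv u (N + 1) o r' → Eqv u N o r := fun e =>
    (e.mono (by omega)).trans h.rs.1.symm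
  have cv : ∀ {o}, Eqv u N o r → Eqv u N o r' := fun e => e.trans h.rs.1
  obtain ⟨d, rfl⟩ : ∃ d, N' = N + d := ⟨N' - N, by omega⟩
  have sf := h'.rs.shift d N (by omega)
  have od : Eqv u N (q + d) r := occ_of_RS h.nt h.rs sf
  -- step 1
  obtain ⟨j, rfl, rq⟩ : ∃ j, d = j * y ∧ Run u N r y q j := by
    obtain ⟨k, k1, k2⟩ := h.run_end ha (oU hq)
    have k0 : 1 ≤ k := by
      by_contra hc
      have : k = 0 := by omega
      subst this
      exact h.clash hq (by simpa using k2)
    have k3 := Nat.le_mul_of_pos_left y k0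
    by_cases c : d < k * y
    · obtain ⟨i, hi, e⟩ := h.between k1 od (by omega) (by omega)
      exact ⟨i, by omega, k1.mono hi.le⟩
    · refine ⟨k, ?_, k1⟩
      by_contra hc
      apply (hs.step k2).2.1.2.2 (d - k * y) (by omega) (by omega)
      rw [show q + k * y + (d - k * y) = q + d by omega]
      exact cv od
  have j1 : 1 ≤ j := by
    by_contra hc
    have : j = 0 := by omega
    subst this
    simp at hN
  have jy := Nat.le_mul_of_pos_left y j1
  -- step 2
  have occ1 : ∀ {o}, Eqv u (N + j * y) o q → Run u N r y o j := by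
    intro o e i hi
    have : i * y + y ≤ j * y := by
      have := Nat.mul_le_mul_right y (show i + 1 ≤ j from hi)
      rwa [add_one_mul] at this
    exact (e.shift (i * y) (N + 1) (by omega)).trans (rq i hi)
  have occ2 : ∀ {o}, Run u N r y o j → Eqv u (N + j * y) o q := by
    intro o e
    have := h.run_eqv (oU (e.head j1)) (oU hq) e rq
    rwa [add_comm] at this
  -- step 3
  have uq : Eqv u (N + 1) (q + j * y) r := od.succ (by rw [← hext]; congr 1; omega)
  have ey : y1 = y := by
    refine h'.hy.uniq ⟨hy1, occ2 ?_, fun d' a b e => ?_⟩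
    · have : Run u N r y q (1 + j) := by rw [add_comm]; exact rq.snoc uq
      simpa using this.shift
    · exact (h.step hq).2.1.2.2 d' a b (oU ((occ1 e).head j1))
  subst ey
  have rq' : Run u N r y1 q' j := occ1 h'.rs.1.symm
  have vq' : Eqv u (N + 1) (q' + j * y1) r' := by
    rcases occ_type h.nt h.rs (h.run_occ (oU (rq'.head j1)) rq') with e | e
    · exact absurd ((uq.trans e.symm) N (by omega)) sf.2
    · exact e
  -- step 4
  have K1 : ∀ o k, Eqv u (N + 1) o r' → Run u N r y1 (o + x) k →
      Eqv u (N + 1) (o + x + k * y1) r' → 1 ≤ k → j ≤ k := by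
    intro o k v1 v2 v3 k1
    by_contra hc
    obtain ⟨e, rfl⟩ : ∃ e, j = k + e := ⟨j - k, by omega⟩
    have z1 := h'.hx.1
    have a0 := (h.step hq).2.2
    have r2 := occ1 h'.hx.2.1
    rcases arr_mem ha h.nt h.rs h.hy h.hx (oU (rq'.head j1)) (show q' < q' + z by omega)
      (oU (r2.head j1)) with g | ⟨g1, g2, g3⟩
    · exact h'.ne (a0.trans g.1.symm)
    obtain ⟨o2, ho2⟩ : ∃ o2, q' + z = o2 + x := ⟨q' + z - x, by omega⟩
    rw [ho2] at r2 g3
    rw [show o2 + x - x = o2 by omega] at g3
    have e1 : Eqv u (N + x) o o2 := (hs.step v1).1.trans (hs.step g3).1.symm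
    have e2 := h.run_eqv (oU (v2.head k1)) (oU (r2.head j1)) v2 (r2.mono (by omega))
    have e3 := Eqv.glue e1 e2 (by omega)
    have e4 : RS u (x + (k * y1 + N)) o o2 := by
      refine ⟨e3, fun g => h.rs.2 ?_⟩
      have b1 := v3 N (by omega)
      have b2 := r2 k (by omega) N (by omega)
      rw [← b1, ← b2, show o + x + k * y1 + N = o + (x + (k * y1 + N)) by omega, g]
      congr 1; omega
    have ey : e * y1 + y1 ≤ (k + e) * y1 := by
      have := Nat.le_mul_of_pos_left y1 k1
      rw [add_mul]; omega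
    have e0 : y1 ≤ e * y1 := Nat.le_mul_of_pos_left y1 (by omega)
    have e5 := occ_of_RS h'.nt h'.rs (e4.shift (x - e * y1) (N + (k + e) * y1) (by
      rw [add_mul] at *; omega))
    have b1 := e5 (e * y1 - 1) (by omega)
    have b2 := h.run_arr (rq.mono (show e ≤ k + e by omega)) (by omega)
    have b3 := (hs.step v1).2.2
    apply h.ne
    rw [← b2, ← b3, show q + e * y1 - 1 = q + (e * y1 - 1) by omega, ← b1]
    congr 1; omega
  have K1' : ∀ o k, Run u N r' x o k → Eqv u (N + 1) (o + k * x) r → 1 ≤ k →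
      Run u N r y1 (o + k * x) j := by
    intro o k v1 v2 k1
    obtain ⟨l, l1, l2⟩ := h.run_end ha (oU v2)
    have l0 : 1 ≤ l := by
      by_contra hc
      have : l = 0 := by omega
      subst this
      exact h.clash v2 (by simpa using l2)
    obtain ⟨k, rfl⟩ : ∃ k', k = k' + 1 := ⟨k - 1, by omega⟩
    rw [add_one_mul, ← add_assoc] at l1 l2 ⊢
    exact l1.mono (K1 _ l (v1 k (by omega)) l1 l2 l0)
  -- step 6
  obtain ⟨m, m1, m2⟩ := hs.run_end ha (vq'.mono (by omega))
  have m0 : 1 ≤ m := by
    by_contra hc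
    have : m = 0 := by omega
    subst this
    exact h.clash (by simpa using m2) vq'
  have mx := Nat.le_mul_of_pos_left x m0
  have ez : z = j * y1 + m * x := by
    refine h'.hx.uniq ⟨by omega, occ2 ?_, fun d' a b e => ?_⟩
    · rw [← add_assoc]; exact K1' _ m m1 m2 m0
    · have r3 := occ1 e
      by_cases c : d' < j * y1
      · obtain ⟨i, hi, g⟩ := h.between rq' (oU (r3.head j1)) (by omega) (by omega)
        have i0 : 1 ≤ i := by
          by_contra hc
          have : i = 0 := by omega
          subst this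
          omega
        have := r3 (j - i) (by omega)
        rw [g, add_assoc, ← add_mul, show i + (j - i) = j by omega] at this
        exact h.clash this vq'
      · obtain ⟨i, hi, g⟩ := hs.between m1 (cv (oU (r3.head j1))) (by omega) (by omega)
        exact h.clash (r3.head j1) (g ▸ m1 i hi)
  subst ez
  refine ⟨j, m, rfl, j1, m0, rfl, rfl, by omega, ?_⟩
  rw [← add_assoc] at lZ
  rcases occ_type h.nt h.rs hP.1 with pU | pV
  · -- the first loop is the main one
    have m2' : 2 ≤ m := by
      by_contra hc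
      have : m = 1 := by omega
      subst this
      have back : ∀ o, P ≤ o → Eqv u (N + 1) o r' → Eqv u (N + 1) (o + x) r' →
          ∃ o0, Eqv u (N + 1) o0 r ∧ Eqv u (N + 1) (o0 + y1) r' ∧ Eqv u (N + 1) (o0 + y1 + x) r' := by
        intro o
        induction o using Nat.strong_induction_on with
        | _ o ih =>
          intro b1 b2 b3
          have b4 : P < o := lt_of_le_of_ne b1 fun g => h.clash pU (g ▸ b2)
          rcases arr_mem ha h.nt h.rs h.hy h.hx hP.1 b4 (oV b2) with ⟨g1, g2, g3⟩ | ⟨g1, g2, g3⟩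
          · refine ⟨o - y1, g3, ?_, ?_⟩ <;> rwa [show o - y1 + y1 = o by omega]
          · exact ih (o - x) (by omega) (by omega) g3 (by rwa [show o - x + x = o by omega])
      obtain ⟨o, b1, b2, b3⟩ := h.evV ha two
      have b4 : P < o := lt_of_le_of_ne (hP.le (oV b3)) fun g => h.clash pU (g ▸ b3)
      rcases arr_mem ha h.nt h.rs h.hy h.hx hP.1 b4 (oV b3) with ⟨g1, g2, g3⟩ | ⟨g1, g2, g3⟩
      · exact h.ne (g1.symm.trans b2)
      obtain ⟨o0, c1, c2, c3⟩ := back (o - x) (by omega) g3 (by rwa [show o - x + x = o by omega])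
      obtain ⟨j, rfl⟩ : ∃ j', j = j' + 1 := ⟨j - 1, by omega⟩
      have c4 := rq' j (by omega)
      rw [one_mul] at m2
      rw [add_one_mul, ← add_assoc] at vq' m2
      have e1 : Eqv u (N + y1) o0 (q' + j * y1) := (h.step c1).1.trans (h.step c4).1.symm
      have e2 := (hs.step c2).1.trans (hs.step vq').1.symm
      have e3 := Eqv.glue e1 e2 (by omega)
      have e4 : RS u (y1 + (N + x)) o0 (q' + j * y1) := by
        refine ⟨e3, fun g => h.rs.2 ?_⟩
        have d1 := c3 N (by omega)
        have d2 := m2 N (by omega)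
        rw [← d1, ← d2, show o0 + y1 + x + N = o0 + (y1 + (N + x)) by omega, g]
        congr 1; omega
      have e5 := occ_of_RS h'.nt h'.rs (e4.shift (y1 + x - (j + 1) * y1) (N + (j + 1) * y1)
        (by omega))
      have d1 := e5 ((j + 1) * y1 - 1) (by omega)
      have d2 := h.run_arr rq j1
      have d3 := (hs.step c2).2.2
      apply h.ne
      rw [← d2, ← d3, show q + (j + 1) * y1 - 1 = q + ((j + 1) * y1 - 1) by omega, ← d1]
      congr 1; omega
    obtain ⟨k, k1, k2⟩ := h.run_end ha hP.1
    have k0 : 1 ≤ k := by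
      by_contra hc
      have : k = 0 := by omega
      subst this
      exact h.clash pU (by simpa using k2)
    by_cases c : j ≤ k
    · have PP : P' = P := le_antisymm (hP'.le (occ2 (k1.mono c)))
        (hP.le (oU ((occ1 hP'.1).head j1)))
      subst PP
      have b1 : Bk u (r + y1) (q + y1) y1 := bk_of_eqv (h.step hq).1.symm (by omega)
      have eY := lY.uniq (la.transfer (b1.mono (by omega)))
      have eZ := lZ.uniq (lv.transfer ((hs.run_bk m1 m0).mono (by omega)))
      right; right; right; left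
      exact ⟨m2', eY, eZ, by omega⟩
    · right; right; right; right
      exact ⟨m2', by omega⟩
  · obtain ⟨k, k1, k2⟩ := hs.run_end ha (cv hP.1)
    have k0 : 1 ≤ k := by
      by_contra hc
      have : k = 0 := by omega
      subst this
      exact h.clash (by simpa using k2) pV
    have PP : P' = P + k * x := by
      apply le_antisymm (hP'.le (occ2 (K1' P k k1 k2 k0)))
      by_contra hc
      have b1 := (occ1 hP'.1).head j1
      obtain ⟨i, hi, g⟩ := hs.between k1 (cv (oU b1)) (hP.le (oU b1)) (by omega)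
      exact h.clash b1 (g ▸ k1 i hi)
    subst PP
    have eY : Y = 0 := lY.uniq (lcs_zero (by
      rw [hs.run_arr k1 k0, (h.step hq).2.2]; exact h.ne.symm))
    have oQ : Eqv u N (q' + j * y1) r' := vq'.mono (by omega)
    rcases lt_trichotomy k m with c | c | c
    · obtain ⟨e, rfl⟩ : ∃ e, m = e + k := ⟨m - k, by omega⟩
      have e0 : 1 ≤ e := by omega
      have b1 := hs.run_bk (m1.mono (show e ≤ e + k by omega)) e0
      have b2 := hs.run_eqv (cv hP.1) (hs.run_occ oQ (m1.mono (show e ≤ e + k by omega))) k1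
        m1.shift
      have b3 := (lv.transfer (b1.mono (by omega))).ext b2 (show k * x ≤ k * x + N by omega)
      rw [add_assoc (q' + j * y1), ← add_mul] at b3
      have eZ := lZ.uniq b3
      have := Nat.le_mul_of_pos_left x k0
      have := Nat.le_mul_of_pos_left x e0
      right; right; left
      rw [add_mul] at *
      exact ⟨eY, by omega, by omega, by omega⟩
    · subst c
      have b1 := h.run_bk rq' j1
      have b2 := hs.run_eqv (cv hP.1) oQ k1 m1
      have b3 := (la.transfer (b1.mono (by omega))).ext b2 (show k * x ≤ k * x + N by omega)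
      have eZ := lZ.uniq b3
      left
      exact ⟨eY, by omega, by omega⟩
    · obtain ⟨e, rfl⟩ : ∃ e, k = e + m := ⟨k - m, by omega⟩
      have e0 : 1 ≤ e := by omega
      have b1 : Lcs u (P + e * x) (q' + j * y1) 0 := lcs_zero (by
        rw [hs.run_arr (k1.mono (show e ≤ e + m by omega)) e0, h.run_arr rq' j1]; exact h.ne.symm)
      have b2 := hs.run_eqv (hs.run_occ (cv hP.1) (k1.mono (show e ≤ e + m by omega))) oQ
        k1.shift m1
      have b3 := b1.ext b2 (show m * x ≤ m * x + N by omega)
      rw [add_assoc P, ← add_mul] at b3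
      have eZ := lZ.uniq b3
      have := Nat.le_mul_of_pos_left x e0
      right; left
      rw [add_mul] at *
      exact ⟨eY, by omega, by omega⟩

end Pool.Agent.Lib.MP_41a716_co.H52
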