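import Mathlib

set_option autoImplicit false
set_option linter.unusedVariables false
set_option linter.style.longLine false

namespace Pool.Agent.Lib.MP_41a716_co.H52

def An (l1 m1 m0 om nu Np sp N s G J N' s' : ℝ) : Prop :=
  N' + s' + om * s < l1 * N ∧ J + s' - s ≤ m1 * G ∧ m0 * G ≤ J + s' - s ∧ G + om * s + nu * sp < Np

def Bs (N x y a v G J g Y Z s N' : ℝ) : Prop :=
  N' = N + J ∧ y ≤ J ∧ 0 ≤ g ∧ g ≤ G ∧ 0 < G ∧ N ≤ x + y ∧ 0 ≤ a ∧ a < y ∧ 0 ≤ v ∧ v < x ∧ 0 ≤ s ∧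
  0 ≤ Y ∧ 0 ≤ Z ∧ (J = y ∨ 2 * y ≤ J) ∧ (g = 0 ∨ g = x ∨ 2 * x ≤ g) ∧ (a = 0 ∨ v = 0) ∧
  ((Y = 0 ∧ Z = x + g + a ∧ G = g + v) ∨ (Y = 0 ∧ Z = x + g ∧ g + a + v + x ≤ G) ∨
   (Y = 0 ∧ x + v ≤ Z ∧ Z ≤ g + v ∧ G = g + a) ∨ (x ≤ g ∧ Y = a ∧ Z = v ∧ G = g))

def RK (xp yp Jp gp Yp Zp x y a v G g Y Z : ℝ) : Prop :=
  g = 0 ∧ G = v ∧ a = 0 ∧ Z = x ∧ Y = 0 ∧ y = yp ∧ x = Jp + xp + gp ∧ a = Yp ∧ v = Zp

def RS' (xp yp Jp gp Yp Zp x y a v J g : ℝ) : Prop :=
  J = y ∧ x = yp ∧ y = Jp + xp + gp ∧ a = Zp ∧ v = Yp ∧ (Jp ≤ g ∨ g + x ≤ Jp)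

theorem window {Nk sk Nm sm Gm N6 s6 N0 x0 y0 a0 v0 G0 J0 g0 Y0 Z0 s0 N1 x1 y1 a1 v1 G1 J1 g1 Y1 Z1 s1 N2 x2 y2 a2 v2 G2 J2 g2 Y2 Z2 s2 N3 x3 y3 a3 v3 G3 J3 g3 Y3 Z3 s3 N4 x4 y4 a4 v4 G4 J4 g4 Y4 Z4 s4 N5 x5 y5 a5 v5 G5 J5 g5 Y5 Z5 s5 : ℝ}
    (hb0 : Bs N0 x0 y0 a0 v0 G0 J0 g0 Y0 Z0 s0 N1)
    (hb1 : Bs N1 x1 y1 a1 v1 G1 J1 g1 Y1 Z1 s1 N2)
    (hb2 : Bs N2 x2 y2 a2 v2 G2 J2 g2 Y2 Z2 s2 N3)
    (hb3 : Bs N3 x3 y3 a3 v3 G3 J3 g3 Y3 Z3 s3 N4)
    (hb4 : Bs N4 x4 y4 a4 v4 G4 J4 g4 Y4 Z4 s4 N5)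
    (hb5 : Bs N5 x5 y5 a5 v5 G5 J5 g5 Y5 Z5 s5 N6)
    (hN0 : 0 < N0) (hs6 : 0 ≤ s6) (hg1 : g1 = 0) (hNm : Nm ≤ N0) (hsm : 0 ≤ sm) (hGm : 0 < Gm) (hNm0 : 0 < Nm)
    (hrole0 : (g0 = 0 ∧ G0 = v0 ∧ a0 = 0 ∧ Z0 = x0 ∧ Y0 = 0 ∧ y0 ≤ N0 - Nm ∧ Nm ≤ x0 ∧
      (G0 + N0 ≤ x0 + Nm ∨ Gm + N0 ≤ x0 + Nm)) ∨ (J0 = y0 ∧ x0 ≤ N0 - Nm))
    (hrole1 : RK x0 y0 J0 g0 Y0 Z0 x1 y1 a1 v1 G1 g1 Y1 Z1 ∨ RS' x0 y0 J0 g0 Y0 Z0 x1 y1 a1 v1 J1 g1)
    (hrole3 : RK x2 y2 J2 g2 Y2 Z2 x3 y3 a3 v3 G3 g3 Y3 Z3 ∨ RS' x2 y2 J2 g2 Y2 Z2 x3 y3 a3 v3 J3 g3)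
    (hrole4 : RK x3 y3 J3 g3 Y3 Z3 x4 y4 a4 v4 G4 g4 Y4 Z4 ∨ RS' x3 y3 J3 g3 Y3 Z3 x4 y4 a4 v4 J4 g4)
    (hrole5 : RK x4 y4 J4 g4 Y4 Z4 x5 y5 a5 v5 G5 g5 Y5 Z5 ∨ RS' x4 y4 J4 g4 Y4 Z4 x5 y5 a5 v5 J5 g5)
    (hr2 : RS' x1 y1 J1 g1 Y1 Z1 x2 y2 a2 v2 J2 g2)
    (hw : (An 2 2 1 2 1 Nk sk Nm sm Gm (N0 - Nm) N0 s0 ∧
      An 2 2 1 2 1 Nm sm N0 s0 G0 J0 N1 s1 ∧
      An 2 2 1 2 1 N0 s0 N1 s1 G1 J1 N2 s2 ∧
      An 2 2 1 2 1 N1 s1 N2 s2 G2 J2 N3 s3 ∧
      An 2 2 1 2 1 N2 s2 N3 s3 G3 J3 N4 s4 ∧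
      An 2 2 1 2 1 N3 s3 N4 s4 G4 J4 N5 s5 ∧
      An 2 2 1 2 1 N4 s4 N5 s5 G5 J5 N6 s6))
    (hbox : (An 2 2 (3081/1600) 2 1 Nk sk Nm sm Gm (N0 - Nm) N0 s0 ∧
      An 2 2 (3081/1600) 2 1 Nm sm N0 s0 G0 J0 N1 s1 ∧
      An 2 2 (3081/1600) 2 1 N0 s0 N1 s1 G1 J1 N2 s2 ∧
      An 2 2 (3081/1600) 2 1 N1 s1 N2 s2 G2 J2 N3 s3 ∧
      An 2 2 (3081/1600) 2 1 N2 s2 N3 s3 G3 J3 N4 s4 ∧
      An 2 2 (3081/1600) 2 1 N3 s3 N4 s4 G4 J4 N5 s5 ∧
      An 2 2 (3081/1600) 2 1 N4 s4 N5 s5 G5 J5 N6 s6) ∨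
      (An (79/40) (3081/1600) (17949/10000) (3160/1481) (1600/1481) Nk sk Nm sm Gm (N0 - Nm) N0 s0 ∧
      An (79/40) (3081/1600) (17949/10000) (3160/1481) (1600/1481) Nm sm N0 s0 G0 J0 N1 s1 ∧
      An (79/40) (3081/1600) (17949/10000) (3160/1481) (1600/1481) N0 s0 N1 s1 G1 J1 N2 s2 ∧
      An (79/40) (3081/1600) (17949/10000) (3160/1481) (1600/1481) N1 s1 N2 s2 G2 J2 N3 s3 ∧
      An (79/40) (3081/1600) (17949/10000) (3160/1481) (1600/1481) N2 s2 N3 s3 G3 J3 N4 s4 ∧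
      An (79/40) (3081/1600) (17949/10000) (3160/1481) (1600/1481) N3 s3 N4 s4 G4 J4 N5 s5 ∧
      An (79/40) (3081/1600) (17949/10000) (3160/1481) (1600/1481) N4 s4 N5 s5 G5 J5 N6 s6) ∨
      (An (193/100) (17949/10000) (966/625) (19300/7949) (10000/7949) Nk sk Nm sm Gm (N0 - Nm) N0 s0 ∧
      An (193/100) (17949/10000) (966/625) (19300/7949) (10000/7949) Nm sm N0 s0 G0 J0 N1 s1 ∧
      An (193/100) (17949/10000) (966/625) (19300/7949) (10000/7949) N0 s0 N1 s1 G1 J1 N2 s2 ∧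
      An (193/100) (17949/10000) (966/625) (19300/7949) (10000/7949) N1 s1 N2 s2 G2 J2 N3 s3 ∧
      An (193/100) (17949/10000) (966/625) (19300/7949) (10000/7949) N2 s2 N3 s3 G3 J3 N4 s4 ∧
      An (193/100) (17949/10000) (966/625) (19300/7949) (10000/7949) N3 s3 N4 s4 G4 J4 N5 s5 ∧
      An (193/100) (17949/10000) (966/625) (19300/7949) (10000/7949) N4 s4 N5 s5 G5 J5 N6 s6) ∨
      (An (46/25) (966/625) 1 (1150/341) (625/341) Nk sk Nm sm Gm (N0 - Nm) N0 s0 ∧
      An (46/25) (966/625) 1 (1150/341) (625/341) Nm sm N0 s0 G0 J0 N1 s1 ∧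
      An (46/25) (966/625) 1 (1150/341) (625/341) N0 s0 N1 s1 G1 J1 N2 s2 ∧
      An (46/25) (966/625) 1 (1150/341) (625/341) N1 s1 N2 s2 G2 J2 N3 s3 ∧
      An (46/25) (966/625) 1 (1150/341) (625/341) N2 s2 N3 s3 G3 J3 N4 s4 ∧
      An (46/25) (966/625) 1 (1150/341) (625/341) N3 s3 N4 s4 G4 J4 N5 s5 ∧
      An (46/25) (966/625) 1 (1150/341) (625/341) N4 s4 N5 s5 G5 J5 N6 s6)) : False := by
  obtain ⟨b0e, b0yJ, b0g0, b0gG, b0G0, b0xy, b0a0, b0ay, b0v0, b0vx, b0s0, b0Y0, b0Z0, hJ0, hg0, htz0, hcase0⟩ := hb0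
  obtain ⟨b1e, b1yJ, b1g0, b1gG, b1G0, b1xy, b1a0, b1ay, b1v0, b1vx, b1s0, b1Y0, b1Z0, hJ1, hgg1, htz1, hcase1⟩ := hb1
  obtain ⟨b2e, b2yJ, b2g0, b2gG, b2G0, b2xy, b2a0, b2ay, b2v0, b2vx, b2s0, b2Y0, b2Z0, hJ2, hg2, htz2, hcase2⟩ := hb2
  obtain ⟨b3e, b3yJ, b3g0, b3gG, b3G0, b3xy, b3a0, b3ay, b3v0, b3vx, b3s0, b3Y0, b3Z0, hJ3, hg3, htz3, hcase3⟩ := hb3
  obtain ⟨b4e, b4yJ, b4g0, b4gG, b4G0, b4xy, b4a0, b4ay, b4v0, b4vx, b4s0, b4Y0, b4Z0, hJ4, hg4, htz4, hcase4⟩ := hb4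
  obtain ⟨b5e, b5yJ, b5g0, b5gG, b5G0, b5xy, b5a0, b5ay, b5v0, b5vx, b5s0, b5Y0, b5Z0, hJ5, hg5, htz5, hcase5⟩ := hb5
  obtain ⟨r2_0, r2_1, r2_2, r2_3, r2_4, hint2⟩ := hr2
  obtain ⟨⟨wm_0, wm_1, -, -⟩, ⟨w0_0, w0_1, w0_2, w0_3⟩, ⟨w1_0, w1_1, w1_2, w1_3⟩, ⟨w2_0, w2_1, w2_2, w2_3⟩, ⟨w3_0, w3_1, w3_2, w3_3⟩, ⟨w4_0, w4_1, w4_2, w4_3⟩, ⟨w5_0, w5_1, w5_2, w5_3⟩⟩ := hw
  rcases hrole1 with ⟨role1_0, role1_1, role1_2, role1_3, role1_4, role1_5, role1_6, role1_7, role1_8⟩ | ⟨role1_0, role1_1, role1_2, role1_3, role1_4, hint1⟩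
  · rcases hint2 with int2_0 | int2_0
    · rcases hcase2 with ⟨case2_0, case2_1, case2_2⟩ | ⟨case2_0, case2_1, case2_2⟩ | ⟨case2_0, case2_1, case2_2, case2_3⟩ | ⟨case2_0, case2_1, case2_2, case2_3⟩
      · rcases hrole3 with ⟨role3_0, role3_1, role3_2, role3_3, role3_4, role3_5, role3_6, role3_7, role3_8⟩ | ⟨role3_0, role3_1, role3_2, role3_3, role3_4, hint3⟩
        · linarith only [hN0, b2xy, b2s0, b3s0, w3_3, r2_2, r2_3, role1_0, role1_3, int2_0, case2_1, role3_1, role3_8]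
        · rcases hg2 with g2_0 | g2_0 | g2_0
          · linarith only [hN0, b1yJ, b2v0, b2vx, r2_1, int2_0, g2_0]
          · rcases hrole0 with ⟨role0_0, role0_1, role0_2, role0_3, role0_4, role0_5, role0_6, hback0⟩ | ⟨role0_0, role0_1⟩
            · linarith only [hN0, b0yJ, b1yJ, b1xy, b3s0, w1_1, w2_1, w2_3, r2_0, r2_1, r2_2, r2_4, role1_0, role1_1, role1_4, role1_5, role1_6, role1_8, case2_2, g2_0, role0_0, role0_3]
            · rcases hcase0 with ⟨case0_0, case0_1, case0_2⟩ | ⟨case0_0, case0_1, case0_2⟩ | ⟨case0_0, case0_1, case0_2, case0_3⟩ | ⟨case0_0, case0_1, case0_2, case0_3⟩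
              · rcases htz0 with tz0_0 | tz0_0
                · linarith only [hN0, b0yJ, b1yJ, b1xy, b3s0, w1_1, w2_1, w2_3, r2_0, r2_1, r2_2, r2_4, role1_0, role1_1, role1_4, role1_5, role1_6, role1_8, case2_2, g2_0, case0_1, tz0_0]
                · linarith only [hN0, b0yJ, b0xy, b0s0, b1yJ, b1s0, b3s0, w0_0, w0_1, w2_1, w2_3, r2_0, r2_1, r2_2, r2_4, role1_0, role1_4, role1_5, role1_6, case2_2, g2_0, case0_2, tz0_0]
              · linarith only [hN0, b0yJ, b1yJ, b1xy, b3s0, w1_1, w2_1, w2_3, r2_0, r2_1, r2_2, r2_4, role1_0, role1_1, role1_4, role1_5, role1_6, role1_8, case2_2, g2_0, case0_1]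
              · linarith only [hN0, b0yJ, b0vx, b1yJ, b1xy, b3s0, w1_1, w2_1, w2_3, r2_0, r2_1, r2_2, r2_4, role1_0, role1_1, role1_4, role1_5, role1_6, role1_8, case2_2, g2_0, case0_2]
              · linarith only [hN0, b0yJ, b0vx, b1yJ, b1xy, b3s0, w1_1, w1_2, w2_1, w2_3, r2_0, r2_1, r2_2, r2_4, role1_0, role1_1, role1_4, role1_5, role1_6, role1_8, case2_2, g2_0, case0_0, case0_2]
          · rcases hbox with ⟨⟨pm_0, pm_1, -, -⟩, ⟨p0_0, p0_1, p0_2, p0_3⟩, ⟨p1_0, p1_1, p1_2, p1_3⟩, ⟨p2_0, p2_1, p2_2, p2_3⟩, ⟨p3_0, p3_1, p3_2, p3_3⟩, ⟨p4_0, p4_1, p4_2, p4_3⟩, ⟨p5_0, p5_1, p5_2, p5_3⟩⟩ | ⟨⟨pm_0, pm_1, -, -⟩, ⟨p0_0, p0_1, p0_2, p0_3⟩, ⟨p1_0, p1_1, p1_2, p1_3⟩, ⟨p2_0, p2_1, p2_2, p2_3⟩, ⟨p3_0, p3_1, p3_2, p3_3⟩, ⟨p4_0, p4_1, p4_2, p4_3⟩, ⟨p5_0, p5_1, p5_2, p5_3⟩⟩ | ⟨⟨pm_0, pm_1, -, -⟩, ⟨p0_0, p0_1, p0_2, p0_3⟩, ⟨p1_0, p1_1, p1_2, p1_3⟩, ⟨p2_0, p2_1, p2_2, p2_3⟩, ⟨p3_0, p3_1, p3_2, p3_3⟩, ⟨p4_0, p4_1, p4_2, p4_3⟩, ⟨p5_0, p5_1, p5_2,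 p5_3⟩⟩ | ⟨⟨pm_0, pm_1, -, -⟩, ⟨p0_0, p0_1, p0_2, p0_3⟩, ⟨p1_0, p1_1, p1_2, p1_3⟩, ⟨p2_0, p2_1, p2_2, p2_3⟩, ⟨p3_0, p3_1, p3_2, p3_3⟩, ⟨p4_0, p4_1, p4_2, p4_3⟩, ⟨p5_0, p5_1, p5_2, p5_3⟩⟩
            · rcases hcase3 with ⟨case3_0, case3_1, case3_2⟩ | ⟨case3_0, case3_1, case3_2⟩ | ⟨case3_0, case3_1, case3_2, case3_3⟩ | ⟨case3_0, case3_1, case3_2, case3_3⟩
              · rcases hg3 with g3_0 | g3_0 | g3_0
                · linarith only [hN0, b3G0, case2_0, role3_4, case3_2, g3_0]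
                · rcases hrole4 with ⟨role4_0, role4_1, role4_2, role4_3, role4_4, role4_5, role4_6, role4_7, role4_8⟩ | ⟨role4_0, role4_1, role4_2, role4_3, role4_4, hint4⟩
                  · linarith only [hN0, b2xy, b2a0, b2s0, b3xy, b3s0, b4s0, w2_0, w2_1, w3_1, w4_3, r2_0, r2_4, role1_4, case2_0, case2_1, case2_2, role3_0, role3_1, role3_3, role3_4, case3_1, case3_2, role4_1, role4_8]
                  · linarith only [hN0, b2e, b2gG, b2xy, b2s0, b3e, b3gG, b3s0, b4e, b5s0, r2_0, role3_0, role3_1, role3_2, g2_0, p2_2, p3_2, p4_0, p5_1, p5_2, p5_3, g3_0, role4_0, role4_2]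
                · linarith only [hN0, b1yJ, b1v0, b1vx, b2xy, b2s0, b3gG, b3s0, hg1, w3_3, r2_1, r2_2, role3_1, g3_0]
              · linarith only [hN0, b2g0, b2xy, b2a0, b2s0, b3g0, b3s0, w3_3, case2_0, case2_1, role3_1, role3_3, role3_4, case3_2]
              · linarith only [hN0, b2g0, b2xy, b2a0, b2s0, b3s0, w3_3, case2_1, role3_1, role3_3, case3_1, case3_2, case3_3]
              · rcases hrole4 with ⟨role4_0, role4_1, role4_2, role4_3, role4_4, role4_5, role4_6, role4_7, role4_8⟩ | ⟨role4_0, role4_1, role4_2, role4_3, role4_4, hint4⟩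
                · linarith only [hN0, b4G0, case2_0, role3_4, case3_2, role4_1, role4_8]
                · linarith only [hN0, b2e, b2gG, b2xy, b2s0, b3e, b3s0, b4e, b5s0, r2_0, role3_0, role3_1, role3_2, g2_0, p2_2, p3_2, p4_0, p5_1, p5_2, p5_3, case3_0, case3_3, role4_0, role4_2]
            · rcases hcase3 with ⟨case3_0, case3_1, case3_2⟩ | ⟨case3_0, case3_1, case3_2⟩ | ⟨case3_0, case3_1, case3_2, case3_3⟩ | ⟨case3_0, case3_1, case3_2, case3_3⟩
              · rcases hrole4 with ⟨role4_0, role4_1, role4_2, role4_3, role4_4, role4_5, role4_6, role4_7, role4_8⟩ | ⟨role4_0, role4_1, role4_2, role4_3, role4_4, hint4⟩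
                · linarith only [hN0, b2xy, b2a0, b2s0, b3xy, b3s0, b4s0, w2_0, w2_1, w3_1, w4_3, r2_0, r2_4, role1_4, case2_0, case2_1, case2_2, role3_0, role3_1, role3_3, role3_4, case3_1, case3_2, role4_1, role4_8]
                · rcases hcase4 with ⟨case4_0, case4_1, case4_2⟩ | ⟨case4_0, case4_1, case4_2⟩ | ⟨case4_0, case4_1, case4_2, case4_3⟩ | ⟨case4_0, case4_1, case4_2, case4_3⟩
                  · rcases hg4 with g4_0 | g4_0 | g4_0
                    · linarith only [hN0, b4G0, case3_0, role4_4, case4_2, g4_0]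
                    · linarith only [hN0, b0yJ, b0g0, b0v0, b0vx, b1yJ, b2e, b2xy, b3e, b3s0, b5s0, r2_0, r2_1, r2_2, role1_0, role1_5, role1_6, case2_0, role3_0, role3_1, role3_4, p3_0, p3_1, p4_1, p4_3, p5_1, p5_2, p5_3, case3_0, case3_2, role4_0, role4_1, role4_2, role4_4, case4_2, g4_0]
                    · linarith only [hN0, b2g0, b2v0, b2vx, b3xy, b3s0, b4gG, b4s0, w4_3, r2_0, role3_1, role3_2, role4_1, g4_0]
                  · linarith only [hN0, b3g0, b3xy, b3a0, b3s0, b4g0, b4s0, w4_3, case3_0, case3_1, role4_1, role4_3, role4_4, case4_2]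
                  · linarith only [hN0, b3g0, b3xy, b3a0, b3s0, b4s0, w4_3, case3_1, role4_1, role4_3, case4_1, case4_2, case4_3]
                  · rcases hg4 with g4_0 | g4_0 | g4_0
                    · linarith only [hN0, b4vx, b4Z0, case4_0, case4_2, g4_0]
                    · linarith only [hN0, b0yJ, b0g0, b0v0, b0vx, b1yJ, b2e, b2xy, b3e, b3s0, b5s0, r2_0, r2_1, r2_2, role1_0, role1_5, role1_6, case2_0, role3_0, role3_1, role3_4, p3_0, p3_1, p4_1, p4_3, p5_1, p5_2, p5_3, case3_2, role4_0, role4_1, role4_2, case4_3, g4_0]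
                    · linarith only [hN0, b2g0, b2v0, b2vx, b3xy, b3s0, b4gG, b4s0, w4_3, r2_0, role3_1, role3_2, role4_1, g4_0]
              · linarith only [hN0, b2g0, b2xy, b2a0, b2s0, b3g0, b3s0, w3_3, case2_0, case2_1, role3_1, role3_3, role3_4, case3_2]
              · linarith only [hN0, b2g0, b2xy, b2a0, b2s0, b3s0, w3_3, case2_1, role3_1, role3_3, case3_1, case3_2, case3_3]
              · rcases hrole4 with ⟨role4_0, role4_1, role4_2, role4_3, role4_4, role4_5, role4_6, role4_7, role4_8⟩ | ⟨role4_0, role4_1, role4_2, role4_3, role4_4, hint4⟩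
                · linarith only [hN0, b4G0, case2_0, role3_4, case3_2, role4_1, role4_8]
                · rcases hcase4 with ⟨case4_0, case4_1, case4_2⟩ | ⟨case4_0, case4_1, case4_2⟩ | ⟨case4_0, case4_1, case4_2, case4_3⟩ | ⟨case4_0, case4_1, case4_2, case4_3⟩
                  · rcases hg4 with g4_0 | g4_0 | g4_0
                    · linarith only [hN0, b1yJ, b2xy, b2s0, b4vx, b5s0, w2_0, w2_2, w3_1, w4_1, w4_3, r2_0, r2_1, r2_2, r2_3, r2_4, role1_0, role1_3, role1_4, case2_1, case2_2, role3_0, role3_1, role3_2, role3_3, case3_0, case3_1, case3_3, role4_0, role4_1, role4_2, role4_4, case4_2, g4_0]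
                    · linarith only [hN0, b2xy, b2a0, b2s0, b3s0, b4s0, w2_0, w2_1, w4_3, r2_0, r2_4, role1_4, case2_1, case2_2, role3_2, role3_3, case3_1, role4_1, role4_4, case4_2, g4_0]
                    · linarith only [hN0, b2g0, b2v0, b2vx, b3xy, b3s0, b4gG, b4s0, w4_3, r2_0, role3_1, role3_2, role4_1, g4_0]
                  · linarith only [hN0, b2xy, b2a0, b2s0, b3s0, b4g0, b4s0, w2_0, w2_1, w4_3, r2_0, r2_4, role1_4, case2_0, case2_1, case2_2, role3_2, role3_3, role3_4, case3_1, case3_2, role4_1, role4_3, role4_4, case4_2]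
                  · rcases hg4 with g4_0 | g4_0 | g4_0
                    · linarith only [hN0, b4vx, b4Z0, case4_1, case4_2, g4_0]
                    · linarith only [hN0, b0yJ, b0g0, b0v0, b0vx, b1yJ, b2e, b2xy, b3e, b3s0, b5s0, r2_0, r2_1, r2_2, role1_0, role1_5, role1_6, case2_0, role3_0, role3_1, role3_4, p3_0, p3_1, p4_1, p4_3, case3_0, case3_2, case3_3, role4_0, role4_1, role4_2, role4_3, case4_3, g4_0]
                    · linarith only [hN0, b2g0, b2v0, b2vx, b3xy, b3s0, b4gG, b4s0, w4_3, r2_0, role3_1, role3_2, role4_1, g4_0]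
                  · rcases hg4 with g4_0 | g4_0 | g4_0
                    · linarith only [hN0, b4vx, b4Z0, case4_0, case4_2, g4_0]
                    · linarith only [hN0, b0yJ, b0g0, b0v0, b0vx, b1yJ, b2e, b2xy, b3e, b3s0, b5s0, r2_0, r2_1, r2_2, role1_0, role1_5, role1_6, role3_0, role3_1, p3_0, p3_1, p4_1, p4_3, case3_0, case3_3, role4_0, role4_1, role4_2, case4_3, g4_0]
                    · linarith only [hN0, b2g0, b2v0, b2vx, b3xy, b3s0, b4gG, b4s0, w4_3, r2_0, role3_1, role3_2, role4_1, g4_0]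
            · rcases hcase3 with ⟨case3_0, case3_1, case3_2⟩ | ⟨case3_0, case3_1, case3_2⟩ | ⟨case3_0, case3_1, case3_2, case3_3⟩ | ⟨case3_0, case3_1, case3_2, case3_3⟩
              · rcases hg3 with g3_0 | g3_0 | g3_0
                · linarith only [hN0, b3G0, case2_0, role3_4, case3_2, g3_0]
                · rcases hrole4 with ⟨role4_0, role4_1, role4_2, role4_3, role4_4, role4_5, role4_6, role4_7, role4_8⟩ | ⟨role4_0, role4_1, role4_2, role4_3, role4_4, hint4⟩
                  · linarith only [hN0, b2xy, b2a0, b2s0, b3xy, b3s0, b4s0, w2_0, w2_1, w3_1, w4_3, r2_0, r2_4, role1_4, case2_0, case2_1, case2_2, role3_0, role3_1, role3_3, role3_4, case3_1, case3_2, role4_1, role4_8]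
                  · rcases hrole0 with ⟨role0_0, role0_1, role0_2, role0_3, role0_4, role0_5, role0_6, hback0⟩ | ⟨role0_0, role0_1⟩
                    · linarith only [hN0, b0yJ, b0s0, b1s0, b2e, b2xy, b3e, b3s0, b4e, b4s0, b5s0, hsm, r2_0, r2_1, r2_2, role1_0, role1_1, role1_5, role1_6, role1_8, role3_0, role3_1, role3_2, g2_0, p1_2, p2_0, p4_0, pm_0, g3_0, role4_0, role4_2, role0_0, role0_3, role0_5, role0_6]
                    · rcases hJ1 with J1_0 | J1_0
                      · linarith only [hN0, b0e, b0xy, b0s0, b1e, b2e, b3xy, b4s0, hsm, r2_0, r2_1, r2_4, role1_4, role1_5, case2_0, case2_2, role3_0, role3_1, role3_2, role3_4, p2_0, p2_1, p3_1, p3_3, pm_0, case3_2, g3_0, role0_0, role0_1, J1_0]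
                      · rcases hcase0 with ⟨case0_0, case0_1, case0_2⟩ | ⟨case0_0, case0_1, case0_2⟩ | ⟨case0_0, case0_1, case0_2, case0_3⟩ | ⟨case0_0, case0_1, case0_2, case0_3⟩
                        · linarith only [hN0, b0yJ, b0g0, b0xy, b0vx, b1s0, b2e, b2xy, b2s0, b3e, b4e, b4s0, b5s0, r2_0, r2_1, r2_2, role1_0, role1_5, role1_6, int2_0, role3_0, role3_1, role3_2, p0_0, p0_1, p1_0, p4_0, g3_0, role4_0, role4_2, J1_0, case0_2]
                        · linarith only [hN0, b0a0, b0v0, b0s0, b1xy, b2e, b2xy, b3e, b4e, b4s0, b5s0, r2_0, r2_1, r2_2, r2_4, role1_0, role1_1, role1_4, role1_6, role1_8, case2_0, case2_2, role3_0, role3_1, role3_2, role3_4, p0_2, p1_1, p2_0, p2_1, p2_3, p3_1, p4_0, p4_1, p4_3, p5_1, p5_2, p5_3, case3_2, role4_0, role4_2, J1_0, case0_1, case0_2]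
                        · linarith only [hN0, b0e, b0xy, b0vx, b1e, b1yJ, b2e, b3e, b4e, b4s0, b5s0, r2_0, r2_1, r2_2, r2_4, role1_0, role1_1, role1_4, role1_5, role1_6, role1_8, case2_0, case2_2, role3_0, role3_1, role3_2, role3_4, p1_0, p1_1, p1_2, p2_1, p3_1, p3_3, p4_0, p4_1, p4_3, case3_2, role4_0, role4_2, case0_1, case0_2]
                        · linarith only [hN0, b0e, b0xy, b0vx, b1e, b2e, b2s0, b3s0, b4s0, r2_0, r2_1, r2_2, r2_4, role1_0, role1_1, role1_4, role1_5, role1_6, role1_8, case2_0, case2_2, role3_0, role3_1, role3_2, role3_4, p0_0, p0_1, p1_1, p2_0, p2_1, p3_1, case3_2, g3_0, case0_0, case0_2, case0_3]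
                · linarith only [hN0, b1yJ, b1v0, b1vx, b2xy, b2s0, b3gG, b3s0, hg1, w3_3, r2_1, r2_2, role3_1, g3_0]
              · linarith only [hN0, b2g0, b2xy, b2a0, b2s0, b3g0, b3s0, w3_3, case2_0, case2_1, role3_1, role3_3, role3_4, case3_2]
              · linarith only [hN0, b2g0, b2xy, b2a0, b2s0, b3s0, w3_3, case2_1, role3_1, role3_3, case3_1, case3_2, case3_3]
              · rcases hg3 with g3_0 | g3_0 | g3_0
                · linarith only [hN0, b3vx, b3Z0, case3_0, case3_2, g3_0]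
                · rcases hrole4 with ⟨role4_0, role4_1, role4_2, role4_3, role4_4, role4_5, role4_6, role4_7, role4_8⟩ | ⟨role4_0, role4_1, role4_2, role4_3, role4_4, hint4⟩
                  · linarith only [hN0, b4G0, case2_0, role3_4, case3_2, role4_1, role4_8]
                  · rcases hrole0 with ⟨role0_0, role0_1, role0_2, role0_3, role0_4, role0_5, role0_6, hback0⟩ | ⟨role0_0, role0_1⟩
                    · linarith only [hN0, b0yJ, b0s0, b1s0, b2e, b2xy, b3e, b4e, b4s0, b5s0, hsm, r2_0, r2_1, r2_2, role1_0, role1_1, role1_5, role1_6, role1_8, role3_0, role3_1, role3_2, g2_0, p1_2, p3_1, p3_3, p4_0, pm_0, case3_0, case3_3, role4_0, role4_2, role0_0, role0_3, role0_5, role0_6]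
                    · rcases hJ1 with J1_0 | J1_0
                      · linarith only [hN0, b0e, b0xy, b0s0, b1e, b2e, b3xy, b4s0, hsm, r2_0, r2_1, r2_4, role1_4, role1_5, case2_2, role3_0, role3_1, role3_2, p2_0, p2_1, p3_1, p3_3, pm_0, case3_3, g3_0, role0_0, role0_1, J1_0]
                      · rcases hcase0 with ⟨case0_0, case0_1, case0_2⟩ | ⟨case0_0, case0_1, case0_2⟩ | ⟨case0_0, case0_1, case0_2, case0_3⟩ | ⟨case0_0, case0_1, case0_2, case0_3⟩
                        · linarith only [hN0, b0yJ, b0g0, b0xy, b0vx, b1s0, b2e, b2xy, b2s0, b3e, b4e, b4s0, b5s0, r2_0, r2_1, r2_2, role1_0, role1_5, role1_6, int2_0, role3_0, role3_1, role3_2, p0_0, p0_1, p1_0, p4_0, case3_0, role4_0, role4_2, J1_0, case0_2]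
                        · linarith only [hN0, b0a0, b0v0, b0s0, b1xy, b2e, b2g0, b2xy, b2s0, b3e, b3s0, b4e, b4s0, b5s0, w2_3, r2_0, r2_1, r2_2, role1_0, role1_1, role1_6, role1_8, role3_1, p0_2, p1_0, p1_1, p3_2, p4_0, p5_1, p5_2, p5_3, case3_0, case3_3, role4_0, role4_2, J1_0, case0_1, case0_2]
                        · linarith only [hN0, b0e, b0xy, b0vx, b1e, b1yJ, b2e, b3e, b4e, b4s0, b5s0, r2_1, r2_2, r2_4, role1_0, role1_1, role1_4, role1_5, role1_6, role1_8, case2_2, role3_0, role3_1, role3_2, p1_0, p1_1, p1_2, p2_1, p3_1, p4_0, p4_1, p4_3, p5_1, p5_2, p5_3, case3_0, case3_3, role4_0, role4_2, case0_1, case0_2]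
                        · linarith only [hN0, b0e, b0xy, b0vx, b1e, b2e, b2s0, b3s0, b4s0, r2_0, r2_1, r2_2, r2_4, role1_0, role1_1, role1_4, role1_5, role1_6, role1_8, case2_2, role3_0, role3_1, role3_2, p0_0, p0_1, p1_1, p2_0, p2_1, p3_1, case3_3, g3_0, case0_0, case0_2, case0_3]
                · linarith only [hN0, b1yJ, b1v0, b1vx, b2xy, b2s0, b3gG, b3s0, hg1, w3_3, r2_1, r2_2, role3_1, g3_0]
            · rcases hcase3 with ⟨case3_0, case3_1, case3_2⟩ | ⟨case3_0, case3_1, case3_2⟩ | ⟨case3_0, case3_1, case3_2, case3_3⟩ | ⟨case3_0, case3_1, case3_2, case3_3⟩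
              · rcases hrole4 with ⟨role4_0, role4_1, role4_2, role4_3, role4_4, role4_5, role4_6, role4_7, role4_8⟩ | ⟨role4_0, role4_1, role4_2, role4_3, role4_4, hint4⟩
                · linarith only [hN0, b2xy, b2a0, b2s0, b3xy, b3s0, b4s0, w2_0, w2_1, w3_1, w4_3, r2_0, r2_4, role1_4, case2_0, case2_1, case2_2, role3_0, role3_1, role3_3, role3_4, case3_1, case3_2, role4_1, role4_8]
                · linarith only [hN0, b1yJ, b2xy, b2a0, b2s0, b3e, b3s0, b4e, b4s0, b5s0, r2_0, r2_1, r2_2, r2_3, r2_4, role1_0, role1_3, role1_4, case2_0, case2_2, role3_0, role3_1, role3_2, role3_4, p2_0, p2_1, p3_1, p4_0, p5_1, p5_2, p5_3, case3_2, role4_0, role4_2]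
              · linarith only [hN0, b2g0, b2xy, b2a0, b2s0, b3g0, b3s0, w3_3, case2_0, case2_1, role3_1, role3_3, role3_4, case3_2]
              · linarith only [hN0, b2g0, b2xy, b2a0, b2s0, b3s0, w3_3, case2_1, role3_1, role3_3, case3_1, case3_2, case3_3]
              · rcases hrole4 with ⟨role4_0, role4_1, role4_2, role4_3, role4_4, role4_5, role4_6, role4_7, role4_8⟩ | ⟨role4_0, role4_1, role4_2, role4_3, role4_4, hint4⟩
                · linarith only [hN0, b4G0, case2_0, role3_4, case3_2, role4_1, role4_8]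
                · linarith only [hN0, b1yJ, b1xy, b1vx, b2e, b2xy, b2s0, b3e, b3xy, b4e, b4s0, b5s0, r2_0, r2_1, r2_2, role1_0, role1_1, role3_0, role3_1, p1_1, p2_1, p2_3, p3_1, p4_0, p5_1, p5_2, p5_3, case3_0, case3_3, role4_0, role4_2]
      · linarith only [hN0, b1xy, b1s0, b2g0, b2s0, w2_3, r2_1, r2_3, r2_4, role1_3, role1_4, case2_2]
      · linarith only [hN0, b1xy, b1s0, b2s0, w2_3, r2_1, r2_3, role1_3, case2_1, case2_2, case2_3]
      · rcases hrole3 with ⟨role3_0, role3_1, role3_2, role3_3, role3_4, role3_5, role3_6, role3_7, role3_8⟩ | ⟨role3_0, role3_1, role3_2, role3_3, role3_4, hint3⟩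
        · linarith only [hN0, b3G0, r2_4, role1_4, case2_2, role3_1, role3_8]
        · rcases hg2 with g2_0 | g2_0 | g2_0
          · linarith only [hN0, b1yJ, b2v0, b2vx, r2_1, int2_0, g2_0]
          · rcases hrole0 with ⟨role0_0, role0_1, role0_2, role0_3, role0_4, role0_5, role0_6, hback0⟩ | ⟨role0_0, role0_1⟩
            · linarith only [hN0, b0yJ, b1yJ, b1xy, b3s0, w1_1, w2_1, w2_3, r2_0, r2_1, r2_2, role1_0, role1_1, role1_5, role1_6, role1_8, case2_3, g2_0, role0_0, role0_3]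
            · rcases hcase0 with ⟨case0_0, case0_1, case0_2⟩ | ⟨case0_0, case0_1, case0_2⟩ | ⟨case0_0, case0_1, case0_2, case0_3⟩ | ⟨case0_0, case0_1, case0_2, case0_3⟩
              · rcases htz0 with tz0_0 | tz0_0
                · linarith only [hN0, b0yJ, b1yJ, b1xy, b3s0, w1_1, w2_1, w2_3, r2_0, r2_1, r2_2, role1_0, role1_1, role1_5, role1_6, role1_8, case2_3, g2_0, case0_1, tz0_0]
                · linarith only [hN0, b0yJ, b0xy, b0s0, b1yJ, b1s0, b3s0, w0_0, w0_1, w2_1, w2_3, r2_0, r2_1, r2_2, role1_0, role1_5, role1_6, case2_3, g2_0, case0_2, tz0_0]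
              · linarith only [hN0, b0yJ, b1yJ, b1xy, b3s0, w1_1, w2_1, w2_3, r2_0, r2_1, r2_2, role1_0, role1_1, role1_5, role1_6, role1_8, case2_3, g2_0, case0_1]
              · linarith only [hN0, b0yJ, b0vx, b1yJ, b1xy, b3s0, w1_1, w2_1, w2_3, r2_0, r2_1, r2_2, role1_0, role1_1, role1_5, role1_6, role1_8, case2_3, g2_0, case0_2]
              · linarith only [hN0, b0yJ, b0vx, b1yJ, b1xy, b3s0, w1_1, w1_2, w2_1, w2_3, r2_0, r2_1, r2_2, role1_0, role1_1, role1_5, role1_6, role1_8, case2_3, g2_0, case0_0, case0_2]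
          · rcases hbox with ⟨⟨pm_0, pm_1, -, -⟩, ⟨p0_0, p0_1, p0_2, p0_3⟩, ⟨p1_0, p1_1, p1_2, p1_3⟩, ⟨p2_0, p2_1, p2_2, p2_3⟩, ⟨p3_0, p3_1, p3_2, p3_3⟩, ⟨p4_0, p4_1, p4_2, p4_3⟩, ⟨p5_0, p5_1, p5_2, p5_3⟩⟩ | ⟨⟨pm_0, pm_1, -, -⟩, ⟨p0_0, p0_1, p0_2, p0_3⟩, ⟨p1_0, p1_1, p1_2, p1_3⟩, ⟨p2_0, p2_1, p2_2, p2_3⟩, ⟨p3_0, p3_1, p3_2, p3_3⟩, ⟨p4_0, p4_1, p4_2, p4_3⟩, ⟨p5_0, p5_1, p5_2, p5_3⟩⟩ | ⟨⟨pm_0, pm_1, -, -⟩, ⟨p0_0, p0_1, p0_2, p0_3⟩, ⟨p1_0, p1_1, p1_2, p1_3⟩, ⟨p2_0, p2_1, p2_2, p2_3⟩, ⟨p3_0, p3_1, p3_2, p3_3⟩, ⟨p4_0, p4_1, p4_2, p4_3⟩, ⟨p5_0, p5_1, p5_2, p5_3⟩⟩ | ⟨⟨pm_0, pm_1, -, -⟩, ⟨p0_0, p0_1, p0_2, p0_3⟩, ⟨p1_0, p1_1, p1_2, p1_3⟩, ⟨p2_0, p2_1, p2_2, p2_3⟩, ⟨p3_0, p3_1, p3_2, p3_3⟩, ⟨p4_0, p4_1, p4_2, p4_3⟩, ⟨p5_0, p5_1, p5_2, p5_3⟩⟩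
            · rcases hcase3 with ⟨case3_0, case3_1, case3_2⟩ | ⟨case3_0, case3_1, case3_2⟩ | ⟨case3_0, case3_1, case3_2, case3_3⟩ | ⟨case3_0, case3_1, case3_2, case3_3⟩
              · rcases hg3 with g3_0 | g3_0 | g3_0
                · rcases hrole0 with ⟨role0_0, role0_1, role0_2, role0_3, role0_4, role0_5, role0_6, hback0⟩ | ⟨role0_0, role0_1⟩
                  · linarith only [hN0, b0s0, b1s0, b2e, b2xy, b3s0, b4s0, hsm, w0_1, w0_3, w1_2, w2_0, w2_1, w3_1, r2_0, r2_2, r2_3, role1_0, role1_1, role1_3, role1_6, role1_8, case2_1, case2_3, role3_0, role3_2, role3_4, case3_2, g3_0, role0_0, role0_3, role0_6]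
                  · linarith only [hN0, b0xy, b0s0, b1e, b1yJ, b2e, b2s0, b4s0, hsm, w0_0, w0_1, w0_2, w2_0, w2_1, w3_1, wm_0, r2_0, r2_1, r2_2, r2_3, role1_0, role1_3, role1_5, case2_1, case2_3, role3_0, role3_2, role3_4, case3_2, g3_0, role0_0, role0_1]
                · linarith only [hN0, b0yJ, b0g0, b0v0, b0vx, b2xy, b2s0, b3s0, w3_3, r2_1, r2_3, role1_3, role1_5, role1_6, case2_1, role3_1, role3_4, case3_2, g3_0]
                · linarith only [hN0, b1yJ, b1v0, b1vx, b2xy, b2s0, b3gG, b3s0, hg1, w3_3, r2_1, r2_2, role3_1, g3_0]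
              · linarith only [hN0, b0yJ, b0g0, b0v0, b0vx, b2xy, b2s0, b3g0, b3s0, w3_3, r2_1, r2_3, r2_4, role1_3, role1_4, role1_5, role1_6, case2_1, case2_2, role3_1, role3_3, role3_4, case3_2]
              · rcases hrole4 with ⟨role4_0, role4_1, role4_2, role4_3, role4_4, role4_5, role4_6, role4_7, role4_8⟩ | ⟨role4_0, role4_1, role4_2, role4_3, role4_4, hint4⟩
                · rcases hrole0 with ⟨role0_0, role0_1, role0_2, role0_3, role0_4, role0_5, role0_6, hback0⟩ | ⟨role0_0, role0_1⟩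
                  · rcases hback0 with back0_0 | back0_0
                    · rcases hrole5 with ⟨role5_0, role5_1, role5_2, role5_3, role5_4, role5_5, role5_6, role5_7, role5_8⟩ | ⟨role5_0, role5_1, role5_2, role5_3, role5_4, hint5⟩
                      · linarith only [hN0, b0yJ, b1s0, b2e, b2gG, b2xy, b2s0, b3e, b3a0, b5s0, hsm, r2_0, r2_1, r2_2, role1_0, role1_1, role1_5, role1_6, role1_8, int2_0, role3_0, role3_1, role3_2, p0_1, p1_2, p2_2, p3_2, p5_3, pm_0, case3_1, case3_2, case3_3, role4_3, role4_6, role0_0, role0_3, role0_5, role0_6, back0_0, role5_1, role5_8]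
                      · rcases hJ4 with J4_0 | J4_0
                        · linarith only [hN0, b0yJ, b0g0, b0v0, b0vx, b2s0, b3e, b3xy, b4e, b4s0, b5e, hs6, r2_0, r2_1, r2_3, r2_4, role1_3, role1_4, role1_5, role1_6, case2_1, case2_2, case2_3, role3_0, role3_1, role3_2, role3_3, role3_4, p2_2, p3_0, p3_2, p4_2, p5_0, p5_1, p5_3, case3_1, case3_2, case3_3, role4_0, role4_1, role4_5, role4_6, role4_8, role5_0, role5_2, J4_0]
                        · rcases hJ0 with J0_0 | J0_0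
                          · linarith only [hN0, b1s0, b2e, b2xy, b3e, b4e, b5s0, r2_0, r2_1, r2_2, r2_3, r2_4, role1_0, role1_1, role1_3, role1_4, role1_5, role1_6, role1_8, int2_0, case2_1, case2_2, case2_3, role3_0, role3_2, role3_3, role3_4, g2_0, p1_2, p2_2, p3_2, p3_3, p4_0, p4_1, p5_1, p5_2, p5_3, case3_2, case3_3, role4_1, role4_5, role4_8, role0_0, role0_3, J4_0, J0_0]
                          · linarith only [hN0, b1s0, b2e, b2gG, b2xy, b2s0, b3e, b3a0, b3s0, b4e, b5s0, r2_0, r2_1, r2_2, role1_0, role1_1, role1_5, role1_6, role1_8, role3_0, role3_1, role3_2, p0_1, p1_2, p1_3, p2_2, p3_2, p4_0, case3_1, case3_2, case3_3, role4_5, role0_0, role0_3, role0_5, role0_6, back0_0, J4_0, J0_0]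
                    · rcases hrole5 with ⟨role5_0, role5_1, role5_2, role5_3, role5_4, role5_5, role5_6, role5_7, role5_8⟩ | ⟨role5_0, role5_1, role5_2, role5_3, role5_4, hint5⟩
                      · linarith only [hN0, b0yJ, b0s0, b1s0, b2e, b2gG, b2xy, b2s0, b3e, b3a0, b3s0, b5s0, r2_0, r2_1, r2_2, role1_0, role1_1, role1_5, role1_6, role1_8, role3_0, role3_1, role3_2, p1_2, p2_2, p3_2, p5_3, pm_0, pm_1, case3_1, case3_2, case3_3, role4_3, role4_6, role0_0, role0_3, role0_5, role0_6, back0_0, role5_1, role5_8]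
                      · rcases hJ4 with J4_0 | J4_0
                        · linarith only [hN0, b0yJ, b0g0, b0v0, b0vx, b2s0, b3e, b3xy, b4e, b4s0, b5e, hs6, r2_0, r2_1, r2_3, r2_4, role1_3, role1_4, role1_5, role1_6, case2_1, case2_2, case2_3, role3_0, role3_1, role3_2, role3_3, role3_4, p2_2, p3_0, p3_2, p4_2, p5_0, p5_1, p5_3, case3_1, case3_2, case3_3, role4_0, role4_1, role4_5, role4_6, role4_8, role5_0, role5_2, J4_0]
                        · rcases hJ0 with J0_0 | J0_0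
                          · linarith only [hN0, b1s0, b2e, b2xy, b3e, b4e, b5s0, r2_0, r2_1, r2_2, r2_3, r2_4, role1_0, role1_1, role1_3, role1_4, role1_5, role1_6, role1_8, int2_0, case2_1, case2_2, case2_3, role3_0, role3_2, role3_3, role3_4, g2_0, p1_2, p2_2, p3_2, p3_3, p4_0, p4_1, p5_1, p5_2, p5_3, case3_2, case3_3, role4_1, role4_5, role4_8, role0_0, role0_3, J4_0, J0_0]
                          · linarith only [hN0, b0s0, b1s0, b2e, b2gG, b2xy, b2s0, b3e, b3a0, b3s0, b4e, b5s0, r2_0, r2_1, r2_2, role1_0, role1_1, role1_5, role1_6, role1_8, role3_0, role3_1, role3_2, p1_2, p2_2, p3_2, p4_0, pm_0, pm_1, case3_1, case3_2, case3_3, role4_5, role0_0, role0_3, role0_5, role0_6, back0_0, J4_0, J0_0]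
                  · rcases hJ1 with J1_0 | J1_0
                    · rcases hcase0 with ⟨case0_0, case0_1, case0_2⟩ | ⟨case0_0, case0_1, case0_2⟩ | ⟨case0_0, case0_1, case0_2, case0_3⟩ | ⟨case0_0, case0_1, case0_2, case0_3⟩
                      · linarith only [hN0, b0g0, b0xy, b0a0, b0vx, b1e, b1s0, b2e, b2gG, b2xy, b2s0, r2_1, r2_2, role1_0, role1_1, role1_5, role1_6, role1_8, g2_0, p0_0, p0_1, p1_2, p2_0, p2_2, J1_0, case0_1, case0_2]
                      · linarith only [hN0, b0e, b0s0, b1xy, b1s0, b2gG, b2xy, b2s0, b4s0, r2_0, r2_1, r2_2, role1_0, role1_1, role1_6, role1_8, role3_0, role3_2, g2_0, p0_0, p1_2, p2_2, p3_1, p3_3, J1_0, case0_1]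
                      · linarith only [hN0, b0e, b0xy, b0v0, b1e, b1s0, b2e, b2gG, b2s0, r2_1, role1_1, role1_5, role1_8, g2_0, p1_2, p2_0, p2_2, role0_0, J1_0, case0_1]
                      · linarith only [hN0, b0e, b0xy, b1e, b2e, b2s0, b3s0, r2_0, r2_1, r2_2, r2_3, r2_4, role1_0, role1_3, role1_4, role1_5, role1_6, case2_1, case2_2, case2_3, role3_0, role3_1, role3_2, role3_3, role3_4, g2_0, p2_2, p3_2, p4_3, case3_1, case3_2, case3_3, role4_1, role4_8, role0_0, J1_0, case0_0]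
                    · rcases hJ4 with J4_0 | J4_0
                      · rcases hrole5 with ⟨role5_0, role5_1, role5_2, role5_3, role5_4, role5_5, role5_6, role5_7, role5_8⟩ | ⟨role5_0, role5_1, role5_2, role5_3, role5_4, hint5⟩
                        · linarith only [hN0, b1yJ, b1v0, b1vx, b2e, b2xy, b3e, b3s0, b4e, b4s0, b5e, b5s0, hg1, r2_0, r2_1, r2_2, role3_0, role3_1, p4_1, p4_3, p5_0, p5_2, p5_3, case3_1, case3_2, role4_3, role4_5, role4_6, J4_0, role5_1, role5_8]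
                        · linarith only [hN0, b0yJ, b0g0, b0v0, b0vx, b2s0, b3e, b3xy, b4e, b4s0, b5e, hs6, r2_0, r2_1, r2_3, r2_4, role1_3, role1_4, role1_5, role1_6, case2_1, case2_2, case2_3, role3_0, role3_1, role3_2, role3_3, role3_4, p2_2, p3_0, p3_2, p4_2, p5_0, p5_1, p5_3, case3_1, case3_2, case3_3, role4_0, role4_1, role4_5, role4_6, role4_8, J4_0, role5_0, role5_2]
                      · linarith only [hN0, b0e, b0xy, b0s0, b1e, b2e, b2xy, b3e, b3s0, b4e, b5s0, hsm, r2_0, r2_1, r2_2, r2_3, r2_4, role1_0, role1_3, role1_4, role1_5, case2_1, case2_2, case2_3, role3_0, role3_2, role3_3, role3_4, p2_0, p2_1, p3_2, p4_0, p4_1, pm_0, case3_2, case3_3, role4_1, role4_5, role4_8, role0_0, role0_1, J1_0, J4_0]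
                · linarith only [hN0, b2e, b2gG, b2xy, b2s0, b3e, b3a0, b3s0, b4e, b5s0, r2_0, role3_0, role3_1, role3_2, g2_0, p2_2, p3_2, p4_0, p5_1, p5_2, p5_3, case3_1, case3_2, case3_3, role4_0, role4_2]
              · rcases hrole4 with ⟨role4_0, role4_1, role4_2, role4_3, role4_4, role4_5, role4_6, role4_7, role4_8⟩ | ⟨role4_0, role4_1, role4_2, role4_3, role4_4, hint4⟩
                · rcases hrole0 with ⟨role0_0, role0_1, role0_2, role0_3, role0_4, role0_5, role0_6, hback0⟩ | ⟨role0_0, role0_1⟩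
                  · rcases hrole5 with ⟨role5_0, role5_1, role5_2, role5_3, role5_4, role5_5, role5_6, role5_7, role5_8⟩ | ⟨role5_0, role5_1, role5_2, role5_3, role5_4, hint5⟩
                    · linarith only [hN0, b3e, b3yJ, b3xy, b3vx, b4e, b5e, b5s0, p3_0, p3_1, p4_1, p5_0, p5_1, p5_2, p5_3, case3_0, case3_2, case3_3, role4_1, role4_3, role4_6, role4_8, role5_1, role5_8]
                    · rcases hcase5 with ⟨case5_0, case5_1, case5_2⟩ | ⟨case5_0, case5_1, case5_2⟩ | ⟨case5_0, case5_1, case5_2, case5_3⟩ | ⟨case5_0, case5_1, case5_2, case5_3⟩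
                      · rcases hg5 with g5_0 | g5_0 | g5_0
                        · linarith only [hN0, b5G0, role4_4, role5_4, case5_2, g5_0]
                        · linarith only [hN0, b1yJ, b1v0, b1vx, b2e, b2xy, b3e, b3g0, b4e, b4yJ, b5e, hs6, hg1, w5_0, w5_1, r2_0, r2_1, r2_2, role3_0, role3_1, role4_0, role4_4, role4_5, role4_6, role5_0, role5_1, role5_2, role5_4, case5_2, g5_0]
                        · linarith only [hN0, b0s0, b1s0, b2xy, b2s0, b3s0, b4e, b5e, b5gG, b5s0, hsm, r2_0, r2_2, r2_3, role1_0, role1_1, role1_3, role1_8, case2_1, case2_3, role3_2, role3_4, p0_0, p1_0, p1_2, p2_0, p2_1, p2_3, p3_0, p4_1, p5_0, p5_2, pm_0, case3_2, role4_1, role4_5, role4_8, role0_3, role0_6, role5_1, g5_0]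
                      · linarith only [hN0, b4xy, b4s0, b5g0, b5s0, w5_3, role4_3, role4_4, role5_1, role5_3, role5_4, case5_2]
                      · linarith only [hN0, b4xy, b4s0, b5s0, w5_3, role4_3, role5_1, role5_3, case5_1, case5_2, case5_3]
                      · rcases hg5 with g5_0 | g5_0 | g5_0
                        · linarith only [hN0, b5vx, b5Z0, case5_0, case5_2, g5_0]
                        · linarith only [hN0, b1yJ, b1v0, b1vx, b2e, b2xy, b3e, b3g0, b4e, b4yJ, b5e, hs6, hg1, w5_0, w5_1, r2_0, r2_1, r2_2, role3_0, role3_1, role4_0, role4_5, role4_6, role5_0, role5_1, role5_2, case5_3, g5_0]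
                        · linarith only [hN0, b0s0, b1s0, b2xy, b2s0, b3s0, b4e, b5e, b5gG, b5s0, hsm, r2_0, r2_2, r2_3, role1_0, role1_1, role1_3, role1_8, case2_1, case2_3, role3_2, role3_4, p0_0, p1_0, p1_2, p2_0, p2_1, p2_3, p3_0, p4_1, p5_0, p5_2, pm_0, case3_2, role4_1, role4_5, role4_8, role0_3, role0_6, role5_1, g5_0]
                  · linarith only [hN0, b0e, b0xy, b0s0, b1e, b2s0, b3s0, b4yJ, b5s0, hsm, w3_1, w3_3, w4_1, wm_0, r2_0, r2_1, r2_2, r2_3, role1_0, role1_3, role1_5, case2_1, role3_0, role3_2, role3_4, g2_0, case3_2, role4_1, role4_5, role4_8, role0_0, role0_1]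
                · linarith only [hN0, b2e, b2gG, b2xy, b2s0, b3e, b3s0, b4e, b5s0, r2_0, role3_0, role3_1, role3_2, g2_0, p2_2, p3_2, p4_0, p5_1, p5_2, p5_3, case3_0, case3_3, role4_0, role4_2]
            · rcases hcase3 with ⟨case3_0, case3_1, case3_2⟩ | ⟨case3_0, case3_1, case3_2⟩ | ⟨case3_0, case3_1, case3_2, case3_3⟩ | ⟨case3_0, case3_1, case3_2, case3_3⟩
              · rcases hg3 with g3_0 | g3_0 | g3_0
                · rcases hrole0 with ⟨role0_0, role0_1, role0_2, role0_3, role0_4, role0_5, role0_6, hback0⟩ | ⟨role0_0, role0_1⟩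
                  · linarith only [hN0, b0s0, b1s0, b2e, b2xy, b3s0, b4s0, hsm, w0_1, w0_3, w1_2, w2_0, w2_1, w3_1, r2_0, r2_2, r2_3, role1_0, role1_1, role1_3, role1_6, role1_8, case2_1, case2_3, role3_0, role3_2, role3_4, case3_2, g3_0, role0_0, role0_3, role0_6]
                  · linarith only [hN0, b0xy, b0s0, b1e, b1yJ, b2e, b2s0, b4s0, hsm, w0_0, w0_1, w0_2, w2_0, w2_1, w3_1, wm_0, r2_0, r2_1, r2_2, r2_3, role1_0, role1_3, role1_5, case2_1, case2_3, role3_0, role3_2, role3_4, case3_2, g3_0, role0_0, role0_1]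
                · linarith only [hN0, b0yJ, b0g0, b0v0, b0vx, b2xy, b2s0, b3s0, w3_3, r2_1, r2_3, role1_3, role1_5, role1_6, case2_1, role3_1, role3_4, case3_2, g3_0]
                · linarith only [hN0, b1yJ, b1v0, b1vx, b2xy, b2s0, b3gG, b3s0, hg1, w3_3, r2_1, r2_2, role3_1, g3_0]
              · linarith only [hN0, b0yJ, b0g0, b0v0, b0vx, b2xy, b2s0, b3g0, b3s0, w3_3, r2_1, r2_3, r2_4, role1_3, role1_4, role1_5, role1_6, case2_1, case2_2, role3_1, role3_3, role3_4, case3_2]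
              · rcases hg3 with g3_0 | g3_0 | g3_0
                · linarith only [hN0, b3vx, b3Z0, case3_1, case3_2, g3_0]
                · rcases hrole0 with ⟨role0_0, role0_1, role0_2, role0_3, role0_4, role0_5, role0_6, hback0⟩ | ⟨role0_0, role0_1⟩
                  · rcases hback0 with back0_0 | back0_0
                    · rcases hrole4 with ⟨role4_0, role4_1, role4_2, role4_3, role4_4, role4_5, role4_6, role4_7, role4_8⟩ | ⟨role4_0, role4_1, role4_2, role4_3, role4_4, hint4⟩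
                      · rcases hJ0 with J0_0 | J0_0
                        · rcases hJ4 with J4_0 | J4_0
                          · rcases hrole5 with ⟨role5_0, role5_1, role5_2, role5_3, role5_4, role5_5, role5_6, role5_7, role5_8⟩ | ⟨role5_0, role5_1, role5_2, role5_3, role5_4, hint5⟩
                            · linarith only [hN0, b1yJ, b1v0, b1vx, b2e, b2xy, b3e, b3s0, b4e, b4s0, b5e, b5s0, hg1, r2_0, r2_1, r2_2, role3_0, role3_1, p3_0, p5_0, p5_2, p5_3, case3_1, case3_2, role4_3, role4_5, role4_6, J4_0, role5_1, role5_8]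
                            · linarith only [hN0, b0yJ, b0g0, b0v0, b0vx, b2xy, b2s0, b3e, b4e, b4s0, b5e, hs6, r2_0, r2_1, r2_3, role1_3, role1_5, role1_6, case2_0, case2_1, case2_3, role3_1, role3_2, role3_4, p2_0, p2_2, p4_1, p4_2, p4_3, p5_0, p5_1, p5_3, case3_1, case3_2, role4_0, role4_1, role4_5, role4_6, role4_8, J4_0, role5_0, role5_2]
                          · linarith only [hN0, b0s0, b1s0, b2xy, b3e, b3s0, b4e, b5s0, hsm, r2_0, r2_1, r2_2, r2_3, r2_4, role1_0, role1_1, role1_3, role1_4, role1_5, role1_6, role1_8, case2_1, case2_2, case2_3, role3_0, role3_2, role3_3, role3_4, p1_2, p2_0, p2_1, p3_2, p4_0, p4_1, p5_1, p5_2, p5_3, pm_0, case3_2, case3_3, role0_0, role0_3, role0_5, role0_6, role4_1, role4_5, role4_8, J0_0, J4_0]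
                        · rcases hrole5 with ⟨role5_0, role5_1, role5_2, role5_3, role5_4, role5_5, role5_6, role5_7, role5_8⟩ | ⟨role5_0, role5_1, role5_2, role5_3, role5_4, hint5⟩
                          · rcases hJ4 with J4_0 | J4_0
                            · linarith only [hN0, b1yJ, b1v0, b1vx, b2e, b2xy, b3e, b3s0, b4e, b4s0, b5e, b5s0, hg1, r2_0, r2_1, r2_2, role3_0, role3_1, p3_0, p5_0, p5_2, p5_3, case3_1, case3_2, role4_3, role4_5, role4_6, role5_1, role5_8, J4_0]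
                            · linarith only [hN0, b1s0, b2xy, b2s0, b3e, b3s0, b5s0, r2_0, r2_1, r2_2, r2_3, r2_4, role1_0, role1_1, role1_3, role1_4, role1_5, role1_6, role1_8, case2_1, case2_2, case2_3, role3_0, role3_1, role3_2, role3_3, role3_4, p0_1, p0_2, p1_2, p1_3, p2_0, p2_1, p3_2, p4_1, p5_3, case3_2, case3_3, role0_0, role0_3, role0_5, role0_6, back0_0, role4_1, role4_3, role4_5, role4_6, role4_8, role5_1, role5_8, J4_0]
                          · linarith only [hN0, b1s0, b2e, b2xy, b3e, b3s0, b4e, b5e, b5s0, hs6, r2_0, r2_1, r2_2, r2_3, r2_4, role1_0, role1_1, role1_3, role1_4, role1_5, role1_6, role1_8, case2_1, case2_2, role3_1, role3_3, role3_4, p0_1, p1_2, p1_3, p2_0, p3_2, p4_2, p5_0, case3_1, case3_2, case3_3, role0_0, role0_3, role0_5, role0_6, back0_0, role4_0, role4_1, role4_6, role4_8, J0_0, role5_0, role5_2]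
                      · rcases hcase4 with ⟨case4_0, case4_1, case4_2⟩ | ⟨case4_0, case4_1, case4_2⟩ | ⟨case4_0, case4_1, case4_2, case4_3⟩ | ⟨case4_0, case4_1, case4_2, case4_3⟩
                        · rcases hg4 with g4_0 | g4_0 | g4_0
                          · linarith only [hN0, b4G0, case3_0, role4_4, case4_2, g4_0]
                          · linarith only [hN0, b0yJ, b0g0, b0v0, b0vx, b1yJ, b2e, b2xy, b3e, b3s0, b5s0, r2_0, r2_1, r2_2, r2_4, role1_0, role1_4, role1_5, role1_6, case2_2, role3_0, role3_1, role3_3, p3_0, p3_1, p4_1, p4_3, case3_0, case3_1, case3_2, case3_3, role4_0, role4_1, role4_2, role4_4, case4_2, g4_0]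
                          · linarith only [hN0, b2g0, b2v0, b2vx, b3xy, b3s0, b4gG, b4s0, w4_3, r2_0, role3_1, role3_2, role4_1, g4_0]
                        · linarith only [hN0, b3xy, b3v0, b3s0, b4g0, b4s0, w4_3, case3_0, case3_1, role4_1, role4_3, role4_4, case4_2]
                        · linarith only [hN0, b3xy, b3v0, b3s0, b4s0, w4_3, case3_1, role4_1, role4_3, case4_1, case4_2, case4_3]
                        · rcases hg4 with g4_0 | g4_0 | g4_0
                          · linarith only [hN0, b4vx, b4Z0, case4_0, case4_2, g4_0]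
                          · linarith only [hN0, b0yJ, b0g0, b0v0, b0vx, b1yJ, b2e, b2xy, b3e, b3s0, b5s0, r2_0, r2_1, r2_2, r2_4, role1_0, role1_4, role1_5, role1_6, case2_2, role3_0, role3_1, role3_3, p3_0, p3_1, p4_1, p4_3, case3_1, case3_2, case3_3, role4_0, role4_1, role4_2, case4_3, g4_0]
                          · linarith only [hN0, b2g0, b2v0, b2vx, b3xy, b3s0, b4gG, b4s0, w4_3, r2_0, role3_1, role3_2, role4_1, g4_0]
                    · rcases hrole4 with ⟨role4_0, role4_1, role4_2, role4_3, role4_4, role4_5, role4_6, role4_7, role4_8⟩ | ⟨role4_0, role4_1, role4_2, role4_3, role4_4, hint4⟩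
                      · rcases hJ4 with J4_0 | J4_0
                        · rcases hrole5 with ⟨role5_0, role5_1, role5_2, role5_3, role5_4, role5_5, role5_6, role5_7, role5_8⟩ | ⟨role5_0, role5_1, role5_2, role5_3, role5_4, hint5⟩
                          · linarith only [hN0, b1yJ, b1v0, b1vx, b2e, b2xy, b3e, b3s0, b4e, b4s0, b5e, b5s0, hg1, r2_0, r2_1, r2_2, role3_0, role3_1, p3_0, p5_0, p5_2, p5_3, case3_1, case3_2, role4_3, role4_5, role4_6, J4_0, role5_1, role5_8]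
                          · linarith only [hN0, b0yJ, b0g0, b0v0, b0vx, b2xy, b2s0, b3e, b4e, b4s0, b5e, hs6, r2_0, r2_1, r2_3, role1_3, role1_5, role1_6, case2_0, case2_1, case2_3, role3_1, role3_2, role3_4, p2_0, p2_2, p4_1, p4_2, p4_3, p5_0, p5_1, p5_3, case3_1, case3_2, role4_0, role4_1, role4_5, role4_6, role4_8, J4_0, role5_0, role5_2]
                        · rcases hrole5 with ⟨role5_0, role5_1, role5_2, role5_3, role5_4, role5_5, role5_6, role5_7, role5_8⟩ | ⟨role5_0, role5_1, role5_2, role5_3, role5_4, hint5⟩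
                          · linarith only [hN0, b0xy, b0s0, b1e, b1s0, b2xy, b3e, b3s0, b5s0, r2_0, r2_1, r2_2, r2_3, r2_4, role1_0, role1_1, role1_3, role1_4, role1_5, role1_8, case2_1, case2_2, case2_3, role3_0, role3_1, role3_2, role3_3, role3_4, p0_0, p1_2, p2_0, p2_1, p3_2, p4_1, p5_3, pm_0, pm_1, case3_2, case3_3, g3_0, role0_3, role0_6, back0_0, role4_1, role4_3, role4_5, role4_6, role4_8, J4_0, role5_1, role5_8]
                          · linarith only [hN0, b0s0, b1s0, b2e, b2xy, b3e, b3s0, b4e, b5e, b5s0, hs6, r2_1, r2_2, r2_3, role1_0, role1_1, role1_3, role1_5, role1_8, case2_1, case2_3, role3_0, role3_1, role3_2, role3_4, p0_0, p1_2, p2_0, p2_1, p2_3, p4_1, p5_0, p5_1, p5_3, pm_0, pm_1, case3_1, case3_2, role0_3, role0_5, role0_6, back0_0, role4_0, role4_1, role4_5, role4_6, role4_8, J4_0, role5_0, role5_2]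
                      · rcases hcase4 with ⟨case4_0, case4_1, case4_2⟩ | ⟨case4_0, case4_1, case4_2⟩ | ⟨case4_0, case4_1, case4_2, case4_3⟩ | ⟨case4_0, case4_1, case4_2, case4_3⟩
                        · rcases hg4 with g4_0 | g4_0 | g4_0
                          · linarith only [hN0, b4G0, case3_0, role4_4, case4_2, g4_0]
                          · linarith only [hN0, b0yJ, b0g0, b0v0, b0vx, b1yJ, b2e, b2xy, b3e, b3s0, b5s0, r2_0, r2_1, r2_2, r2_4, role1_0, role1_4, role1_5, role1_6, case2_2, role3_0, role3_1, role3_3, p3_0, p3_1, p4_1, p4_3, case3_0, case3_1, case3_2, case3_3, role4_0, role4_1, role4_2, role4_4, case4_2, g4_0]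
                          · linarith only [hN0, b2g0, b2v0, b2vx, b3xy, b3s0, b4gG, b4s0, w4_3, r2_0, role3_1, role3_2, role4_1, g4_0]
                        · linarith only [hN0, b3xy, b3v0, b3s0, b4g0, b4s0, w4_3, case3_0, case3_1, role4_1, role4_3, role4_4, case4_2]
                        · linarith only [hN0, b3xy, b3v0, b3s0, b4s0, w4_3, case3_1, role4_1, role4_3, case4_1, case4_2, case4_3]
                        · rcases hg4 with g4_0 | g4_0 | g4_0
                          · linarith only [hN0, b4vx, b4Z0, case4_0, case4_2, g4_0]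
                          · linarith only [hN0, b0yJ, b0g0, b0v0, b0vx, b1yJ, b2e, b2xy, b3e, b3s0, b5s0, r2_0, r2_1, r2_2, r2_4, role1_0, role1_4, role1_5, role1_6, case2_2, role3_0, role3_1, role3_3, p3_0, p3_1, p4_1, p4_3, case3_1, case3_2, case3_3, role4_0, role4_1, role4_2, case4_3, g4_0]
                          · linarith only [hN0, b2g0, b2v0, b2vx, b3xy, b3s0, b4gG, b4s0, w4_3, r2_0, role3_1, role3_2, role4_1, g4_0]
                  · rcases hrole4 with ⟨role4_0, role4_1, role4_2, role4_3, role4_4, role4_5, role4_6, role4_7, role4_8⟩ | ⟨role4_0, role4_1, role4_2, role4_3, role4_4, hint4⟩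
                    · rcases hJ4 with J4_0 | J4_0
                      · rcases hrole5 with ⟨role5_0, role5_1, role5_2, role5_3, role5_4, role5_5, role5_6, role5_7, role5_8⟩ | ⟨role5_0, role5_1, role5_2, role5_3, role5_4, hint5⟩
                        · linarith only [hN0, b1yJ, b1v0, b1vx, b2e, b2xy, b3e, b3s0, b4e, b4s0, b5e, b5s0, hg1, r2_0, r2_1, r2_2, role3_0, role3_1, p3_0, p5_0, p5_2, p5_3, case3_1, case3_2, role4_3, role4_5, role4_6, J4_0, role5_1, role5_8]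
                        · linarith only [hN0, b0yJ, b0g0, b0v0, b0vx, b2xy, b2s0, b3e, b4e, b4s0, b5e, hs6, r2_0, r2_1, r2_3, role1_3, role1_5, role1_6, case2_0, case2_1, case2_3, role3_1, role3_2, role3_4, p2_0, p2_2, p4_1, p4_2, p4_3, p5_0, p5_1, p5_3, case3_1, case3_2, role4_0, role4_1, role4_5, role4_6, role4_8, J4_0, role5_0, role5_2]
                      · linarith only [hN0, b0e, b0xy, b0s0, b1e, b2s0, b3e, b3s0, b4e, b5s0, hsm, r2_0, r2_1, r2_2, r2_3, r2_4, role1_0, role1_3, role1_4, role1_5, case2_1, case2_2, role3_0, role3_2, role3_3, role3_4, g2_0, p2_0, p3_2, p4_0, p4_1, p4_3, p5_1, p5_2, p5_3, pm_0, case3_2, case3_3, role0_0, role0_1, role4_1, role4_5, role4_8, J4_0]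
                    · rcases hcase4 with ⟨case4_0, case4_1, case4_2⟩ | ⟨case4_0, case4_1, case4_2⟩ | ⟨case4_0, case4_1, case4_2, case4_3⟩ | ⟨case4_0, case4_1, case4_2, case4_3⟩
                      · rcases hg4 with g4_0 | g4_0 | g4_0
                        · linarith only [hN0, b4G0, case3_0, role4_4, case4_2, g4_0]
                        · linarith only [hN0, b0yJ, b0g0, b0v0, b0vx, b1yJ, b2e, b2xy, b3e, b3s0, b5s0, r2_0, r2_1, r2_2, r2_4, role1_0, role1_4, role1_5, role1_6, case2_2, role3_0, role3_1, role3_3, p3_0, p3_1, p4_1, p4_3, case3_0, case3_1, case3_2, case3_3, role4_0, role4_1, role4_2, role4_4, case4_2, g4_0]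
                        · linarith only [hN0, b2g0, b2v0, b2vx, b3xy, b3s0, b4gG, b4s0, w4_3, r2_0, role3_1, role3_2, role4_1, g4_0]
                      · linarith only [hN0, b3xy, b3v0, b3s0, b4g0, b4s0, w4_3, case3_0, case3_1, role4_1, role4_3, role4_4, case4_2]
                      · linarith only [hN0, b3xy, b3v0, b3s0, b4s0, w4_3, case3_1, role4_1, role4_3, case4_1, case4_2, case4_3]
                      · rcases hg4 with g4_0 | g4_0 | g4_0
                        · linarith only [hN0, b4vx, b4Z0, case4_0, case4_2, g4_0]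
                        · linarith only [hN0, b0yJ, b0g0, b0v0, b0vx, b1yJ, b2e, b2xy, b3e, b3s0, b5s0, r2_0, r2_1, r2_2, r2_4, role1_0, role1_4, role1_5, role1_6, case2_2, role3_0, role3_1, role3_3, p3_0, p3_1, p4_1, p4_3, case3_1, case3_2, case3_3, role4_0, role4_1, role4_2, case4_3, g4_0]
                        · linarith only [hN0, b2g0, b2v0, b2vx, b3xy, b3s0, b4gG, b4s0, w4_3, r2_0, role3_1, role3_2, role4_1, g4_0]
                · linarith only [hN0, b1yJ, b1v0, b1vx, b2xy, b2s0, b3gG, b3s0, hg1, w3_3, r2_1, r2_2, role3_1, g3_0]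
              · rcases hg3 with g3_0 | g3_0 | g3_0
                · linarith only [hN0, b3vx, b3Z0, case3_0, case3_2, g3_0]
                · rcases hrole0 with ⟨role0_0, role0_1, role0_2, role0_3, role0_4, role0_5, role0_6, hback0⟩ | ⟨role0_0, role0_1⟩
                  · rcases hrole4 with ⟨role4_0, role4_1, role4_2, role4_3, role4_4, role4_5, role4_6, role4_7, role4_8⟩ | ⟨role4_0, role4_1, role4_2, role4_3, role4_4, hint4⟩
                    · linarith only [hN0, b0xy, b0s0, b1s0, b2e, b2xy, b3s0, b4yJ, b5s0, hsm, r2_0, r2_1, r2_2, r2_3, role1_0, role1_1, role1_3, role1_5, role1_6, role1_8, case2_1, case2_3, role3_0, role3_1, role3_2, role3_4, p0_0, p0_1, p0_3, p1_2, p2_0, p2_1, p2_3, p3_1, p4_1, case3_2, case3_3, g3_0, role0_0, role0_3, role0_6, role4_1, role4_5, role4_8]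
                    · rcases hcase4 with ⟨case4_0, case4_1, case4_2⟩ | ⟨case4_0, case4_1, case4_2⟩ | ⟨case4_0, case4_1, case4_2, case4_3⟩ | ⟨case4_0, case4_1, case4_2, case4_3⟩
                      · rcases hg4 with g4_0 | g4_0 | g4_0
                        · linarith only [hN0, b2vx, b3xy, b3vx, b4a0, b5s0, w3_1, w4_1, w4_2, w4_3, r2_0, case2_0, case2_2, role3_0, role3_1, role3_2, role3_3, case3_0, case3_1, case3_2, case3_3, role4_0, role4_2, role4_3, role4_4, case4_2, g4_0]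
                        · linarith only [hN0, b0yJ, b0g0, b0v0, b0vx, b1yJ, b2e, b2xy, b3e, b3s0, b5s0, r2_0, r2_1, r2_2, r2_4, role1_0, role1_4, role1_5, role1_6, case2_2, role3_0, role3_1, role3_3, p3_0, p3_1, p4_1, p4_3, case3_0, case3_1, case3_3, role4_0, role4_1, role4_2, role4_4, case4_2, g4_0]
                        · linarith only [hN0, b2g0, b2v0, b2vx, b3xy, b3s0, b4gG, b4s0, w4_3, r2_0, role3_1, role3_2, role4_1, g4_0]
                      · linarith only [hN0, b2e, b2xy, b3s0, b4g0, b4s0, w4_3, r2_2, r2_3, r2_4, role1_0, role1_3, role1_4, int2_0, case2_1, case2_2, role3_2, role3_3, role3_4, case3_1, case3_2, role4_1, role4_3, role4_4, case4_2]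
                      · linarith only [hN0, b2e, b2xy, b3s0, b4s0, w4_3, r2_2, r2_3, role1_0, role1_3, int2_0, case2_1, role3_2, role3_4, case3_2, role4_1, role4_3, case4_1, case4_2, case4_3]
                      · rcases hg4 with g4_0 | g4_0 | g4_0
                        · linarith only [hN0, b4vx, b4Z0, case4_0, case4_2, g4_0]
                        · linarith only [hN0, b0yJ, b0g0, b0v0, b0vx, b1yJ, b2e, b2xy, b3e, b3s0, b5s0, r2_0, r2_1, r2_2, role1_0, role1_5, role1_6, role3_0, role3_1, p3_0, p3_1, p4_1, p4_3, case3_0, case3_3, role4_0, role4_1, role4_2, case4_3, g4_0]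
                        · linarith only [hN0, b2g0, b2v0, b2vx, b3xy, b3s0, b4gG, b4s0, w4_3, r2_0, role3_1, role3_2, role4_1, g4_0]
                  · rcases hrole4 with ⟨role4_0, role4_1, role4_2, role4_3, role4_4, role4_5, role4_6, role4_7, role4_8⟩ | ⟨role4_0, role4_1, role4_2, role4_3, role4_4, hint4⟩
                    · linarith only [hN0, b0e, b0xy, b0s0, b1e, b2s0, b3s0, b4yJ, b5s0, hsm, w3_1, w3_3, w4_1, wm_0, r2_0, r2_1, r2_2, r2_3, role1_0, role1_3, role1_5, case2_1, role3_0, role3_2, role3_4, g2_0, case3_2, role0_0, role0_1, role4_1, role4_5, role4_8]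
                    · rcases hcase4 with ⟨case4_0, case4_1, case4_2⟩ | ⟨case4_0, case4_1, case4_2⟩ | ⟨case4_0, case4_1, case4_2, case4_3⟩ | ⟨case4_0, case4_1, case4_2, case4_3⟩
                      · rcases hg4 with g4_0 | g4_0 | g4_0
                        · linarith only [hN0, b2vx, b3xy, b3vx, b4a0, b5s0, w3_1, w4_1, w4_2, w4_3, r2_0, case2_0, case2_2, role3_0, role3_1, role3_2, role3_3, case3_0, case3_1, case3_2, case3_3, role4_0, role4_2, role4_3, role4_4, case4_2, g4_0]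
                        · linarith only [hN0, b0yJ, b0g0, b0v0, b0vx, b1yJ, b2e, b2xy, b3e, b3s0, b5s0, r2_0, r2_1, r2_2, r2_4, role1_0, role1_4, role1_5, role1_6, case2_2, role3_0, role3_1, role3_3, p3_0, p3_1, p4_1, p4_3, case3_0, case3_1, case3_3, role4_0, role4_1, role4_2, role4_4, case4_2, g4_0]
                        · linarith only [hN0, b2g0, b2v0, b2vx, b3xy, b3s0, b4gG, b4s0, w4_3, r2_0, role3_1, role3_2, role4_1, g4_0]
                      · linarith only [hN0, b2e, b2xy, b3s0, b4g0, b4s0, w4_3, r2_2, r2_3, r2_4, role1_0, role1_3, role1_4, int2_0, case2_1, case2_2, role3_2, role3_3, role3_4, case3_1, case3_2, role4_1, role4_3, role4_4, case4_2]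
                      · linarith only [hN0, b2e, b2xy, b3s0, b4s0, w4_3, r2_2, r2_3, role1_0, role1_3, int2_0, case2_1, role3_2, role3_4, case3_2, role4_1, role4_3, case4_1, case4_2, case4_3]
                      · rcases hg4 with g4_0 | g4_0 | g4_0
                        · linarith only [hN0, b4vx, b4Z0, case4_0, case4_2, g4_0]
                        · linarith only [hN0, b0yJ, b0g0, b0v0, b0vx, b1yJ, b2e, b2xy, b3e, b3s0, b5s0, r2_0, r2_1, r2_2, role1_0, role1_5, role1_6, role3_0, role3_1, p3_0, p3_1, p4_1, p4_3, case3_0, case3_3, role4_0, role4_1, role4_2, case4_3, g4_0]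
                        · linarith only [hN0, b2g0, b2v0, b2vx, b3xy, b3s0, b4gG, b4s0, w4_3, r2_0, role3_1, role3_2, role4_1, g4_0]
                · linarith only [hN0, b1yJ, b1v0, b1vx, b2xy, b2s0, b3gG, b3s0, hg1, w3_3, r2_1, r2_2, role3_1, g3_0]
            · rcases hcase3 with ⟨case3_0, case3_1, case3_2⟩ | ⟨case3_0, case3_1, case3_2⟩ | ⟨case3_0, case3_1, case3_2, case3_3⟩ | ⟨case3_0, case3_1, case3_2, case3_3⟩
              · rcases hg3 with g3_0 | g3_0 | g3_0
                · rcases hrole0 with ⟨role0_0, role0_1, role0_2, role0_3, role0_4, role0_5, role0_6, hback0⟩ | ⟨role0_0, role0_1⟩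
                  · linarith only [hN0, b0s0, b1s0, b2e, b2xy, b3s0, b4s0, hsm, w0_1, w0_3, w1_2, w2_0, w2_1, w3_1, r2_0, r2_2, r2_3, role1_0, role1_1, role1_3, role1_6, role1_8, case2_1, case2_3, role3_0, role3_2, role3_4, case3_2, g3_0, role0_0, role0_3, role0_6]
                  · linarith only [hN0, b0xy, b0s0, b1e, b1yJ, b2e, b2s0, b4s0, hsm, w0_0, w0_1, w0_2, w2_0, w2_1, w3_1, wm_0, r2_0, r2_1, r2_2, r2_3, role1_0, role1_3, role1_5, case2_1, case2_3, role3_0, role3_2, role3_4, case3_2, g3_0, role0_0, role0_1]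
                · linarith only [hN0, b0yJ, b0g0, b0v0, b0vx, b2xy, b2s0, b3s0, w3_3, r2_1, r2_3, role1_3, role1_5, role1_6, case2_1, role3_1, role3_4, case3_2, g3_0]
                · linarith only [hN0, b1yJ, b1v0, b1vx, b2xy, b2s0, b3gG, b3s0, hg1, w3_3, r2_1, r2_2, role3_1, g3_0]
              · linarith only [hN0, b0yJ, b0g0, b0v0, b0vx, b2xy, b2s0, b3g0, b3s0, w3_3, r2_1, r2_3, r2_4, role1_3, role1_4, role1_5, role1_6, case2_1, case2_2, role3_1, role3_3, role3_4, case3_2]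
              · rcases hg3 with g3_0 | g3_0 | g3_0
                · linarith only [hN0, b3vx, b3Z0, case3_1, case3_2, g3_0]
                · rcases hrole0 with ⟨role0_0, role0_1, role0_2, role0_3, role0_4, role0_5, role0_6, hback0⟩ | ⟨role0_0, role0_1⟩
                  · rcases hrole4 with ⟨role4_0, role4_1, role4_2, role4_3, role4_4, role4_5, role4_6, role4_7, role4_8⟩ | ⟨role4_0, role4_1, role4_2, role4_3, role4_4, hint4⟩
                    · rcases hJ4 with J4_0 | J4_0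
                      · rcases hrole5 with ⟨role5_0, role5_1, role5_2, role5_3, role5_4, role5_5, role5_6, role5_7, role5_8⟩ | ⟨role5_0, role5_1, role5_2, role5_3, role5_4, hint5⟩
                        · linarith only [hN0, b0yJ, b0g0, b0v0, b0vx, b1yJ, b2e, b2xy, b3e, b3s0, b4e, b4s0, b5e, b5s0, r2_0, r2_1, r2_2, role1_0, role1_5, role1_6, role3_0, role3_1, p3_0, p5_0, p5_2, p5_3, case3_1, case3_2, role4_3, role4_5, role4_6, J4_0, role5_1, role5_8]
                        · linarith only [hN0, b2e, b2xy, b3e, b4e, b4yJ, b4s0, b5e, b5s0, hs6, r2_4, role1_4, case2_0, case2_2, case2_3, role3_0, role3_1, role3_2, role3_3, p2_1, p3_1, p3_3, p4_1, p4_2, p5_0, p5_1, p5_3, case3_1, case3_2, case3_3, role4_0, role4_5, role4_6, role5_0, role5_2]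
                      · linarith only [hN0, b0s0, b1s0, b2xy, b3e, b3s0, b4e, b5s0, hsm, w2_0, r2_0, r2_2, r2_3, r2_4, role1_0, role1_1, role1_3, role1_4, role1_6, role1_8, case2_1, case2_2, case2_3, role3_0, role3_2, role3_3, role3_4, p0_1, p0_3, p1_2, p2_1, p3_2, p3_3, p4_0, p4_1, p5_1, p5_2, p5_3, pm_0, case3_2, case3_3, role0_0, role0_3, role0_6, role4_1, role4_5, role4_8, J4_0]
                    · linarith only [hN0, b0yJ, b0s0, b1s0, b2e, b2xy, b3e, b3s0, b4e, b4s0, b5s0, hsm, r2_0, r2_1, r2_2, role1_0, role1_1, role1_5, role1_6, role1_8, role3_0, role3_1, role3_2, g2_0, p1_2, p2_0, p4_0, pm_0, case3_1, case3_2, role0_0, role0_3, role0_5, role0_6, role4_0, role4_2]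
                  · rcases hJ1 with J1_0 | J1_0
                    · linarith only [hN0, b0e, b0xy, b0s0, b1e, b2e, b4s0, hsm, r2_0, r2_1, r2_4, role1_4, role1_5, case2_0, case2_2, case2_3, role3_0, role3_1, role3_2, role3_3, p2_0, p2_1, p3_1, p3_3, pm_0, case3_3, g3_0, role0_0, role0_1, J1_0]
                    · rcases hrole4 with ⟨role4_0, role4_1, role4_2, role4_3, role4_4, role4_5, role4_6, role4_7, role4_8⟩ | ⟨role4_0, role4_1, role4_2, role4_3, role4_4, hint4⟩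
                      · rcases hJ4 with J4_0 | J4_0
                        · rcases hrole5 with ⟨role5_0, role5_1, role5_2, role5_3, role5_4, role5_5, role5_6, role5_7, role5_8⟩ | ⟨role5_0, role5_1, role5_2, role5_3, role5_4, hint5⟩
                          · linarith only [hN0, b0yJ, b0g0, b0v0, b0vx, b1yJ, b2e, b2xy, b3e, b3s0, b4e, b4s0, b5e, b5s0, r2_0, r2_1, r2_2, role1_0, role1_5, role1_6, role3_0, role3_1, p3_0, p5_0, p5_2, p5_3, case3_1, case3_2, role4_3, role4_5, role4_6, J4_0, role5_1, role5_8]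
                          · linarith only [hN0, b2e, b2xy, b3e, b4e, b4yJ, b4s0, b5e, b5s0, hs6, r2_4, role1_4, case2_0, case2_2, case2_3, role3_0, role3_1, role3_2, role3_3, p2_1, p3_1, p3_3, p4_1, p4_2, p5_0, p5_1, p5_3, case3_1, case3_2, case3_3, role4_0, role4_5, role4_6, role5_0, role5_2]
                        · linarith only [hN0, b0xy, b0s0, b1e, b1yJ, b1s0, b2e, b2xy, b3e, b3s0, b4e, b5s0, hsm, r2_0, r2_1, r2_2, r2_3, r2_4, role1_0, role1_3, role1_4, role1_5, case2_1, case2_2, case2_3, role3_0, role3_2, role3_3, role3_4, p0_0, p2_1, p3_2, p3_3, p4_0, p4_1, pm_0, case3_2, case3_3, role0_1, role4_1, role4_5, role4_8, J4_0]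
                      · rcases hcase0 with ⟨case0_0, case0_1, case0_2⟩ | ⟨case0_0, case0_1, case0_2⟩ | ⟨case0_0, case0_1, case0_2, case0_3⟩ | ⟨case0_0, case0_1, case0_2, case0_3⟩
                        · linarith only [hN0, b0yJ, b0g0, b0xy, b0vx, b1s0, b2e, b2xy, b2s0, b3e, b4e, b4s0, b5s0, r2_0, r2_1, r2_2, role1_0, role1_5, role1_6, int2_0, role3_0, role3_1, role3_2, p0_0, p0_1, p1_0, p4_0, case3_1, case3_2, J1_0, role4_0, role4_2, case0_2]
                        · linarith only [hN0, b0a0, b0v0, b0s0, b1e, b2xy, b2s0, r2_1, r2_2, role1_0, role1_1, role1_5, role1_6, role1_8, p0_2, p1_0, p1_1, p2_1, p2_2, p2_3, role0_0, J1_0, case0_1, case0_2]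
                        · linarith only [hN0, b0e, b0xy, b0vx, b1e, b1yJ, b2e, b3e, b4e, b4s0, b5s0, r2_1, r2_2, r2_4, role1_0, role1_1, role1_4, role1_5, role1_6, role1_8, case2_2, case2_3, role3_0, role3_1, role3_2, role3_3, p1_0, p1_1, p1_2, p2_1, p3_1, p4_0, p4_1, p4_3, p5_1, p5_2, p5_3, case3_1, case3_2, case3_3, role4_0, role4_2, case0_1, case0_2]
                        · linarith only [hN0, b0e, b0xy, b0vx, b1e, b2e, b2s0, b3s0, b4s0, r2_0, r2_1, r2_2, r2_4, role1_0, role1_1, role1_4, role1_5, role1_6, role1_8, case2_2, case2_3, role3_0, role3_1, role3_2, role3_3, p0_0, p0_1, p1_1, p2_0, p2_1, p3_1, case3_3, g3_0, case0_0, case0_2, case0_3]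
                · linarith only [hN0, b1yJ, b1v0, b1vx, b2xy, b2s0, b3gG, b3s0, hg1, w3_3, r2_1, r2_2, role3_1, g3_0]
              · rcases hg3 with g3_0 | g3_0 | g3_0
                · linarith only [hN0, b3vx, b3Z0, case3_0, case3_2, g3_0]
                · rcases hrole0 with ⟨role0_0, role0_1, role0_2, role0_3, role0_4, role0_5, role0_6, hback0⟩ | ⟨role0_0, role0_1⟩
                  · rcases hrole4 with ⟨role4_0, role4_1, role4_2, role4_3, role4_4, role4_5, role4_6, role4_7, role4_8⟩ | ⟨role4_0, role4_1, role4_2, role4_3, role4_4, hint4⟩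
                    · linarith only [hN0, b0s0, b1s0, b2xy, b3s0, b4yJ, b5s0, hsm, w3_3, r2_0, r2_2, r2_3, role1_0, role1_1, role1_3, role1_6, role1_8, case2_1, case2_3, role3_0, role3_1, role3_2, role3_4, p0_1, p0_3, p1_2, p2_1, p3_1, p3_3, p4_1, pm_0, case3_0, case3_2, case3_3, role0_0, role0_3, role0_6, role4_1, role4_5, role4_8]
                    · linarith only [hN0, b0yJ, b0s0, b1s0, b2e, b2xy, b3e, b4e, b4s0, b5s0, hsm, r2_0, r2_1, r2_2, role1_0, role1_1, role1_5, role1_6, role1_8, role3_0, role3_1, role3_2, g2_0, p1_2, p3_1, p3_3, p4_0, pm_0, case3_0, case3_3, role0_0, role0_3, role0_5, role0_6, role4_0, role4_2]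
                  · rcases hrole4 with ⟨role4_0, role4_1, role4_2, role4_3, role4_4, role4_5, role4_6, role4_7, role4_8⟩ | ⟨role4_0, role4_1, role4_2, role4_3, role4_4, hint4⟩
                    · linarith only [hN0, b0e, b0xy, b0s0, b1e, b2s0, b3s0, b4yJ, b5s0, hsm, w3_1, w3_3, w4_1, wm_0, r2_0, r2_1, r2_2, r2_3, role1_0, role1_3, role1_5, case2_1, role3_0, role3_2, role3_4, g2_0, case3_2, role0_0, role0_1, role4_1, role4_5, role4_8]
                    · rcases hJ1 with J1_0 | J1_0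
                      · linarith only [hN0, b0e, b0xy, b0s0, b1e, b2e, b4s0, hsm, r2_0, r2_1, role1_5, case2_0, case2_3, role3_0, role3_1, role3_2, p2_0, p2_1, p3_1, p3_3, pm_0, case3_3, g3_0, role0_0, role0_1, J1_0]
                      · rcases hcase0 with ⟨case0_0, case0_1, case0_2⟩ | ⟨case0_0, case0_1, case0_2⟩ | ⟨case0_0, case0_1, case0_2, case0_3⟩ | ⟨case0_0, case0_1, case0_2, case0_3⟩
                        · linarith only [hN0, b0yJ, b0g0, b0xy, b0vx, b1s0, b2e, b2xy, b2s0, b3e, b4e, b4s0, b5s0, r2_0, r2_1, r2_2, role1_0, role1_5, role1_6, int2_0, role3_0, role3_1, role3_2, p0_0, p0_1, p1_0, p4_0, case3_0, role4_0, role4_2, J1_0, case0_2]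
                        · linarith only [hN0, b0a0, b0v0, b0s0, b1e, b2xy, b2s0, r2_1, r2_2, role1_0, role1_1, role1_5, role1_6, role1_8, p0_2, p1_0, p1_1, p2_1, p2_2, p2_3, role0_0, J1_0, case0_1, case0_2]
                        · linarith only [hN0, b0e, b0xy, b0vx, b1e, b1yJ, b2e, b3e, b4e, b4s0, b5s0, r2_1, r2_2, role1_0, role1_1, role1_5, role1_6, role1_8, case2_3, role3_0, role3_1, role3_2, p1_0, p1_1, p1_2, p2_1, p3_1, p4_0, p4_1, p4_3, p5_1, p5_2, p5_3, case3_0, case3_3, role4_0, role4_2, case0_1, case0_2]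
                        · linarith only [hN0, b0e, b0xy, b0vx, b1e, b2e, b2s0, b3s0, b4s0, r2_0, r2_1, r2_2, role1_0, role1_1, role1_5, role1_6, role1_8, case2_3, role3_0, role3_1, role3_2, p0_0, p0_1, p1_1, p2_0, p2_1, p3_1, case3_3, g3_0, case0_0, case0_2, case0_3]
                · linarith only [hN0, b1yJ, b1v0, b1vx, b2xy, b2s0, b3gG, b3s0, hg1, w3_3, r2_1, r2_2, role3_1, g3_0]
            · rcases hcase3 with ⟨case3_0, case3_1, case3_2⟩ | ⟨case3_0, case3_1, case3_2⟩ | ⟨case3_0, case3_1, case3_2, case3_3⟩ | ⟨case3_0, case3_1, case3_2, case3_3⟩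
              · rcases hg3 with g3_0 | g3_0 | g3_0
                · linarith only [hN0, b2xy, b2s0, b3vx, b3s0, b4s0, r2_0, case2_3, role3_0, role3_1, role3_2, p2_1, p3_1, p3_2, p3_3, case3_2, g3_0]
                · linarith only [hN0, b0yJ, b0g0, b0v0, b0vx, b2xy, b2s0, b3s0, w3_3, r2_1, r2_3, role1_3, role1_5, role1_6, case2_1, role3_1, role3_4, case3_2, g3_0]
                · linarith only [hN0, b1yJ, b1v0, b1vx, b2xy, b2s0, b3gG, b3s0, hg1, w3_3, r2_1, r2_2, role3_1, g3_0]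
              · linarith only [hN0, b0yJ, b0g0, b0v0, b0vx, b2xy, b2s0, b3g0, b3s0, w3_3, r2_1, r2_3, r2_4, role1_3, role1_4, role1_5, role1_6, case2_1, case2_2, role3_1, role3_3, role3_4, case3_2]
              · rcases hg3 with g3_0 | g3_0 | g3_0
                · linarith only [hN0, b3vx, b3Z0, case3_1, case3_2, g3_0]
                · linarith only [hN0, b2xy, b2s0, b3s0, b4s0, r2_0, r2_4, role1_4, case2_2, case2_3, role3_0, role3_1, role3_2, role3_3, p2_1, p3_1, p3_2, p3_3, case3_3, g3_0]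
                · linarith only [hN0, b1yJ, b1v0, b1vx, b2xy, b2s0, b3gG, b3s0, hg1, w3_3, r2_1, r2_2, role3_1, g3_0]
              · rcases hrole4 with ⟨role4_0, role4_1, role4_2, role4_3, role4_4, role4_5, role4_6, role4_7, role4_8⟩ | ⟨role4_0, role4_1, role4_2, role4_3, role4_4, hint4⟩
                · linarith only [hN0, b2xy, b2s0, b3vx, b3s0, b4yJ, b5s0, r2_0, case2_3, role3_0, role3_1, role3_2, p2_1, p3_1, p3_3, p4_1, p4_2, case3_0, case3_2, case3_3, role4_1, role4_5, role4_8]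
                · linarith only [hN0, b1yJ, b1xy, b1vx, b2e, b2xy, b2s0, b3e, b3xy, b4e, b4s0, b5s0, r2_0, r2_1, r2_2, role1_0, role1_1, role3_0, role3_1, p1_1, p2_1, p2_3, p3_1, p4_0, p5_1, p5_2, p5_3, case3_0, case3_3, role4_0, role4_2]
    · rcases hcase2 with ⟨case2_0, case2_1, case2_2⟩ | ⟨case2_0, case2_1, case2_2⟩ | ⟨case2_0, case2_1, case2_2, case2_3⟩ | ⟨case2_0, case2_1, case2_2, case2_3⟩
      · linarith only [hN0, b1xy, b1s0, b2s0, b3s0, w2_1, w2_3, r2_0, r2_1, r2_2, r2_4, role1_0, role1_4, int2_0, case2_2]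
      · linarith only [hN0, b1xy, b1s0, b2g0, b2s0, w2_3, r2_1, r2_3, r2_4, role1_3, role1_4, case2_2]
      · linarith only [hN0, b1xy, b1s0, b2s0, w2_3, r2_1, r2_3, role1_3, case2_1, case2_2, case2_3]
      · linarith only [hN0, b1xy, b1s0, b2s0, b3s0, hg1, w2_1, w2_3, r2_0, r2_1, r2_2, int2_0, case2_3]
  · rcases hint2 with int2_0 | int2_0
    · rcases hcase2 with ⟨case2_0, case2_1, case2_2⟩ | ⟨case2_0, case2_1, case2_2⟩ | ⟨case2_0, case2_1, case2_2, case2_3⟩ | ⟨case2_0, case2_1, case2_2, case2_3⟩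
      · rcases hrole3 with ⟨role3_0, role3_1, role3_2, role3_3, role3_4, role3_5, role3_6, role3_7, role3_8⟩ | ⟨role3_0, role3_1, role3_2, role3_3, role3_4, hint3⟩
        · rcases hcase1 with ⟨case1_0, case1_1, case1_2⟩ | ⟨case1_0, case1_1, case1_2⟩ | ⟨case1_0, case1_1, case1_2, case1_3⟩ | ⟨case1_0, case1_1, case1_2, case1_3⟩
          · linarith only [hN0, b1a0, b2xy, b2s0, b3s0, w3_3, r2_2, r2_3, int2_0, case2_1, role3_1, role3_8, case1_1]
          · linarith only [hN0, b2xy, b2s0, b3s0, w3_3, r2_2, r2_3, int2_0, case2_1, role3_1, role3_8, case1_1]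
          · linarith only [hN0, b1vx, b2a0, hg1, r2_3, case1_1, case1_2]
          · linarith only [hN0, b1vx, b2a0, hg1, r2_3, case1_0, case1_2]
        · rcases hbox with ⟨⟨pm_0, pm_1, -, -⟩, ⟨p0_0, p0_1, p0_2, p0_3⟩, ⟨p1_0, p1_1, p1_2, p1_3⟩, ⟨p2_0, p2_1, p2_2, p2_3⟩, ⟨p3_0, p3_1, p3_2, p3_3⟩, ⟨p4_0, p4_1, p4_2, p4_3⟩, ⟨p5_0, p5_1, p5_2, p5_3⟩⟩ | ⟨⟨pm_0, pm_1, -, -⟩, ⟨p0_0, p0_1, p0_2, p0_3⟩, ⟨p1_0, p1_1, p1_2, p1_3⟩, ⟨p2_0, p2_1, p2_2, p2_3⟩, ⟨p3_0, p3_1, p3_2, p3_3⟩, ⟨p4_0, p4_1, p4_2, p4_3⟩, ⟨p5_0, p5_1, p5_2, p5_3⟩⟩ | ⟨⟨pm_0, pm_1, -, -⟩, ⟨p0_0, p0_1, p0_2, p0_3⟩, ⟨p1_0, p1_1, p1_2, p1_3⟩, ⟨p2_0, p2_1, p2_2, p2_3⟩, ⟨p3_0, p3_1, p3_2, p3_3⟩, ⟨p4_0, p4_1, p4_2, p4_3⟩, ⟨p5_0, p5_1, p5_2, p5_3⟩⟩ | ⟨⟨pm_0, pm_1, -, -⟩, ⟨p0_0, p0_1, p0_2, p0_3⟩, ⟨p1_0, p1_1, p1_2, p1_3⟩, ⟨p2_0, p2_1, p2_2, p2_3⟩, ⟨p3_0, p3_1, p3_2, p3_3⟩, ⟨p4_0, p4_1, p4_2, p4_3⟩, ⟨p5_0, p5_1, p5_2, p5_3⟩⟩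
          · rcases hrole0 with ⟨role0_0, role0_1, role0_2, role0_3, role0_4, role0_5, role0_6, hback0⟩ | ⟨role0_0, role0_1⟩
            · linarith only [hN0, b0yJ, b0s0, b2e, b2gG, b2xy, b2s0, b3e, b4s0, hg1, hsm, r2_0, r2_2, role1_0, role1_1, role1_2, int2_0, role3_0, role3_2, p2_2, p3_0, pm_0, role0_0, role0_5, role0_6]
            · rcases hcase1 with ⟨case1_0, case1_1, case1_2⟩ | ⟨case1_0, case1_1, case1_2⟩ | ⟨case1_0, case1_1, case1_2, case1_3⟩ | ⟨case1_0, case1_1, case1_2, case1_3⟩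
              · rcases hcase0 with ⟨case0_0, case0_1, case0_2⟩ | ⟨case0_0, case0_1, case0_2⟩ | ⟨case0_0, case0_1, case0_2, case0_3⟩ | ⟨case0_0, case0_1, case0_2, case0_3⟩
                · linarith only [hN0, b1G0, hg1, role1_4, case1_2, case0_0]
                · linarith only [hN0, b1G0, hg1, role1_4, case1_2, case0_0]
                · linarith only [hN0, b1G0, hg1, role1_4, case1_2, case0_0]
                · linarith only [hN0, b0yJ, b0xy, b0vx, b1e, b1a0, b1s0, b2e, b2gG, b2xy, b2s0, b3e, b4s0, hg1, r2_0, r2_1, r2_2, role1_0, role1_1, role1_2, role1_3, int2_0, role3_0, role3_2, p0_0, p0_1, p2_2, p3_0, case0_2, case0_3]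
              · linarith only [hN0, b1a0, b1v0, b1s0, b2e, b2gG, b2xy, b2s0, b3e, b4s0, r2_0, r2_2, int2_0, role3_0, role3_2, p1_2, p2_1, p2_2, p3_0, case1_2]
              · linarith only [hN0, b1vx, b2a0, hg1, r2_3, case1_1, case1_2]
              · linarith only [hN0, b1vx, b2a0, hg1, r2_3, case1_0, case1_2]
          · rcases hrole0 with ⟨role0_0, role0_1, role0_2, role0_3, role0_4, role0_5, role0_6, hback0⟩ | ⟨role0_0, role0_1⟩
            · linarith only [hN0, b0yJ, b0s0, b2e, b2gG, b2xy, b2s0, b3e, b4s0, hg1, hsm, r2_0, r2_2, role1_0, role1_1, role1_2, int2_0, role3_0, role3_2, p2_2, p3_0, p4_1, p4_2, p4_3, pm_0, role0_0, role0_5, role0_6]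
            · rcases hcase1 with ⟨case1_0, case1_1, case1_2⟩ | ⟨case1_0, case1_1, case1_2⟩ | ⟨case1_0, case1_1, case1_2, case1_3⟩ | ⟨case1_0, case1_1, case1_2, case1_3⟩
              · rcases hcase0 with ⟨case0_0, case0_1, case0_2⟩ | ⟨case0_0, case0_1, case0_2⟩ | ⟨case0_0, case0_1, case0_2, case0_3⟩ | ⟨case0_0, case0_1, case0_2, case0_3⟩
                · linarith only [hN0, b1G0, hg1, role1_4, case1_2, case0_0]
                · linarith only [hN0, b1G0, hg1, role1_4, case1_2, case0_0]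
                · linarith only [hN0, b1G0, hg1, role1_4, case1_2, case0_0]
                · linarith only [hN0, b0yJ, b0xy, b0vx, b0s0, b1e, b1a0, b1s0, b2e, b2gG, b2s0, b3e, b4s0, hg1, r2_0, r2_1, r2_2, role1_0, role1_1, role1_2, role1_3, int2_0, role3_0, role3_2, p0_0, p0_1, p2_2, p3_0, case0_2, case0_3]
              · linarith only [hN0, b1a0, b1v0, b1s0, b2e, b2gG, b2xy, b2s0, b3e, b4s0, r2_0, r2_2, int2_0, role3_0, role3_2, p1_2, p2_2, p3_0, p3_1, p3_3, p4_1, p4_2, p4_3, case1_2]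
              · linarith only [hN0, b1vx, b2a0, hg1, r2_3, case1_1, case1_2]
              · linarith only [hN0, b1vx, b2a0, hg1, r2_3, case1_0, case1_2]
          · rcases hcase3 with ⟨case3_0, case3_1, case3_2⟩ | ⟨case3_0, case3_1, case3_2⟩ | ⟨case3_0, case3_1, case3_2, case3_3⟩ | ⟨case3_0, case3_1, case3_2, case3_3⟩
            · rcases hg3 with g3_0 | g3_0 | g3_0
              · linarith only [hN0, b3G0, case2_0, role3_4, case3_2, g3_0]
              · linarith only [hN0, b0yJ, b0g0, b0v0, b0vx, b2e, b2xy, b3e, b4s0, hg1, r2_0, r2_1, r2_2, role1_0, role1_1, role1_2, int2_0, case2_0, role3_0, role3_1, role3_2, role3_4, p3_0, p3_1, p4_1, p4_2, p4_3, case3_2, g3_0]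
              · linarith only [hN0, b1yJ, b1v0, b1vx, b2xy, b2s0, b3gG, b3s0, hg1, w3_3, r2_1, r2_2, role3_1, g3_0]
            · linarith only [hN0, b2g0, b2xy, b2a0, b2s0, b3g0, b3s0, w3_3, case2_0, case2_1, role3_1, role3_3, role3_4, case3_2]
            · linarith only [hN0, b2g0, b2xy, b2a0, b2s0, b3s0, w3_3, case2_1, role3_1, role3_3, case3_1, case3_2, case3_3]
            · rcases hg3 with g3_0 | g3_0 | g3_0
              · linarith only [hN0, b3vx, b3Z0, case3_0, case3_2, g3_0]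
              · linarith only [hN0, b0yJ, b0g0, b0v0, b0vx, b2e, b2xy, b3e, b4s0, hg1, r2_0, r2_1, r2_2, role1_0, role1_1, role1_2, int2_0, role3_0, role3_1, role3_2, p3_0, p3_1, p4_1, p4_2, p4_3, case3_3, g3_0]
              · linarith only [hN0, b1yJ, b1v0, b1vx, b2xy, b2s0, b3gG, b3s0, hg1, w3_3, r2_1, r2_2, role3_1, g3_0]
          · rcases hrole0 with ⟨role0_0, role0_1, role0_2, role0_3, role0_4, role0_5, role0_6, hback0⟩ | ⟨role0_0, role0_1⟩
            · linarith only [hN0, b0yJ, b0s0, b2e, b2xy, b3e, b3s0, b4s0, hg1, hsm, r2_0, r2_1, r2_2, role1_0, role1_1, role1_2, int2_0, role3_0, role3_2, p3_0, pm_0, role0_0, role0_5, role0_6]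
            · rcases hcase0 with ⟨case0_0, case0_1, case0_2⟩ | ⟨case0_0, case0_1, case0_2⟩ | ⟨case0_0, case0_1, case0_2, case0_3⟩ | ⟨case0_0, case0_1, case0_2, case0_3⟩
              · linarith only [hN0, b0yJ, b0g0, b0xy, b0vx, b1s0, b2e, b2xy, b3e, b3s0, b4s0, hg1, hNm, hsm, r2_0, r2_1, r2_2, role1_0, role1_1, role1_2, int2_0, role3_0, role3_2, p0_1, p0_3, p3_0, case0_2]
              · rcases hcase1 with ⟨case1_0, case1_1, case1_2⟩ | ⟨case1_0, case1_1, case1_2⟩ | ⟨case1_0, case1_1, case1_2, case1_3⟩ | ⟨case1_0, case1_1, case1_2, case1_3⟩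
                · linarith only [hN0, b1G0, hg1, role1_4, case0_0, case1_2]
                · linarith only [hN0, b0g0, b0xy, b0s0, b1s0, hg1, w1_3, role1_1, role1_3, role1_4, case0_0, case0_1, case1_2]
                · linarith only [hN0, b1vx, b2a0, hg1, r2_3, case1_1, case1_2]
                · linarith only [hN0, b1vx, b2a0, hg1, r2_3, case1_0, case1_2]
              · linarith only [hN0, b0e, b0yJ, b0xy, b0s0, b1e, b1s0, b2e, b3e, b3s0, b4s0, hg1, r2_0, r2_1, r2_2, role1_0, role1_1, role1_2, int2_0, role3_0, role3_2, p0_0, p3_0, case0_1, case0_2]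
              · linarith only [hN0, b0yJ, b0xy, b1e, b1s0, b2e, b2xy, b3e, b3s0, b4s0, hg1, w0_0, r2_0, r2_1, r2_2, role1_0, role1_1, role1_2, int2_0, role3_0, role3_2, p0_1, p3_0, case0_0, case0_3]
      · linarith only [hN0, b0yJ, b0g0, b0v0, b0vx, b1xy, b1s0, b2a0, b2v0, b2s0, w2_3, r2_1, role1_0, role1_1, role1_2, int2_0, case2_2]
      · rcases hcase1 with ⟨case1_0, case1_1, case1_2⟩ | ⟨case1_0, case1_1, case1_2⟩ | ⟨case1_0, case1_1, case1_2, case1_3⟩ | ⟨case1_0, case1_1, case1_2, case1_3⟩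
        · linarith only [hN0, b1xy, b1a0, b1s0, b2s0, hg1, w2_3, r2_1, r2_3, case2_1, case2_2, case2_3, case1_1]
        · linarith only [hN0, b1xy, b1s0, b2s0, hg1, w2_3, r2_1, r2_3, case2_1, case2_2, case2_3, case1_1]
        · linarith only [hN0, b1vx, b2a0, hg1, r2_3, case1_1, case1_2]
        · linarith only [hN0, b1vx, b2a0, hg1, r2_3, case1_0, case1_2]
      · rcases hrole3 with ⟨role3_0, role3_1, role3_2, role3_3, role3_4, role3_5, role3_6, role3_7, role3_8⟩ | ⟨role3_0, role3_1, role3_2, role3_3, role3_4, hint3⟩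
        · rcases hcase1 with ⟨case1_0, case1_1, case1_2⟩ | ⟨case1_0, case1_1, case1_2⟩ | ⟨case1_0, case1_1, case1_2, case1_3⟩ | ⟨case1_0, case1_1, case1_2, case1_3⟩
          · linarith only [hN0, b3G0, r2_4, case2_2, role3_1, role3_8, case1_0]
          · linarith only [hN0, b3G0, r2_4, case2_2, role3_1, role3_8, case1_0]
          · linarith only [hN0, b1vx, b2a0, hg1, r2_3, case1_1, case1_2]
          · linarith only [hN0, b1vx, b2a0, hg1, r2_3, case1_0, case1_2]
        · rcases hbox with ⟨⟨pm_0, pm_1, -, -⟩, ⟨p0_0, p0_1, p0_2, p0_3⟩, ⟨p1_0, p1_1, p1_2, p1_3⟩, ⟨p2_0, p2_1, p2_2, p2_3⟩, ⟨p3_0, p3_1, p3_2, p3_3⟩, ⟨p4_0, p4_1, p4_2, p4_3⟩, ⟨p5_0, p5_1, p5_2, p5_3⟩⟩ | ⟨⟨pm_0, pm_1, -, -⟩, ⟨p0_0, p0_1, p0_2, p0_3⟩, ⟨p1_0, p1_1, p1_2, p1_3⟩, ⟨p2_0, p2_1, p2_2, p2_3⟩, ⟨p3_0, p3_1, p3_2, p3_3⟩, ⟨p4_0, p4_1, p4_2, p4_3⟩, ⟨p5_0, p5_1, p5_2, p5_3⟩⟩ | ⟨⟨pm_0, pm_1, -, -⟩, ⟨p0_0, p0_1, p0_2, p0_3⟩, ⟨p1_0, p1_1, p1_2, p1_3⟩, ⟨p2_0, p2_1, p2_2,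 p2_3⟩, ⟨p3_0, p3_1, p3_2, p3_3⟩, ⟨p4_0, p4_1, p4_2, p4_3⟩, ⟨p5_0, p5_1, p5_2, p5_3⟩⟩ | ⟨⟨pm_0, pm_1, -, -⟩, ⟨p0_0, p0_1, p0_2, p0_3⟩, ⟨p1_0, p1_1, p1_2, p1_3⟩, ⟨p2_0, p2_1, p2_2, p2_3⟩, ⟨p3_0, p3_1, p3_2, p3_3⟩, ⟨p4_0, p4_1, p4_2, p4_3⟩, ⟨p5_0, p5_1, p5_2, p5_3⟩⟩
          · rcases hrole0 with ⟨role0_0, role0_1, role0_2, role0_3, role0_4, role0_5, role0_6, hback0⟩ | ⟨role0_0, role0_1⟩
            · linarith only [hN0, b0yJ, b0s0, b2e, b2gG, b2xy, b2s0, b3e, b4s0, hg1, hsm, r2_0, r2_2, role1_0, role1_1, role1_2, int2_0, role3_0, role3_2, p2_2, p3_0, pm_0, role0_0, role0_5, role0_6]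
            · rcases hcase1 with ⟨case1_0, case1_1, case1_2⟩ | ⟨case1_0, case1_1, case1_2⟩ | ⟨case1_0, case1_1, case1_2, case1_3⟩ | ⟨case1_0, case1_1, case1_2, case1_3⟩
              · rcases hcase0 with ⟨case0_0, case0_1, case0_2⟩ | ⟨case0_0, case0_1, case0_2⟩ | ⟨case0_0, case0_1, case0_2, case0_3⟩ | ⟨case0_0, case0_1, case0_2, case0_3⟩
                · linarith only [hN0, b1G0, hg1, role1_4, case1_2, case0_0]
                · linarith only [hN0, b1G0, hg1, role1_4, case1_2, case0_0]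
                · linarith only [hN0, b1G0, hg1, role1_4, case1_2, case0_0]
                · linarith only [hN0, b0yJ, b0xy, b0vx, b1e, b1a0, b1s0, b2e, b2gG, b2xy, b2s0, b3e, b4s0, hg1, r2_0, r2_1, r2_2, role1_0, role1_1, role1_2, role1_3, int2_0, role3_0, role3_2, p0_0, p0_1, p2_2, p3_0, case0_2, case0_3]
              · linarith only [hN0, b1a0, b1v0, b1s0, b2e, b2gG, b2xy, b2s0, b3e, b4s0, r2_0, r2_2, int2_0, role3_0, role3_2, p1_2, p2_1, p2_2, p3_0, case1_2]
              · linarith only [hN0, b1vx, b2a0, hg1, r2_3, case1_1, case1_2]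
              · linarith only [hN0, b1vx, b2a0, hg1, r2_3, case1_0, case1_2]
          · rcases hrole0 with ⟨role0_0, role0_1, role0_2, role0_3, role0_4, role0_5, role0_6, hback0⟩ | ⟨role0_0, role0_1⟩
            · linarith only [hN0, b0yJ, b0s0, b2e, b2gG, b2xy, b2s0, b3e, b4s0, hg1, hsm, r2_0, r2_2, role1_0, role1_1, role1_2, int2_0, role3_0, role3_2, p2_2, p3_0, p4_1, p4_2, p4_3, pm_0, role0_0, role0_5, role0_6]
            · rcases hcase1 with ⟨case1_0, case1_1, case1_2⟩ | ⟨case1_0, case1_1, case1_2⟩ | ⟨case1_0, case1_1, case1_2, case1_3⟩ | ⟨case1_0, case1_1, case1_2, case1_3⟩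
              · rcases hcase0 with ⟨case0_0, case0_1, case0_2⟩ | ⟨case0_0, case0_1, case0_2⟩ | ⟨case0_0, case0_1, case0_2, case0_3⟩ | ⟨case0_0, case0_1, case0_2, case0_3⟩
                · linarith only [hN0, b1G0, hg1, role1_4, case1_2, case0_0]
                · linarith only [hN0, b1G0, hg1, role1_4, case1_2, case0_0]
                · linarith only [hN0, b1G0, hg1, role1_4, case1_2, case0_0]
                · linarith only [hN0, b0yJ, b0xy, b0vx, b0s0, b1e, b1a0, b1s0, b2e, b2gG, b2s0, b3e, b4s0, hg1, r2_0, r2_1, r2_2, role1_0, role1_1, role1_2, role1_3, int2_0, role3_0, role3_2, p0_0, p0_1, p2_2, p3_0, case0_2, case0_3]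
              · linarith only [hN0, b1a0, b1v0, b1s0, b2e, b2gG, b2xy, b2s0, b3e, b4s0, r2_0, r2_2, int2_0, role3_0, role3_2, p1_2, p2_2, p3_0, p3_1, p3_3, p4_1, p4_2, p4_3, case1_2]
              · linarith only [hN0, b1vx, b2a0, hg1, r2_3, case1_1, case1_2]
              · linarith only [hN0, b1vx, b2a0, hg1, r2_3, case1_0, case1_2]
          · rcases hcase3 with ⟨case3_0, case3_1, case3_2⟩ | ⟨case3_0, case3_1, case3_2⟩ | ⟨case3_0, case3_1, case3_2, case3_3⟩ | ⟨case3_0, case3_1, case3_2, case3_3⟩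
            · rcases hg3 with g3_0 | g3_0 | g3_0
              · linarith only [hN0, b0yJ, b0g0, b0v0, b0vx, b2e, b2xy, b3e, b3vx, b4s0, hg1, r2_0, r2_1, r2_2, role1_0, role1_1, role1_2, int2_0, role3_0, role3_1, role3_2, p3_0, p3_1, p4_1, p4_2, p4_3, case3_2, g3_0]
              · rcases htz3 with tz3_0 | tz3_0
                · rcases hrole4 with ⟨role4_0, role4_1, role4_2, role4_3, role4_4, role4_5, role4_6, role4_7, role4_8⟩ | ⟨role4_0, role4_1, role4_2, role4_3, role4_4, hint4⟩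
                  · rcases hJ4 with J4_0 | J4_0
                    · rcases hrole5 with ⟨role5_0, role5_1, role5_2, role5_3, role5_4, role5_5, role5_6, role5_7, role5_8⟩ | ⟨role5_0, role5_1, role5_2, role5_3, role5_4, hint5⟩
                      · linarith only [hN0, b1yJ, b1v0, b1vx, b2e, b2xy, b3e, b3a0, b3s0, b4e, b4s0, b5e, hg1, r2_0, r2_1, r2_2, role3_0, role3_1, p3_0, p4_2, p5_0, p5_2, p5_3, case3_1, g3_0, role4_1, role4_3, role4_5, role4_6, role4_8, J4_0, role5_1, role5_8]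
                      · linarith only [hN0, b1yJ, b1v0, b1vx, b2e, b2xy, b3e, b3a0, b3s0, b4e, b4s0, b5e, hs6, hg1, r2_0, r2_1, r2_2, role3_0, role3_1, p3_0, p4_2, p5_0, p5_1, p5_3, case3_1, g3_0, role4_0, role4_1, role4_5, role4_6, role4_8, J4_0, role5_0, role5_2]
                    · linarith only [hN0, b0yJ, b0g0, b0v0, b0vx, b3e, b3xy, b4e, b5s0, hg1, r2_0, r2_1, r2_2, role1_1, role1_2, int2_0, role3_0, role3_1, role3_2, p4_0, p4_1, p5_1, p5_2, p5_3, case3_1, g3_0, tz3_0, role4_1, role4_5, role4_8, J4_0]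
                  · rcases hcase4 with ⟨case4_0, case4_1, case4_2⟩ | ⟨case4_0, case4_1, case4_2⟩ | ⟨case4_0, case4_1, case4_2, case4_3⟩ | ⟨case4_0, case4_1, case4_2, case4_3⟩
                    · rcases hrole5 with ⟨role5_0, role5_1, role5_2, role5_3, role5_4, role5_5, role5_6, role5_7, role5_8⟩ | ⟨role5_0, role5_1, role5_2, role5_3, role5_4, hint5⟩
                      · linarith only [hN0, b1yJ, b2e, b2xy, b3e, b3g0, b3a0, b4s0, b5s0, w4_1, w5_3, r2_0, r2_1, int2_0, role3_0, role3_1, role3_2, case3_0, case3_1, role4_0, role4_1, role4_2, role4_3, role4_4, case4_1, case4_2, role5_1, role5_8]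
                      · linarith only [hN0, b1yJ, b2e, b2xy, b3e, b4e, b4s0, b5e, b5s0, hs6, r2_0, r2_1, int2_0, role3_0, role3_1, role3_2, p4_1, p5_0, p5_1, p5_2, p5_3, case3_0, g3_0, role4_0, role4_1, role4_2, role4_4, case4_2, role5_0, role5_2]
                    · linarith only [hN0, b3g0, b3xy, b3a0, b3s0, b4g0, b4s0, w4_3, case3_0, case3_1, role4_1, role4_3, role4_4, case4_2]
                    · linarith only [hN0, b3g0, b3xy, b3a0, b3s0, b4s0, w4_3, case3_1, role4_1, role4_3, case4_1, case4_2, case4_3]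
                    · rcases hrole5 with ⟨role5_0, role5_1, role5_2, role5_3, role5_4, role5_5, role5_6, role5_7, role5_8⟩ | ⟨role5_0, role5_1, role5_2, role5_3, role5_4, hint5⟩
                      · linarith only [hN0, b5G0, case3_0, role4_4, case4_2, role5_1, role5_8]
                      · linarith only [hN0, b0yJ, b0g0, b0v0, b0vx, b2e, b2xy, b3e, b4e, b4s0, b5e, b5s0, hs6, hg1, r2_0, r2_1, r2_2, role1_0, role1_1, role1_2, int2_0, role3_0, role3_2, p4_2, p5_0, p5_1, p5_3, role4_1, case4_0, case4_3, role5_0, role5_2]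
                · linarith only [hN0, b0yJ, b0g0, b0v0, b0vx, b2e, b2xy, b3e, b4s0, hg1, r2_0, r2_1, r2_2, role1_0, role1_1, role1_2, int2_0, role3_0, role3_1, role3_2, p3_0, p3_1, p4_1, p4_2, p4_3, case3_2, g3_0, tz3_0]
              · linarith only [hN0, b1yJ, b1v0, b1vx, b2xy, b2s0, b3gG, b3s0, hg1, w3_3, r2_1, r2_2, role3_1, g3_0]
            · rcases hg3 with g3_0 | g3_0 | g3_0
              · rcases hrole0 with ⟨role0_0, role0_1, role0_2, role0_3, role0_4, role0_5, role0_6, hback0⟩ | ⟨role0_0, role0_1⟩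
                · rcases hback0 with back0_0 | back0_0
                  · linarith only [hN0, b0yJ, b1s0, b2e, b2gG, b2xy, b2s0, b3e, b4s0, hg1, r2_0, r2_1, r2_2, role1_0, role1_1, role1_2, int2_0, role3_0, role3_2, p0_0, p0_1, p1_0, p2_2, p3_0, role0_0, role0_5, role0_6, back0_0]
                  · linarith only [hN0, b0yJ, b0s0, b2e, b2gG, b2xy, b2s0, b3e, b4s0, hg1, r2_0, r2_2, role1_0, role1_1, role1_2, int2_0, role3_0, role3_2, p2_2, p3_0, p3_1, p3_3, pm_0, pm_1, role0_0, role0_5, role0_6, back0_0]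
                · rcases hrole4 with ⟨role4_0, role4_1, role4_2, role4_3, role4_4, role4_5, role4_6, role4_7, role4_8⟩ | ⟨role4_0, role4_1, role4_2, role4_3, role4_4, hint4⟩
                  · rcases hcase1 with ⟨case1_0, case1_1, case1_2⟩ | ⟨case1_0, case1_1, case1_2⟩ | ⟨case1_0, case1_1, case1_2, case1_3⟩ | ⟨case1_0, case1_1, case1_2, case1_3⟩
                    · rcases hcase0 with ⟨case0_0, case0_1, case0_2⟩ | ⟨case0_0, case0_1, case0_2⟩ | ⟨case0_0, case0_1, case0_2, case0_3⟩ | ⟨case0_0, case0_1, case0_2, case0_3⟩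
                      · linarith only [hN0, b0yJ, b0g0, b0xy, b0vx, b1s0, b2e, b2xy, b3e, b3s0, b4yJ, b5s0, hg1, r2_0, r2_1, r2_2, role1_0, role1_1, role1_2, int2_0, role3_0, role3_1, role3_2, p0_0, p0_1, p1_0, p1_1, p1_2, p3_0, p4_1, case3_1, g3_0, role4_1, role4_5, role4_8, case0_2]
                      · linarith only [hN0, b1G0, hg1, role1_4, case1_2, case0_0]
                      · linarith only [hN0, b0e, b0yJ, b0xy, b0s0, b1e, b1s0, b2e, b3e, b3s0, b4yJ, b5s0, hg1, r2_0, r2_1, r2_2, role1_0, role1_1, role1_2, int2_0, role3_0, role3_1, role3_2, p0_0, p3_0, p4_1, case3_1, g3_0, role4_1, role4_5, role4_8, case0_1, case0_2]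
                      · linarith only [hN0, b0yJ, b0xy, b0s0, b1e, b1s0, b2e, b3e, b3s0, b4yJ, b5s0, hg1, w0_0, w0_1, w3_0, w4_1, r2_0, r2_1, r2_2, role1_1, role1_2, int2_0, role3_0, role3_1, role3_2, case3_1, g3_0, role4_1, role4_5, role4_8, case0_3]
                    · linarith only [hN0, b1a0, b1v0, b1s0, b2e, b2gG, b2xy, b3e, b4yJ, b5s0, r2_0, r2_1, r2_2, role1_0, int2_0, role3_0, role3_1, role3_2, p1_2, p2_2, p3_0, p3_1, p3_3, p4_1, p5_1, p5_2, p5_3, case3_1, g3_0, role4_1, role4_5, role4_8, case1_2]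
                    · linarith only [hN0, b1vx, b2a0, hg1, r2_3, case1_1, case1_2]
                    · linarith only [hN0, b1vx, b2a0, hg1, r2_3, case1_0, case1_2]
                  · rcases hcase4 with ⟨case4_0, case4_1, case4_2⟩ | ⟨case4_0, case4_1, case4_2⟩ | ⟨case4_0, case4_1, case4_2, case4_3⟩ | ⟨case4_0, case4_1, case4_2, case4_3⟩
                    · rcases hg4 with g4_0 | g4_0 | g4_0
                      · linarith only [hN0, b4G0, case3_0, role4_4, case4_2, g4_0]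
                      · rcases hrole5 with ⟨role5_0, role5_1, role5_2, role5_3, role5_4, role5_5, role5_6, role5_7, role5_8⟩ | ⟨role5_0, role5_1, role5_2, role5_3, role5_4, hint5⟩
                        · linarith only [hN0, b1yJ, b2e, b2xy, b3e, b3g0, b4s0, b5s0, w4_1, w5_3, r2_0, r2_1, int2_0, role3_0, role3_1, role3_2, case3_0, case3_1, role4_0, role4_1, role4_2, role4_3, role4_4, case4_1, case4_2, role5_1, role5_8]
                        · linarith only [hN0, b0yJ, b0g0, b0v0, b0vx, b2e, b2xy, b3e, b4e, b4gG, b4s0, b5e, b5s0, hs6, hg1, r2_0, r2_1, r2_2, role1_0, role1_1, role1_2, int2_0, role3_0, role3_2, p4_2, p5_0, p5_1, p5_3, role4_1, g4_0, role5_0, role5_2]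
                      · linarith only [hN0, b2g0, b2v0, b2vx, b3xy, b3s0, b4gG, b4s0, w4_3, r2_0, role3_1, role3_2, role4_1, g4_0]
                    · linarith only [hN0, b3g0, b3xy, b3s0, b4g0, b4s0, w4_3, case3_0, case3_1, role4_1, role4_3, role4_4, case4_2]
                    · linarith only [hN0, b3g0, b3xy, b3s0, b4s0, w4_3, case3_1, role4_1, role4_3, case4_1, case4_2, case4_3]
                    · rcases hrole5 with ⟨role5_0, role5_1, role5_2, role5_3, role5_4, role5_5, role5_6, role5_7, role5_8⟩ | ⟨role5_0, role5_1, role5_2, role5_3, role5_4, hint5⟩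
                      · linarith only [hN0, b5G0, case3_0, role4_4, case4_2, role5_1, role5_8]
                      · linarith only [hN0, b0yJ, b0g0, b0v0, b0vx, b2e, b2xy, b3e, b4e, b4s0, b5e, b5s0, hs6, hg1, r2_0, r2_1, r2_2, role1_0, role1_1, role1_2, int2_0, role3_0, role3_2, p4_2, p5_0, p5_1, p5_3, role4_1, case4_0, case4_3, role5_0, role5_2]
              · linarith only [hN0, b1yJ, b1v0, b1vx, b2xy, b2s0, b3a0, b3v0, b3s0, hg1, w3_3, r2_1, r2_2, role3_1, case3_2, g3_0]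
              · linarith only [hN0, b1yJ, b1v0, b1vx, b2xy, b2s0, b3gG, b3s0, hg1, w3_3, r2_1, r2_2, role3_1, g3_0]
            · rcases hg3 with g3_0 | g3_0 | g3_0
              · linarith only [hN0, b3vx, b3Z0, case3_1, case3_2, g3_0]
              · rcases hcase1 with ⟨case1_0, case1_1, case1_2⟩ | ⟨case1_0, case1_1, case1_2⟩ | ⟨case1_0, case1_1, case1_2, case1_3⟩ | ⟨case1_0, case1_1, case1_2, case1_3⟩
                · linarith only [hN0, b0yJ, b0g0, b0v0, b0vx, b2xy, b4s0, hg1, r2_0, r2_1, r2_2, r2_4, role1_0, role1_1, role1_2, case2_0, case2_2, case2_3, role3_0, role3_1, role3_2, role3_3, p2_1, p3_1, p3_2, p3_3, case3_3, g3_0, case1_0]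
                · linarith only [hN0, b1a0, b1v0, b1s0, b2xy, b4s0, r2_0, r2_1, r2_2, r2_4, role1_0, case2_0, case2_2, role3_0, role3_1, role3_2, role3_3, p1_2, p2_1, p2_2, p3_1, p3_2, p3_3, case3_3, g3_0, case1_0, case1_2]
                · linarith only [hN0, b1vx, b2a0, hg1, r2_3, case1_1, case1_2]
                · linarith only [hN0, b1vx, b2a0, hg1, r2_3, case1_0, case1_2]
              · linarith only [hN0, b1yJ, b1v0, b1vx, b2xy, b2s0, b3gG, b3s0, hg1, w3_3, r2_1, r2_2, role3_1, g3_0]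
            · rcases hg3 with g3_0 | g3_0 | g3_0
              · linarith only [hN0, b3vx, b3Z0, case3_0, case3_2, g3_0]
              · linarith only [hN0, b0yJ, b0g0, b0v0, b0vx, b2e, b2xy, b3e, b4s0, hg1, r2_0, r2_1, r2_2, role1_0, role1_1, role1_2, int2_0, role3_0, role3_1, role3_2, p3_0, p3_1, p4_1, p4_2, p4_3, case3_3, g3_0]
              · linarith only [hN0, b1yJ, b1v0, b1vx, b2xy, b2s0, b3gG, b3s0, hg1, w3_3, r2_1, r2_2, role3_1, g3_0]
          · rcases hrole0 with ⟨role0_0, role0_1, role0_2, role0_3, role0_4, role0_5, role0_6, hback0⟩ | ⟨role0_0, role0_1⟩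
            · linarith only [hN0, b0yJ, b0s0, b2e, b2xy, b3e, b3s0, b4s0, hg1, hsm, r2_0, r2_1, r2_2, role1_0, role1_1, role1_2, int2_0, role3_0, role3_2, p3_0, pm_0, role0_0, role0_5, role0_6]
            · rcases hcase0 with ⟨case0_0, case0_1, case0_2⟩ | ⟨case0_0, case0_1, case0_2⟩ | ⟨case0_0, case0_1, case0_2, case0_3⟩ | ⟨case0_0, case0_1, case0_2, case0_3⟩
              · linarith only [hN0, b0yJ, b0g0, b0xy, b0vx, b1s0, b2e, b2xy, b3e, b3s0, b4s0, hg1, hNm, hsm, r2_0, r2_1, r2_2, role1_0, role1_1, role1_2, int2_0, role3_0, role3_2, p0_1, p0_3, p3_0, case0_2]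
              · rcases hcase1 with ⟨case1_0, case1_1, case1_2⟩ | ⟨case1_0, case1_1, case1_2⟩ | ⟨case1_0, case1_1, case1_2, case1_3⟩ | ⟨case1_0, case1_1, case1_2, case1_3⟩
                · linarith only [hN0, b1G0, hg1, role1_4, case0_0, case1_2]
                · linarith only [hN0, b0g0, b0xy, b0s0, b1s0, hg1, w1_3, role1_1, role1_3, role1_4, case0_0, case0_1, case1_2]
                · linarith only [hN0, b1vx, b2a0, hg1, r2_3, case1_1, case1_2]
                · linarith only [hN0, b1vx, b2a0, hg1, r2_3, case1_0, case1_2]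
              · linarith only [hN0, b0e, b0yJ, b0xy, b0s0, b1e, b1s0, b2e, b3e, b3s0, b4s0, hg1, r2_0, r2_1, r2_2, role1_0, role1_1, role1_2, int2_0, role3_0, role3_2, p0_0, p3_0, case0_1, case0_2]
              · linarith only [hN0, b0yJ, b0xy, b1e, b1s0, b2e, b2xy, b3e, b3s0, b4s0, hg1, w0_0, r2_0, r2_1, r2_2, role1_0, role1_1, role1_2, int2_0, role3_0, role3_2, p0_1, p3_0, case0_0, case0_3]
    · rcases hcase2 with ⟨case2_0, case2_1, case2_2⟩ | ⟨case2_0, case2_1, case2_2⟩ | ⟨case2_0, case2_1, case2_2, case2_3⟩ | ⟨case2_0, case2_1, case2_2, case2_3⟩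
      · rcases hcase1 with ⟨case1_0, case1_1, case1_2⟩ | ⟨case1_0, case1_1, case1_2⟩ | ⟨case1_0, case1_1, case1_2, case1_3⟩ | ⟨case1_0, case1_1, case1_2, case1_3⟩
        · linarith only [hN0, b1xy, b1s0, b2s0, b3s0, hg1, w2_1, w2_3, r2_0, r2_1, r2_2, r2_4, int2_0, case2_2, case1_0]
        · linarith only [hN0, b1xy, b1s0, b2s0, b3s0, hg1, w2_1, w2_3, r2_0, r2_1, r2_2, r2_4, int2_0, case2_2, case1_0]
        · linarith only [hN0, b1vx, b2a0, hg1, r2_3, case1_1, case1_2]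
        · linarith only [hN0, b1vx, b2a0, hg1, r2_3, case1_0, case1_2]
      · rcases hcase1 with ⟨case1_0, case1_1, case1_2⟩ | ⟨case1_0, case1_1, case1_2⟩ | ⟨case1_0, case1_1, case1_2, case1_3⟩ | ⟨case1_0, case1_1, case1_2, case1_3⟩
        · linarith only [hN0, b1xy, b1a0, b1s0, b2g0, b2s0, hg1, w2_3, r2_1, r2_3, r2_4, case2_2, case1_0, case1_1]
        · linarith only [hN0, b1xy, b1s0, b2g0, b2s0, hg1, w2_3, r2_1, r2_3, r2_4, case2_2, case1_0, case1_1]
        · linarith only [hN0, b1vx, b2a0, hg1, r2_3, case1_1, case1_2]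
        · linarith only [hN0, b1vx, b2a0, hg1, r2_3, case1_0, case1_2]
      · linarith only [hN0, b2vx, b2Z0, r2_1, role1_0, int2_0, case2_1, case2_2]
      · linarith only [hN0, b1xy, b1s0, b2s0, b3s0, hg1, w2_1, w2_3, r2_0, r2_1, r2_2, int2_0, case2_3]

end Pool.Agent.Lib.MP_41a716_co.H52
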