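import Pool.Agent.Lib.MP_41a716_co.Count

set_option autoImplicit false
set_option linter.unusedSectionVars false

namespace Pool.Agent.Lib.MP_41a716_co

variable {A : Type} [Finite A] {u : ℕ → A}

def Two (u : ℕ → A) (n : ℕ) : Prop := pc u n + 2 ≤ pc u (n + 1)

def RS (u : ℕ → A) (n i j : ℕ) : Prop := Eqv u n i j ∧ u (i + n) ≠ u (j + n)

theorem RS.symm {n i j : ℕ} (h : RS u n i j) : RS u n j i := ⟨h.1.symm, h.2.symm⟩

theorem RS.shift {n i j : ℕ} (h : RS u n i j) (d m : ℕ) (hm : d + m = n) :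
    RS u m (i + d) (j + d) := by
  refine ⟨h.1.shift d m hm.le, ?_⟩
  have := h.2
  rw [← hm] at this
  simpa [add_assoc] using this

theorem uniq {N r r' i j : ℕ} (hN : ¬ Two u N) (hr : RS u N r r') (h : RS u N i j) :
    Eqv u (N + 1) i r ∨ Eqv u (N + 1) i r' := by
  by_contra hc
  push Not at hc
  exact hN (cnt_succ_two N Set.univ trivial trivial trivial trivial hr.1 hr.2 h.1 h.2 hc.1 hc.2)

theorem occ_of_RS {N r r' i j : ℕ} (hN : ¬ Two u N) (hr : RS u N r r') (h : RS u N i j) :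
    Eqv u N i r := by
  rcases uniq hN hr h with e | e
  · exact e.mono (by omega)
  · exact (e.mono (by omega)).trans hr.1.symm

theorem det {N r r' i j : ℕ} (hN : ¬ Two u N) (hr : RS u N r r') (hi : ¬ Eqv u N i r)
    (e : Eqv u N i j) : Eqv u (N + 1) i j := by
  apply e.succ
  by_contra hc
  exact hi (occ_of_RS hN hr ⟨e, hc⟩)

theorem occ_type {N r r' o : ℕ} (hN : ¬ Two u N) (hr : RS u N r r') (ho : Eqv u N o r) :
    Eqv u (N + 1) o r ∨ Eqv u (N + 1) o r' := by
  by_cases h : u (o + N) = u (r + N)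
  · exact Or.inl (ho.succ h)
  · exact uniq hN hr ⟨ho, h⟩

theorem far_type {N r r' : ℕ} (ha : Aper u) (hN : ¬ Two u N) (hr : RS u N r r') (m : ℕ) :
    ∃ o, m ≤ o ∧ Eqv u (N + 1) o r := by
  obtain ⟨i, j, hi, hj, e, hne⟩ := ha N m
  rcases uniq hN hr ⟨e, hne⟩ with h | h
  · exact ⟨i, hi, h⟩
  · rcases uniq hN hr ⟨e.symm, hne.symm⟩ with h' | h'
    · exact ⟨j, hj, h'⟩
    · exact absurd ((h.trans h'.symm) N (by omega)) hne

theorem occ_rec {N r r' o : ℕ} (ha : Aper u) (hN : ¬ Two u N) (hr : RS u N r r')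
    (ho : Eqv u N o r) : o ∈ Rec u (N + 1) := by
  intro m
  rcases occ_type hN hr ho with h | h
  · obtain ⟨o', h1, h2⟩ := far_type ha hN hr m
    exact ⟨o', h1, h.trans h2.symm⟩
  · obtain ⟨o', h1, h2⟩ := far_type ha hN hr.symm m
    exact ⟨o', h1, h.trans h2.symm⟩

def Nx (u : ℕ → A) (N r i d : ℕ) : Prop :=
  1 ≤ d ∧ Eqv u N (i + d) r ∧ ∀ d', 1 ≤ d' → d' < d → ¬ Eqv u N (i + d') r

theorem exists_Nx {N r r' : ℕ} (ha : Aper u) (hN : ¬ Two u N) (hr : RS u N r r') (i : ℕ) :
    ∃ d, Nx u N r i d := by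
  classical
  have hex : ∃ d, 1 ≤ d ∧ Eqv u N (i + d) r := by
    obtain ⟨o, h1, h2⟩ := far_type ha hN hr (i + 1)
    refine ⟨o - i, by omega, ?_⟩
    rw [show i + (o - i) = o by omega]
    exact h2.mono (by omega)
  refine ⟨Nat.find hex, (Nat.find_spec hex).1, (Nat.find_spec hex).2, fun d' h1 h2 h3 => ?_⟩
  exact Nat.find_min hex h2 ⟨h1, h3⟩

theorem Nx.uniq {N r i d d' : ℕ} (h : Nx u N r i d) (h' : Nx u N r i d') : d = d' := by
  rcases lt_trichotomy d d' with h1 | h1 | h1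
  · exact absurd h.2.1 (h'.2.2 d h.1 h1)
  · exact h1
  · exact absurd h'.2.1 (h.2.2 d' h'.1 h1)

theorem run {N r r' i j : ℕ} (hN : ¬ Two u N) (hr : RS u N r r') (e : Eqv u (N + 1) i j) (d : ℕ)
    (hd : ∀ d', 1 ≤ d' → d' < d → ¬ Eqv u N (i + d') r) : Eqv u (N + d) i j := by
  induction d with
  | zero => exact e.mono (by omega)
  | succ d ih =>
    rcases Nat.eq_zero_or_pos d with h0 | h0
    · subst h0; exact e
    have e1 := ih fun d' h1 h2 => hd d' h1 (by omega)
    have e2 := det hN hr (hd d h0 (by omega)) (e1.shift d N (by omega))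
    rw [← add_assoc]
    apply e1.succ
    have := e2 N (by omega)
    simpa [add_assoc, add_comm d N] using this

theorem ret {N r r' i j d : ℕ} (hN : ¬ Two u N) (hr : RS u N r r') (e : Eqv u (N + 1) i j)
    (h : Nx u N r i d) : Eqv u (N + d) i j ∧ Nx u N r j d := by
  have e1 := run hN hr e d h.2.2
  refine ⟨e1, h.1, (e1.shift d N (by omega)).symm.trans h.2.1, fun d' h1 h2 h3 => ?_⟩
  exact h.2.2 d' h1 h2 ((e1.shift d' N (by omega)).trans h3)

theorem prev {N r r' o i : ℕ} (ha : Aper u) (hN : ¬ Two u N) (hr : RS u N r r')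
    (ho : Eqv u N o r) (hi : o < i) :
    ∃ o1 d, o ≤ o1 ∧ o1 < i ∧ Eqv u N o1 r ∧ Nx u N r o1 d ∧ i ≤ o1 + d := by
  induction i with
  | zero => omega
  | succ i ih =>
    by_cases h : Eqv u N i r
    · obtain ⟨d, hd⟩ := exists_Nx ha hN hr i
      exact ⟨i, d, by omega, by omega, h, hd, by have := hd.1; omega⟩
    · have hoi : o < i := by
        rcases Nat.lt_succ_iff_lt_or_eq.1 hi with h1 | h1
        · exact h1
        · exact absurd (h1 ▸ ho) h
      obtain ⟨o1, d, h1, h2, h3, h4, h5⟩ := ih hoi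
      refine ⟨o1, d, h1, by omega, h3, h4, ?_⟩
      rcases Nat.lt_or_eq_of_le h5 with h6 | h6
      · omega
      · exact absurd (h6 ▸ h4.2.1) h

theorem rec_after {N r r' o i : ℕ} (ha : Aper u) (hN : ¬ Two u N) (hr : RS u N r r')
    (ho : Eqv u N o r) (hi : o ≤ i) : i ∈ Rec u N := by
  rcases Nat.lt_or_eq_of_le hi with h | h
  · obtain ⟨o1, d, _, h2, h3, h4, h5⟩ := prev ha hN hr ho h
    intro m
    obtain ⟨j, hj, e⟩ := occ_rec ha hN hr h3 m
    have e1 := (ret hN hr e h4).1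
    refine ⟨j + (i - o1), by omega, ?_⟩
    have := e1.shift (i - o1) N (by omega)
    rwa [show o1 + (i - o1) = i by omega] at this
  · exact h ▸ Rec.mono (occ_rec ha hN hr ho) (by omega)

/-- the arrival letter determines the loop. -/
def Arr (u : ℕ → A) (N r : ℕ) : Prop :=
  ∀ o o' d d', Eqv u N o r → Eqv u N o' r → Nx u N r o d → Nx u N r o' d' →
    u (o + d - 1) = u (o' + d' - 1) → Eqv u (N + 1) o o'

theorem left_uniq {N r r' o i j : ℕ} (ha : Aper u) (hN : ¬ Two u N) (hr : RS u N r r')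
    (hA : Arr u N r) (ho : Eqv u N o r) (hi : o < i) (hj : o < j) (e : Eqv u N i j)
    (hne : u (i - 1) ≠ u (j - 1)) : Eqv u N i r := by
  by_contra hc
  obtain ⟨o1, d1, _, h2, h3, h4, h5⟩ := prev ha hN hr ho hi
  obtain ⟨o2, d2, _, g2, g3, g4, g5⟩ := prev ha hN hr ho hj
  obtain ⟨d, hd⟩ := exists_Nx ha hN hr i
  obtain ⟨e1, hd'⟩ := ret hN hr (det hN hr hc e) hd
  have hc' : ¬ Eqv u N j r := fun h => hc (e.trans h)
  have k1 : o1 + d1 = i + d := by
    have hlt : i < o1 + d1 := lt_of_le_of_ne h5 fun h => hc (h ▸ h4.2.1)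
    have : Nx u N r i (o1 + d1 - i) := by
      refine ⟨by omega, ?_, fun d' a b => ?_⟩
      · rw [show i + (o1 + d1 - i) = o1 + d1 by omega]; exact h4.2.1
      · have := h4.2.2 (i - o1 + d') (by omega) (by omega)
        rwa [show o1 + (i - o1 + d') = i + d' by omega] at this
    have := this.uniq hd
    omega
  have k2 : o2 + d2 = j + d := by
    have hlt : j < o2 + d2 := lt_of_le_of_ne g5 fun h => hc' (h ▸ g4.2.1)
    have : Nx u N r j (o2 + d2 - j) := by
      refine ⟨by omega, ?_, fun d' a b => ?_⟩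
      · rw [show j + (o2 + d2 - j) = o2 + d2 by omega]; exact g4.2.1
      · have := g4.2.2 (j - o2 + d') (by omega) (by omega)
        rwa [show o2 + (j - o2 + d') = j + d' by omega] at this
    have := this.uniq hd'
    omega
  have hd1 := hd.1
  have e2 : Eqv u (N + 1) o1 o2 := by
    apply hA o1 o2 d1 d2 h3 g3 h4 g4
    have := e1 (d - 1) (by omega)
    rw [k1, k2, show i + d - 1 = i + (d - 1) by omega, show j + d - 1 = j + (d - 1) by omega]
    exact this
  obtain ⟨e3, h6⟩ := ret hN hr e2 h4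
  have hdd := h6.uniq g4
  apply hne
  have := e3 (i - 1 - o1) (by omega)
  rw [show o1 + (i - 1 - o1) = i - 1 by omega, show o2 + (i - 1 - o1) = j - 1 by omega] at this
  exact this

/-- the tail bound. -/
theorem tail_bound {M t : ℕ} (ha : Aper u) (hM : ¬ Two u M)
    (hl : ∀ j, t < j → ¬ Eqv u M t j) : t + 1 ≤ fc u M := by
  obtain ⟨r, r', _, _, hr⟩ := ha M 0
  have hr : RS u M r r' := hr
  have hno : ∀ k, k ≤ t → ¬ Eqv u M k r := by
    intro k hk ho
    obtain ⟨j, hj, e⟩ := rec_after ha hM hr ho hk (t + 1)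
    exact hl j (by omega) e
  have key : ∀ i j, i ≤ t → i < j → ¬ Eqv u M i j := by
    intro i j hi hij e
    have e1 := run hM hr (det hM hr (hno i hi) e) (t - i) fun d' _ h2 => hno _ (by omega)
    have := e1.shift (t - i) M (by omega)
    rw [show i + (t - i) = t by omega] at this
    exact hl _ (by omega) this
  have h1 : Set.InjOn (W u M) (Set.Iic t) := by
    intro i hi j hj e
    have e := W_eq_iff.1 e
    rcases lt_trichotomy i j with h | h | h
    · exact absurd e (key i j hi h)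
    · exact h
    · exact absurd e.symm (key j i hj h)
  have h2 : cnt u M (Set.Iic t) = t + 1 := by
    unfold cnt
    rw [h1.ncard_image]
    simp
  rw [← h2]
  apply cnt_mono_set
  intro i hi hrec
  obtain ⟨j, hj, e⟩ := hrec (i + 1)
  exact key i j hi (by omega) e

end Pool.Agent.Lib.MP_41a716_co
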