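import Pool.Agent.Lib.MP_41a716_co.Triple

set_option autoImplicit false
set_option linter.unusedSectionVars false

namespace Pool.Agent.Lib.MP_41a716_co

variable {A : Type} [Finite A] {u : ℕ → A}

theorem pc_two {n k : ℕ} (h : ∀ m, n ≤ m → m < n + k → Two u m) :
    pc u n + 2 * k ≤ pc u (n + k) := by
  induction k with
  | zero => simp
  | succ k ih =>
    have h1 := ih fun m a b => h m a (by omega)
    have h2 := h (n + k) (by omega) (by omega)
    unfold Two at h2
    rw [← add_assoc n k 1]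
    omega

theorem pc_one {n k : ℕ} (h : ∀ m, n ≤ m → m < n + k → ¬ Two u m) :
    pc u (n + k) ≤ pc u n + k := by
  induction k with
  | zero => simp
  | succ k ih =>
    have h1 := ih fun m a b => h m a (by omega)
    have h2 := h (n + k) (by omega) (by omega)
    unfold Two at h2
    rw [← add_assoc n k 1]
    omega

theorem lower_core (ha : Aper u) {e b : ℝ} (he : 0 < e) (he1 : e < 1) (hb : b < 1) (n0 : ℕ)
    (hl : ∀ n, n0 ≤ n → (1 + e) * n ≤ pc u n) (hu : ∀ n, n0 ≤ n → (pc u n : ℝ) ≤ (1 + b) * n) :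
    e ^ 2 * (1 - b) ^ 3 ≤ b ^ 3 * (1 - e) ^ 3 := by
  classical
  have heb : e ≤ b := by
    have h1 := hl (n0 + 1) (by omega)
    have h2 := hu (n0 + 1) (by omega)
    have : (0 : ℝ) < ((n0 + 1 : ℕ) : ℝ) := by positivity
    nlinarith
  have hb0 : 0 < b := lt_of_lt_of_le he heb
  have exN : ∀ n, ∃ m, n ≤ m ∧ ¬ Two u m := by
    intro n
    by_contra hc
    push Not at hc
    obtain ⟨k, hk⟩ := exists_nat_gt ((1 + b) * (n + n0) / (1 - b))
    rw [div_lt_iff₀ (by linarith)] at hk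
    have h1 := pc_two (u := u) (n := n + n0) (k := k) fun m a _ => hc m (by omega)
    have h2 := hu (n + n0 + k) (by omega)
    have h3 : (2 * k : ℝ) ≤ pc u (n + n0 + k) := by exact_mod_cast (by omega)
    push_cast at h2
    nlinarith
  have exT : ∀ n, ∃ m, n ≤ m ∧ Two u (m + 1) := by
    intro n
    by_contra hc
    push Not at hc
    obtain ⟨k, hk⟩ := exists_nat_gt ((pc u (n + n0 + 1) : ℝ) / e)
    rw [div_lt_iff₀ he] at hk
    have h1 := pc_one (u := u) (n := n + n0 + 1) (k := k) fun m a _ => by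
      have := hc (m - 1) (by omega)
      rwa [show m - 1 + 1 = m by omega] at this
    have h2 := hl (n + n0 + 1 + k) (by omega)
    have h3 : (pc u (n + n0 + 1 + k) : ℝ) ≤ pc u (n + n0 + 1) + k := by exact_mod_cast h1
    push_cast at h2
    have : (0 : ℝ) ≤ (1 + e) * (n + n0 + 1) := by positivity
    nlinarith
  have nextE : ∀ M, ¬ Two u M → ∃ N', M ≤ N' ∧ ¬ Two u N' ∧ Two u (N' + 1) ∧
      pc u N' + M ≤ pc u M + N' := by
    intro M hM
    obtain ⟨h1, h2⟩ := Nat.find_spec (exT M)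
    have hmin : ∀ m, M ≤ m → m < Nat.find (exT M) → ¬ Two u (m + 1) := fun m a c h =>
      Nat.find_min (exT M) c ⟨a, h⟩
    generalize Nat.find (exT M) = N' at h1 h2 hmin
    have hall : ∀ m, M ≤ m → m ≤ N' → ¬ Two u m := by
      intro m a c
      rcases Nat.lt_or_eq_of_le a with h | h
      · have := hmin (m - 1) (by omega) (by omega)
        rwa [show m - 1 + 1 = m by omega] at this
      · exact h ▸ hM
    refine ⟨N', h1, hall N' h1 le_rfl, h2, ?_⟩
    have := pc_one (u := u) (n := M) (k := N' - M) fun m a c => hall m a (by omega)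
    rw [show M + (N' - M) = N' by omega] at this
    omega
  set l : ℝ := b * (1 - e) / (e * (1 - b)) with hl'
  set c : ℝ := b / (e * (1 - b)) with hc'
  have hd : 0 < e * (1 - b) := mul_pos he (by linarith)
  have hl0 : 0 < l := div_pos (mul_pos hb0 (by linarith)) hd
  have step : ∀ N, n0 ≤ N → ∃ M N', N < M ∧ ¬ Two u M ∧ M ≤ N' ∧ ¬ Two u N' ∧ Two u (N' + 1) ∧
      (N' : ℝ) ≤ l * N + c ∧ (pc u M : ℝ) - M ≤ e * (l * N + c) := by
    intro N hN
    obtain ⟨h1, h2⟩ := Nat.find_spec (exN (N + 1))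
    have hmin : ∀ m, N + 1 ≤ m → m < Nat.find (exN (N + 1)) → Two u m := fun m a c => by
      by_contra h
      exact Nat.find_min (exN (N + 1)) c ⟨a, h⟩
    generalize Nat.find (exN (N + 1)) = M at h1 h2 hmin
    obtain ⟨N', g1, g2, g3, g4⟩ := nextE M h2
    have k1 := pc_two (u := u) (n := N + 1) (k := M - (N + 1)) fun m a c => hmin m a (by omega)
    rw [show N + 1 + (M - (N + 1)) = M by omega] at k1
    have k2 := pc_succ ha N
    have k3 : (pc u N : ℝ) + 2 * M ≤ pc u M + 2 * N + 1 := by exact_mod_cast (by omega)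
    have k4 : (pc u N' : ℝ) + M ≤ pc u M + N' := by exact_mod_cast g4
    have k5 := hl N hN
    have k6 := hu M (by omega)
    have k7 := hl N' (by omega)
    have k8 : (1 - b) * M ≤ (1 - e) * N + 1 := by nlinarith
    have k9 : b * M ≤ e * (l * N + c) := by
      have : e * (l * N + c) = b * ((1 - e) * N + 1) / (1 - b) := by
        rw [hl', hc']; field_simp
      rw [this, le_div_iff₀ (by linarith)]
      nlinarith
    refine ⟨M, N', by omega, h2, g1, g2, g3, ?_, by nlinarith⟩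
    have : e * N' ≤ e * (l * N + c) := by nlinarith
    exact le_of_mul_le_mul_left this he
  have key : 1 ≤ e * l ^ 3 := by
    by_contra hlt
    push Not at hlt
    obtain ⟨k, hk⟩ := exists_nat_gt (e * (l * (l * c + c) + c) / (1 - e * l ^ 3))
    rw [div_lt_iff₀ (by linarith)] at hk
    obtain ⟨m, hm1, hm2⟩ := exN (n0 + k)
    obtain ⟨N1, g1, g2, g3, _⟩ := nextE m hm2
    obtain ⟨M1, N2, a1, a2, a3, a4, a5, a6, _⟩ := step N1 (by omega)
    obtain ⟨M2, N3, b1, b2, b3, b4, b5, b6, _⟩ := step N2 (by omega)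
    obtain ⟨M3, _, c1, c2, _, _, _, _, c7⟩ := step N3 (by omega)
    have t := triple ha g2 g3 a2 a1 a4 a5 b2 b1 b4 b5 c2 c1 a3 b3
    have t' : (N1 : ℝ) + M3 < pc u M3 := by exact_mod_cast t
    have hk' : (k : ℝ) ≤ N1 := by exact_mod_cast (by omega)
    have s1 : l * N2 ≤ l * (l * N1 + c) := mul_le_mul_of_nonneg_left a6 hl0.le
    have s2 : l * N3 ≤ l * (l * (l * N1 + c) + c) :=
      mul_le_mul_of_nonneg_left (by linarith) hl0.le
    have s3 : e * (l * N3 + c) ≤ e * (l * (l * (l * N1 + c) + c) + c) :=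
      mul_le_mul_of_nonneg_left (by linarith) he.le
    have s4 : (k : ℝ) * (1 - e * l ^ 3) ≤ N1 * (1 - e * l ^ 3) :=
      mul_le_mul_of_nonneg_right hk' (by linarith)
    nlinarith
  have : e * l ^ 3 = b ^ 3 * (1 - e) ^ 3 / (e ^ 2 * (1 - b) ^ 3) := by
    rw [hl']
    have : 1 - b ≠ 0 := by linarith
    field_simp
  rw [this, le_div_iff₀ (by have : 0 < 1 - b := by linarith
                            positivity)] at key
  linarith

open Filter in
theorem lower_main (u : ℕ → A) (C : ℝ) (hC : ∀ n : ℕ, 1 ≤ n → (pc u n : ℝ) ≤ C * n)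
    {a b : ℝ} (ha : a = liminf (fun n : ℕ => (pc u n : ℝ) / n) atTop)
    (hb : b = limsup (fun n : ℕ => (pc u n : ℝ) / n) atTop) (h1 : 1 < a) (h2 : b < 2) :
    a ≤ b ∧ (a - 1) ^ 2 * (2 - b) ^ 3 ≤ (b - 1) ^ 3 * (2 - a) ^ 3 := by
  have bd1 : IsBoundedUnder (· ≤ ·) atTop (fun n : ℕ => (pc u n : ℝ) / n) := by
    refine ⟨C, ?_⟩
    rw [eventually_map]
    filter_upwards [eventually_ge_atTop 1] with n hn
    rw [div_le_iff₀ (by exact_mod_cast hn)]
    exact hC n hn
  have bd2 : IsBoundedUnder (· ≥ ·) atTop (fun n : ℕ => (pc u n : ℝ) / n) := by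
    refine ⟨0, ?_⟩
    rw [eventually_map]
    exact Eventually.of_forall fun n => by positivity
  have hab : a ≤ b := by rw [ha, hb]; exact liminf_le_limsup bd1 bd2
  refine ⟨hab, ?_⟩
  have low : ∀ x, x < a → ∀ᶠ n : ℕ in atTop, x * n ≤ pc u n := by
    intro x hx
    rw [ha] at hx
    filter_upwards [eventually_lt_of_lt_liminf hx bd2, eventually_ge_atTop 1] with n hn hn1
    rw [lt_div_iff₀ (by exact_mod_cast hn1)] at hn
    exact hn.le
  have upp : ∀ x, b < x → ∀ᶠ n : ℕ in atTop, (pc u n : ℝ) ≤ x * n := by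
    intro x hx
    rw [hb] at hx
    filter_upwards [eventually_lt_of_limsup_lt hx bd1, eventually_ge_atTop 1] with n hn hn1
    rw [div_lt_iff₀ (by exact_mod_cast hn1)] at hn
    exact hn.le
  have hap : Aper u := by
    apply aper_of_unbdd
    intro K
    obtain ⟨n, hn, hn'⟩ := ((low 1 h1).and (eventually_gt_atTop K)).exists
    refine ⟨n, ?_⟩
    have : (n : ℝ) ≤ pc u n := by linarith
    have : n ≤ pc u n := by exact_mod_cast this
    omega
  have main : ∀ᶠ t in nhdsWithin (0 : ℝ) (Set.Ioi 0),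
      (a - t - 1) ^ 2 * (1 - (b + t - 1)) ^ 3 ≤ (b + t - 1) ^ 3 * (1 - (a - t - 1)) ^ 3 := by
    have hm : Set.Ioo (0 : ℝ) (min (a - 1) (2 - b)) ∈ nhdsWithin (0 : ℝ) (Set.Ioi 0) :=
      Ioo_mem_nhdsGT (lt_min (by linarith) (by linarith))
    filter_upwards [hm] with t ht
    obtain ⟨t0, t1⟩ := ht
    rw [lt_min_iff] at t1
    obtain ⟨n0, hn0⟩ := eventually_atTop.1 ((low (a - t) (by linarith)).and
      (upp (b + t) (by linarith)))
    refine lower_core hap (by linarith) (by linarith) (by linarith) n0 (fun n hn => ?_)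
      (fun n hn => ?_)
    · have := (hn0 n hn).1
      linarith
    · have := (hn0 n hn).2
      linarith
  have c1 : Tendsto (fun t : ℝ => (a - t - 1) ^ 2 * (1 - (b + t - 1)) ^ 3)
      (nhdsWithin 0 (Set.Ioi 0)) (nhds ((a - 0 - 1) ^ 2 * (1 - (b + 0 - 1)) ^ 3)) :=
    (Continuous.tendsto (by fun_prop) 0).mono_left nhdsWithin_le_nhds
  have c2 : Tendsto (fun t : ℝ => (b + t - 1) ^ 3 * (1 - (a - t - 1)) ^ 3)
      (nhdsWithin 0 (Set.Ioi 0)) (nhds ((b + 0 - 1) ^ 3 * (1 - (a - 0 - 1)) ^ 3)) :=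
    (Continuous.tendsto (by fun_prop) 0).mono_left nhdsWithin_le_nhds
  have := le_of_tendsto_of_tendsto c1 c2 main
  have e1 : (a - 0 - 1) ^ 2 * (1 - (b + 0 - 1)) ^ 3 = (a - 1) ^ 2 * (2 - b) ^ 3 := by ring
  have e2 : (b + 0 - 1) ^ 3 * (1 - (a - 0 - 1)) ^ 3 = (b - 1) ^ 3 * (2 - a) ^ 3 := by ring
  rwa [e1, e2] at this

end Pool.Agent.Lib.MP_41a716_co
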