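import Pool.Agent.Lib.MP_41a716_co.Lower

set_option autoImplicit false
set_option linter.unusedSectionVars false

namespace Pool.Agent.Lib.MP_41a716_co

theorem exists_between (s : ℕ → ℕ) (h0 : s 0 = 0) (hs : ∀ k, s k < s (k + 1)) (p : ℕ) :
    ∃ k, s k ≤ p ∧ p < s (k + 1) := by
  induction p with
  | zero => exact ⟨0, h0.le, by have := hs 0; omega⟩
  | succ p ih =>
    obtain ⟨k, h1, h2⟩ := ih
    by_cases h : p + 1 < s (k + 1)
    · exact ⟨k, by omega, h⟩
    · exact ⟨k + 1, by omega, by have := hs (k + 1); omega⟩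

theorem per_mul {pi : ℕ → Bool} {h : ℕ} (hp : ∀ r, pi (r + h) = pi r) (r k : ℕ) :
    pi (r + k * h) = pi r := by
  induction k with
  | zero => simp
  | succ k ih => rw [Nat.succ_mul, ← add_assoc, hp, ih]

theorem runs_upper (y pi : ℕ → Bool) (h q A n : ℕ) (s e : ℕ → ℕ) (hh : 2 ≤ h) (hA : 1 ≤ A)
    (hp : ∀ r, pi (r + h) = pi r) (h0 : s 0 = 0) (hs : ∀ k, s (k + 1) = s k + e k * h + q)
    (he : ∀ k, A ≤ e k) (hR : ∀ k r, r + 2 < e k * h + q + h → y (s k + r) = pi r)
    (hn1 : h ≤ n) (hn2 : n ≤ A * h) : cnt y n Set.univ ≤ n + 1 := by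
  have hAh : ∀ k, A * h ≤ e k * h := fun k => Nat.mul_le_mul_right h (he k)
  have hh' : h ≤ A * h := Nat.le_mul_of_pos_left h hA
  let g1 : ℕ → Fin n → Bool := fun j x => pi (j + x)
  let g2 : ℕ → Fin n → Bool := fun j x => if (x : ℕ) < j then pi (q + A * h - j + x) else pi (x - j)
  have sub : W y n '' Set.univ ⊆ g1 '' Set.Iio h ∪ g2 '' Set.Icc 1 (n - h + 1) := by
    rintro _ ⟨p, _, rfl⟩
    obtain ⟨k, h1, h2⟩ := exists_between s h0 (fun k => by have := hs k; have := hAh k; omega) p
    have hk := hs k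
    by_cases hc : p + n + 2 ≤ s (k + 1) + h
    · left
      refine ⟨(p - s k) % h, Nat.mod_lt _ (by omega), ?_⟩
      funext x
      have hx := x.2
      have a := hR k (p - s k + x) (by omega)
      show pi ((p - s k) % h + x) = y (p + x)
      rw [show p + x = s k + (p - s k + x) by omega, a]
      conv_rhs => rw [← Nat.mod_add_div' (p - s k) h]
      rw [add_right_comm, per_mul hp]
    · right
      refine ⟨s (k + 1) - p, ⟨by omega, by omega⟩, ?_⟩
      funext x
      have hx := x.2
      show (if (x : ℕ) < s (k + 1) - p then pi (q + A * h - (s (k + 1) - p) + x)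
        else pi (x - (s (k + 1) - p))) = y (p + x)
      split_ifs with hxj
      · have a := hR k (p - s k + x) (by omega)
        rw [show p + x = s k + (p - s k + x) by omega, a]
        have : p - s k + x = (q + A * h - (s (k + 1) - p) + x) + (e k - A) * h := by
          rw [Nat.sub_mul]
          have := hAh k
          omega
        rw [this, per_mul hp]
      · have a := hR (k + 1) (x - (s (k + 1) - p)) (by have := hAh (k + 1); omega)
        rw [← a]
        congr 1; omega
  unfold cnt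
  refine (Set.ncard_le_ncard sub (Set.toFinite _)).trans ((Set.ncard_union_le _ _).trans ?_)
  have a1 : (g1 '' Set.Iio h).ncard ≤ h :=
    (Set.ncard_image_le (Set.finite_Iio h)).trans (by simp)
  have a2 : (g2 '' Set.Icc 1 (n - h + 1)).ncard ≤ n - h + 1 :=
    (Set.ncard_image_le (Set.finite_Icc _ _)).trans (by simp)
  omega

theorem runs_lower (y pi : ℕ → Bool) (h q A : ℕ) (s e : ℕ → ℕ) (hh : 2 ≤ h) (hA : 1 ≤ A)
    (hp : ∀ r, pi (r + h) = pi r) (h0 : s 0 = 0) (hs : ∀ k, s (k + 1) = s k + e k * h + q)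
    (he : ∀ k, A ≤ e k) (he0 : e 0 = A + 2) (he1 : ∀ k, e (k + 1) ≤ A + 1)
    (hR : ∀ k r, r + 2 < e k * h + q + h → y (s k + r) = pi r)
    (hb : ∀ k, y (s (k + 1) - 1) ≠ pi (h - 1)) (p : ℕ) (hph : h ≤ p) :
    ¬ Eqv y ((A + 2) * h + q) (h - 2) p := by
  intro E
  have hAh : ∀ k, A * h ≤ e k * h := fun k => Nat.mul_le_mul_right h (he k)
  have hh' : h ≤ A * h := Nat.le_mul_of_pos_left h hA
  obtain ⟨k, h1, h2⟩ := exists_between s h0 (fun k => by have := hs k; have := hAh k; omega) p
  have hx : s (k + 1) - p ≤ (A + 1) * h + q := by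
    rcases k with _ | k
    · have := hs 0
      rw [he0, h0] at this
      simp only [zero_add, add_mul] at this ⊢
      omega
    · have := hs (k + 1)
      have := Nat.mul_le_mul_right h (he1 k)
      omega
  simp only [add_mul] at hx E
  have a1 := E (s (k + 1) - 1 - p) (by omega)
  have a2 := E (s (k + 1) - 1 - p + h) (by omega)
  have b1 := hR 0 (h - 2 + (s (k + 1) - 1 - p)) (by rw [he0, add_mul]; omega)
  have b2 := hR 0 (h - 2 + (s (k + 1) - 1 - p + h)) (by rw [he0, add_mul]; omega)
  have b3 := hR (k + 1) (h - 1) (by have := hAh (k + 1); omega)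
  rw [h0, zero_add] at b1 b2
  apply hb k
  rw [← b3, show s (k + 1) + (h - 1) = p + (s (k + 1) - 1 - p + h) by omega, ← a2, b2,
    ← add_assoc, hp, ← b1, a1]
  congr 1; omega

theorem fc_of_last {A : Type} [Finite A] {u : ℕ → A} {g t n : ℕ}
    (hl : ∀ j, t < j → ¬ Eqv u g t j) (hn : g + t ≤ n) : t + 1 ≤ fc u n := by
  have key : ∀ i j, i ≤ t → i < j → ¬ Eqv u n i j := by
    intro i j hi hij e
    have := e.shift (t - i) g (by omega)
    rw [show i + (t - i) = t by omega] at this
    exact hl _ (by omega) this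
  have h1 : Set.InjOn (W u n) (Set.Iic t) := by
    intro i hi j hj e
    have e := W_eq_iff.1 e
    rcases lt_trichotomy i j with h | h | h
    · exact absurd e (key i j hi h)
    · exact h
    · exact absurd e.symm (key j i hj h)
  have h2 : cnt u n (Set.Iic t) = t + 1 := by
    unfold cnt
    rw [h1.ncard_image]
    simp
  rw [← h2]
  apply cnt_mono_set
  intro i hi hrec
  obtain ⟨j, hj, e⟩ := hrec (i + 1)
  exact key i j hi (by omega) e

end Pool.Agent.Lib.MP_41a716_co
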