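import Pool.Agent.Lib.MP_41a716_co.Count

/-! The first difference of the complexity as a difference of two monotone sequences. -/

namespace Pool.Agent.Lib.MP_41a716_co

variable {A : Type} [Finite A] {u v : ℕ → A}

theorem slA_le {n n' : ℕ} {S S' : Set ℕ} (g : ℕ → ℕ) (h1 : ∀ i ∈ S, g i ∈ S')
    (h2 : ∀ i ∈ S, ∀ j ∈ S, Eqv v n' (g i) (g j) → Eqv u n i j) : cnt u n S ≤ cnt v n' S' := by
  refine Set.ncard_le_ncard_of_injOn (fun Z => W v n' (g (Function.invFunOn (W u n) S Z)))
    (fun Z hZ => ⟨_, h1 _ (Function.invFunOn_mem hZ), rfl⟩) (fun Z hZ Z' hZ' e => ?_) (fin_img _ _)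
  rw [← Function.invFunOn_eq hZ, ← Function.invFunOn_eq hZ']
  exact W_eq_iff.2 (h2 _ (Function.invFunOn_mem hZ) _ (Function.invFunOn_mem hZ') (W_eq_iff.1 e))

theorem slA_union {n : ℕ} {S T : Set ℕ} (h : ∀ i ∈ S, ∀ j ∈ T, ¬ Eqv u n i j) :
    cnt u n (S ∪ T) = cnt u n S + cnt u n T := by
  unfold cnt
  rw [Set.image_union, Set.ncard_union_eq ?_ (fin_img _ _) (fin_img _ _)]
  rw [Set.disjoint_left]
  rintro _ ⟨i, hi, rfl⟩ ⟨j, hj, e⟩
  exact h i hi j hj (W_eq_iff.1 e.symm)

theorem slA_pos {n i : ℕ} {S : Set ℕ} (h : i ∈ S) : 0 < cnt u n S :=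
  (Set.ncard_pos (fin_img _ _)).2 ⟨_, i, h, rfl⟩

/-- the positions whose window is not the window of a position of `S` -/
def slOut (u : ℕ → A) (n : ℕ) (S : Set ℕ) : Set ℕ := {i | ∀ j ∈ S, ¬ Eqv u n j i}

theorem slA_out (n : ℕ) (S : Set ℕ) : pc u n = cnt u n S + cnt u n (slOut u n S) := by
  rw [← slA_union (S := S) (T := slOut u n S) fun i hi j hj => hj i hi]
  refine le_antisymm ?_ (cnt_mono_set _ (Set.subset_univ _))
  refine Set.ncard_le_ncard ?_ (fin_img _ _)
  rintro _ ⟨i, -, rfl⟩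
  by_cases h : i ∈ slOut u n S
  · exact ⟨i, .inr h, rfl⟩
  · simp only [slOut, Set.mem_ofPred_eq, not_forall, not_not] at h
    obtain ⟨j, hj, e⟩ := h
    exact ⟨j, .inl hj, W_eq_iff.2 e⟩

theorem slA_mono (S : Set ℕ) : Monotone fun n => cnt u n (slOut u n S) := fun _ _ h =>
  slA_le id (fun _ hi j hj e => hi j hj (e.mono h)) fun _ _ _ _ e => e.mono h

/-- `H` is a set of heavy left extensions of the words of length `i` -/
theorem slA_split {H : Set ℕ} {i m : ℕ} (hm : i ≤ m)
    (sat : ∀ a b, Eqv u (i + 1) a b → a ∈ H → b ∈ H)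
    (uniq : ∀ a ∈ H, ∀ b ∈ H, Eqv u i (a + 1) (b + 1) → u a = u b) :
    pc u (m + 1) + cnt u m (slOut u m ((· + 1) '' H)) = pc u m + cnt u (m + 1) Hᶜ := by
  have e1 : pc u (m + 1) = cnt u (m + 1) H + cnt u (m + 1) Hᶜ := by
    rw [← slA_union (S := H) (T := Hᶜ) fun a ha b hb e => hb (sat a b (e.mono (by omega)) ha),
      Set.union_compl_self, pc]
  have e2 : cnt u (m + 1) H = cnt u m ((· + 1) '' H) := by
    refine le_antisymm (slA_le (· + 1) (fun a ha => ⟨a, ha, rfl⟩) fun a ha b hb e =>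
      e.cons (uniq a ha b hb (e.mono hm))) (slA_le (· - 1) ?_ ?_)
    · rintro _ ⟨a, ha, rfl⟩
      exact ha
    · rintro _ ⟨a, -, rfl⟩ _ ⟨b, -, rfl⟩ e
      exact Eqv.shift (i := a) (j := b) e 1 m (by omega)
  have := slA_out (u := u) m ((· + 1) '' H)
  omega

/-- a sequence with nonincreasing integral slopes has first large and then small slopes -/
theorem slA_conc {p D : ℕ → ℕ} (hD : Monotone D) (k m L l : ℕ)
    (h : ∀ j < l, p (m + j + 1) + D (m + j) = p (m + j) + L) :
    ∃ x y, x + y = l ∧ p m + (k + 1) * x ≤ p (m + x) ∧ p (m + l) ≤ p (m + x) + k * y := by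
  induction l with
  | zero => exact ⟨0, 0, rfl, by simp, by simp⟩
  | succ l ih =>
    have h1 := h l (by omega)
    by_cases c : L ≤ D (m + l) + k
    · obtain ⟨x, y, e, h2, h3⟩ := ih fun j hj => h j (by omega)
      refine ⟨x, y + 1, by omega, h2, ?_⟩
      rw [mul_add, ← add_assoc m l]
      omega
    · refine ⟨l + 1, 0, rfl, ?_, by simp⟩
      have : ∀ j ≤ l + 1, p m + (k + 1) * j ≤ p (m + j) := fun j hj => by
        induction j with
        | zero => simp
        | succ j ih =>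
          have h2 := h j (by omega)
          have h3 := hD (show m + j ≤ m + l by omega)
          have h4 := ih (by omega)
          rw [mul_add, ← add_assoc m j]
          omega
      exact this _ le_rfl

/-- a bounded monotone sequence is constant on a long interval -/
theorem slA_flat {f : ℕ → ℕ} (hf : Monotone f) (m l V : ℕ) (h : f (m + (V + 1) * l) ≤ V) :
    ∃ j ≤ V, f (m + j * l) = f (m + j * l + l) := by
  by_contra! c
  have : ∀ j ≤ V + 1, j ≤ f (m + j * l) := fun j hj => by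
    induction j with
    | zero => simp
    | succ j ih =>
      have h1 := ih (by omega)
      have h2 := lt_of_le_of_ne (hf (Nat.le_add_right _ l)) (c j (by omega))
      rw [add_mul, one_mul, ← add_assoc]
      omega
  have := this _ le_rfl
  omega

end Pool.Agent.Lib.MP_41a716_co
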