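import Pool.Agent.Lib.MP_41a716_co.SlA

/-! Heavy and light left extensions. -/

namespace Pool.Agent.Lib.MP_41a716_co

variable {A : Type} {v : ℕ → A} {q e j j' : ℕ}

/-- the windows at `j` and `j'` agree on the places from `e` to `4 q` -/
def SlE (v : ℕ → A) (q e j j' : ℕ) : Prop := ∀ t, e ≤ t → t < 4 * q → v (j + t) = v (j' + t)

/-- the window at `j` has a small period on these places -/
def SlP (v : ℕ → A) (q e j : ℕ) : Prop :=
  ∃ d, 0 < d ∧ d < q ∧ ∀ t, e ≤ t → t + d < 4 * q → v (j + t) = v (j + (t + d))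

def slC (v : ℕ → A) (q e j : ℕ) : Set ℕ := {i | q ≤ i ∧ SlE v q e j i}

/-- the number of long windows with the same letters on these places -/
noncomputable def slW (v : ℕ → A) (q e j : ℕ) : ℕ := cnt v (10 * q) (slC v q e j)

/-- the letter at place `e` is heavy -/
def SlH (v : ℕ → A) (q e j : ℕ) : Prop :=
  SlP v q e j ∨ ¬ SlP v q (e + 1) j ∧ slW v q (e + 1) j < 2 * slW v q e j

theorem SlE.symm (h : SlE v q e j j') : SlE v q e j' j := fun t a b => (h t a b).symm

theorem SlE.succ (h : SlE v q e j j') : SlE v q (e + 1) j j' := fun t a b => h t (by omega) b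

theorem SlP.succ (h : SlP v q e j) : SlP v q (e + 1) j :=
  let ⟨d, a, b, c⟩ := h
  ⟨d, a, b, fun t x y => c t (by omega) y⟩

theorem SlE.per (h : SlE v q e j j') (p : SlP v q e j) : SlP v q e j' :=
  let ⟨d, a, b, c⟩ := p
  ⟨d, a, b, fun t x y => by rw [← h t x (by omega), c t x y, h _ (by omega) y]⟩

theorem SlE.cls (h : SlE v q e j j') : slC v q e j = slC v q e j' :=
  Set.ext fun _ => and_congr_right fun _ =>
    ⟨fun a t x y => (h t x y).symm.trans (a t x y), fun a t x y => (h t x y).trans (a t x y)⟩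

theorem SlE.heavy (h : SlE v q e j j') (p : SlH v q e j) : SlH v q e j' :=
  p.imp h.per fun a => ⟨fun b => a.1 (h.succ.symm.per b), by
    rw [slW, slW, ← h.cls, ← h.succ.cls]; exact a.2⟩

theorem slB_sub : slC v q e j ⊆ slC v q (e + 1) j := fun _ h => ⟨h.1, h.2.succ⟩

variable [Finite A]

theorem slB_uniq (he : e < 2 * q) (h : SlE v q (e + 1) j j') (a : SlH v q e j) (b : SlH v q e j') :
    v (j + e) = v (j' + e) := by
  rcases a with a | a <;> rcases b with b | b
  · obtain ⟨d, d0, d1, hd⟩ := a
    obtain ⟨c, c0, c1, hc⟩ := b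
    rw [hd e le_rfl (by omega), h _ (by omega) (by omega), hc (e + d) (by omega) (by omega),
      hc e le_rfl (by omega), ← h (e + c) (by omega) (by omega), hd (e + c) (by omega) (by omega),
      h _ (by omega) (by omega), add_right_comm e d c]
  · exact absurd (h.per a.succ) b.1
  · exact absurd (h.symm.per b.succ) a.1
  · by_contra c
    have h1 := slA_union (u := v) (n := 10 * q) (S := slC v q e j) (T := slC v q e j')
      fun i hi i' hi' x => c ((hi.2 e le_rfl (by omega)).trans
        ((x e (by omega)).trans (hi'.2 e le_rfl (by omega)).symm))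
    have h2 := cnt_mono_set (u := v) (10 * q) (Set.union_subset (slB_sub (v := v) (q := q) (e := e)
      (j := j)) (h.cls ▸ slB_sub (v := v) (q := q) (e := e) (j := j')))
    have h3 := a.2
    have h4 := b.2
    simp only [slW, ← h.cls] at h3 h4
    omega

/-- a word without small period has few contexts -/
theorem slB_wt (h : ¬ SlP v q e j) : slW v q e j * q ≤ pc v (11 * q) := by
  have key : ∀ a ∈ slC v q e j, ∀ b ∈ slC v q e j, ∀ s t, s < t → t < q →
      ¬ Eqv v (11 * q) (a - s) (b - t) := fun a ha b hb s t h1 h2 x =>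
    h ⟨t - s, by omega, by omega, fun y y1 y2 => by
      have h3 := x (t + y) (by omega)
      have := ha.1
      have := hb.1
      rw [hb.2 y y1 (by omega), ha.2 _ (by omega) y2, show b + y = b - t + (t + y) by omega, ← h3]
      exact congrArg v (by omega)⟩
  have : slW v q e j * q = ((W v (10 * q) '' slC v q e j) ×ˢ Set.Iio q).ncard := by
    rw [Set.ncard_prod, Set.ncard_Iio_nat]; rfl
  rw [this]
  refine Set.ncard_le_ncard_of_injOn (fun Z => W v (11 * q)
    (Function.invFunOn (W v (10 * q)) (slC v q e j) Z.1 - Z.2)) (fun Z _ => ⟨_, trivial, rfl⟩)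
    (fun Z hZ Z' hZ' x => ?_) (fin_img _ _)
  have m1 := Function.invFunOn_mem hZ.1
  have m2 := Function.invFunOn_mem hZ'.1
  have x := W_eq_iff.1 x
  rcases lt_trichotomy Z.2 Z'.2 with c | c | c
  · exact absurd x (key _ m1 _ m2 _ _ c hZ'.2)
  · refine Prod.ext ?_ c
    have l : Z'.2 < q := hZ'.2
    have := x.shift Z'.2 (10 * q) (by omega)
    rw [c, Nat.sub_add_cancel (l.le.trans m1.1), Nat.sub_add_cancel (l.le.trans m2.1)] at this
    rw [← Function.invFunOn_eq hZ.1, ← Function.invFunOn_eq hZ'.1]
    exact W_eq_iff.2 this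
  · exact absurd x.symm (key _ m2 _ m1 _ _ c hZ.2)

open Classical in
/-- a window has few light letters -/
theorem slB_few {M : ℕ} (hq : 0 < q) (hM : pc v (11 * q) ≤ M * q) (hj : q ≤ j) (c : ℕ) :
    ((Finset.range c).filter fun e => ¬ SlH v q e j).card ≤ Nat.log 2 (2 * M) := by
  have b : ∀ e, ¬ SlP v q e j → slW v q e j ≤ M := fun e h =>
    Nat.le_of_mul_le_mul_right ((slB_wt h).trans hM) hq
  have m : ∀ e, slW v q e j ≤ slW v q (e + 1) j := fun e => cnt_mono_set _ slB_sub
  have M0 : 0 < M := Nat.pos_of_mul_pos_right ((slA_pos (Set.mem_univ 0)).trans_le hM)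
  have key : 2 ^ ((Finset.range c).filter fun e => ¬ SlH v q e j).card ≤
      if SlP v q c j then 2 * M else slW v q c j := by
    induction c with
    | zero =>
      have : 0 < slW v q 0 j := slA_pos (i := j) ⟨hj, fun _ _ _ => rfl⟩
      simp only [Finset.range_zero, Finset.filter_empty, Finset.card_empty, pow_zero]
      split_ifs <;> omega
    | succ c ih =>
      have m1 := m c
      rw [Finset.range_add_one, Finset.filter_insert]
      by_cases h : SlH v q c j
      · rw [if_neg (not_not.2 h)]
        by_cases p : SlP v q c j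
        · rw [if_pos p] at ih
          rwa [if_pos p.succ]
        · rw [if_neg p] at ih
          have := b c p
          split_ifs <;> omega
      · rw [if_pos h, Finset.card_insert_of_notMem (by simp), pow_succ]
        simp only [SlH, not_or, not_and, not_lt] at h
        rw [if_neg h.1] at ih
        have := b c h.1
        split_ifs with p
        · omega
        · have := h.2 p
          omega
  refine Nat.le_log_of_pow_le (by norm_num) (key.trans ?_)
  split_ifs with p
  · rfl
  · have := b c p
    omega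

/-- for some place there are few light windows -/
theorem slB_avg {M : ℕ} (hq : 0 < q) (hM : pc v (11 * q) ≤ M * q) : ∃ e < 2 * q,
    2 * q * cnt v (10 * q) {j | q ≤ j ∧ ¬ SlH v q e j} ≤ pc v (10 * q) * Nat.log 2 (2 * M) := by
  classical
  let F := (fin_img (u := v) (10 * q) (Set.Ici q)).toFinset
  let g := Function.invFunOn (W v (10 * q)) (Set.Ici q)
  have h1 : ∀ e, cnt v (10 * q) {j | q ≤ j ∧ ¬ SlH v q e j} ≤
      (F.filter fun Z => ¬ SlH v q e (g Z)).card := fun e => by
    rw [← Set.ncard_coe_finset]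
    refine Set.ncard_le_ncard ?_
    rintro _ ⟨j, hj, rfl⟩
    have m : W v (10 * q) j ∈ W v (10 * q) '' Set.Ici q := ⟨j, hj.1, rfl⟩
    refine Finset.mem_coe.2 (Finset.mem_filter.2 ⟨(Set.Finite.mem_toFinset _).2 m, fun h => hj.2 ?_⟩)
    exact SlE.heavy (fun t _ b => W_eq_iff.1 (Function.invFunOn_eq m) t (by omega)) h
  have h2 : ∑ e ∈ Finset.range (2 * q), (F.filter fun Z => ¬ SlH v q e (g Z)).card ≤
      pc v (10 * q) * Nat.log 2 (2 * M) := by
    simp only [Finset.card_filter]
    rw [Finset.sum_comm]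
    refine (Finset.sum_le_card_nsmul _ _ (Nat.log 2 (2 * M)) fun Z hZ => ?_).trans
      (Nat.mul_le_mul_right _ ?_)
    · rw [← Finset.card_filter]
      exact slB_few hq hM (Function.invFunOn_mem
        ((fin_img (u := v) (10 * q) (Set.Ici q)).mem_toFinset.1 hZ)) _
    · rw [← Set.ncard_eq_toFinset_card]
      exact cnt_mono_set _ (Set.subset_univ _)
  obtain ⟨e, he, h⟩ := Finset.exists_min_image (Finset.range (2 * q))
    (fun e => cnt v (10 * q) {j | q ≤ j ∧ ¬ SlH v q e j}) ⟨0, Finset.mem_range.2 (by omega)⟩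
  refine ⟨e, Finset.mem_range.1 he, le_trans ?_ h2⟩
  have := Finset.card_nsmul_le_sum _ _ _ fun x hx => (h x hx).trans (h1 x)
  rwa [Finset.card_range] at this

end Pool.Agent.Lib.MP_41a716_co
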