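import Pool.Agent.Lib.MP_41a716_co.SlB
import Pool.Agent.Lib.MP_41a716_co.Final

/-! Long intervals of concavity of the complexity, and the gap between the limits. -/

namespace Pool.Agent.Lib.MP_41a716_co

open Filter Topology

variable {A : Type} [Finite A] {u : ℕ → A}

theorem slC_pad (P n : ℕ) : pc (fun j => u (j - P)) n ≤ pc u n + P := by
  have h1 := cnt_union_le (u := fun j => u (j - P)) n (Set.Ici P) (Set.Iio P)
  have h2 := cnt_le_card (u := fun j => u (j - P)) n (Set.Iio P) (Set.finite_Iio P)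
  have h3 : cnt (fun j => u (j - P)) n (Set.Ici P) ≤ pc u n :=
    slA_le (· - P) (fun _ _ => trivial) fun i hi j hj e t ht => by
      have hi : P ≤ i := hi
      have hj : P ≤ j := hj
      have := e t ht
      show u (i + t - P) = u (j + t - P)
      rwa [Nat.sub_add_comm hi, Nat.sub_add_comm hj]
  rw [Set.Ici_union_Iio] at h1
  rw [Set.ncard_Iio_nat] at h2
  exact h1.trans (add_le_add h3 h2)

/-- the first difference is `L - D` with `L` and `D` monotone and `L` of order `K log K` -/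
theorem slC_core {K q : ℕ} (hq : 0 < q) (h1 : pc u (10 * q) ≤ K * (10 * q))
    (h2 : pc u (11 * q) ≤ K * (11 * q)) : ∃ L D : ℕ → ℕ, Monotone L ∧ Monotone D ∧
      (∀ m, 4 * q ≤ m → pc u (m + 1) + D m = pc u m + L m) ∧
      2 * L (8 * q) ≤ (10 * K + 3) * Nat.log 2 (2 * (11 * K + 3)) := by
  obtain ⟨e, he, h⟩ := slB_avg (v := fun j => u (j - 3 * q)) (M := 11 * K + 3) hq
    ((slC_pad _ _).trans (by linarith))
  let H : Set ℕ := {a | SlH (fun j => u (j - 3 * q)) q e (a + 3 * q - e)}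
  have tr : ∀ {c a b}, c ≤ 1 → Eqv u (4 * q - e - c) (a + c) (b + c) →
      SlE (fun j => u (j - 3 * q)) q (e + c) (a + 3 * q - e) (b + 3 * q - e) :=
    fun {c a b} hc x t t1 t2 => by
      have := x (t - e - c) (by omega)
      show u _ = u _
      rwa [show a + 3 * q - e + t - 3 * q = a + c + (t - e - c) by omega,
        show b + 3 * q - e + t - 3 * q = b + c + (t - e - c) by omega]
  refine ⟨fun m => cnt u (m + 1) Hᶜ, fun m => cnt u m (slOut u m ((· + 1) '' H)),
    monotone_nat_of_le_succ fun m => cnt_le_succ _ _, slA_mono _, fun m hm =>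
      slA_split (i := 4 * q - e - 1) (by omega) (fun a b x ha => ?_) fun a ha b hb x => ?_, ?_⟩
  · exact (tr (c := 0) zero_le_one (x.mono (by omega))).heavy ha
  · have := slB_uniq he (tr le_rfl x) ha hb
    rwa [show a + 3 * q - e + e - 3 * q = a by omega,
      show b + 3 * q - e + e - 3 * q = b by omega] at this
  · have h3 : cnt u (8 * q + 1) Hᶜ ≤ cnt (fun j => u (j - 3 * q)) (10 * q)
        {j | q ≤ j ∧ ¬ SlH (fun j => u (j - 3 * q)) q e j} :=
      slA_le (· + 3 * q - e) (fun a ha => ⟨by omega, ha⟩) fun a _ b _ x t ht => by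
        have : u _ = u _ := x (e + t) (by omega)
        rwa [show a + 3 * q - e + (e + t) - 3 * q = a + t by omega,
          show b + 3 * q - e + (e + t) - 3 * q = b + t by omega] at this
    have h4 := slC_pad (u := u) (3 * q) (10 * q)
    refine Nat.le_of_mul_le_mul_left ?_ hq
    calc _ = 2 * q * cnt u (8 * q + 1) Hᶜ := by ring
      _ ≤ _ := (Nat.mul_le_mul_left _ h3).trans h
      _ ≤ q * (10 * K + 3) * Nat.log 2 (2 * (11 * K + 3)) :=
        Nat.mul_le_mul_right _ (by linarith)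
      _ = _ := by ring

theorem slC_num {a b k V l m x y p0 p1 p2 : ℝ} (ha : k < a) (hab : a ≤ b) (hb : b < k + 1)
    (hl : 0 < l) (hy : 0 ≤ y) (hm : 0 ≤ m) (e : x + y = l) (hV : m + l ≤ V * l)
    (h0 : a * m ≤ p0) (h1 : p1 ≤ b * (m + x)) (h2 : a * (m + l) ≤ p2)
    (c1 : p0 + (k + 1) * x ≤ p1) (c2 : p2 ≤ p1 + k * y) :
    (a - k) * (k + 1 - b) ≤ V * (b - a) := by
  subst e
  have d : 0 ≤ b - a := by linarith
  have a1 : (k + 1 - b) * x ≤ (b - a) * (V * (x + y)) :=
    le_trans (by linarith) (mul_le_mul_of_nonneg_left (show m ≤ V * (x + y) by linarith) d)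
  have a2 : (a - k) * y ≤ (b - a) * (V * (x + y)) :=
    le_trans (by linarith) (mul_le_mul_of_nonneg_left (show m + x ≤ V * (x + y) by linarith) d)
  have a3 : 0 ≤ (b - a) * (V * (x + y)) := mul_nonneg d (by linarith)
  refine le_of_mul_le_mul_right ?_ hl
  have a4 := mul_le_mul_of_nonneg_left a1 (show 0 ≤ a - k by linarith)
  have a5 := mul_le_mul_of_nonneg_left a2 (show 0 ≤ k + 1 - b by linarith)
  have a6 := mul_nonneg a3 d
  linarith

theorem slC_ev {a b : ℝ} {k N : ℕ} (ha : k < a) (hab : a ≤ b) (hb : b < k + 1)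
    (h : ∀ n, N ≤ n → a * n ≤ pc u n ∧ pc u n ≤ b * n) :
    (a - k) * (k + 1 - b) ≤ (14 * (k + 1) * Nat.log 2 (28 * (k + 1)) : ℕ) * (b - a) := by
  obtain ⟨V, hV⟩ : ∃ V, V = (10 * (k + 1) + 3) * Nat.log 2 (2 * (11 * (k + 1) + 3)) / 2 := ⟨_, rfl⟩
  have up : ∀ n, N ≤ n → pc u n ≤ (k + 1) * n := fun n hn => by
    exact_mod_cast (h n hn).2.trans (mul_le_mul_of_nonneg_right hb.le n.cast_nonneg)
  have hN : N + 1 ≤ (V + 1) * (N + 1) := Nat.le_mul_of_pos_left _ (by omega)
  obtain ⟨L, D, hL, hD, e, hb'⟩ := slC_core (u := u) (K := k + 1) (q := (V + 1) * (N + 1))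
    (by omega) (up _ (by omega)) (up _ (by omega))
  obtain ⟨j, hj, f⟩ := slA_flat hL (4 * ((V + 1) * (N + 1))) (4 * (N + 1)) V (by
    rw [show 4 * ((V + 1) * (N + 1)) + (V + 1) * (4 * (N + 1)) = 8 * ((V + 1) * (N + 1)) by ring]
    omega)
  obtain ⟨m, hm⟩ : ∃ m, m = 4 * ((V + 1) * (N + 1)) + j * (4 * (N + 1)) := ⟨_, rfl⟩
  rw [← hm] at f
  have m1 : 4 * ((V + 1) * (N + 1)) ≤ m := hm ▸ Nat.le_add_right _ _
  have m2 : m + 4 * (N + 1) ≤ 2 * (V + 1) * (4 * (N + 1)) := by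
    linarith [Nat.mul_le_mul_right (4 * (N + 1)) hj]
  obtain ⟨x, y, e1, c1, c2⟩ := slA_conc (p := pc u) hD k m (L m) (4 * (N + 1)) fun i hi => by
    rw [e _ (by omega), le_antisymm (hL (Nat.le_add_right m i)) (f ▸ hL (by omega))]
  have key := slC_num (V := (2 * (V + 1) : ℕ)) (l := (4 * (N + 1) : ℕ)) (m := m) (x := x) (y := y)
    (p0 := pc u m) (p1 := pc u (m + x)) (p2 := pc u (m + 4 * (N + 1))) ha hab hb
    (by positivity) y.cast_nonneg m.cast_nonneg (by exact_mod_cast e1)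
    (by exact_mod_cast m2) (h m (by omega)).1 (by exact_mod_cast (h (m + x) (by omega)).2)
    (by exact_mod_cast (h (m + 4 * (N + 1)) (by omega)).1) (by exact_mod_cast c1)
    (by exact_mod_cast c2)
  refine key.trans (mul_le_mul_of_nonneg_right (Nat.cast_le.2 ?_) (by linarith))
  have l1 : Nat.log 2 (2 * (11 * (k + 1) + 3)) ≤ Nat.log 2 (28 * (k + 1)) :=
    Nat.log_mono_right (by omega)
  have l2 : 2 ≤ Nat.log 2 (28 * (k + 1)) := Nat.le_log_of_pow_le (by norm_num) (by omega)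
  have l3 := Nat.mul_le_mul_left (10 * (k + 1) + 3) l1
  have l4 : 2 * V ≤ (10 * (k + 1) + 3) * Nat.log 2 (2 * (11 * (k + 1) + 3)) := by omega
  linarith [Nat.zero_le (k * Nat.log 2 (28 * (k + 1)))]

theorem slC_main (u : ℕ → A) (C : ℝ) (hC : ∀ n : ℕ, 1 ≤ n → (pc u n : ℝ) ≤ C * n) {a b : ℝ}
    (ha : a = liminf (fun n : ℕ => (pc u n : ℝ) / n) atTop)
    (hb : b = limsup (fun n : ℕ => (pc u n : ℝ) / n) atTop) {k : ℕ} (h1 : k < a) (h2 : b < k + 1) :
    (a - k) * (k + 1 - b) ≤ 14 * (k + 1) * Real.logb 2 (28 * (k + 1)) * (b - a) := by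
  obtain ⟨b1, b2⟩ := bounds u C hC
  have hab : a ≤ b := ha ▸ hb ▸ liminf_le_limsup b1 b2
  have key : (a - k) * (k + 1 - b) ≤ (14 * (k + 1) * Nat.log 2 (28 * (k + 1)) : ℕ) * (b - a) := by
    generalize hc : ((14 * (k + 1) * Nat.log 2 (28 * (k + 1)) : ℕ) : ℝ) = c
    have t1 : Tendsto (fun e : ℝ => (a - e - k) * (k + 1 - (b + e))) (𝓝[>] 0)
        (𝓝 ((a - 0 - k) * (k + 1 - (b + 0)))) :=
      (Continuous.tendsto (by fun_prop) 0).mono_left nhdsWithin_le_nhds
    have t2 : Tendsto (fun e : ℝ => c * (b + e - (a - e))) (𝓝[>] 0) (𝓝 (c * (b + 0 - (a - 0)))) :=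
      (Continuous.tendsto (by fun_prop) 0).mono_left nhdsWithin_le_nhds
    simp only [sub_zero, add_zero] at t1 t2
    refine le_of_tendsto_of_tendsto t1 t2 ?_
    filter_upwards [Ioo_mem_nhdsGT (show (0 : ℝ) < min (a - k) (k + 1 - b) from
      lt_min (by linarith) (by linarith))] with e he
    have e1 := he.1
    have e2 := lt_min_iff.1 he.2
    obtain ⟨N, hN⟩ := eventually_atTop.1 ((eventually_lt_of_lt_liminf (show a - e < _ from
      ha ▸ by linarith) b2).and ((eventually_lt_of_limsup_lt (show _ < b + e from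
      hb ▸ by linarith) b1).and (eventually_gt_atTop 0)))
    rw [← hc]
    refine slC_ev (u := u) (N := N) (by linarith [e2.1]) (by linarith) (by linarith [e2.2])
      fun n hn => ?_
    obtain ⟨n1, n2, n3⟩ := hN n hn
    have n0 : (0 : ℝ) < n := by exact_mod_cast n3
    exact ⟨((lt_div_iff₀ n0).1 n1).le, ((div_lt_iff₀ n0).1 n2).le⟩
  refine key.trans (mul_le_mul_of_nonneg_right ?_ (by linarith))
  have := Real.natLog_le_logb (28 * (k + 1)) 2
  push_cast at this ⊢
  exact mul_le_mul_of_nonneg_left this (by positivity)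

end Pool.Agent.Lib.MP_41a716_co
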