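import Pool.Agent.Lib.MP_41a716_co.Event

set_option autoImplicit false
set_option linter.unusedSectionVars false

namespace Pool.Agent.Lib.MP_41a716_co

variable {A : Type} [Finite A] {u : ℕ → A}

def Per (u : ℕ → A) (n r q : ℕ) : Prop := 1 ≤ q ∧ ∀ k, k + q < n → u (r + k) = u (r + k + q)

theorem per_of_occ {n r o q : ℕ} (hq : 1 ≤ q) (h1 : Eqv u n o r) (h2 : Eqv u n (o + q) r) :
    Per u n r q := by
  refine ⟨hq, fun k hk => ?_⟩
  have a := h2 k (by omega)
  have b := h1 (k + q) hk
  rw [← a, add_assoc r k q, ← b]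
  congr 1; omega

theorem XE.period {N M r v : ℕ} {a : A} (h : XE u N M r a v) : Per u N r v :=
  let ⟨_, h1, h2, _⟩ := h.per
  per_of_occ h.pos h1 h2

theorem Base.initial {N M r N' M' r' : ℕ} {a a' : A} (h : Base u N M r a) (h' : Base u N' M' r' a')
    (hN : N ≤ N') : Eqv u N r' r := by
  obtain ⟨m, hm⟩ := h.lu
  obtain ⟨i, j, hi, hj, e1, e2, hne⟩ := h'.pre m
  exact (e1.mono hN).symm.trans (hm i j hi hj ((e1.trans e2.symm).mono hN) hne)

theorem x_break {N M r v N' M' r' q : ℕ} {a a' : A} (h : Base u N M r a) (hx : XE u N M r a v)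
    (h' : Base u N' M' r' a') (hN : M ≤ N') (hq : Per u N' r' q) : N < v + q := by
  by_contra hc
  obtain ⟨r'', hr⟩ := h'.rs
  obtain ⟨e, he⟩ := h.suf N' r' r'' hN hr
  have hle := h.le
  have hv := hx.pos
  have hq1 := hq.1
  obtain ⟨o, h1, h2, h3⟩ := hx.per
  apply h3
  have p := hx.period
  have a1 := hq.2 (N' - N - 1) (by omega)
  have a2 := hq.2 (N' - N - 1 + v) (by omega)
  have a3 := p.2 (q - 1) (by omega)
  have a4 := e (q - 1) (by omega)
  have a5 := e (q - 1 + v) (by omega)
  have a6 := e (v - 1) (by omega)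
  have a7 := h1 (v - 1) (by omega)
  rw [show r' + (N' - N - 1) = r' + (N' - N) - 1 by omega, he,
    show r' + (N' - N) - 1 + q = r' + (N' - N) + (q - 1) by omega] at a1
  rw [show r' + (N' - N - 1 + v) + q = r' + (N' - N) + (q - 1 + v) by omega,
    show r' + (N' - N - 1 + v) = r' + (N' - N) + (v - 1) by omega] at a2
  rw [show r + (q - 1) + v = r + (q - 1 + v) by omega] at a3
  rw [show o + v - 1 = o + (v - 1) by omega, a7, ← a6, a2, a5, ← a3, ← a4, a1]

theorem t_next {N M r t N' M' r' : ℕ} {a a' : A} (h : Base u N M r a) (ht : TE u N M r t)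
    (h' : Base u N' M' r' a') (hN : M ≤ N') : u (r' + N) ≠ u (t + N) := by
  obtain ⟨m, hm⟩ := ht.tb
  obtain ⟨i, j, hi, hj, e1, e2, hne⟩ := h'.pre m
  have hle := h.le
  have := hm i j hi hj ((e1.mono (by omega)).trans (h.initial h' (by omega)))
    ((e1.trans e2.symm).mono (by omega)) hne
  rwa [e1 N (by omega)] at this

theorem t_lt {N M r t N' M' r' o : ℕ} {a a' : A} (ha : Aper u) (h : Base u N M r a)
    (ht : TE u N M r t) (h' : Base u N' M' r' a') (hN : M ≤ N') (ho : Eqv u N' o r') : t < o := by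
  by_contra hc
  have hle := h.le
  rcases Nat.lt_or_eq_of_le (not_lt.1 hc) with h1 | h1
  · obtain ⟨r'', hr⟩ := h'.rs
    obtain ⟨j, hj, e⟩ := rec_after ha h'.nt hr ho (show o ≤ t - 1 by omega) t
    have := ht.pos
    exact ht.last j (by omega) (e.mono (by omega))
  · subst h1
    exact t_next h ht h' hN (ho N (by omega)).symm

theorem t_break {N M r t N' M' r' o q : ℕ} {a a' : A} (h : Base u N M r a) (ht : TE u N M r t)
    (h' : Base u N' M' r' a') (hN : M ≤ N') (ho : Eqv u (N + 1) o r') (hto : t < o)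
    (hq : Per u N' r' q) : N + t < o + q := by
  by_contra hc
  have hle := h.le
  have hq1 := hq.1
  apply t_next h ht h' hN
  have e : Eqv u N t r' := ht.occ.trans (h.initial h' (by omega)).symm
  have a1 := ho (N + t - o) (by omega)
  have a2 := hq.2 (N + t - o - q) (by omega)
  have a3 := ho (N + t - o - q) (by omega)
  have a4 := e (N - q) (by omega)
  have a5 := hq.2 (N - q) (by omega)
  rw [show o + (N + t - o) = t + N by omega] at a1
  rw [show r' + (N + t - o - q) + q = r' + (N + t - o) by omega] at a2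
  rw [show o + (N + t - o - q) = t + (N - q) by omega] at a3
  rw [show r' + (N - q) + q = r' + N by omega] at a5
  rw [← a5, ← a4, a3, a2, a1]

theorem ic_le (ha : Aper u) {n m : ℕ} (h : n ≤ m) : ic u n + m ≤ ic u m + n := by
  have := ic_add ha n (m - n)
  rw [show n + (m - n) = m by omega] at this
  omega

theorem xgain {N M r v : ℕ} {a : A} (ha : Aper u) (h : XE u N M r a v) :
    ic u N + v + M ≤ ic u M + N := by
  have h1 := h.ic
  have h2 := ic_le ha (show N + 1 + v ≤ M by have := h.lt; omega)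
  have h3 := ic_succ ha N
  omega

theorem triple {N1 M1 N2 M2 N3 M3 : ℕ} (ha : Aper u)
    (a1 : ¬ Two u N1) (b1 : Two u (N1 + 1)) (c1 : ¬ Two u M1) (d1 : N1 < M1)
    (a2 : ¬ Two u N2) (b2 : Two u (N2 + 1)) (c2 : ¬ Two u M2) (d2 : N2 < M2)
    (a3 : ¬ Two u N3) (b3 : Two u (N3 + 1)) (c3 : ¬ Two u M3) (d3 : N3 < M3)
    (h12 : M1 ≤ N2) (h23 : M2 ≤ N3) : N1 + M3 < pc u M3 := by
  obtain ⟨r1, x1, B1, E1⟩ := event ha a1 b1 c1 d1
  obtain ⟨r2, x2, B2, E2⟩ := event ha a2 b2 c2 d2
  obtain ⟨r3, x3, B3, E3⟩ := event ha a3 b3 c3 d3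
  have i0 := ic_le ha (Nat.zero_le N1)
  have i1 := ic_le ha d1.le
  have i12 := ic_le ha h12
  have i2 := ic_le ha d2.le
  have i23 := ic_le ha h23
  have i3 := ic_le ha d3.le
  have f23 := fc_mono (u := u) (show M2 ≤ M3 by omega)
  have l1 := B1.le
  have l2 := B2.le
  have p23 : Eqv u N2 r3 r2 := B2.initial B3 (by omega)
  rw [pc_eq]
  rcases E1 with ⟨v1, X1⟩ | ⟨t1, T1⟩
  · have g1 := xgain ha X1
    rcases E2 with ⟨v2, X2⟩ | ⟨t2, T2⟩
    · have g2 := xgain ha X2
      have := x_break B1 X1 B2 h12 X2.period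
      omega
    · rcases E3 with ⟨v3, X3⟩ | ⟨t3, T3⟩
      · have g3 := xgain ha X3
        have := x_break B1 X1 B3 (by omega) X3.period
        omega
      · have lt := t_lt ha B2 T2 B3 h23 T3.occ
        have P : Per u N2 r2 (t3 - t2) := per_of_occ (o := t2) (by omega) T2.occ (by
          rw [show t2 + (t3 - t2) = t3 by omega]
          exact (T3.occ.mono (by omega)).trans p23)
        have := x_break B1 X1 B2 h12 P
        have := T3.fc
        omega
  · rcases E2 with ⟨v2, X2⟩ | ⟨t2, T2⟩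
    · have g2 := xgain ha X2
      rcases E3 with ⟨v3, X3⟩ | ⟨t3, T3⟩
      · have g3 := xgain ha X3
        have := x_break B2 X2 B3 h23 X3.period
        omega
      · have lt := t_lt ha B1 T1 B3 (by omega) T3.occ
        have := t_break B1 T1 B2 h12 (((T3.occ.mono (by omega)).trans p23).mono (by omega)) lt
          X2.period
        have := T3.fc
        omega
    · have lt := t_lt ha B1 T1 B2 h12 T2.occ
      rcases E3 with ⟨v3, X3⟩ | ⟨t3, T3⟩
      · have g3 := xgain ha X3
        have := t_break B1 T1 B3 (by omega) ((T2.occ.trans p23.symm).mono (by omega)) lt X3.period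
        have := T2.fc
        omega
      · have lt' := t_lt ha B2 T2 B3 h23 T3.occ
        have P : Per u N2 r2 (t3 - t2) := per_of_occ (o := t2) (by omega) T2.occ (by
          rw [show t2 + (t3 - t2) = t3 by omega]
          exact (T3.occ.mono (by omega)).trans p23)
        have := t_break B1 T1 B2 h12 (T2.occ.mono (by omega)) lt P
        have := T3.fc
        omega

end Pool.Agent.Lib.MP_41a716_co
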