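import Pool.Agent.Lib.MP_41a716_co.Runs

set_option autoImplicit false
set_option linter.unusedSectionVars false

namespace Pool.Agent.Lib.MP_41a716_co

def sig (A : ℕ) (b : Bool) : List Bool :=
  List.replicate A false ++ [true] ++ (if b then [] else [false])

def phi (A : ℕ) : ℕ → Bool → List Bool
  | 0, b => [b]
  | i + 1, b => (sig A b).flatMap (phi A i)

def rp (k : ℕ) (P : List Bool) : List Bool := (List.replicate k P).flatten

theorem rp_succ (k : ℕ) (P : List Bool) : rp (k + 1) P = P ++ rp k P := by
  simp [rp, List.replicate_succ]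

theorem rp_comm (k : ℕ) (P : List Bool) : P ++ rp k P = rp k P ++ P := by
  induction k with
  | zero => simp [rp]
  | succ k ih => rw [rp_succ, List.append_assoc, ← ih]

theorem rp_length (k : ℕ) (P : List Bool) : (rp k P).length = k * P.length := by
  simp [rp]

theorem phi_succ (A i : ℕ) (b : Bool) :
    phi A (i + 1) b = rp A (phi A i false) ++ phi A i true ++
      (if b then [] else phi A i false) := by
  have : (List.replicate A false).flatMap (phi A i) = rp A (phi A i false) := by
    simp [rp, List.flatMap_replicate]
  cases b <;> simp [phi, sig, List.flatMap_append, this]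

theorem phi_add (A i l : ℕ) (b : Bool) : phi A (i + l) b = (phi A l b).flatMap (phi A i) := by
  induction l generalizing b with
  | zero => simp [phi]
  | succ l ih =>
    rw [← add_assoc]
    simp only [phi, List.flatMap_assoc]
    congr 1
    funext c
    exact ih c

def hl (A i : ℕ) : ℕ := (phi A i false).length
def ql (A i : ℕ) : ℕ := (phi A i true).length

theorem hl_succ (A i : ℕ) : hl A (i + 1) = (A + 1) * hl A i + ql A i := by
  simp [hl, ql, phi_succ, rp_length]; ring

theorem ql_succ (A i : ℕ) : ql A (i + 1) = A * hl A i + ql A i := by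
  simp [hl, ql, phi_succ, rp_length]

theorem ql_pos (A i : ℕ) : 1 ≤ ql A i := by
  induction i with
  | zero => simp [ql, phi]
  | succ i ih => rw [ql_succ]; omega

theorem ql_le (A i : ℕ) : ql A i ≤ hl A i := by
  cases i with
  | zero => simp [ql, hl, phi]
  | succ i => rw [ql_succ, hl_succ, add_mul]; omega

theorem hl_pos (A i : ℕ) : 1 ≤ hl A i := (ql_pos A i).trans (ql_le A i)

def Wd (A : ℕ) : ℕ → List Bool
  | 0 => []
  | m + 1 => Wd A m ++ phi A m false

def tl (A m : ℕ) : ℕ := (Wd A m).length

theorem tl_succ (A m : ℕ) : tl A (m + 1) = tl A m + hl A m := by simp [tl, hl, Wd]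

theorem le_tl (A m : ℕ) : m ≤ tl A m := by
  induction m with
  | zero => simp
  | succ m ih => have := hl_pos A m; rw [tl_succ]; omega

theorem Wd_add (A i m : ℕ) : Wd A (i + m) = Wd A i ++ (Wd A m).flatMap (phi A i) := by
  induction m with
  | zero => simp [Wd]
  | succ m ih => rw [← add_assoc]; simp [Wd, ih, phi_add, List.flatMap_append]

def wd (A n : ℕ) : Bool := ((Wd A (n + 1))[n]?).getD false

theorem Wd_get (A m n : ℕ) (h : n < tl A m) : (Wd A m)[n]? = some (wd A n) := by
  have h1 : n < tl A (n + 1) := by have := le_tl A (n + 1); omega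
  have a : (Wd A (m + (n + 1)))[n]? = (Wd A m)[n]? := by
    rw [Wd_add, List.getElem?_append_left h]
  have b : (Wd A (m + (n + 1)))[n]? = (Wd A (n + 1))[n]? := by
    rw [add_comm m, Wd_add A (n + 1) m, List.getElem?_append_left h1]
  rw [← a, b, wd, List.getElem?_eq_getElem h1]
  simp

theorem Wd_eq (A m : ℕ) : Wd A m = (List.range (tl A m)).map (wd A) := by
  apply List.ext_getElem?
  intro n
  by_cases h : n < tl A m
  · rw [Wd_get A m n h]; simp [h]
  · rw [List.getElem?_eq_none (by unfold tl at h; omega), List.getElem?_eq_none (by simp; omega)]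

def Agree (y : ℕ → Bool) (p : ℕ) (L : List Bool) : Prop :=
  ∀ r, r < L.length → L[r]? = some (y (p + r))

theorem agree_append {y : ℕ → Bool} {p : ℕ} {L L' : List Bool} :
    Agree y p (L ++ L') ↔ Agree y p L ∧ Agree y (p + L.length) L' := by
  constructor
  · intro h
    refine ⟨fun r hr => ?_, fun r hr => ?_⟩
    · rw [← h r (by simp; omega), List.getElem?_append_left hr]
    · rw [add_assoc, ← h (L.length + r) (by simp; omega), List.getElem?_append_right (by omega)]
      simp
  · rintro ⟨h1, h2⟩ r hr
    by_cases h : r < L.length
    · rw [List.getElem?_append_left h, h1 r h]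
    · rw [List.getElem?_append_right (by omega), h2 (r - L.length) (by simp at hr; omega)]
      congr 2; omega

theorem agree_Wd (A m : ℕ) : Agree (wd A) 0 (Wd A m) := fun r hr => by
  rw [zero_add]; exact Wd_get A m r hr

def pos (A i k : ℕ) : ℕ := (((List.range k).map (wd A)).flatMap (phi A i)).length

theorem pos_zero (A i : ℕ) : pos A i 0 = 0 := by simp [pos]

theorem pos_succ (A i k : ℕ) : pos A i (k + 1) = pos A i k + (phi A i (wd A k)).length := by
  simp [pos, List.range_succ, List.flatMap_append]

theorem agree_block (A i k : ℕ) : Agree (wd A) (tl A i + pos A i k) (phi A i (wd A k)) := by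
  have h := agree_Wd A (i + (k + 1))
  obtain ⟨j, hj⟩ : ∃ j, tl A (k + 1) = k + 1 + j := ⟨tl A (k + 1) - (k + 1), by
    have := le_tl A (k + 1); omega⟩
  rw [Wd_add, Wd_eq A (k + 1), hj, List.range_add, List.range_succ] at h
  simp only [List.map_append, List.flatMap_append, List.map_cons, List.map_nil,
    List.flatMap_cons, List.flatMap_nil, List.append_nil] at h
  have := (agree_append.1 (agree_append.1 (agree_append.1 h).2).1).2
  simpa [tl, pos] using this

theorem agree_P (A i : ℕ) : Agree (wd A) (tl A i) (phi A i false) := by
  have := (agree_append.1 (agree_Wd A (i + 1))).2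
  simpa [tl] using this

theorem swap (A i : ℕ) : ∃ Z x y : List Bool, x.length = 2 ∧ y.length = 2 ∧
    phi A i false ++ phi A i true = Z ++ x ∧ phi A i true ++ phi A i false = Z ++ y := by
  induction i with
  | zero => exact ⟨[], [false, true], [true, false], rfl, rfl, rfl, rfl⟩
  | succ i ih =>
    obtain ⟨Z, x, y, hx, hy, h1, h2⟩ := ih
    refine ⟨phi A (i + 1) true ++ rp A (phi A i false) ++ Z, x, y, hx, hy, ?_, ?_⟩
    · simp only [phi_succ, List.append_assoc, if_true, List.append_nil, ← h1]
      simp only [Bool.false_eq_true, if_false]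
      rw [← List.append_assoc (phi A i false) (rp A _), rp_comm, List.append_assoc]
    · simp only [phi_succ, List.append_assoc, if_true, List.append_nil, ← h2]
      simp only [Bool.false_eq_true, if_false]

theorem last_P (A i : ℕ) : (phi A i false)[hl A i - 1]? = some false := by
  induction i with
  | zero => simp [phi, hl]
  | succ i ih =>
    have := hl_pos A i
    rw [phi_succ, List.getElem?_append_right (by
      simp [rp_length, hl_succ, add_mul]; unfold hl ql at *; omega), ← ih]
    simp only [Bool.false_eq_true, if_false]
    congr 1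
    simp [rp_length, hl_succ, add_mul]; unfold hl ql at *; omega

theorem last_Q (A i : ℕ) : (phi A i true)[ql A i - 1]? = some true := by
  induction i with
  | zero => simp [phi, ql]
  | succ i ih =>
    have := ql_pos A i
    rw [phi_succ]
    simp only [if_true, List.append_nil]
    rw [List.getElem?_append_right (by
      simp [rp_length, ql_succ]; unfold hl ql at *; omega), ← ih]
    congr 1
    simp [rp_length, ql_succ]; unfold hl ql at *; omega

def pw (A i r : ℕ) : Bool := ((phi A i false)[r % hl A i]?).getD false

theorem pw_per (A i r : ℕ) : pw A i (r + hl A i) = pw A i r := by simp [pw]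

theorem pw_lt (A i r : ℕ) (h : r < hl A i) : (phi A i false)[r]? = some (pw A i r) := by
  rw [pw, Nat.mod_eq_of_lt h, List.getElem?_eq_getElem h]; simp

theorem agree_pw_rp (A i k : ℕ) : Agree (pw A i) 0 (rp k (phi A i false)) := by
  induction k with
  | zero => intro r hr; simp [rp] at hr
  | succ k ih =>
    rw [rp_succ, agree_append]
    refine ⟨fun r hr => by rw [zero_add]; exact pw_lt A i r hr, fun r hr => ?_⟩
    rw [ih r hr, zero_add, zero_add, add_comm _ r]
    exact congrArg some (pw_per A i r).symm

theorem run_get (A i k r : ℕ) (hr : r + 2 < k * hl A (i + 1) + ql A (i + 1) + hl A (i + 1)) :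
    (rp k (phi A (i + 1) false) ++ phi A (i + 1) true ++ phi A (i + 1) false)[r]? =
      some (pw A (i + 1) r) := by
  rw [List.append_assoc]
  by_cases h : r < k * hl A (i + 1)
  · rw [List.getElem?_append_left (by rw [rp_length]; exact h),
      agree_pw_rp A (i + 1) k r (by rw [rp_length]; exact h), zero_add]
  · rw [List.getElem?_append_right (by rw [rp_length]; unfold hl at h; omega), rp_length]
    obtain ⟨Z, x, y, hx, hy, h1, h2⟩ := swap A (i + 1)
    have hZ : Z.length + 2 = hl A (i + 1) + ql A (i + 1) := by
      have := congrArg List.length h1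
      simp only [List.length_append, hx] at this
      unfold hl ql; omega
    obtain ⟨r', rfl⟩ : ∃ r', r = r' + k * hl A (i + 1) := ⟨r - k * hl A (i + 1), by omega⟩
    rw [per_mul (pw_per A (i + 1)), show r' + k * hl A (i + 1) - k * (phi A (i + 1) false).length
      = r' by unfold hl; omega, h2, List.getElem?_append_left (by omega),
      ← List.getElem?_append_left (l₂ := x) (by omega), ← h1]
    by_cases h' : r' < hl A (i + 1)
    · rw [List.getElem?_append_left h', pw_lt A (i + 1) r' h']
    · have hq := ql_le A (i + 1)
      obtain ⟨r2, rfl⟩ : ∃ r2, r' = r2 + hl A (i + 1) := ⟨r' - hl A (i + 1), by omega⟩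
      rw [List.getElem?_append_right (by unfold hl; omega), pw_per,
        ← pw_lt A (i + 1) r2 (by omega), show r2 + hl A (i + 1) - (phi A (i + 1) false).length
        = r2 by unfold hl; omega]
      have e : phi A (i + 1) false = phi A (i + 1) true ++ phi A i false := by
        simp [phi_succ]
      rw [e, List.getElem?_append_left (by unfold ql at *; omega)]

end Pool.Agent.Lib.MP_41a716_co
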